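import Mathlib

/-!
# ZC: rising sun, and row operations
-/

namespace Pool.Agent.ZC

open Finset

/-- If the set `P` has at most `s / (2T)` elements in `[1, s]` then some `a ≤ s` satisfies
`T * #(P ∩ [c, a]) ≤ a - c + 1` for all `1 ≤ c ≤ a`, and `s + 2T #(P ∩ [1, a]) ≤ 2a`. -/
theorem rising_sun_nat (P : ℕ → Prop) [DecidablePred P] (s T : ℕ)
    (h : 2 * (T * ((Finset.Icc 1 s).filter P).card) ≤ s) :
    ∃ a ≤ s, (∀ c, 1 ≤ c → c ≤ a → T * ((Finset.Icc c a).filter P).card ≤ a - c + 1) ∧
      s + 2 * (T * ((Finset.Icc 1 a).filter P).card) ≤ 2 * a := by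
  obtain ⟨a, ha, hmax⟩ := Finset.exists_max_image (Finset.range (s + 1))
    (fun x => (x : ℤ) - T * ((Finset.Icc 1 x).filter P).card) ⟨0, by simp⟩
  rw [Finset.mem_range] at ha
  refine ⟨a, by omega, ?_, ?_⟩
  · intro c hc1 hca
    have h1 := hmax (c - 1) (Finset.mem_range.2 (by omega))
    have h2 : ((Finset.Icc 1 a).filter P).card =
        ((Finset.Icc 1 (c - 1)).filter P).card + ((Finset.Icc c a).filter P).card := by
      rw [← Finset.card_union_of_disjoint]
      · congr 1
        ext x
        simp only [Finset.mem_filter, Finset.mem_Icc, Finset.mem_union]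
        constructor
        · rintro ⟨⟨h1, h2⟩, h3⟩
          by_cases hx : x ≤ c - 1
          · exact Or.inl ⟨⟨h1, hx⟩, h3⟩
          · exact Or.inr ⟨⟨by omega, h2⟩, h3⟩
        · rintro (⟨⟨h1, h2⟩, h3⟩ | ⟨⟨h1, h2⟩, h3⟩)
          · exact ⟨⟨h1, by omega⟩, h3⟩
          · exact ⟨⟨by omega, h2⟩, h3⟩
      · rw [Finset.disjoint_left]
        intro x hx hx'
        simp only [Finset.mem_filter, Finset.mem_Icc] at hx hx'
        omega
    rw [h2] at h1
    push_cast at h1
    have h3 : ((c - 1 : ℕ) : ℤ) = c - 1 := by omega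
    have h4 : ((a - c + 1 : ℕ) : ℤ) = a - c + 1 := by omega
    have h5 : ((T * ((Finset.Icc c a).filter P).card : ℕ) : ℤ) ≤ ((a - c + 1 : ℕ) : ℤ) := by
      rw [h4]; push_cast
      rw [h3] at h1
      linarith
    exact_mod_cast h5
  · have h1 := hmax s (Finset.mem_range.2 (by omega))
    have h2 : ((2 * (T * ((Finset.Icc 1 s).filter P).card) : ℕ) : ℤ) ≤ s := by exact_mod_cast h
    push_cast at h2
    have h3 : ((s + 2 * (T * ((Finset.Icc 1 a).filter P).card) : ℕ) : ℤ) ≤ ((2 * a : ℕ) : ℤ) := by
      push_cast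
      linarith
    exact_mod_cast h3

/-- Adding to the rows in `S` combinations of the rows outside `S` does not change the determinant. -/
theorem det_row_ops {ι R : Type*} [Fintype ι] [DecidableEq ι] [CommRing R] (M M' : Matrix ι ι R)
    (S : Finset ι) (c : ι → ι → R) (h1 : ∀ i, i ∉ S → ∀ j, M' i j = M i j)
    (h2 : ∀ i ∈ S, ∀ j, M' i j = M i j + ∑ k ∈ Sᶜ, c i k * M k j) : M'.det = M.det := by
  set U : Matrix ι ι R := Matrix.of fun i j => (if i = j then 1 else 0) + (if i ∈ S ∧ j ∉ S then c i j else 0)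
    with hU
  have hM : M' = U * M := by
    ext i j
    rw [Matrix.mul_apply]
    simp only [hU, Matrix.of_apply, add_mul, Finset.sum_add_distrib, ite_mul, one_mul, zero_mul,
      Finset.sum_ite_eq, Finset.mem_univ, if_true]
    by_cases hi : i ∈ S
    · rw [h2 i hi j]
      congr 1
      simp only [hi, true_and]
      rw [← Finset.sum_filter]
      refine Finset.sum_congr ?_ fun _ _ => rfl
      ext k
      simp
    · rw [h1 i hi j]
      simp [hi]
  have hdU : U.det = 1 := by
    rw [Matrix.twoBlockTriangular_det U (fun i => i ∈ S)]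
    · have e1 : U.toSquareBlockProp (fun i => i ∈ S) = 1 := by
        ext i j
        have hi := i.2
        have hj := j.2
        simp only [Matrix.toSquareBlockProp_def, Matrix.of_apply, hU, Matrix.one_apply, Subtype.ext_iff]
        simp [hj]
      have e2 : U.toSquareBlockProp (fun i => ¬ i ∈ S) = 1 := by
        ext i j
        have hi := i.2
        simp only [Matrix.toSquareBlockProp_def, Matrix.of_apply, hU, Matrix.one_apply, Subtype.ext_iff]
        simp [hi]
      rw [e1, e2]
      simp
    · intro i hi j hj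
      have hij : i ≠ j := fun h0 => hi (h0 ▸ hj)
      simp [hU, hi, hij]
  rw [hM, Matrix.det_mul, hdU, one_mul]

end Pool.Agent.ZC
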