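import Pool.Agent.ZC.Defs

/-!
# ZC: bound for the entries of the `T` and `rho` rows (`bd_Cn`)

Coefficientwise domination by polynomials with non-negative coefficients.
-/

namespace Pool.Agent.ZC

open Finset

/-- coefficientwise domination -/
def BDom (f : PowerSeries ℝ) (g : Polynomial ℝ) : Prop :=
  ∀ r, |PowerSeries.coeff r f| ≤ g.coeff r

theorem BDom.nonneg {f : PowerSeries ℝ} {g : Polynomial ℝ} (h : BDom f g) (r : ℕ) :
    0 ≤ g.coeff r := (abs_nonneg _).trans (h r)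

theorem BDom.mul {f1 f2 : PowerSeries ℝ} {g1 g2 : Polynomial ℝ} (h1 : BDom f1 g1)
    (h2 : BDom f2 g2) : BDom (f1 * f2) (g1 * g2) := by
  intro r
  rw [PowerSeries.coeff_mul, Polynomial.coeff_mul]
  refine (abs_sum_le_sum_abs _ _).trans (sum_le_sum fun x _ => ?_)
  rw [abs_mul]
  exact mul_le_mul (h1 _) (h2 _) (abs_nonneg _) (h1.nonneg _)

theorem BDom.one : BDom 1 1 := by
  intro r
  rw [PowerSeries.coeff_one, Polynomial.coeff_one]
  split_ifs <;> simp

theorem BDom.prod {ι : Type*} (s : Finset ι) {f : ι → PowerSeries ℝ} {g : ι → Polynomial ℝ}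
    (h : ∀ i ∈ s, BDom (f i) (g i)) : BDom (∏ i ∈ s, f i) (∏ i ∈ s, g i) := by
  classical
  induction s using Finset.induction_on with
  | empty => simpa using BDom.one
  | insert a s ha ih =>
    rw [prod_insert ha, prod_insert ha]
    exact (h a (mem_insert_self _ _)).mul (ih fun i hi => h i (mem_insert_of_mem hi))

theorem BDom.pow {f : PowerSeries ℝ} {g : Polynomial ℝ} (h : BDom f g) (n : ℕ) :
    BDom (f ^ n) (g ^ n) := by
  induction n with
  | zero => simpa using BDom.one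
  | succ n ih => rw [pow_succ, pow_succ]; exact ih.mul h

theorem BDom.coeff_le {f : PowerSeries ℝ} {g : Polynomial ℝ} (h : BDom f g) (r : ℕ) :
    |PowerSeries.coeff r f| ≤ g.eval 1 := by
  refine (h r).trans ?_
  rw [Polynomial.eval_eq_sum_range]
  simp only [one_pow, mul_one]
  rcases Nat.lt_or_ge g.natDegree r with h1 | h1
  · rw [Polynomial.coeff_eq_zero_of_natDegree_lt h1]
    exact sum_nonneg fun i _ => h.nonneg i
  · exact single_le_sum (f := fun i => g.coeff i) (fun i _ => h.nonneg i)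
      (mem_range.2 (by omega))

theorem BDom.lin (u : ℝ) : BDom (PowerSeries.C u + PowerSeries.C (2 : ℝ) * PowerSeries.X)
    (Polynomial.C |u| + Polynomial.C (2 : ℝ) * Polynomial.X) := by
  intro r
  rcases r with _ | r
  · simp
  rcases r with _ | r
  · simp [PowerSeries.coeff_C, Polynomial.coeff_C, PowerSeries.coeff_succ_mul_X]
  · rw [map_add, PowerSeries.coeff_succ_mul_X, PowerSeries.coeff_C, PowerSeries.coeff_C,
      Polynomial.coeff_add, Polynomial.coeff_mul_X, Polynomial.coeff_C, Polynomial.coeff_C]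
    simp

theorem yl_dom (p l : ℕ) : BDom (yl ℝ p l)
    ((Polynomial.C |2 * (p : ℝ) - 1 - 2 * (l : ℝ)| + Polynomial.C (2 : ℝ) * Polynomial.X) ^ 2) :=
  (BDom.lin _).pow 2

/-- `|coeff r (y^m)| ≤ (2p+1)^(2m)` -/
theorem yl_pow_le (p l : ℕ) (hl : l < p) (m r : ℕ) :
    |PowerSeries.coeff r (yl ℝ p l ^ m)| ≤ (2 * (p : ℝ) + 1) ^ (2 * m) := by
  refine (((yl_dom p l).pow m).coeff_le r).trans ?_
  have h1 : (l : ℝ) + 1 ≤ p := by exact_mod_cast hl
  have h0 : (0 : ℝ) ≤ l := by positivity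
  rw [abs_of_nonneg (by linarith)]
  simp only [Polynomial.eval_pow, Polynomial.eval_add, Polynomial.eval_C, Polynomial.eval_mul,
    Polynomial.eval_X, mul_one]
  rw [← pow_mul]
  apply pow_le_pow_left₀ (by linarith)
  linarith

theorem ev_Cp (p l j : ℕ) : ev ℝ p l (Cp ℝ j) =
    ∏ k ∈ range j, ((PowerSeries.C ((2 * (p : ℝ) - 1 - 2 * (l : ℝ)) - (2 * (k : ℝ) + 1)) +
        PowerSeries.C (2 : ℝ) * PowerSeries.X) *
      (PowerSeries.C ((2 * (p : ℝ) - 1 - 2 * (l : ℝ)) + (2 * (k : ℝ) + 1)) +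
        PowerSeries.C (2 : ℝ) * PowerSeries.X)) := by
  rw [ev, Cp, map_prod]
  refine prod_congr rfl fun k _ => ?_
  rw [map_sub, Polynomial.aeval_X, Polynomial.aeval_C]
  have h : (algebraMap ℝ (PowerSeries ℝ)) ((2 * (k : ℝ) + 1) ^ 2) =
      (PowerSeries.C (2 * (k : ℝ) + 1)) ^ 2 := by
    rw [← map_pow]; rfl
  rw [h, yl]
  simp only [map_sub, map_add]
  ring

theorem bd_Cp (p l n j : ℕ) (hl : l < p) (hn : 4 * p ≤ n) (hj : j ≤ n) (r : ℕ) :
    |PowerSeries.coeff r (ev ℝ p l (Cp ℝ j))| ≤ (2 * (n : ℝ) + 1) ^ (2 * j) := by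
  rw [ev_Cp]
  refine ((BDom.prod (range j) fun k _ => (BDom.lin _).mul (BDom.lin _)).coeff_le r).trans ?_
  rw [Polynomial.eval_prod, mul_comm 2 j, pow_mul']
  have h1 : (l : ℝ) + 1 ≤ p := by exact_mod_cast hl
  have h0 : (0 : ℝ) ≤ l := by positivity
  have h2 : 4 * (p : ℝ) ≤ n := by exact_mod_cast hn
  have h3 : ∏ k ∈ range j, ((2 * (n : ℝ) + 1) ^ 2) = ((2 * (n : ℝ) + 1) ^ 2) ^ j := by
    simp
  rw [← h3]
  apply prod_le_prod
  · intro k _
    simp only [Polynomial.eval_mul, Polynomial.eval_add, Polynomial.eval_C, Polynomial.eval_X,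
      mul_one]
    positivity
  · intro k hk
    have hk1 : (k : ℝ) + 1 ≤ n := by
      have : k + 1 ≤ n := by have := mem_range.1 hk; omega
      exact_mod_cast this
    have hk0 : (0 : ℝ) ≤ k := by positivity
    simp only [Polynomial.eval_mul, Polynomial.eval_add, Polynomial.eval_C, Polynomial.eval_X,
      mul_one]
    rw [abs_of_nonneg (a := 2 * (p : ℝ) - 1 - 2 * (l : ℝ) + (2 * (k : ℝ) + 1)) (by linarith)]
    rcases abs_cases (2 * (p : ℝ) - 1 - 2 * (l : ℝ) - (2 * (k : ℝ) + 1)) with ⟨h4, _⟩ | ⟨h4, _⟩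
    · rw [h4]
      nlinarith
    · rw [h4]
      nlinarith

theorem ev_C_mul (p l : ℕ) (c : ℝ) (f : Polynomial ℝ) :
    ev ℝ p l (Polynomial.C c * f) = PowerSeries.C c * ev ℝ p l f := by
  rw [ev, map_mul, Polynomial.aeval_C]; rfl

/-- entries of the `T` and `rho` rows -/
theorem bd_Cn (a M B p : ℕ) (ha : 1 ≤ a) (hB : 1 ≤ B) (hp : 1 ≤ p) (hM : 0 < M)
    (hMa : 4 * B * p ≤ a * M) (l : ℕ) (hl : l < p) (j : ℕ) (hj : j ≤ 4 * B * p) (r : ℕ) :
    |PowerSeries.coeff r (ev ℝ p l (Cn ℝ M j))| ≤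
      (10 * (a : ℝ) ^ 2) ^ (4 * B * p) * Real.exp M := by
  set n := 4 * B * p with hn
  have hn4 : 4 * p ≤ n := by
    rw [hn]; nlinarith
  have h1 := bd_Cp p l n j hl hn4 hj r
  rw [Cn, ev_C_mul, PowerSeries.coeff_C_mul, abs_mul]
  have hb : (0 : ℝ) < ((4 ^ j * bf M (2 * j) : ℕ) : ℝ) := by
    exact_mod_cast Nat.mul_pos (by positivity) (bf_pos _ _)
  rw [abs_of_pos (inv_pos.2 hb), inv_mul_le_iff₀ hb]
  refine h1.trans ?_
  have h2 := le_bf hM (2 * j)
  have hnR : (4 : ℝ) ≤ n := by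
    have : 4 ≤ n := by omega
    exact_mod_cast this
  have hMR : (0 : ℝ) < M := by exact_mod_cast hM
  have haR : (1 : ℝ) ≤ a := by exact_mod_cast ha
  have hMaR : (n : ℝ) ≤ a * M := by exact_mod_cast hMa
  -- `4^j bf ≥ (2M)^(2j) e^(-2j-M)`
  have h3 : (2 * (M : ℝ)) ^ (2 * j) * Real.exp (-(2 * j + M)) ≤
      ((4 ^ j * bf M (2 * j) : ℕ) : ℝ) := by
    push_cast at h2 ⊢
    rw [mul_pow, pow_mul, mul_assoc]
    have : ((2 : ℝ) ^ 2) ^ j = 4 ^ j := by norm_num
    rw [this]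
    exact mul_le_mul_of_nonneg_left h2 (by positivity)
  have h4 : (2 * (n : ℝ) + 1) ^ (2 * j) ≤
      ((2 * (M : ℝ)) ^ (2 * j) * Real.exp (-(2 * j + M))) *
        ((10 * (a : ℝ) ^ 2) ^ n * Real.exp M) := by
    have e1 : Real.exp (-(2 * (j : ℝ) + M)) * Real.exp M = (Real.exp (-1)) ^ (2 * j) := by
      rw [← Real.exp_add, ← Real.exp_nat_mul]
      congr 1; push_cast; ring
    have e2 : (2 * (M : ℝ)) ^ (2 * j) * Real.exp (-(2 * j + M)) *
        ((10 * (a : ℝ) ^ 2) ^ n * Real.exp M) =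
        (2 * (M : ℝ) * Real.exp (-1)) ^ (2 * j) * (10 * (a : ℝ) ^ 2) ^ n := by
      rw [mul_pow (2 * (M : ℝ)) (Real.exp (-1)), ← e1]; ring
    rw [e2]
    have e3 : (10 * (a : ℝ) ^ 2) ^ j ≤ (10 * (a : ℝ) ^ 2) ^ n :=
      pow_le_pow_right₀ (by nlinarith) hj
    refine le_trans ?_ (mul_le_mul_of_nonneg_left e3 (by positivity))
    rw [pow_mul, pow_mul, ← mul_pow]
    apply pow_le_pow_left₀ (by positivity)
    have e4 : (1 : ℝ) / 2.7182818286 ≤ Real.exp (-1) := by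
      rw [Real.exp_neg, one_div]
      exact inv_anti₀ (Real.exp_pos _) Real.exp_one_lt_d9.le
    have e5 : (2 * (n : ℝ) + 1) ^ 2 ≤ (2 * (a * M) * (1 / 2.7182818286)) ^ 2 * 10 := by
      have : (2 * (n : ℝ) + 1) ^ 2 ≤ (2 * (n : ℝ) * (9 / 8)) ^ 2 := by
        apply pow_le_pow_left₀ (by positivity)
        linarith
      refine this.trans ?_
      have e6 : (2 * (n : ℝ) * (9 / 8)) ^ 2 ≤ (2 * (a * M) * (9 / 8)) ^ 2 := by
        apply pow_le_pow_left₀ (by positivity)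
        nlinarith
      refine e6.trans ?_
      have e7 : (0 : ℝ) ≤ (2 * ((a : ℝ) * M)) ^ 2 := by positivity
      have e8 : (2 * ((a : ℝ) * M) * (9 / 8)) ^ 2 = (2 * ((a : ℝ) * M)) ^ 2 * (81 / 64) := by ring
      have e9 : (2 * ((a : ℝ) * M) * (1 / 2.7182818286)) ^ 2 * 10 =
          (2 * ((a : ℝ) * M)) ^ 2 * (10 / 2.7182818286 ^ 2) := by ring
      rw [e8, e9]
      apply mul_le_mul_of_nonneg_left _ e7
      norm_num
    refine e5.trans ?_
    have e10 : (2 * (M : ℝ) * Real.exp (-1)) ^ 2 * (10 * (a : ℝ) ^ 2) =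
        (2 * (a * M) * Real.exp (-1)) ^ 2 * 10 := by ring
    rw [e10]
    apply mul_le_mul_of_nonneg_right _ (by norm_num)
    apply pow_le_pow_left₀ (by positivity)
    exact mul_le_mul_of_nonneg_left e4 (by positivity)
  refine h4.trans ?_
  exact mul_le_mul_of_nonneg_right h3 (by positivity)

end Pool.Agent.ZC
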