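import Pool.Agent.ZC.BDC

/-!
# ZC: bound for the terms of the `F` rows (`bd_gam`) and the roots of the multiplier (`an_root`)
-/

namespace Pool.Agent.ZC

open Finset

theorem an_eval (M p b : ℕ) (Y : ℝ) : (An ℝ M p b).eval Y =
    (((4 ^ (2 * b * p) * bf M (4 * b * p) : ℕ) : ℝ))⁻¹ *
      ∏ k ∈ range (2 * b * p), ((b : ℝ) ^ 2 * Y - (2 * (k : ℝ) + 1) ^ 2) := by
  rw [An, Cp, Polynomial.eval_mul, Polynomial.eval_C, Polynomial.eval_comp,
    Polynomial.eval_prod]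
  simp

theorem cn_eval (M j : ℕ) (Y : ℝ) : (Cn ℝ M j).eval Y =
    (((4 ^ j * bf M (2 * j) : ℕ) : ℝ))⁻¹ *
      ∏ k ∈ range j, (Y - (2 * (k : ℝ) + 1) ^ 2) := by
  rw [Cn, Cp, Polynomial.eval_mul, Polynomial.eval_C, Polynomial.eval_prod]
  simp

/-- all nodes `< 4p` are roots -/
theorem an_root (M p b k : ℕ) (hp : 1 ≤ p) (hb : Odd b) (hk : 1 ≤ k) (h : nd p b k < 4 * p) :
    (An ℝ M p b).eval (nd p b k ^ 2) = 0 := by
  obtain ⟨c, hc⟩ := hb
  have hb0 : (0 : ℝ) < b := by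
    have : 0 < b := by omega
    exact_mod_cast this
  obtain ⟨q, rfl⟩ := Nat.exists_eq_add_of_le hp
  have hbs : (b : ℝ) * nd (1 + q) b k = 2 * ((k + b * q + c : ℕ) : ℝ) + 1 := by
    rw [nd, mul_add, mul_div_assoc', mul_div_cancel_left₀ _ hb0.ne']
    have : (b : ℝ) = 2 * c + 1 := by exact_mod_cast hc
    push_cast
    rw [this]; ring
  rw [an_eval]
  apply mul_eq_zero_of_right
  apply prod_eq_zero (i := k + b * q + c)
  · rw [mem_range]
    have h1 : (b : ℝ) * nd (1 + q) b k < b * (4 * ((1 + q : ℕ) : ℝ)) :=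
      mul_lt_mul_of_pos_left h hb0
    rw [hbs] at h1
    have h2 : 2 * (k + b * q + c) + 1 < b * (4 * (1 + q)) := by exact_mod_cast h1
    have h3 : b * (4 * (1 + q)) = 2 * (2 * b * (1 + q)) := by ring
    omega
  · rw [← mul_pow, hbs]; ring

/-- `w^(2z) / (4^z bf M (2z)) ≤ (w e / (2M))^(2z) e^M` -/
theorem div_bf_le {M : ℕ} (hM : 0 < M) (z : ℕ) (w : ℝ) :
    (((4 ^ z * bf M (2 * z) : ℕ) : ℝ))⁻¹ * (w ^ 2) ^ z ≤
      ((w * Real.exp 1 / (2 * M)) ^ 2) ^ z * Real.exp M := by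
  have hMR : (0 : ℝ) < M := by exact_mod_cast hM
  have hb : (0 : ℝ) < ((4 ^ z * bf M (2 * z) : ℕ) : ℝ) := by
    exact_mod_cast Nat.mul_pos (by positivity) (bf_pos _ _)
  rw [inv_mul_le_iff₀ hb]
  have h2 := le_bf hM (2 * z)
  have h3 : (2 * (M : ℝ)) ^ (2 * z) * Real.exp (-(2 * z + M)) ≤
      ((4 ^ z * bf M (2 * z) : ℕ) : ℝ) := by
    push_cast at h2 ⊢
    rw [mul_pow, pow_mul, mul_assoc]
    have : ((2 : ℝ) ^ 2) ^ z = 4 ^ z := by norm_num
    rw [this]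
    exact mul_le_mul_of_nonneg_left h2 (by positivity)
  refine le_trans (le_of_eq ?_) (mul_le_mul_of_nonneg_right h3 (by positivity))
  have e1 : Real.exp (-(2 * (z : ℝ) + M)) * Real.exp M * (Real.exp 1) ^ (2 * z) = 1 := by
    rw [← Real.exp_add, ← Real.exp_nat_mul, ← Real.exp_add]
    have e0 : -(2 * (z : ℝ) + M) + M + ((2 * z : ℕ) : ℝ) * 1 = 0 := by push_cast; ring
    rw [e0, Real.exp_zero]
  have e2 : ((w * Real.exp 1 / (2 * M)) ^ 2) ^ z =
      (w ^ 2) ^ z * (Real.exp 1) ^ (2 * z) / (2 * (M : ℝ)) ^ (2 * z) := by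
    rw [div_pow, div_pow, mul_pow, mul_pow, ← pow_mul (Real.exp 1), ← pow_mul (2 * (M : ℝ))]
  rw [e2]
  have e3 : (2 * (M : ℝ)) ^ (2 * z) ≠ 0 := by positivity
  calc (w ^ 2) ^ z = (w ^ 2) ^ z * 1 := by ring
    _ = (w ^ 2) ^ z * (Real.exp (-(2 * (z : ℝ) + M)) * Real.exp M *
        (Real.exp 1) ^ (2 * z)) := by rw [e1]
    _ = _ := by field_simp

theorem const_le {a M n : ℕ} (hM : 0 < M) (hMa : n ≤ a * M) {w : ℝ}
    (hw0 : 0 ≤ w) (hw : w ≤ 3 / 2 * n) :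
    (w * Real.exp 1 / (2 * M)) ^ 2 ≤ 10 * (a : ℝ) ^ 2 := by
  have hMR : (0 : ℝ) < M := by exact_mod_cast hM
  have hMaR : (n : ℝ) ≤ a * M := by exact_mod_cast hMa
  have h1 : w * Real.exp 1 / (2 * M) ≤ 3 / 4 * 2.7182818286 * a := by
    rw [div_le_iff₀ (by positivity)]
    have h2 : w * Real.exp 1 ≤ (3 / 2 * n) * 2.7182818286 :=
      mul_le_mul hw Real.exp_one_lt_d9.le (Real.exp_pos _).le (by positivity)
    nlinarith
  calc (w * Real.exp 1 / (2 * M)) ^ 2 ≤ (3 / 4 * 2.7182818286 * a) ^ 2 :=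
        pow_le_pow_left₀ (by positivity) h1 2
    _ ≤ 10 * (a : ℝ) ^ 2 := by nlinarith [sq_nonneg (a : ℝ)]

/-- value of `An * Cn` at a node `s ≥ 4p` -/
theorem f_le (a M B p : ℕ) (ha : 1 ≤ a) (hp : 1 ≤ p) (hM : 0 < M)
    (hMa : 4 * B * p ≤ a * M) (b j : ℕ) (hb : b < 2 * B)
    (hj : 2 * b * p + j < 4 * B * p) (s : ℝ) (hs : 4 * (p : ℝ) ≤ s) :
    |((An ℝ M p b * Cn ℝ M j).eval (s ^ 2))| * ((2 * (p : ℝ) + 1) / s) ^ (2 * (4 * B * p - 1)) ≤
      (10 * (a : ℝ) ^ 2) ^ (4 * B * p) * Real.exp (2 * M) := by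
  set n := 4 * B * p with hn
  have hpR : (1 : ℝ) ≤ p := by exact_mod_cast hp
  have haR : (1 : ℝ) ≤ a := by exact_mod_cast ha
  have hs0 : (0 : ℝ) < s := by linarith
  set q := (2 * (p : ℝ) + 1) / s with hq
  have hq0 : 0 < q := by positivity
  have hq1 : q ≤ 3 / 4 := by
    rw [hq, div_le_iff₀ hs0]; linarith
  have hqs : q * s = 2 * (p : ℝ) + 1 := by
    rw [hq]; field_simp
  have hbpn : (b : ℝ) * (2 * p + 1) ≤ 3 / 2 * n := by
    have h1 : (b : ℝ) ≤ 2 * B := by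
      have : b ≤ 2 * B := hb.le
      exact_mod_cast this
    have h2 : (n : ℝ) = 4 * B * p := by rw [hn]; push_cast; ring
    rw [h2]
    have h3 : 2 * (p : ℝ) + 1 ≤ 3 * p := by linarith
    have h4 : (b : ℝ) * (2 * p + 1) ≤ (2 * B) * (3 * p) :=
      mul_le_mul h1 h3 (by positivity) (by positivity)
    linarith
  have hpn : 2 * (p : ℝ) + 1 ≤ 3 / 2 * n := by
    have h1 : p ≤ n := by
      have : 1 ≤ B := by omega
      rw [hn]; nlinarith
    have h2 : (p : ℝ) ≤ n := by exact_mod_cast h1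
    have h3 : 4 ≤ n := by
      have : 1 ≤ B := by omega
      rw [hn]; nlinarith
    have h4 : (4 : ℝ) ≤ n := by exact_mod_cast h3
    have h5 : 4 * p ≤ n := by
      have : 1 ≤ B := by omega
      rw [hn]; nlinarith
    have h6 : 4 * (p : ℝ) ≤ n := by exact_mod_cast h5
    linarith
  -- first factor
  have hA : |(An ℝ M p b).eval (s ^ 2)| * (q ^ 2) ^ (2 * b * p) ≤
      (10 * (a : ℝ) ^ 2) ^ (2 * b * p) * Real.exp M := by
    rw [an_eval, abs_mul, abs_inv, abs_of_nonneg (Nat.cast_nonneg _), abs_prod]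
    have h1 : ∏ k ∈ range (2 * b * p), |(b : ℝ) ^ 2 * s ^ 2 - (2 * (k : ℝ) + 1) ^ 2| ≤
        ((b * s) ^ 2) ^ (2 * b * p) := by
      have h3 : ∏ k ∈ range (2 * b * p), ((b * s) ^ 2) = (((b : ℝ) * s) ^ 2) ^ (2 * b * p) := by
        simp
      rw [← h3]
      apply prod_le_prod (fun _ _ => abs_nonneg _)
      intro k hk
      have hk1 : 2 * k + 1 ≤ b * (4 * p) := by
        have := mem_range.1 hk
        have h4 : b * (4 * p) = 2 * (2 * b * p) := by ring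
        omega
      have hk2 : 2 * (k : ℝ) + 1 ≤ b * (4 * p) := by exact_mod_cast hk1
      have hk3 : 2 * (k : ℝ) + 1 ≤ b * s :=
        hk2.trans (mul_le_mul_of_nonneg_left hs (by positivity))
      have hk4 : (2 * (k : ℝ) + 1) ^ 2 ≤ (b * s) ^ 2 := pow_le_pow_left₀ (by positivity) hk3 2
      rw [← mul_pow, abs_of_nonneg (by linarith)]
      have : 0 ≤ (2 * (k : ℝ) + 1) ^ 2 := by positivity
      linarith
    have h2 : (((4 ^ (2 * b * p) * bf M (4 * b * p) : ℕ) : ℝ))⁻¹ *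
        (∏ k ∈ range (2 * b * p), |(b : ℝ) ^ 2 * s ^ 2 - (2 * (k : ℝ) + 1) ^ 2|) *
          (q ^ 2) ^ (2 * b * p) ≤
        (((4 ^ (2 * b * p) * bf M (4 * b * p) : ℕ) : ℝ))⁻¹ *
          ((b * (2 * p + 1)) ^ 2) ^ (2 * b * p) := by
      have e : ((b * (2 * (p : ℝ) + 1)) ^ 2) ^ (2 * b * p) =
          ((b * s) ^ 2) ^ (2 * b * p) * (q ^ 2) ^ (2 * b * p) := by
        rw [← mul_pow, ← mul_pow, ← hqs]; ring_nf
      rw [e, mul_assoc]
      apply mul_le_mul_of_nonneg_left _ (by positivity)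
      exact mul_le_mul_of_nonneg_right h1 (by positivity)
    refine h2.trans ?_
    have h3 := div_bf_le hM (2 * b * p) (b * (2 * (p : ℝ) + 1))
    rw [show 2 * (2 * b * p) = 4 * b * p by ring] at h3
    refine h3.trans ?_
    apply mul_le_mul_of_nonneg_right _ (Real.exp_pos _).le
    apply pow_le_pow_left₀ (by positivity)
    exact const_le hM hMa (by positivity) hbpn
  -- second factor
  have hC : |(Cn ℝ M j).eval (s ^ 2)| * (q ^ 2) ^ j ≤
      (10 * (a : ℝ) ^ 2) ^ j * Real.exp M := by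
    rw [cn_eval, abs_mul, abs_inv, abs_of_nonneg (Nat.cast_nonneg _), abs_prod]
    have h1 : (∏ k ∈ range j, |s ^ 2 - (2 * (k : ℝ) + 1) ^ 2|) * (q ^ 2) ^ j ≤
        ((3 / 2 * (n : ℝ)) ^ 2) ^ j := by
      have h3 : ∏ k ∈ range j, ((3 / 2 * (n : ℝ)) ^ 2) = (((3 / 2 * (n : ℝ)) ^ 2) ^ j) := by
        simp
      have h4 : ∏ k ∈ range j, (q ^ 2) = (q ^ 2) ^ j := by simp
      rw [← h3, ← h4, ← prod_mul_distrib]
      apply prod_le_prod (fun _ _ => by positivity)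
      intro k hk
      have hk1 : 2 * k + 1 ≤ 2 * n := by
        have := mem_range.1 hk
        omega
      have hk2 : 2 * (k : ℝ) + 1 ≤ 2 * n := by exact_mod_cast hk1
      have hk0 : (0 : ℝ) ≤ 2 * (k : ℝ) + 1 := by positivity
      have e1 : |s ^ 2 - (2 * (k : ℝ) + 1) ^ 2| * q ^ 2 ≤
          max ((q * s) ^ 2) ((q * (2 * (k : ℝ) + 1)) ^ 2) := by
        have e2 : |s ^ 2 - (2 * (k : ℝ) + 1) ^ 2| * q ^ 2 =
            |(q * s) ^ 2 - (q * (2 * (k : ℝ) + 1)) ^ 2| := by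
          have e5 : |q ^ 2| = q ^ 2 := abs_of_nonneg (by positivity)
          calc |s ^ 2 - (2 * (k : ℝ) + 1) ^ 2| * q ^ 2 =
              |s ^ 2 - (2 * (k : ℝ) + 1) ^ 2| * |q ^ 2| := by rw [e5]
            _ = |(q * s) ^ 2 - (q * (2 * (k : ℝ) + 1)) ^ 2| := by
              rw [← abs_mul]; congr 1; ring
        rw [e2]
        have e3 : 0 ≤ (q * s) ^ 2 := by positivity
        have e4 : 0 ≤ (q * (2 * (k : ℝ) + 1)) ^ 2 := by positivity
        rw [abs_le]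
        constructor
        · have := le_max_right ((q * s) ^ 2) ((q * (2 * (k : ℝ) + 1)) ^ 2)
          linarith
        · have := le_max_left ((q * s) ^ 2) ((q * (2 * (k : ℝ) + 1)) ^ 2)
          linarith
      refine e1.trans (max_le ?_ ?_)
      · rw [hqs]
        exact pow_le_pow_left₀ (by positivity) hpn 2
      · apply pow_le_pow_left₀ (by positivity)
        have : q * (2 * (k : ℝ) + 1) ≤ 3 / 4 * (2 * n) :=
          mul_le_mul hq1 hk2 hk0 (by norm_num)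
        linarith
    rw [mul_assoc]
    refine (mul_le_mul_of_nonneg_left h1 (by positivity)).trans ?_
    refine (div_bf_le hM j (3 / 2 * (n : ℝ))).trans ?_
    apply mul_le_mul_of_nonneg_right _ (Real.exp_pos _).le
    apply pow_le_pow_left₀ (by positivity)
    exact const_le hM hMa (by positivity) le_rfl
  obtain ⟨e, he⟩ := Nat.exists_eq_add_of_le (show 2 * b * p + j ≤ n - 1 by omega)
  have hpow : q ^ (2 * (n - 1)) = (q ^ 2) ^ (2 * b * p) * (q ^ 2) ^ j * (q ^ 2) ^ e := by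
    rw [he, pow_mul, pow_add, pow_add]
  have hqe : (q ^ 2) ^ e ≤ 1 := by
    apply pow_le_one₀ (by positivity)
    nlinarith
  rw [hpow, Polynomial.eval_mul, abs_mul]
  have hexp : Real.exp (2 * (M : ℝ)) = Real.exp M * Real.exp M := by
    rw [← Real.exp_add]; ring_nf
  calc |(An ℝ M p b).eval (s ^ 2)| * |(Cn ℝ M j).eval (s ^ 2)| *
        ((q ^ 2) ^ (2 * b * p) * (q ^ 2) ^ j * (q ^ 2) ^ e)
      = (|(An ℝ M p b).eval (s ^ 2)| * (q ^ 2) ^ (2 * b * p)) *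
        (|(Cn ℝ M j).eval (s ^ 2)| * (q ^ 2) ^ j) * (q ^ 2) ^ e := by ring
    _ ≤ ((10 * (a : ℝ) ^ 2) ^ (2 * b * p) * Real.exp M) *
        ((10 * (a : ℝ) ^ 2) ^ j * Real.exp M) * 1 := by
        apply mul_le_mul _ hqe (by positivity) (by positivity)
        exact mul_le_mul hA hC (by positivity) (by positivity)
    _ = (10 * (a : ℝ) ^ 2) ^ (2 * b * p + j) * Real.exp (2 * M) := by
        rw [hexp, pow_add]; ring
    _ ≤ (10 * (a : ℝ) ^ 2) ^ n * Real.exp (2 * M) := by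
        apply mul_le_mul_of_nonneg_right _ (Real.exp_pos _).le
        apply pow_le_pow_right₀ (by nlinarith) (by omega)

theorem hasSum_inv_sq : HasSum (fun i : ℕ => 1 / ((i : ℝ) + 1) ^ 2) (Real.pi ^ 2 / 6) := by
  have h := hasSum_zeta_two
  rw [← hasSum_nat_add_iff' 1] at h
  simpa using h

/-- terms of the `F` rows; `k`-th term -/
theorem bd_gam (a M B p : ℕ) (ha : 1 ≤ a) (hB : 1 ≤ B) (hBa : B ≤ a) (hp : 1 ≤ p) (hM : 0 < M)
    (hMa : 4 * B * p ≤ a * M) (β : ℕ) (hβ : β < B) (j : ℕ)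
    (hj : j < (4 * B - 2 * (2 * β + 1)) * p) (l : ℕ) (hl : l < p) (r k : ℕ) :
    |gam (4 * B * p) p (2 * β + 1) (An ℝ M p (2 * β + 1) * Cn ℝ M j) k *
      PowerSeries.coeff r (yl ℝ p l ^ (4 * B * p + k))| ≤
      (300 * (p : ℝ) ^ 2 * (a : ℝ) ^ 3 * (10 * (a : ℝ) ^ 2) ^ (4 * B * p) * Real.exp (2 * M)) *
        (3 / 4 : ℝ) ^ (2 * k) := by
  set b := 2 * β + 1 with hb
  set n := 4 * B * p with hn
  have hbB : b < 2 * B := by omega
  have hj' : 2 * b * p + j < n := by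
    have h1 : (4 * B - 2 * b) * p = 4 * B * p - 2 * b * p := Nat.sub_mul _ _ _
    rw [h1] at hj
    omega
  have hpR : (1 : ℝ) ≤ p := by exact_mod_cast hp
  have haR : (1 : ℝ) ≤ a := by exact_mod_cast ha
  have hb0 : (0 : ℝ) < b := by rw [hb]; positivity
  set P := 2 * (p : ℝ) + 1 with hP
  have hP0 : 0 < P := by positivity
  set W := (10 * (a : ℝ) ^ 2) ^ n * Real.exp (2 * M) with hW
  have hW0 : 0 < W := by positivity
  have hcoef := yl_pow_le p l hl (n + k) r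
  -- the terms of the series
  have hterm : ∀ i : ℕ, ‖4 * nd p b (i + 1) *
      (An ℝ M p b * Cn ℝ M j).eval (nd p b (i + 1) ^ 2) /
        (nd p b (i + 1) ^ 2) ^ (n + k + 1)‖ ≤
      (9 * p * (a : ℝ) ^ 2 * W * (3 / 4) ^ (2 * k) / P ^ (2 * (n + k))) *
        (1 / ((i : ℝ) + 1) ^ 2) := by
    intro i
    rcases lt_or_ge (nd p b (i + 1)) (4 * p) with hlt | hge
    · have h0 := an_root M p b (i + 1) hp ⟨β, hb⟩ (by omega) hlt
      rw [Polynomial.eval_mul, h0]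
      simp only [zero_mul, mul_zero, zero_div, norm_zero]
      positivity
    · set s := nd p b (i + 1) with hs
      have hs0 : 0 < s := by linarith
      have hf := f_le a M B p ha hp hM hMa b j hbB hj' s hge
      rw [← hn, ← hP, ← hW] at hf
      have hs2 : 2 * ((i : ℝ) + 1) / b ≤ s := by
        rw [hs, nd]; push_cast; linarith
      have hs3 : 16 * (p : ℝ) * ((i : ℝ) + 1) ^ 2 ≤ s ^ 3 * (b : ℝ) ^ 2 := by
        have h1 : (2 * ((i : ℝ) + 1) / b) ^ 2 ≤ s ^ 2 := pow_le_pow_left₀ (by positivity) hs2 2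
        have h2 : (4 * (p : ℝ)) * (2 * ((i : ℝ) + 1) / b) ^ 2 ≤ s * s ^ 2 :=
          mul_le_mul hge h1 (by positivity) hs0.le
        have h3 : (4 * (p : ℝ)) * (2 * ((i : ℝ) + 1) / b) ^ 2 * (b : ℝ) ^ 2 =
            16 * (p : ℝ) * ((i : ℝ) + 1) ^ 2 := by
          field_simp; ring
        rw [← h3]
        have h4 : s ^ 3 = s * s ^ 2 := by ring
        rw [h4]
        exact mul_le_mul_of_nonneg_right h2 (by positivity)
      have hba : (b : ℝ) ^ 2 ≤ 4 * (a : ℝ) ^ 2 := by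
        have h1 : (b : ℝ) ≤ 2 * a := by
          have : b ≤ 2 * a := by omega
          exact_mod_cast this
        nlinarith
      have hqk : (P / s) ^ (2 * k) ≤ (3 / 4 : ℝ) ^ (2 * k) := by
        apply pow_le_pow_left₀ (by positivity)
        rw [div_le_iff₀ hs0, hP]; linarith
      rw [Real.norm_eq_abs, abs_div, abs_mul, abs_mul, abs_of_pos hs0,
        abs_of_pos (show (0 : ℝ) < 4 by norm_num),
        abs_of_pos (show (0 : ℝ) < (s ^ 2) ^ (n + k + 1) by positivity)]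
      have key : 4 * s * |(An ℝ M p b * Cn ℝ M j).eval (s ^ 2)| / (s ^ 2) ^ (n + k + 1) =
          (|(An ℝ M p b * Cn ℝ M j).eval (s ^ 2)| * (P / s) ^ (2 * (n - 1))) *
            (P / s) ^ (2 * k) * (4 * P ^ 2 / s ^ 3) / P ^ (2 * (n + k)) := by
        obtain ⟨n', hn'⟩ : ∃ n', n = n' + 1 := ⟨n - 1, by omega⟩
        rw [hn']
        simp only [Nat.add_sub_cancel, div_pow]
        rw [← pow_mul]
        have e1 : s ^ (2 * (n' + 1 + k + 1)) = s ^ (2 * n') * s ^ (2 * k) * s ^ 3 * s := by ring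
        have e2 : P ^ (2 * (n' + 1 + k)) = P ^ (2 * n') * P ^ (2 * k) * P ^ 2 := by ring
        rw [e1, e2]
        field_simp
      rw [key]
      have hlast : 4 * P ^ 2 / s ^ 3 ≤ 9 * p * (a : ℝ) ^ 2 * (1 / ((i : ℝ) + 1) ^ 2) := by
        rw [div_le_iff₀ (by positivity)]
        have hP3 : P ^ 2 ≤ 9 * (p : ℝ) ^ 2 := by
          have : P ≤ 3 * p := by rw [hP]; linarith
          nlinarith
        have h5 : 0 < ((i : ℝ) + 1) ^ 2 := by positivity
        have h6 : 9 * p * (a : ℝ) ^ 2 * (1 / ((i : ℝ) + 1) ^ 2) * s ^ 3 =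
            9 * p * ((a : ℝ) ^ 2 * s ^ 3) / ((i : ℝ) + 1) ^ 2 := by ring
        rw [h6, le_div_iff₀ h5]
        have h7 : 16 * (p : ℝ) * ((i : ℝ) + 1) ^ 2 ≤ s ^ 3 * (4 * (a : ℝ) ^ 2) :=
          hs3.trans (mul_le_mul_of_nonneg_left hba (by positivity))
        have h8 : 4 * P ^ 2 * ((i : ℝ) + 1) ^ 2 ≤ 4 * (9 * (p : ℝ) ^ 2) * ((i : ℝ) + 1) ^ 2 := by
          apply mul_le_mul_of_nonneg_right _ h5.le
          linarith
        nlinarith
      calc (|(An ℝ M p b * Cn ℝ M j).eval (s ^ 2)| * (P / s) ^ (2 * (n - 1))) *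
            (P / s) ^ (2 * k) * (4 * P ^ 2 / s ^ 3) / P ^ (2 * (n + k))
          ≤ (W * (3 / 4) ^ (2 * k) * (9 * p * (a : ℝ) ^ 2 * (1 / ((i : ℝ) + 1) ^ 2))) /
            P ^ (2 * (n + k)) := by
            apply div_le_div_of_nonneg_right _ (by positivity)
            apply mul_le_mul _ hlast (by positivity) (by positivity)
            exact mul_le_mul hf hqk (by positivity) (by positivity)
        _ = _ := by ring
  have hsum := hasSum_inv_sq.mul_left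
    (9 * p * (a : ℝ) ^ 2 * W * (3 / 4) ^ (2 * k) / P ^ (2 * (n + k)))
  have hg : |gam n p b (An ℝ M p b * Cn ℝ M j) k| ≤
      (9 * p * (a : ℝ) ^ 2 * W * (3 / 4) ^ (2 * k) / P ^ (2 * (n + k))) * (Real.pi ^ 2 / 6) := by
    have := tsum_of_norm_bounded hsum hterm
    rwa [Real.norm_eq_abs] at this
  rw [abs_mul]
  have hpi : Real.pi ^ 2 / 6 ≤ 2 := by
    have h1 := Real.pi_lt_d2
    have h2 := Real.pi_pos
    nlinarith
  calc |gam n p b (An ℝ M p b * Cn ℝ M j) k| * |PowerSeries.coeff r (yl ℝ p l ^ (n + k))|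
      ≤ ((9 * p * (a : ℝ) ^ 2 * W * (3 / 4) ^ (2 * k) / P ^ (2 * (n + k))) *
          (Real.pi ^ 2 / 6)) * P ^ (2 * (n + k)) :=
        mul_le_mul hg hcoef (abs_nonneg _) (by positivity)
    _ = (9 * p * (a : ℝ) ^ 2 * (Real.pi ^ 2 / 6)) * (W * (3 / 4) ^ (2 * k)) := by
        have : P ^ (2 * (n + k)) ≠ 0 := by positivity
        field_simp
    _ ≤ (300 * (p : ℝ) ^ 2 * (a : ℝ) ^ 3) * (W * (3 / 4) ^ (2 * k)) := by
        apply mul_le_mul_of_nonneg_right _ (by positivity)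
        have h1 : (p : ℝ) ≤ (p : ℝ) ^ 2 := by nlinarith
        have h2 : (a : ℝ) ^ 2 ≤ (a : ℝ) ^ 3 := pow_le_pow_right₀ haR (by norm_num)
        have h3 : (p : ℝ) * (a : ℝ) ^ 2 ≤ (p : ℝ) ^ 2 * (a : ℝ) ^ 3 :=
          mul_le_mul h1 h2 (by positivity) (by positivity)
        have h4 : 0 ≤ (p : ℝ) * (a : ℝ) ^ 2 := by positivity
        nlinarith
    _ = _ := by rw [hW]; ring

end Pool.Agent.ZC
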