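import Pool.Agent.ZC.VDEF
import Pool.Agent.ZC.BDC
import Pool.Agent.ZC.BDG

/-! # ZC, subspace version: bounds of the entries -/

namespace Pool.Agent.ZC

open Finset

theorem VBD_const {a M n : ℕ} (hM : 0 < M) (hMa : n ≤ a * M) {w k C : ℝ}
    (hw0 : 0 ≤ w) (hw : w ≤ k * n) (hk : 0 ≤ k) (hC : (k / 2 * 2.7182818286) ^ 2 ≤ C) :
    (w * Real.exp 1 / (2 * M)) ^ 2 ≤ C * (a : ℝ) ^ 2 := by
  have hMR : (0 : ℝ) < M := by exact_mod_cast hM
  have hMaR : (n : ℝ) ≤ a * M := by exact_mod_cast hMa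
  have h1 : w * Real.exp 1 / (2 * M) ≤ k / 2 * 2.7182818286 * a := by
    rw [div_le_iff₀ (by positivity)]
    have h2 : w * Real.exp 1 ≤ (k * n) * 2.7182818286 :=
      mul_le_mul hw Real.exp_one_lt_d9.le (Real.exp_pos _).le (by positivity)
    have h3 : (k * n) * 2.7182818286 ≤ k * (a * M) * 2.7182818286 := by gcongr
    linarith
  calc (w * Real.exp 1 / (2 * M)) ^ 2 ≤ (k / 2 * 2.7182818286 * a) ^ 2 :=
        pow_le_pow_left₀ (by positivity) h1 2
    _ = (k / 2 * 2.7182818286) ^ 2 * (a : ℝ) ^ 2 := by ring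
    _ ≤ C * (a : ℝ) ^ 2 := mul_le_mul_of_nonneg_right hC (by positivity)

theorem VBD_dom_C (c : ℝ) {f : PowerSeries ℝ} {g : Polynomial ℝ} (h : BDom f g) :
    BDom (PowerSeries.C c * f) (Polynomial.C |c| * g) := by
  intro r
  rw [PowerSeries.coeff_C_mul, Polynomial.coeff_C_mul, abs_mul]
  exact mul_le_mul_of_nonneg_left (h r) (abs_nonneg _)

theorem VBD_lin (u v : ℝ) : BDom (PowerSeries.C u + PowerSeries.C v * PowerSeries.X)
    (Polynomial.C |u| + Polynomial.C |v| * Polynomial.X) := by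
  intro r
  rcases r with _ | r
  · simp
  rcases r with _ | r
  · simp [PowerSeries.coeff_C, Polynomial.coeff_C, PowerSeries.coeff_succ_mul_X]
  · rw [map_add, PowerSeries.coeff_succ_mul_X, PowerSeries.coeff_C, PowerSeries.coeff_C,
      Polynomial.coeff_add, Polynomial.coeff_mul_X, Polynomial.coeff_C, Polynomial.coeff_C]
    simp

theorem VBD_Cp (p l n j : ℕ) (hl : l < p) (hn : 4 * p ≤ n) (hj : j ≤ n) :
    ∃ g : Polynomial ℝ, BDom (ev ℝ p l (Cp ℝ j)) g ∧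
      g.eval 1 ≤ ((2 * (n : ℝ) + 1) ^ 2) ^ j := by
  rw [ev_Cp]
  refine ⟨_, BDom.prod (range j) fun k _ => (BDom.lin _).mul (BDom.lin _), ?_⟩
  rw [Polynomial.eval_prod]
  have h1 : (l : ℝ) + 1 ≤ p := by exact_mod_cast hl
  have h0 : (0 : ℝ) ≤ l := by positivity
  have h2 : 4 * (p : ℝ) ≤ n := by exact_mod_cast hn
  have h3 : ∏ k ∈ range j, ((2 * (n : ℝ) + 1) ^ 2) = ((2 * (n : ℝ) + 1) ^ 2) ^ j := by
    simp
  rw [← h3]
  apply prod_le_prod
  · intro k _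
    simp only [Polynomial.eval_mul, Polynomial.eval_add, Polynomial.eval_C, Polynomial.eval_X,
      mul_one]
    positivity
  · intro k hk
    have hk1 : (k : ℝ) + 1 ≤ n := by
      have : k + 1 ≤ n := by have := mem_range.1 hk; omega
      exact_mod_cast this
    have hk0 : (0 : ℝ) ≤ k := by positivity
    simp only [Polynomial.eval_mul, Polynomial.eval_add, Polynomial.eval_C, Polynomial.eval_X,
      mul_one]
    rw [abs_of_nonneg (a := 2 * (p : ℝ) - 1 - 2 * (l : ℝ) + (2 * (k : ℝ) + 1)) (by linarith)]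
    rcases abs_cases (2 * (p : ℝ) - 1 - 2 * (l : ℝ) - (2 * (k : ℝ) + 1)) with ⟨h4, _⟩ | ⟨h4, _⟩
    · rw [h4]
      nlinarith
    · rw [h4]
      nlinarith

theorem VBD_dom_Cn (a M B p : ℕ) (ha : 1 ≤ a) (hB : 1 ≤ B) (hp : 1 ≤ p) (hM : 0 < M)
    (hMa : 4 * B * p ≤ a * M) (l : ℕ) (hl : l < p) (j : ℕ) (hj : j ≤ 4 * B * p) :
    ∃ g : Polynomial ℝ, BDom (ev ℝ p l (Cn ℝ M j)) g ∧
      g.eval 1 ≤ (10 * (a : ℝ) ^ 2) ^ (4 * B * p) * Real.exp M := by
  obtain ⟨g, hg, hg1⟩ := VBD_Cp p l (4 * B * p) j hl (by nlinarith) hj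
  rw [Cn, ev_C_mul]
  refine ⟨_, VBD_dom_C _ hg, ?_⟩
  have haR : (1 : ℝ) ≤ a := by exact_mod_cast ha
  have hn4 : 4 ≤ 4 * B * p := by nlinarith
  have hn4R : (4 : ℝ) ≤ ((4 * B * p : ℕ) : ℝ) := by exact_mod_cast hn4
  rw [Polynomial.eval_mul, Polynomial.eval_C, abs_inv, abs_of_nonneg (Nat.cast_nonneg _)]
  refine (mul_le_mul_of_nonneg_left hg1 (by positivity)).trans ?_
  refine (div_bf_le hM j _).trans ?_
  apply mul_le_mul_of_nonneg_right _ (Real.exp_pos _).le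
  have h1 := VBD_const (a := a) (C := 10) hM hMa (w := 2 * ((4 * B * p : ℕ) : ℝ) + 1)
    (k := 9 / 4) (by positivity) (by linarith) (by norm_num) (by norm_num)
  calc _ ≤ (10 * (a : ℝ) ^ 2) ^ j := pow_le_pow_left₀ (by positivity) h1 j
    _ ≤ _ := pow_le_pow_right₀ (by nlinarith) hj

theorem VBD_ev_An (M p b l : ℕ) : ev ℝ p l (An ℝ M p b) =
    PowerSeries.C ((((4 ^ (2 * b * p) * bf M (4 * b * p) : ℕ) : ℝ))⁻¹) *
    ∏ k ∈ range (2 * b * p),
      ((PowerSeries.C ((b : ℝ) * (2 * (p : ℝ) - 1 - 2 * (l : ℝ)) - (2 * (k : ℝ) + 1)) +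
        PowerSeries.C (2 * (b : ℝ)) * PowerSeries.X) *
      (PowerSeries.C ((b : ℝ) * (2 * (p : ℝ) - 1 - 2 * (l : ℝ)) + (2 * (k : ℝ) + 1)) +
        PowerSeries.C (2 * (b : ℝ)) * PowerSeries.X)) := by
  rw [An, ev_C_mul]
  congr 1
  rw [ev, Cp, Polynomial.prod_comp, map_prod]
  refine prod_congr rfl fun k _ => ?_
  have h : ∀ c : ℝ, (algebraMap ℝ (PowerSeries ℝ)) c = PowerSeries.C c := fun _ => rfl
  rw [Polynomial.sub_comp, Polynomial.X_comp, Polynomial.C_comp, map_sub, map_mul,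
    Polynomial.aeval_X, Polynomial.aeval_C, Polynomial.aeval_C, h, h, yl]
  simp only [map_sub, map_add, map_mul, map_pow]
  ring

theorem VBD_dom_An (a M B p : ℕ) (ha : 1 ≤ a) (hB : 1 ≤ B) (hp : 1 ≤ p) (hM : 0 < M)
    (hMa : 4 * B * p ≤ a * M) (l : ℕ) (hl : l < p) (β : ℕ) (hβ : β < B) :
    ∃ g : Polynomial ℝ, BDom (ev ℝ p l (An ℝ M p (2 * β + 1))) g ∧
      g.eval 1 ≤ (16 * (a : ℝ) ^ 2) ^ (4 * B * p) * Real.exp M := by
  rw [VBD_ev_An]
  set b := 2 * β + 1 with hbdef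
  set D := 2 * b * p with hD
  refine ⟨_, VBD_dom_C _ (BDom.prod (range D) fun k _ => (VBD_lin _ _).mul (VBD_lin _ _)), ?_⟩
  have haR : (1 : ℝ) ≤ a := by exact_mod_cast ha
  have hpR : (1 : ℝ) ≤ p := by exact_mod_cast hp
  have hbR : (0 : ℝ) ≤ b := by positivity
  have hDn : D ≤ 4 * B * p := by
    have : 2 * b ≤ 4 * B := by omega
    exact Nat.mul_le_mul_right p this
  have h1 : (l : ℝ) + 1 ≤ p := by exact_mod_cast hl
  have h0 : (0 : ℝ) ≤ l := by positivity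
  rw [Polynomial.eval_mul, Polynomial.eval_C, abs_inv, abs_of_nonneg (Nat.cast_nonneg _),
    Polynomial.eval_prod]
  have hDR : (D : ℝ) = 2 * b * p := by rw [hD]; push_cast; ring
  set A : ℝ := b * (2 * p + 1) + D with hA
  have hprod : ∏ k ∈ range D, Polynomial.eval 1
      ((Polynomial.C |(b : ℝ) * (2 * (p : ℝ) - 1 - 2 * (l : ℝ)) - (2 * (k : ℝ) + 1)| +
        Polynomial.C |2 * (b : ℝ)| * Polynomial.X) *
      (Polynomial.C |(b : ℝ) * (2 * (p : ℝ) - 1 - 2 * (l : ℝ)) + (2 * (k : ℝ) + 1)| +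
        Polynomial.C |2 * (b : ℝ)| * Polynomial.X)) ≤ (A ^ 2) ^ D := by
    have hb1 : (b : ℝ) * (2 * (p : ℝ) - 1 - 2 * (l : ℝ)) ≤ b * (2 * p - 1) :=
      mul_le_mul_of_nonneg_left (by linarith) hbR
    have hb0 : 0 ≤ (b : ℝ) * (2 * (p : ℝ) - 1 - 2 * (l : ℝ)) :=
      mul_nonneg hbR (by linarith)
    have h3 : ∏ k ∈ range D, Polynomial.eval 1
        ((Polynomial.C |(b : ℝ) * (2 * (p : ℝ) - 1 - 2 * (l : ℝ)) - (2 * (k : ℝ) + 1)| +
          Polynomial.C |2 * (b : ℝ)| * Polynomial.X) *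
        (Polynomial.C |(b : ℝ) * (2 * (p : ℝ) - 1 - 2 * (l : ℝ)) + (2 * (k : ℝ) + 1)| +
          Polynomial.C |2 * (b : ℝ)| * Polynomial.X)) ≤
        ∏ k ∈ range D, (b * (2 * (p : ℝ) + 1) + (2 * (k : ℝ) + 1)) ^ 2 := by
      apply prod_le_prod
      · intro k _
        simp only [Polynomial.eval_mul, Polynomial.eval_add, Polynomial.eval_C,
          Polynomial.eval_X, mul_one]
        positivity
      · intro k _
        have hk0 : (0 : ℝ) ≤ k := by positivity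
        simp only [Polynomial.eval_mul, Polynomial.eval_add, Polynomial.eval_C,
          Polynomial.eval_X, mul_one]
        rw [sq]
        have e1 : |2 * (b : ℝ)| = 2 * b := abs_of_nonneg (by positivity)
        have e2 : |(b : ℝ) * (2 * (p : ℝ) - 1 - 2 * (l : ℝ)) - (2 * (k : ℝ) + 1)| ≤
            b * (2 * p - 1) + (2 * k + 1) := by
          rw [abs_le]; constructor <;> linarith
        have e3 : |(b : ℝ) * (2 * (p : ℝ) - 1 - 2 * (l : ℝ)) + (2 * (k : ℝ) + 1)| ≤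
            b * (2 * p - 1) + (2 * k + 1) := by
          rw [abs_le]; constructor <;> linarith
        rw [e1]
        apply mul_le_mul
        · linarith
        · linarith
        · positivity
        · have : 0 ≤ (b : ℝ) * (2 * p + 1) := by positivity
          linarith
    refine h3.trans ?_
    have h4 : ∏ k ∈ range D, (b * (2 * (p : ℝ) + 1) + (2 * (k : ℝ) + 1)) ^ 2 =
        ∏ k ∈ range D, ((b * (2 * (p : ℝ) + 1) + (2 * (k : ℝ) + 1)) *
          (b * (2 * (p : ℝ) + 1) + (2 * ((D - 1 - k : ℕ) : ℝ) + 1))) := by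
      rw [prod_mul_distrib, prod_range_reflect
        (fun k : ℕ => (b * (2 * (p : ℝ) + 1) + (2 * (k : ℝ) + 1))) D, ← prod_mul_distrib]
      exact prod_congr rfl fun k _ => by ring
    rw [h4]
    have h5 : ∏ k ∈ range D, (A ^ 2) = (A ^ 2) ^ D := by simp
    rw [← h5]
    apply prod_le_prod
    · intro k _
      positivity
    · intro k hk
      have hk1 := mem_range.1 hk
      have hk2 : ((D - 1 - k : ℕ) : ℝ) = D - 1 - k := by
        rw [Nat.cast_sub (by omega), Nat.cast_sub (by omega)]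
        push_cast; ring
      rw [hk2]
      have e5 : (b * (2 * (p : ℝ) + 1) + (2 * (k : ℝ) + 1)) *
          (b * (2 * (p : ℝ) + 1) + (2 * ((D : ℝ) - 1 - k) + 1)) =
          A ^ 2 - (D - (2 * k + 1)) ^ 2 := by
        rw [hA]; ring
      rw [e5]
      nlinarith [sq_nonneg ((D : ℝ) - (2 * k + 1))]
  refine (mul_le_mul_of_nonneg_left hprod (by positivity)).trans ?_
  have h6 := div_bf_le hM D A
  rw [show 2 * D = 4 * b * p by rw [hD]; ring] at h6
  refine h6.trans ?_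
  apply mul_le_mul_of_nonneg_right _ (Real.exp_pos _).le
  have hDnR : (D : ℝ) ≤ ((4 * B * p : ℕ) : ℝ) := by exact_mod_cast hDn
  have hbD : (b : ℝ) ≤ D / 2 := by rw [hDR]; nlinarith
  have h7 := VBD_const (a := a) (C := 16) hM hMa (w := A)
    (k := 5 / 2) (by positivity) (by rw [hA]; nlinarith) (by norm_num) (by norm_num)
  calc _ ≤ (16 * (a : ℝ) ^ 2) ^ D := pow_le_pow_left₀ (by positivity) h7 D
    _ ≤ _ := pow_le_pow_right₀ (by nlinarith) hDn

/-- entries of the multipliers -/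
theorem bd_An (a M B p : ℕ) (ha : 1 ≤ a) (hB : 1 ≤ B) (hp : 1 ≤ p) (hM : 0 < M)
    (hMa : 4 * B * p ≤ a * M) (l : ℕ) (hl : l < p) (β : ℕ) (hβ : β < B) (r : ℕ) :
    |PowerSeries.coeff r (ev ℝ p l (An ℝ M p (2 * β + 1)))| ≤
      (16 * (a : ℝ) ^ 2) ^ (4 * B * p) * Real.exp M := by
  obtain ⟨g, hg, hg1⟩ := VBD_dom_An a M B p ha hB hp hM hMa l hl β hβ
  exact (hg.coeff_le r).trans hg1

theorem VBD_dom_cs (b : ℕ) (S : Finset ℕ) (c : ℕ → ℝ) :
    BDom (cs ℝ b S c) (∑ i ∈ S, Polynomial.C |2 * (b : ℝ) ^ i * c i| * Polynomial.X ^ (i - 1)) := by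
  intro r
  rw [cs, map_sum, Polynomial.finsetSum_coeff]
  refine (abs_sum_le_sum_abs _ _).trans (sum_le_sum fun i _ => ?_)
  rw [PowerSeries.coeff_C_mul, PowerSeries.coeff_X_pow, Polynomial.coeff_C_mul,
    Polynomial.coeff_X_pow]
  split_ifs <;> simp

/-- entries of the rows `T`, `rho`, companions; the constant does not depend on `p` -/
theorem bd_wjet (a B κ : ℕ) (ha : 1 ≤ a) (hB : 1 ≤ B) (I S : Finset ℕ) (c : ℕ → Fin κ → ℝ) :
    ∃ Kc : ℝ, 1 ≤ Kc ∧ ∀ p M : ℕ, 1 ≤ p → 0 < M → 4 * B * p ≤ a * M →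
      ∀ (v : WRow B p κ I) (x : Fin p × Fin a), |wjet ℝ a M B p κ I S c v x| ≤
        Kc * (160 * (a : ℝ) ^ 4) ^ (4 * B * p) * Real.exp (2 * M) := by
  set G : Fin B → Fin κ → ℝ := fun β k =>
    ∑ i ∈ S, |2 * (((2 * (β : ℕ) + 1 : ℕ)) : ℝ) ^ i * c i k| with hG
  have hG0 : ∀ β k, 0 ≤ G β k := fun β k => sum_nonneg fun _ _ => abs_nonneg _
  refine ⟨1 + ∑ β, ∑ k, G β k, ?_, ?_⟩
  · have : 0 ≤ ∑ β, ∑ k, G β k := sum_nonneg fun _ _ => sum_nonneg fun _ _ => hG0 _ _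
    linarith
  intro p M hp hM hMa v x
  have haR : (1 : ℝ) ≤ a := by exact_mod_cast ha
  have hK0 : 0 ≤ ∑ β, ∑ k, G β k := sum_nonneg fun _ _ => sum_nonneg fun _ _ => hG0 _ _
  have hbase : (10 * (a : ℝ) ^ 2) ^ (4 * B * p) * Real.exp M ≤
      (1 + ∑ β, ∑ k, G β k) * (160 * (a : ℝ) ^ 4) ^ (4 * B * p) * Real.exp (2 * M) := by
    have h1 : (10 * (a : ℝ) ^ 2) ^ (4 * B * p) ≤ (160 * (a : ℝ) ^ 4) ^ (4 * B * p) := by
      apply pow_le_pow_left₀ (by positivity)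
      have : (a : ℝ) ^ 2 ≤ (a : ℝ) ^ 4 := pow_le_pow_right₀ haR (by norm_num)
      nlinarith
    have h2 : Real.exp M ≤ Real.exp (2 * M) := by
      apply Real.exp_le_exp.2
      have : (0 : ℝ) ≤ M := Nat.cast_nonneg _
      linarith
    have h3 : (10 * (a : ℝ) ^ 2) ^ (4 * B * p) * Real.exp M ≤
        (160 * (a : ℝ) ^ 4) ^ (4 * B * p) * Real.exp (2 * M) :=
      mul_le_mul h1 h2 (Real.exp_pos _).le (by positivity)
    refine h3.trans ?_
    rw [mul_assoc (1 + ∑ β, ∑ k, G β k)]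
    exact le_mul_of_one_le_left (by positivity) (by linarith)
  obtain ⟨l, r⟩ := x
  rcases v with j | ⟨i, j⟩ | ⟨β, k, j⟩
  · refine le_trans ?_ hbase
    exact bd_Cn a M B p ha hB hp hM hMa l l.2 j j.2.le r
  · refine le_trans ?_ hbase
    change |PowerSeries.coeff (r : ℕ) (ev ℝ p l (Cn ℝ M j) * PowerSeries.X ^ ((i : ℕ) - 1))| ≤ _
    rw [PowerSeries.coeff_mul_X_pow']
    split_ifs
    · exact bd_Cn a M B p ha hB hp hM hMa l l.2 j j.2.le _
    · rw [abs_zero]; positivity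
  · change |PowerSeries.coeff (r : ℕ) (ev ℝ p l (An ℝ M p (2 * (β : ℕ) + 1) * Cn ℝ M j) *
        cs ℝ (2 * (β : ℕ) + 1) S (fun i => c i k))| ≤ _
    have hev : ev ℝ p l (An ℝ M p (2 * (β : ℕ) + 1) * Cn ℝ M j) =
        ev ℝ p l (An ℝ M p (2 * (β : ℕ) + 1)) * ev ℝ p l (Cn ℝ M j) := by
      simp only [ev, map_mul]
    rw [hev]
    have hj : (j : ℕ) ≤ 4 * B * p := by
      have h1 := j.2
      have h2 : (4 * B - 2 * (2 * (β : ℕ) + 1)) * p ≤ 4 * B * p :=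
        Nat.mul_le_mul_right p (Nat.sub_le _ _)
      omega
    obtain ⟨g1, hg1, hb1⟩ := VBD_dom_An a M B p ha hB hp hM hMa l l.2 β β.2
    obtain ⟨g2, hg2, hb2⟩ := VBD_dom_Cn a M B p ha hB hp hM hMa l l.2 j hj
    have h3 := VBD_dom_cs (2 * (β : ℕ) + 1) S (fun i => c i k)
    refine (((hg1.mul hg2).mul h3).coeff_le r).trans ?_
    rw [Polynomial.eval_mul, Polynomial.eval_mul, Polynomial.eval_finsetSum]
    simp only [Polynomial.eval_mul, Polynomial.eval_C, Polynomial.eval_pow, Polynomial.eval_X,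
      one_pow, mul_one]
    have hg1' : 0 ≤ g1.eval 1 := by
      rw [Polynomial.eval_eq_sum_range]
      exact sum_nonneg fun i _ => by rw [one_pow, mul_one]; exact hg1.nonneg i
    have hg2' : 0 ≤ g2.eval 1 := by
      rw [Polynomial.eval_eq_sum_range]
      exact sum_nonneg fun i _ => by rw [one_pow, mul_one]; exact hg2.nonneg i
    have hG1 : G β k ≤ 1 + ∑ β, ∑ k, G β k := by
      have h4 : G β k ≤ ∑ k, G β k :=
        single_le_sum (f := fun k => G β k) (fun k _ => hG0 β k) (mem_univ k)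
      have h5 : ∑ k, G β k ≤ ∑ β, ∑ k, G β k :=
        single_le_sum (f := fun β => ∑ k, G β k)
          (fun β _ => sum_nonneg fun k _ => hG0 β k) (mem_univ β)
      linarith
    have h6 : g1.eval 1 * g2.eval 1 ≤
        ((16 * (a : ℝ) ^ 2) ^ (4 * B * p) * Real.exp M) *
          ((10 * (a : ℝ) ^ 2) ^ (4 * B * p) * Real.exp M) :=
      mul_le_mul hb1 hb2 hg2' (by positivity)
    have h7 : ((16 * (a : ℝ) ^ 2) ^ (4 * B * p) * Real.exp M) *
          ((10 * (a : ℝ) ^ 2) ^ (4 * B * p) * Real.exp M) =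
        (160 * (a : ℝ) ^ 4) ^ (4 * B * p) * Real.exp (2 * M) := by
      have e1 : Real.exp (2 * (M : ℝ)) = Real.exp M * Real.exp M := by
        rw [← Real.exp_add]; congr 1; ring
      have e2 : (160 * (a : ℝ) ^ 4) = (16 * (a : ℝ) ^ 2) * (10 * (a : ℝ) ^ 2) := by ring
      rw [e1, e2, mul_pow (16 * (a : ℝ) ^ 2) (10 * (a : ℝ) ^ 2)]
      ring
    rw [h7] at h6
    calc _ ≤ (160 * (a : ℝ) ^ 4) ^ (4 * B * p) * Real.exp (2 * M) * G β k := by
          apply mul_le_mul_of_nonneg_right h6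
          exact hG0 β k
      _ ≤ (160 * (a : ℝ) ^ 4) ^ (4 * B * p) * Real.exp (2 * M) * (1 + ∑ β, ∑ k, G β k) :=
          mul_le_mul_of_nonneg_left hG1 (by positivity)
      _ = _ := by ring

end Pool.Agent.ZC
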