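import Pool.Agent.ZC.AN4D
import Pool.Agent.ZC.BDG

set_option autoImplicit false

/-!
# ZC V4: bound for the coefficients of the remainder
-/

namespace Pool.Agent.ZC

open Finset Filter

open scoped Topology

/-! ### domination of polynomials -/

/-- coefficientwise domination -/
private def PDm (f g : Polynomial ℝ) : Prop := ∀ r, |f.coeff r| ≤ g.coeff r

private theorem PDm.nonneg {f g : Polynomial ℝ} (h : PDm f g) (r : ℕ) : 0 ≤ g.coeff r :=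
  (abs_nonneg _).trans (h r)

private theorem PDm.mul {f1 f2 g1 g2 : Polynomial ℝ} (h1 : PDm f1 g1) (h2 : PDm f2 g2) :
    PDm (f1 * f2) (g1 * g2) := by
  intro r
  rw [Polynomial.coeff_mul, Polynomial.coeff_mul]
  refine (abs_sum_le_sum_abs _ _).trans (sum_le_sum fun x _ => ?_)
  rw [abs_mul]
  exact mul_le_mul (h1 _) (h2 _) (abs_nonneg _) (h1.nonneg _)

private theorem PDm.one : PDm 1 1 := by
  intro r
  rw [Polynomial.coeff_one]
  split_ifs <;> simp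

private theorem PDm.prod {ι : Type*} (s : Finset ι) {f g : ι → Polynomial ℝ}
    (h : ∀ i ∈ s, PDm (f i) (g i)) : PDm (∏ i ∈ s, f i) (∏ i ∈ s, g i) := by
  classical
  induction s using Finset.induction_on with
  | empty => simpa using PDm.one
  | insert a s ha ih =>
    rw [prod_insert ha, prod_insert ha]
    exact (h a (mem_insert_self _ _)).mul (ih fun i hi => h i (mem_insert_of_mem hi))

private theorem PDm.pow {f g : Polynomial ℝ} (h : PDm f g) (n : ℕ) : PDm (f ^ n) (g ^ n) := by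
  induction n with
  | zero => simpa using PDm.one
  | succ n ih => rw [pow_succ, pow_succ]; exact ih.mul h

private theorem PDm.lin (u w : ℝ) (hu : 0 ≤ u) (hw : 0 ≤ w) :
    PDm (Polynomial.C w * Polynomial.X - Polynomial.C u)
      (Polynomial.C w * Polynomial.X + Polynomial.C u) := by
  intro r
  rcases r with _ | r
  · simp [abs_of_nonneg hu]
  rcases r with _ | r
  · simp [Polynomial.coeff_C, abs_of_nonneg hw]
  · simp

private theorem PDm.cmul {f g : Polynomial ℝ} (h : PDm f g) (c : ℝ) (hc : 0 ≤ c) :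
    PDm (Polynomial.C c * f) (Polynomial.C c * g) := by
  intro r
  rw [Polynomial.coeff_C_mul, Polynomial.coeff_C_mul, abs_mul, abs_of_nonneg hc]
  exact mul_le_mul_of_nonneg_left (h r) hc

private theorem PDm.sum_le {f g : Polynomial ℝ} (h : PDm f g) (n : ℕ) (Y : ℝ) (hY : 0 ≤ Y) :
    ∑ j ∈ range n, |f.coeff j| * Y ^ j ≤ g.eval Y := by
  rw [Polynomial.eval_eq_sum_range' (n := max n (g.natDegree + 1)) (by omega)]
  calc ∑ j ∈ range n, |f.coeff j| * Y ^ j ≤ ∑ j ∈ range n, g.coeff j * Y ^ j :=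
        sum_le_sum fun j _ => mul_le_mul_of_nonneg_right (h j) (by positivity)
    _ ≤ _ := by
        refine sum_le_sum_of_subset_of_nonneg ?_ fun j _ _ => mul_nonneg (h.nonneg j) (by positivity)
        intro j hj
        rw [mem_range] at hj ⊢
        omega

/-- the dominating value of the `F` polynomial at `16 p^2` -/
private theorem fP_sum_le (h m p b j n : ℕ) (hm : 1 ≤ m) (hp : 1 ≤ p) (hmp : m ≤ p) (hb : 1 ≤ b) :
    ∑ i ∈ range n, |(fP ℝ h m p b j).coeff i| * (16 * (p : ℝ) ^ 2) ^ i ≤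
      ((5.66 * (b : ℝ) * p * Real.exp 1 / (2 * ((2 * m : ℕ) : ℝ))) ^ 2) ^
        ((h + 1) * (2 * b * p) + j) * Real.exp ((h + 2) * (2 * m)) := by
  have hbR : (1 : ℝ) ≤ b := by exact_mod_cast hb
  have hpR : (1 : ℝ) ≤ p := by exact_mod_cast hp
  have hmR : (1 : ℝ) ≤ m := by exact_mod_cast hm
  have hmpR : (m : ℝ) ≤ p := by exact_mod_cast hmp
  have hM : 0 < 2 * m := by omega
  set E := (5.66 * (b : ℝ) * p * Real.exp 1 / (2 * ((2 * m : ℕ) : ℝ))) ^ 2 with hE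
  -- domination
  have hA : PDm (An ℝ (2 * m) p b) (Polynomial.C (((4 ^ (2 * b * p) * bf (2 * m) (4 * b * p) : ℕ) : ℝ)⁻¹) *
      ∏ k ∈ range (2 * b * p), (Polynomial.C ((b : ℝ) ^ 2) * Polynomial.X +
        Polynomial.C ((2 * (k : ℝ) + 1) ^ 2))) := by
    have e : An ℝ (2 * m) p b = Polynomial.C (((4 ^ (2 * b * p) * bf (2 * m) (4 * b * p) : ℕ) : ℝ)⁻¹) *
      ∏ k ∈ range (2 * b * p), (Polynomial.C ((b : ℝ) ^ 2) * Polynomial.X -
        Polynomial.C ((2 * (k : ℝ) + 1) ^ 2)) := by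
      rw [An, Cp, Polynomial.prod_comp]
      congr 1
      refine prod_congr rfl fun k _ => ?_
      rw [Polynomial.sub_comp, Polynomial.X_comp, Polynomial.C_comp]
    rw [e]
    refine PDm.cmul (PDm.prod _ fun k _ => PDm.lin _ _ (by positivity) (by positivity)) _ ?_
    positivity
  have hBn : PDm (Bn ℝ m j) (Polynomial.C (((4 ^ j * bf (2 * m) (2 * j) : ℕ) : ℝ)⁻¹) *
      ∏ k ∈ range j, (Polynomial.C (1 : ℝ) * Polynomial.X +
        Polynomial.C ((2 * ((k % m : ℕ) : ℝ) + 1) ^ 2))) := by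
    have e : Bn ℝ m j = Polynomial.C (((4 ^ j * bf (2 * m) (2 * j) : ℕ) : ℝ)⁻¹) *
      ∏ k ∈ range j, (Polynomial.C (1 : ℝ) * Polynomial.X -
        Polynomial.C ((2 * ((k % m : ℕ) : ℝ) + 1) ^ 2)) := by
      rw [Bn, Bp]
      congr 1
      refine prod_congr rfl fun k _ => ?_
      rw [map_one, one_mul]
    rw [e]
    refine PDm.cmul (PDm.prod _ fun k _ => PDm.lin _ _ (by positivity) (by positivity)) _ ?_
    positivity
  have hf : PDm (fP ℝ h m p b j) _ := (hA.pow (h + 1)).mul hBn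
  refine (hf.sum_le n (16 * (p : ℝ) ^ 2) (by positivity)).trans ?_
  simp only [Polynomial.eval_mul, Polynomial.eval_pow, Polynomial.eval_C, Polynomial.eval_prod,
    Polynomial.eval_add, Polynomial.eval_X]
  set w := 5.66 * (b : ℝ) * p with hw
  have hw2 : 32 * ((b : ℝ) ^ 2 * (p : ℝ) ^ 2) ≤ w ^ 2 := by
    rw [hw]
    have : (5.66 * (b : ℝ) * p) ^ 2 = 32.0356 * ((b : ℝ) ^ 2 * (p : ℝ) ^ 2) := by ring
    rw [this]
    have h0 : (0 : ℝ) ≤ (b : ℝ) ^ 2 * (p : ℝ) ^ 2 := by positivity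
    linarith
  have h1 : ((4 ^ (2 * b * p) * bf (2 * m) (4 * b * p) : ℕ) : ℝ)⁻¹ *
      ∏ k ∈ range (2 * b * p), ((b : ℝ) ^ 2 * (16 * (p : ℝ) ^ 2) + (2 * (k : ℝ) + 1) ^ 2) ≤
      E ^ (2 * b * p) * Real.exp ((2 * m : ℕ) : ℝ) := by
    have h2 : ∏ k ∈ range (2 * b * p), ((b : ℝ) ^ 2 * (16 * (p : ℝ) ^ 2) + (2 * (k : ℝ) + 1) ^ 2) ≤
        (w ^ 2) ^ (2 * b * p) := by
      have h3 : ∏ k ∈ range (2 * b * p), (w ^ 2) = (w ^ 2) ^ (2 * b * p) := by simp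
      rw [← h3]
      refine prod_le_prod (fun k _ => by positivity) fun k hk => ?_
      have hk1 : 2 * (k : ℝ) + 1 ≤ 4 * b * p := by
        have : 2 * k + 1 ≤ 4 * b * p := by
          have h5 := mem_range.1 hk
          have h6 : 4 * b * p = 2 * (2 * b * p) := by ring
          omega
        exact_mod_cast this
      have hk2 : (2 * (k : ℝ) + 1) ^ 2 ≤ (4 * b * p : ℝ) ^ 2 :=
        pow_le_pow_left₀ (by positivity) hk1 2
      nlinarith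
    have h4 : 4 * b * p = 2 * (2 * b * p) := by ring
    refine (mul_le_mul_of_nonneg_left h2 (by positivity)).trans ?_
    rw [h4]
    exact div_bf_le hM (2 * b * p) w
  have h5 : ((4 ^ j * bf (2 * m) (2 * j) : ℕ) : ℝ)⁻¹ *
      ∏ k ∈ range j, (1 * (16 * (p : ℝ) ^ 2) + (2 * ((k % m : ℕ) : ℝ) + 1) ^ 2) ≤
      E ^ j * Real.exp ((2 * m : ℕ) : ℝ) := by
    have h2 : ∏ k ∈ range j, (1 * (16 * (p : ℝ) ^ 2) + (2 * ((k % m : ℕ) : ℝ) + 1) ^ 2) ≤
        (w ^ 2) ^ j := by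
      have h3 : ∏ k ∈ range j, (w ^ 2) = (w ^ 2) ^ j := by simp
      rw [← h3]
      refine prod_le_prod (fun k _ => by positivity) fun k hk => ?_
      have hk1 : 2 * ((k % m : ℕ) : ℝ) + 1 ≤ 2 * p := by
        have : 2 * (k % m) + 1 ≤ 2 * p := by
          have := Nat.mod_lt k (by omega : 0 < m)
          omega
        exact_mod_cast this
      have hk2 : (2 * ((k % m : ℕ) : ℝ) + 1) ^ 2 ≤ (2 * p : ℝ) ^ 2 :=
        pow_le_pow_left₀ (by positivity) hk1 2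
      have hb2 : (1 : ℝ) ≤ (b : ℝ) ^ 2 := one_le_pow₀ hbR
      have hpp : (0 : ℝ) ≤ (p : ℝ) ^ 2 := by positivity
      have : (p : ℝ) ^ 2 ≤ (b : ℝ) ^ 2 * (p : ℝ) ^ 2 := le_mul_of_one_le_left hpp hb2
      nlinarith
    refine (mul_le_mul_of_nonneg_left h2 (by positivity)).trans ?_
    exact div_bf_le hM j w
  have hpos1 : 0 ≤ ((4 ^ (2 * b * p) * bf (2 * m) (4 * b * p) : ℕ) : ℝ)⁻¹ *
      ∏ k ∈ range (2 * b * p), ((b : ℝ) ^ 2 * (16 * (p : ℝ) ^ 2) + (2 * (k : ℝ) + 1) ^ 2) := by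
    refine mul_nonneg (by positivity) (prod_nonneg fun k _ => by positivity)
  have hpos2 : 0 ≤ ((4 ^ j * bf (2 * m) (2 * j) : ℕ) : ℝ)⁻¹ *
      ∏ k ∈ range j, (1 * (16 * (p : ℝ) ^ 2) + (2 * ((k % m : ℕ) : ℝ) + 1) ^ 2) := by
    refine mul_nonneg (by positivity) (prod_nonneg fun k _ => by positivity)
  refine (mul_le_mul (pow_le_pow_left₀ hpos1 h1 (h + 1)) h5 hpos2 (by positivity)).trans ?_
  have h6 : Real.exp ((h + 2) * (2 * m)) = Real.exp ((2 * m : ℕ) : ℝ) ^ (h + 2) := by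
    rw [← Real.exp_nat_mul]
    congr 1
    push_cast
    ring
  rw [h6, mul_pow, ← pow_mul, pow_add E, mul_comm (h + 1) (2 * b * p), pow_succ _ (h + 1)]
  apply le_of_eq
  ring

/-! ### the moments -/

private theorem eta4_le (h p b m : ℕ) (h2 : 2 ≤ h) (hp : 1 ≤ p) (hb : 1 ≤ b) :
    0 ≤ eta4 h p b m ∧ eta4 h p b m ≤
      2 ^ (h + 2) * ((b : ℝ) ^ 2 / 2) * ((2 * m + h).choose h : ℝ) *
        ((16 * (p : ℝ) ^ 2) ^ m)⁻¹ := by
  have hbR : (1 : ℝ) ≤ b := by exact_mod_cast hb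
  have hpR : (1 : ℝ) ≤ p := by exact_mod_cast hp
  have hnn : ∀ i : ℕ, 0 ≤ (if 4 * (p : ℝ) ≤ nd p b (i + 1) then
    2 ^ (h + 2) * ((2 * m + h).choose h : ℝ) * ((nd p b (i + 1))⁻¹) ^ (h + 1 + 2 * m) else 0) := by
    intro i
    split_ifs with hi
    · have : 0 < nd p b (i + 1) := by linarith
      positivity
    · exact le_rfl
  have hle : ∀ i : ℕ, (if 4 * (p : ℝ) ≤ nd p b (i + 1) then
    2 ^ (h + 2) * ((2 * m + h).choose h : ℝ) * ((nd p b (i + 1))⁻¹) ^ (h + 1 + 2 * m) else 0) ≤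
      (2 ^ (h + 2) * ((2 * m + h).choose h : ℝ) * ((16 * (p : ℝ) ^ 2) ^ m)⁻¹ *
        ((b : ℝ) ^ 2 / 4)) * (1 / ((i : ℝ) + 1) ^ 2) := by
    intro i
    split_ifs with hi
    · have hs0 : 0 < nd p b (i + 1) := by linarith
      have hs1 : 1 ≤ nd p b (i + 1) := by linarith
      set s := nd p b (i + 1) with hs
      have e1 : s⁻¹ ≤ b / (2 * ((i : ℝ) + 1)) := by
        rw [inv_le_comm₀ hs0 (by positivity), inv_div, hs, nd]
        push_cast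
        linarith
      have e2 : (s⁻¹) ^ 2 ≤ (b : ℝ) ^ 2 / 4 * (1 / ((i : ℝ) + 1) ^ 2) := by
        calc (s⁻¹) ^ 2 ≤ (b / (2 * ((i : ℝ) + 1))) ^ 2 :=
              pow_le_pow_left₀ (by positivity) e1 2
          _ = _ := by field_simp; ring
      have e3 : (s⁻¹) ^ (h - 1) ≤ 1 := pow_le_one₀ (by positivity) (inv_le_one_of_one_le₀ hs1)
      have e4 : (s⁻¹) ^ (2 * m) ≤ ((16 * (p : ℝ) ^ 2) ^ m)⁻¹ := by
        rw [pow_mul, ← inv_pow]
        apply pow_le_pow_left₀ (by positivity)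
        rw [inv_pow, inv_le_inv₀ (by positivity) (by positivity)]
        nlinarith
      have e5 : (s⁻¹) ^ (h + 1 + 2 * m) = (s⁻¹) ^ 2 * (s⁻¹) ^ (h - 1) * (s⁻¹) ^ (2 * m) := by
        rw [← pow_add, ← pow_add]
        congr 1
        omega
      have e6 : (s⁻¹) ^ (h + 1 + 2 * m) ≤ ((b : ℝ) ^ 2 / 4 * (1 / ((i : ℝ) + 1) ^ 2)) * 1 *
          ((16 * (p : ℝ) ^ 2) ^ m)⁻¹ := by
        rw [e5]
        gcongr
      calc 2 ^ (h + 2) * ((2 * m + h).choose h : ℝ) * (s⁻¹) ^ (h + 1 + 2 * m)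
          ≤ 2 ^ (h + 2) * ((2 * m + h).choose h : ℝ) *
            (((b : ℝ) ^ 2 / 4 * (1 / ((i : ℝ) + 1) ^ 2)) * 1 * ((16 * (p : ℝ) ^ 2) ^ m)⁻¹) := by
              gcongr
        _ = _ := by ring
    · positivity
  have hsum := hasSum_inv_sq.mul_left (2 ^ (h + 2) * ((2 * m + h).choose h : ℝ) *
    ((16 * (p : ℝ) ^ 2) ^ m)⁻¹ * ((b : ℝ) ^ 2 / 4))
  have hs1 : Summable (fun i : ℕ => if 4 * (p : ℝ) ≤ nd p b (i + 1) then
    2 ^ (h + 2) * ((2 * m + h).choose h : ℝ) * ((nd p b (i + 1))⁻¹) ^ (h + 1 + 2 * m) else 0) :=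
    Summable.of_nonneg_of_le hnn hle hsum.summable
  refine ⟨tsum_nonneg hnn, ?_⟩
  have h3 := hs1.tsum_le_tsum hle hsum.summable
  rw [hsum.tsum_eq] at h3
  refine (le_trans (by unfold eta4; exact h3) ?_)
  have hpi : Real.pi ^ 2 / 6 ≤ 2 := by
    have := Real.pi_lt_d2
    have h0 := Real.pi_pos
    nlinarith
  calc _ ≤ (2 ^ (h + 2) * ((2 * m + h).choose h : ℝ) * ((16 * (p : ℝ) ^ 2) ^ m)⁻¹ *
        ((b : ℝ) ^ 2 / 4)) * 2 := by gcongr
    _ = _ := by ring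

private theorem pow_geo (h : ℕ) : ∃ C : ℝ, 0 < C ∧ ∀ k : ℕ, ((1 : ℝ) + k) ^ h * (9 / 16 : ℝ) ^ k ≤
    C * (4 / 5 : ℝ) ^ (2 * k) := by
  have ht := tendsto_pow_const_mul_const_pow_of_abs_lt_one h
    (r := (225 / 256 : ℝ)) (by rw [abs_of_pos (by norm_num)]; norm_num)
  obtain ⟨C, hC⟩ := ht.bddAbove_range
  refine ⟨max C 1 / (225 / 256), by positivity, fun k => ?_⟩
  have h1 : ((k + 1 : ℕ) : ℝ) ^ h * (225 / 256 : ℝ) ^ (k + 1) ≤ C := hC ⟨k + 1, rfl⟩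
  have h2 : (4 / 5 : ℝ) ^ (2 * k) = (16 / 25 : ℝ) ^ k := by
    rw [pow_mul]; norm_num
  have h3 : (9 / 16 : ℝ) ^ k = (225 / 256 : ℝ) ^ k * (16 / 25 : ℝ) ^ k := by
    rw [← mul_pow]; norm_num
  rw [h2, h3, ← mul_assoc]
  refine mul_le_mul_of_nonneg_right ?_ (by positivity)
  rw [le_div_iff₀ (by norm_num)]
  refine le_trans ?_ (le_max_left _ _)
  refine le_trans (le_of_eq ?_) h1
  push_cast
  ring

private theorem re_le (B b p m : ℕ) (σ : ℝ) (hp : 1 ≤ p) (hm : 1 ≤ m)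
    (hσ : (2 * p + 1 : ℝ) ≤ σ * (2 * m)) (hσ1 : 1 ≤ σ) (hbR : (b : ℝ) ≤ 2 * B) :
    ((2 * p + 1 : ℝ) ^ 2) / (16 * (p : ℝ) ^ 2) *
      (5.66 * (b : ℝ) * p * Real.exp 1 / (2 * ((2 * m : ℕ) : ℝ))) ^ 2 ≤
      15 * (B : ℝ) ^ 2 * σ ^ 2 := by
  have hpR : (1 : ℝ) ≤ p := by exact_mod_cast hp
  have hmR : (1 : ℝ) ≤ m := by exact_mod_cast hm
  have e1 : ((2 * p + 1 : ℝ) ^ 2) / (16 * (p : ℝ) ^ 2) *
      (5.66 * (b : ℝ) * p * Real.exp 1 / (2 * ((2 * m : ℕ) : ℝ))) ^ 2 =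
      ((2 * p + 1 : ℝ) / (2 * m) * (5.66 * b * Real.exp 1 / 8)) ^ 2 := by
    push_cast
    field_simp
    ring
  rw [e1]
  have e2 : (2 * p + 1 : ℝ) / (2 * m) ≤ σ := by
    rw [div_le_iff₀ (by positivity)]
    exact hσ
  have hb0 : (0 : ℝ) ≤ b := by positivity
  have e3 : 5.66 * (b : ℝ) * Real.exp 1 / 8 ≤ 3.848 * B := by
    have h1 := Real.exp_one_lt_d9
    have h0 := Real.exp_pos 1
    have e4 : (b : ℝ) * Real.exp 1 ≤ 2 * B * 2.7182818286 :=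
      mul_le_mul hbR h1.le h0.le (by linarith)
    have hB0 : (0 : ℝ) ≤ B := by positivity
    linarith
  calc ((2 * p + 1 : ℝ) / (2 * m) * (5.66 * b * Real.exp 1 / 8)) ^ 2
      ≤ (σ * (3.848 * B)) ^ 2 := by
        apply pow_le_pow_left₀ (by positivity)
        exact mul_le_mul e2 e3 (by positivity) (by linarith)
    _ = 14.807104 * ((B : ℝ) ^ 2 * σ ^ 2) := by ring
    _ ≤ 15 * ((B : ℝ) ^ 2 * σ ^ 2) := by
        have : 0 ≤ (B : ℝ) ^ 2 * σ ^ 2 := by positivity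
        linarith
    _ = _ := by ring

private theorem key_le (Y E W X : ℝ) (n D k : ℕ) (hY : 0 < Y) (hE : 0 ≤ E)
    (hR1 : W ^ 2 / Y ≤ 9 / 16) (hRE : W ^ 2 / Y * E ≤ X) (hX1 : 1 ≤ X) (hDn : D ≤ n) :
    (Y ^ (n + k))⁻¹ * E ^ D * W ^ (2 * (n + k)) ≤ X ^ n * (9 / 16 : ℝ) ^ k := by
  have hR0 : 0 ≤ W ^ 2 / Y := by positivity
  have e1 : (Y ^ (n + k))⁻¹ * E ^ D * W ^ (2 * (n + k)) = (W ^ 2 / Y) ^ (n + k) * E ^ D := by
    rw [div_pow, ← pow_mul]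
    field_simp
  rw [e1]
  set R := W ^ 2 / Y with hR
  have e2 : R ^ (n + k) * E ^ D = (R * E) ^ D * R ^ (n - D) * R ^ k := by
    rw [mul_pow]
    have : R ^ (n + k) = R ^ D * R ^ (n - D) * R ^ k := by
      rw [← pow_add, ← pow_add]
      congr 1
      omega
    rw [this]; ring
  rw [e2]
  have e3 : (R * E) ^ D ≤ X ^ n :=
    (pow_le_pow_left₀ (by positivity) hRE D).trans (pow_le_pow_right₀ hX1 hDn)
  have e4 : R ^ (n - D) ≤ 1 := pow_le_one₀ hR0 (hR1.trans (by norm_num))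
  have e5 : R ^ k ≤ (9 / 16 : ℝ) ^ k := pow_le_pow_left₀ hR0 hR1 k
  calc (R * E) ^ D * R ^ (n - D) * R ^ k
      ≤ X ^ n * 1 * (9 / 16 : ℝ) ^ k :=
        mul_le_mul (mul_le_mul e3 e4 (by positivity) (by positivity)) e5 (by positivity)
          (by positivity)
    _ = _ := by ring

private theorem cast_le (B h n k p : ℕ) (hp : 1 ≤ p) (hn : n = 4 * B * ((h + 1) * p)) :
    ((2 * (n + k) + h : ℕ) : ℝ) ≤ (8 * (B : ℝ) * (h + 1) + h + 2) * (p * (1 + k)) := by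
  have h1 : 2 * (n + k) + h ≤ (8 * B * (h + 1) + h + 2) * (p * (1 + k)) := by
    rw [hn]
    have e1 : (8 * B * (h + 1) + h + 2) * (p * (1 + k)) =
        8 * B * (h + 1) * p + 8 * B * (h + 1) * (p * k) + h * p + h * (p * k) + 2 * p +
          2 * (p * k) := by ring
    have e2 : 2 * (4 * B * ((h + 1) * p) + k) + h = 8 * B * (h + 1) * p + 2 * k + h := by ring
    rw [e1, e2]
    have e3 : k ≤ p * k := Nat.le_mul_of_pos_left _ hp
    have e4 : h ≤ h * p := Nat.le_mul_of_pos_right _ hp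
    omega
  exact_mod_cast h1

private theorem choose_le_pow' (a c : ℕ) : a.choose c ≤ a ^ c := by
  have h1 : ((a.choose c : ℕ) : ℚ) ≤ (a : ℚ) ^ c / (c.factorial : ℚ) := Nat.choose_le_pow_div c a
  have h2 : (a : ℚ) ^ c / (c.factorial : ℚ) ≤ (a : ℚ) ^ c := by
    apply div_le_self (by positivity)
    exact_mod_cast Nat.succ_le_of_lt (Nat.factorial_pos c)
  exact_mod_cast h1.trans h2

theorem an4_bound (B h : ℕ) (hB : 1 ≤ B) (hh : Even h) (h2 : 2 ≤ h) :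
    ∃ C0 : ℝ, 0 < C0 ∧ ∀ (m p β j : ℕ) (σ : ℝ), 1 ≤ p → 1 ≤ m → m ≤ p →
      (2 * p + 1 : ℝ) ≤ σ * (2 * m) → 1 ≤ σ → β < B →
      j < (4 * B - 2 * (2 * β + 1)) * ((h + 1) * p) → ∀ k,
      |gam4 h p (2 * β + 1) (4 * B * ((h + 1) * p)) (fP ℝ h m p (2 * β + 1) j) k| *
        (2 * p + 1 : ℝ) ^ (2 * (4 * B * ((h + 1) * p) + k)) ≤
      (C0 * (p : ℝ) ^ h * (15 * (B : ℝ) ^ 2 * σ ^ 2) ^ (4 * B * ((h + 1) * p)) *
        Real.exp ((h + 2) * (2 * m))) * (4 / 5 : ℝ) ^ (2 * k) := by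
  obtain ⟨Ch, hCh, hgeo⟩ := pow_geo h
  have hBR : (1 : ℝ) ≤ B := by exact_mod_cast hB
  set P : ℝ := 8 * B * (h + 1) + h + 2 with hP
  refine ⟨2 ^ (h + 2) * (2 * (B : ℝ) ^ 2) * P ^ h * Ch, by positivity, ?_⟩
  intro m p β j σ hp hm hmp hσ hσ1 hβ hj k
  have hpR : (1 : ℝ) ≤ p := by exact_mod_cast hp
  have hmR : (1 : ℝ) ≤ m := by exact_mod_cast hm
  set b := 2 * β + 1 with hb
  have hb1 : 1 ≤ b := by omega
  have hb2 : b < 2 * B := by omega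
  have hbR : (b : ℝ) ≤ 2 * B := by exact_mod_cast hb2.le
  have hb1R : (1 : ℝ) ≤ b := by exact_mod_cast hb1
  set n := 4 * B * ((h + 1) * p) with hn
  set D := (h + 1) * (2 * b * p) + j with hD
  have hDn : D ≤ n := by
    have e1 : (4 * B - 2 * b) * ((h + 1) * p) + 2 * b * ((h + 1) * p) = 4 * B * ((h + 1) * p) := by
      rw [← add_mul]
      congr 1
      omega
    have e2 : (h + 1) * (2 * b * p) = 2 * b * ((h + 1) * p) := by ring
    omega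
  set f := fP ℝ h m p b j with hf
  set Y : ℝ := 16 * (p : ℝ) ^ 2 with hY
  have hY0 : 0 < Y := by positivity
  set Bin : ℝ := P ^ h * ((p : ℝ) ^ h * (1 + (k : ℝ)) ^ h) with hBin
  -- bound of the moments
  have heta : ∀ i ∈ range n, eta4 h p b (n + k - i) ≤
      2 ^ (h + 2) * (2 * (B : ℝ) ^ 2) * Bin * ((Y ^ (n + k))⁻¹ * Y ^ i) := by
    intro i hi
    have hin : i < n := mem_range.1 hi
    have h3 := (eta4_le h p b (n + k - i) h2 hp hb1).2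
    have hch : ((2 * (n + k - i) + h).choose h : ℝ) ≤ Bin := by
      have h4 : (2 * (n + k - i) + h).choose h ≤ (2 * (n + k) + h) ^ h := by
        calc (2 * (n + k - i) + h).choose h ≤ (2 * (n + k) + h).choose h :=
              Nat.choose_le_choose h (by omega)
          _ ≤ (2 * (n + k) + h) ^ h := choose_le_pow' _ _
      have h5 : ((2 * (n + k) + h : ℕ) : ℝ) ≤ P * (p * (1 + k)) := cast_le B h n k p hp hn
      calc ((2 * (n + k - i) + h).choose h : ℝ) ≤ (((2 * (n + k) + h : ℕ) : ℝ)) ^ h := by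
            exact_mod_cast h4
        _ ≤ (P * (p * (1 + k))) ^ h := pow_le_pow_left₀ (by positivity) h5 h
        _ = Bin := by rw [hBin, mul_pow, mul_pow]
    have hYe : (Y ^ (n + k - i))⁻¹ = (Y ^ (n + k))⁻¹ * Y ^ i := by
      have : Y ^ (n + k) = Y ^ (n + k - i) * Y ^ i := by
        rw [← pow_add]
        congr 1
        omega
      rw [this, mul_inv, mul_assoc, inv_mul_cancel₀ (by positivity), mul_one]
    rw [hYe] at h3
    refine h3.trans ?_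
    have hb3 : (b : ℝ) ^ 2 / 2 ≤ 2 * (B : ℝ) ^ 2 := by nlinarith
    gcongr
  -- bound of `gam4`
  have hgam : |gam4 h p b n f k| ≤ 2 ^ (h + 2) * (2 * (B : ℝ) ^ 2) * Bin *
      ((Y ^ (n + k))⁻¹ * ∑ i ∈ range n, |f.coeff i| * Y ^ i) := by
    unfold gam4
    refine (abs_sum_le_sum_abs _ _).trans ?_
    rw [mul_sum, mul_sum]
    refine sum_le_sum fun i hi => ?_
    rw [abs_mul, abs_of_nonneg (eta4_le h p b (n + k - i) h2 hp hb1).1]
    refine (mul_le_mul_of_nonneg_left (heta i hi) (abs_nonneg _)).trans (le_of_eq ?_)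
    ring
  have hsum := fP_sum_le h m p b j n hm hp hmp hb1
  rw [← hf, ← hY, ← hD] at hsum
  set E : ℝ := (5.66 * (b : ℝ) * p * Real.exp 1 / (2 * ((2 * m : ℕ) : ℝ))) ^ 2 with hE
  have hR1 : ((2 * p + 1 : ℝ) ^ 2) / Y ≤ 9 / 16 := by
    rw [hY, div_le_iff₀ (by positivity)]
    nlinarith
  have hRE : ((2 * p + 1 : ℝ) ^ 2) / Y * E ≤ 15 * (B : ℝ) ^ 2 * σ ^ 2 :=
    re_le B b p m σ hp hm hσ hσ1 hbR
  have hX1 : (1 : ℝ) ≤ 15 * (B : ℝ) ^ 2 * σ ^ 2 := by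
    have e1 : (1 : ℝ) ≤ (B : ℝ) ^ 2 := one_le_pow₀ hBR
    have e2 : (1 : ℝ) ≤ σ ^ 2 := one_le_pow₀ hσ1
    have e3 : (1 : ℝ) ≤ (B : ℝ) ^ 2 * σ ^ 2 := one_le_mul_of_one_le_of_one_le e1 e2
    calc (1 : ℝ) ≤ 15 * ((B : ℝ) ^ 2 * σ ^ 2) := by linarith
      _ = _ := by ring
  have hE0 : 0 ≤ E := by positivity
  have key := key_le Y E (2 * p + 1) (15 * (B : ℝ) ^ 2 * σ ^ 2) n D k hY0 hE0 hR1 hRE hX1 hDn
  have hgam2 : |gam4 h p b n f k| ≤ 2 ^ (h + 2) * (2 * (B : ℝ) ^ 2) * Bin *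
      ((Y ^ (n + k))⁻¹ * (E ^ D * Real.exp ((h + 2) * (2 * m)))) := by
    refine hgam.trans (mul_le_mul_of_nonneg_left (mul_le_mul_of_nonneg_left hsum ?_) ?_)
    · positivity
    · positivity
  clear_value f Y E D n
  calc |gam4 h p b n f k| * (2 * p + 1 : ℝ) ^ (2 * (n + k))
      ≤ (2 ^ (h + 2) * (2 * (B : ℝ) ^ 2) * Bin *
        ((Y ^ (n + k))⁻¹ * (E ^ D * Real.exp ((h + 2) * (2 * m))))) *
        (2 * p + 1 : ℝ) ^ (2 * (n + k)) := mul_le_mul_of_nonneg_right hgam2 (by positivity)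
    _ = 2 ^ (h + 2) * (2 * (B : ℝ) ^ 2) * Bin * Real.exp ((h + 2) * (2 * m)) *
        ((Y ^ (n + k))⁻¹ * E ^ D * (2 * p + 1 : ℝ) ^ (2 * (n + k))) := by ring
    _ ≤ 2 ^ (h + 2) * (2 * (B : ℝ) ^ 2) * Bin * Real.exp ((h + 2) * (2 * m)) *
        ((15 * (B : ℝ) ^ 2 * σ ^ 2) ^ n * (9 / 16 : ℝ) ^ k) := by
        refine mul_le_mul_of_nonneg_left key ?_
        positivity
    _ = 2 ^ (h + 2) * (2 * (B : ℝ) ^ 2) * P ^ h * (p : ℝ) ^ h *
        Real.exp ((h + 2) * (2 * m)) * (15 * (B : ℝ) ^ 2 * σ ^ 2) ^ n *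
        ((1 + (k : ℝ)) ^ h * (9 / 16 : ℝ) ^ k) := by rw [hBin]; ring
    _ ≤ 2 ^ (h + 2) * (2 * (B : ℝ) ^ 2) * P ^ h * (p : ℝ) ^ h *
        Real.exp ((h + 2) * (2 * m)) * (15 * (B : ℝ) ^ 2 * σ ^ 2) ^ n *
        (Ch * (4 / 5 : ℝ) ^ (2 * k)) := by
        refine mul_le_mul_of_nonneg_left (hgeo k) ?_
        positivity
    _ = _ := by ring

end Pool.Agent.ZC
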