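import Pool.Agent.ZC.HS
import Pool.Agent.ZC.BDG

/-!
# ZC V4: near nodes
-/

namespace Pool.Agent.ZC

open Finset

open Polynomial in
/-- `(s-σ)^(h+1) + (s+σ)^(h+1)` as a polynomial in `σ²` -/
noncomputable def evN (s : ℝ) (h : ℕ) : ℝ[X] :=
  ∑ i ∈ range (h + 2), if Even i then C (2 * ((h + 1).choose i : ℝ) * s ^ (h + 1 - i)) * X ^ (i / 2) else 0

open Polynomial in
theorem natDegree_evN (s : ℝ) (h : ℕ) (hh : Even h) : (evN s h).natDegree ≤ h / 2 := by
  refine Polynomial.natDegree_sum_le_of_forall_le _ _ fun i hi => ?_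
  rw [Finset.mem_range] at hi
  obtain ⟨e, he⟩ := hh
  split_ifs with h1
  · refine (Polynomial.natDegree_C_mul_X_pow_le _ _).trans ?_
    obtain ⟨f, hf⟩ := h1
    omega
  · simp

open Polynomial in
theorem aeval_evN (s : ℝ) (h : ℕ) (σ : PowerSeries ℝ) :
    (PowerSeries.C s - σ) ^ (h + 1) + (PowerSeries.C s + σ) ^ (h + 1) = aeval (σ ^ 2) (evN s h) := by
  have e1 : (PowerSeries.C s - σ) ^ (h + 1) = ∑ i ∈ range (h + 2),
      (-σ) ^ i * PowerSeries.C s ^ (h + 1 - i) * ((h + 1).choose i : PowerSeries ℝ) := by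
    rw [sub_eq_add_neg, add_comm, add_pow]
  have e2 : (PowerSeries.C s + σ) ^ (h + 1) = ∑ i ∈ range (h + 2),
      σ ^ i * PowerSeries.C s ^ (h + 1 - i) * ((h + 1).choose i : PowerSeries ℝ) := by
    rw [add_comm, add_pow]
  rw [e1, e2, ← Finset.sum_add_distrib, evN, map_sum]
  refine Finset.sum_congr rfl fun i _ => ?_
  split_ifs with h1
  · rw [map_mul, map_pow, aeval_C, aeval_X, h1.neg_pow, ← pow_mul]
    have h2 : 2 * (i / 2) = i := Nat.two_mul_div_two_of_even h1
    rw [h2]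
    have h3 : (algebraMap ℝ (PowerSeries ℝ)) (2 * ((h + 1).choose i : ℝ) * s ^ (h + 1 - i)) =
        2 * ((h + 1).choose i : PowerSeries ℝ) * PowerSeries.C s ^ (h + 1 - i) := by
      rw [PowerSeries.algebraMap_apply]
      simp only [Algebra.algebraMap_self, RingHom.id_apply, map_mul, map_pow, map_natCast]
      congr 2
    rw [h3]
    ring
  · rw [map_zero, (Nat.not_even_iff_odd.1 h1).neg_pow]
    ring

open Polynomial in
theorem an4_near (h m p b j n : ℕ) (hh : Even h) (hp : 1 ≤ p) (hb : Odd b)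
    (hn : (h + 1) * (2 * b * p) + j < n) (k : ℕ) (hk : 1 ≤ k) (hkp : nd p b k < 4 * p) :
    ∃ q ∈ degreeLT ℝ n, ∀ l < p, ev ℝ p l (fP ℝ h m p b j) *
      hs ℝ h (PowerSeries.C (4 * nd p b k) * (PowerSeries.C (nd p b k ^ 2) - yl ℝ p l)⁻¹) =
        ev ℝ p l q := by
  set s := nd p b k with hs_def
  have hbpos : (0 : ℝ) < b := by exact_mod_cast hb.pos
  have hroot : (X - C (s ^ 2)) ∣ An ℝ (2 * m) p b := dvd_iff_isRoot.2 (an_root (2 * m) p b k hp hb hk hkp)
  have hdvd : (X - C (s ^ 2)) ^ (h + 1) ∣ fP ℝ h m p b j := by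
    rw [fP]
    exact Dvd.dvd.mul_right (pow_dvd_pow_of_dvd hroot _) _
  obtain ⟨g, hg⟩ := hdvd
  have hfdeg : (fP ℝ h m p b j).natDegree ≤ (h + 1) * (2 * b * p) + j := by
    rw [fP]
    refine natDegree_mul_le.trans (Nat.add_le_add ?_ ?_)
    · refine natDegree_pow_le.trans (Nat.mul_le_mul_left _ ?_)
      rw [An]
      refine (natDegree_C_mul_le _ _).trans ?_
      refine natDegree_comp_le.trans ?_
      have h1 : (Cp ℝ (2 * b * p)).natDegree ≤ 2 * b * p := by
        rw [Cp]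
        refine (natDegree_prod_le _ _).trans ?_
        simp only [natDegree_X_sub_C, Finset.sum_const, Finset.card_range, smul_eq_mul, mul_one, le_refl]
      have h2 : (C ((b : ℝ) ^ 2) * X : ℝ[X]).natDegree ≤ 1 :=
        (natDegree_C_mul_le _ _).trans natDegree_X_le
      calc _ ≤ 2 * b * p * 1 := Nat.mul_le_mul h1 h2
        _ = 2 * b * p := by ring
    · rw [Bn]
      refine (natDegree_C_mul_le _ _).trans ?_
      rw [Bp]
      refine (natDegree_prod_le _ _).trans ?_
      simp only [natDegree_X_sub_C, Finset.sum_const, Finset.card_range, smul_eq_mul, mul_one, le_refl]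
  refine ⟨-(C (2 ^ (h + 1)) * (g * evN s h)), ?_, fun l hl => ?_⟩
  · rw [mem_degreeLT, degree_neg]
    by_cases hg0 : g = 0
    · rw [hg0]; simp
    refine lt_of_le_of_lt degree_le_natDegree ?_
    have h1 : g.natDegree + (h + 1) ≤ (h + 1) * (2 * b * p) + j := by
      have h2 : (fP ℝ h m p b j).natDegree = (h + 1) + g.natDegree := by
        rw [hg, natDegree_mul (pow_ne_zero _ (X_sub_C_ne_zero _)) hg0, natDegree_pow, natDegree_X_sub_C,
          mul_one]
      omega
    have h3 : (C ((2 : ℝ) ^ (h + 1)) * (g * evN s h)).natDegree ≤ g.natDegree + h / 2 :=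
      (natDegree_C_mul_le _ _).trans (natDegree_mul_le.trans (Nat.add_le_add_left (natDegree_evN s h hh) _))
    have h4 : (C ((2 : ℝ) ^ (h + 1)) * (g * evN s h)).natDegree < n := by omega
    exact_mod_cast h4
  · -- the identity
    set σ : PowerSeries ℝ := PowerSeries.C (2 * (p : ℝ) - 1 - 2 * (l : ℝ)) + PowerSeries.C (2 : ℝ) * PowerSeries.X
      with hσ
    have hyl : yl ℝ p l = σ ^ 2 := rfl
    set cA : ℝ := (k : ℝ) / b + l with hcA
    set cB : ℝ := (k : ℝ) / b + (2 * p - 1 - l) with hcB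
    have hkb : 0 < (k : ℝ) / b := div_pos (by exact_mod_cast hk) hbpos
    have hcA0 : cA ≠ 0 := by positivity
    have hl' : (l : ℝ) ≤ 2 * p - 1 := by
      have h1 : (l : ℝ) + 1 ≤ p := by exact_mod_cast hl
      have h2 : (1 : ℝ) ≤ p := by exact_mod_cast hp
      linarith
    have hcB0 : cB ≠ 0 := by
      have : 0 < cB := by rw [hcB]; linarith
      exact this.ne'
    have hC2 : (PowerSeries.C (2 : ℝ)) = 2 := map_ofNat _ 2
    have hA : PowerSeries.C s - σ = 2 * (PowerSeries.C cA - PowerSeries.X) := by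
      rw [hσ, hC2, ← hC2, hs_def, nd, hcA]
      have : (2 * (k : ℝ) / b + (2 * p - 1)) = 2 * ((k : ℝ) / b + l) + (2 * (p : ℝ) - 1 - 2 * l) := by ring
      rw [this, map_add, map_mul]
      ring
    have hB : PowerSeries.C s + σ = 2 * (PowerSeries.C cB + PowerSeries.X) := by
      rw [hσ, hC2, ← hC2, hs_def, nd, hcB]
      have : (2 * (k : ℝ) / b + (2 * p - 1)) = 2 * ((k : ℝ) / b + (2 * p - 1 - l)) -
        (2 * (p : ℝ) - 1 - 2 * l) := by ring
      rw [this, map_sub, map_mul]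
      ring
    have hprod : PowerSeries.C (s ^ 2) - yl ℝ p l =
        4 * ((PowerSeries.C cA - PowerSeries.X) * (PowerSeries.C cB + PowerSeries.X)) := by
      have h1 : PowerSeries.C (s ^ 2) - yl ℝ p l = (PowerSeries.C s - σ) * (PowerSeries.C s + σ) := by
        rw [hyl, map_pow]; ring
      rw [h1, hA, hB]; ring
    have hAi : (PowerSeries.C cA - PowerSeries.X) * (PowerSeries.C cA - PowerSeries.X)⁻¹ = 1 :=
      PowerSeries.mul_inv_cancel _ (by simpa using hcA0)
    have hBi : (PowerSeries.C cB + PowerSeries.X) * (PowerSeries.C cB + PowerSeries.X)⁻¹ = 1 :=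
      PowerSeries.mul_inv_cancel _ (by simpa using hcB0)
    have hker : PowerSeries.C (4 * s) * (PowerSeries.C (s ^ 2) - yl ℝ p l)⁻¹ =
        (PowerSeries.C cA - PowerSeries.X)⁻¹ + (PowerSeries.C cB + PowerSeries.X)⁻¹ := by
      rw [eq_comm, PowerSeries.eq_mul_inv_iff_mul_eq, hprod]
      · have h1 : ((PowerSeries.C cA - PowerSeries.X)⁻¹ + (PowerSeries.C cB + PowerSeries.X)⁻¹) *
            (4 * ((PowerSeries.C cA - PowerSeries.X) * (PowerSeries.C cB + PowerSeries.X))) =
            4 * ((PowerSeries.C cB + PowerSeries.X) + (PowerSeries.C cA - PowerSeries.X)) := by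
          linear_combination (4 * (PowerSeries.C cB + PowerSeries.X)) * hAi +
            (4 * (PowerSeries.C cA - PowerSeries.X)) * hBi
        rw [h1]
        have h2 : s = cA + cB := by rw [hs_def, nd, hcA, hcB]; ring
        have h3 : (PowerSeries.C (4 : ℝ)) = 4 := map_ofNat _ 4
        have h5 : PowerSeries.C (4 * s) = 4 * (PowerSeries.C cA + PowerSeries.C cB) := by
          rw [h2, map_mul, map_add PowerSeries.C cA cB, h3]
        rw [h5]
        ring
      · rw [hprod]
        simp only [map_mul, map_sub, map_add, PowerSeries.constantCoeff_C, PowerSeries.constantCoeff_X,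
          sub_zero, add_zero]
        exact mul_ne_zero (by rw [map_ofNat]; norm_num) (mul_ne_zero hcA0 hcB0)
    rw [hker, hs_add, hs_inv_sub h cA hcA0, hs_inv_add h hh cB hcB0]
    have hN := aeval_evN s h σ
    rw [hA, hB, mul_pow, mul_pow, ← hyl] at hN
    have hev : ∀ f : ℝ[X], ev ℝ p l f = aeval (yl ℝ p l) f := fun _ => rfl
    have hfev : ev ℝ p l (fP ℝ h m p b j) = (yl ℝ p l - PowerSeries.C (s ^ 2)) ^ (h + 1) * ev ℝ p l g := by
      rw [hg, hev, hev, map_mul, map_pow, map_sub, aeval_X, aeval_C]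
      rfl
    rw [hfev, ← neg_sub (PowerSeries.C (s ^ 2)) (yl ℝ p l), hh.add_one.neg_pow, hprod]
    have hq : ev ℝ p l (-(C (2 ^ (h + 1)) * (g * evN s h))) =
        -(2 ^ (h + 1) * (ev ℝ p l g * aeval (yl ℝ p l) (evN s h))) := by
      rw [hev, hev, map_neg, map_mul, map_mul, aeval_C]
      congr 2
      rw [PowerSeries.algebraMap_apply]
      simp only [Algebra.algebraMap_self, RingHom.id_apply, map_pow]
      rw [hC2]
    rw [hq, ← hN]
    have hAip : (PowerSeries.C cA - PowerSeries.X) ^ (h + 1) * (PowerSeries.C cA - PowerSeries.X)⁻¹ ^ (h + 1) = 1 := by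
      rw [← mul_pow, hAi, one_pow]
    have hBip : (PowerSeries.C cB + PowerSeries.X) ^ (h + 1) * (PowerSeries.C cB + PowerSeries.X)⁻¹ ^ (h + 1) = 1 := by
      rw [← mul_pow, hBi, one_pow]
    have h4 : (4 : PowerSeries ℝ) ^ (h + 1) = 2 ^ (h + 1) * 2 ^ (h + 1) := by
      rw [← mul_pow]; norm_num
    rw [mul_pow, mul_pow, h4]
    linear_combination (-(2 ^ (h + 1) * 2 ^ (h + 1) * ev ℝ p l g * (PowerSeries.C cB + PowerSeries.X) ^ (h + 1))) * hAip +
      (-(2 ^ (h + 1) * 2 ^ (h + 1) * ev ℝ p l g * (PowerSeries.C cA - PowerSeries.X) ^ (h + 1))) * hBip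

end Pool.Agent.ZC
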