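import Pool.Agent.ZC.AN4A
import Pool.Agent.ZC.AN4N
import Pool.Agent.ZC.AN4B

set_option autoImplicit false

/-!
# ZC V4: expansion of the real functionals in moments, with bound (`an4`)
-/

namespace Pool.Agent.ZC

open Finset

open Polynomial in
theorem natDegree_fP_le (h m p b j : ℕ) :
    (fP ℝ h m p b j).natDegree ≤ (h + 1) * (2 * b * p) + j := by
  rw [fP]
  refine natDegree_mul_le.trans (Nat.add_le_add ?_ ?_)
  · refine natDegree_pow_le.trans (Nat.mul_le_mul_left _ ?_)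
    rw [An]
    refine (natDegree_C_mul_le _ _).trans ?_
    refine natDegree_comp_le.trans ?_
    have h1 : (Cp ℝ (2 * b * p)).natDegree ≤ 2 * b * p := by
      rw [Cp]
      refine (natDegree_prod_le _ _).trans ?_
      simp only [natDegree_X_sub_C, Finset.sum_const, Finset.card_range, smul_eq_mul, mul_one, le_refl]
    have h2 : (C ((b : ℝ) ^ 2) * X : ℝ[X]).natDegree ≤ 1 :=
      (natDegree_C_mul_le _ _).trans natDegree_X_le
    calc _ ≤ 2 * b * p * 1 := Nat.mul_le_mul h1 h2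
      _ = 2 * b * p := by ring
  · rw [Bn]
    refine (natDegree_C_mul_le _ _).trans ?_
    rw [Bp]
    refine (natDegree_prod_le _ _).trans ?_
    simp only [natDegree_X_sub_C, Finset.sum_const, Finset.card_range, smul_eq_mul, mul_one, le_refl]

open Polynomial in
theorem an4 (a B h : ℕ) (hB : 1 ≤ B) (hh : Even h) (h2 : 2 ≤ h) :
    ∃ C0 : ℝ, 0 < C0 ∧ ∀ (m p β j : ℕ) (σ : ℝ), 1 ≤ p → 1 ≤ m → m ≤ p →
      (2 * p + 1 : ℝ) ≤ σ * (2 * m) → 1 ≤ σ → β < B →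
      j < (4 * B - 2 * (2 * β + 1)) * ((h + 1) * p) →
      ∃ Q ∈ degreeLT ℝ (4 * B * ((h + 1) * p)), ∃ γ : ℕ → ℝ,
        (∀ k, |γ k| * (2 * p + 1 : ℝ) ^ (2 * (4 * B * ((h + 1) * p) + k)) ≤
          (C0 * (p : ℝ) ^ h * (15 * (B : ℝ) ^ 2 * σ ^ 2) ^ (4 * B * ((h + 1) * p)) *
            Real.exp ((h + 2) * (2 * m))) * (4 / 5 : ℝ) ^ (2 * k)) ∧
        ∀ l < p, ∀ r < a,
          HasSum (fun k : ℕ => γ k *
            PowerSeries.coeff r (yl ℝ p l ^ (4 * B * ((h + 1) * p) + k)))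
          (PowerSeries.coeff r (ev ℝ p l (fP ℝ h m p (2 * β + 1) j) *
            hs ℝ h (Gs ℝ p (2 * β + 1) l (oddS (a + h)) zr)) -
            PowerSeries.coeff r (ev ℝ p l Q)) := by
  obtain ⟨C0, hC0, hC⟩ := an4_bound B h hB hh h2
  refine ⟨C0, hC0, fun m p β j σ hp hm hmp hσ hσ1 hβ hj => ?_⟩
  set n := 4 * B * ((h + 1) * p) with hn
  have hdeg : (h + 1) * (2 * (2 * β + 1) * p) + j < n := by
    have e1 : (4 * B - 2 * (2 * β + 1)) * ((h + 1) * p) =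
        4 * B * ((h + 1) * p) - 2 * (2 * β + 1) * ((h + 1) * p) := Nat.sub_mul _ _ _
    rw [e1, ← hn] at hj
    have e2 : (h + 1) * (2 * (2 * β + 1) * p) = 2 * (2 * β + 1) * ((h + 1) * p) := by ring
    rw [e2]
    omega
  have hf : fP ℝ h m p (2 * β + 1) j ∈ degreeLT ℝ n := by
    rw [mem_degreeLT]
    refine lt_of_le_of_lt degree_le_natDegree ?_
    exact_mod_cast lt_of_le_of_lt (natDegree_fP_le h m p (2 * β + 1) j) hdeg
  obtain ⟨Q, hQ, hQ2⟩ := an4_series a h p (2 * β + 1) n hh h2 hp (by omega)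
    (fP ℝ h m p (2 * β + 1) j) hf (fun k hk hkp =>
      an4_near h m p (2 * β + 1) j n hh hp ⟨β, rfl⟩ hdeg k hk hkp)
  exact ⟨Q, hQ, gam4 h p (2 * β + 1) n (fP ℝ h m p (2 * β + 1) j),
    hC m p β j σ hp hm hmp hσ hσ1 hβ hj, hQ2⟩

end Pool.Agent.ZC
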