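import Pool.Agent.ZC.Defs4
import Pool.Agent.ZC.BDC

/-!
# ZC V4: bound for the entries of the companion rows (`bd_Bn`)
-/

namespace Pool.Agent.ZC

open Finset

theorem bdb4_ev_Bp (p l m j : ℕ) : ev ℝ p l (Bp ℝ m j) =
    ∏ k ∈ range j,
      ((PowerSeries.C ((2 * (p : ℝ) - 1 - 2 * (l : ℝ)) - (2 * ((k % m : ℕ) : ℝ) + 1)) +
        PowerSeries.C (2 : ℝ) * PowerSeries.X) *
      (PowerSeries.C ((2 * (p : ℝ) - 1 - 2 * (l : ℝ)) + (2 * ((k % m : ℕ) : ℝ) + 1)) +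
        PowerSeries.C (2 : ℝ) * PowerSeries.X)) := by
  rw [ev, Bp, map_prod]
  refine prod_congr rfl fun k _ => ?_
  rw [map_sub, Polynomial.aeval_X, Polynomial.aeval_C]
  have h : (algebraMap ℝ (PowerSeries ℝ)) ((2 * ((k % m : ℕ) : ℝ) + 1) ^ 2) =
      (PowerSeries.C (2 * ((k % m : ℕ) : ℝ) + 1)) ^ 2 := by
    rw [← map_pow]; rfl
  rw [h, yl]
  simp only [map_sub, map_add]
  ring

theorem bdb4_bd_Bp (p l m j : ℕ) (hm : 1 ≤ m) (hmp : m ≤ p) (hl : l < p) (r : ℕ) :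
    |PowerSeries.coeff r (ev ℝ p l (Bp ℝ m j))| ≤ (2 * (p : ℝ) + 1) ^ (2 * j) := by
  rw [bdb4_ev_Bp]
  refine ((BDom.prod (range j) fun k _ => (BDom.lin _).mul (BDom.lin _)).coeff_le r).trans ?_
  rw [Polynomial.eval_prod, mul_comm 2 j, pow_mul']
  have h1 : (l : ℝ) + 1 ≤ p := by exact_mod_cast hl
  have h0 : (0 : ℝ) ≤ l := by positivity
  have h2 : (m : ℝ) ≤ p := by exact_mod_cast hmp
  have h3 : ∏ k ∈ range j, ((2 * (p : ℝ) + 1) ^ 2) = ((2 * (p : ℝ) + 1) ^ 2) ^ j := by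
    simp
  rw [← h3]
  apply prod_le_prod
  · intro k _
    simp only [Polynomial.eval_mul, Polynomial.eval_add, Polynomial.eval_C, Polynomial.eval_X,
      mul_one]
    positivity
  · intro k hk
    have hk1 : ((k % m : ℕ) : ℝ) + 1 ≤ m := by
      have : k % m + 1 ≤ m := Nat.mod_lt k (by omega)
      exact_mod_cast this
    have hk0 : (0 : ℝ) ≤ ((k % m : ℕ) : ℝ) := by positivity
    simp only [Polynomial.eval_mul, Polynomial.eval_add, Polynomial.eval_C, Polynomial.eval_X,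
      mul_one]
    rw [abs_of_nonneg (a := 2 * (p : ℝ) - 1 - 2 * (l : ℝ) + (2 * ((k % m : ℕ) : ℝ) + 1))
      (by linarith)]
    rcases abs_cases (2 * (p : ℝ) - 1 - 2 * (l : ℝ) - (2 * ((k % m : ℕ) : ℝ) + 1)) with
      ⟨h4, _⟩ | ⟨h4, _⟩
    · rw [h4]
      nlinarith
    · rw [h4]
      nlinarith

/-- entries of the companion rows -/
theorem bd_Bn (m p : ℕ) (hm : 1 ≤ m) (hmp : m ≤ p) (σ : ℝ) (hσ : (2 * p + 1 : ℝ) ≤ σ * (2 * m))
    (hσ1 : 1 ≤ σ) (l : ℕ) (hl : l < p) (n j : ℕ) (hj : j ≤ n) (r : ℕ) :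
    |PowerSeries.coeff r (ev ℝ p l (Bn ℝ m j))| ≤ (4 * σ ^ 2) ^ n * Real.exp (2 * m) := by
  have h1 := bdb4_bd_Bp p l m j hm hmp hl r
  rw [Bn, ev_C_mul, PowerSeries.coeff_C_mul, abs_mul]
  have hb : (0 : ℝ) < ((4 ^ j * bf (2 * m) (2 * j) : ℕ) : ℝ) := by
    exact_mod_cast Nat.mul_pos (by positivity) (bf_pos _ _)
  rw [abs_of_pos (inv_pos.2 hb), inv_mul_le_iff₀ hb]
  refine h1.trans ?_
  have h2 := le_bf (M := 2 * m) (by omega) (2 * j)
  have hmR : (0 : ℝ) < m := by exact_mod_cast hm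
  have h3 : (4 * (m : ℝ)) ^ (2 * j) * Real.exp (-(2 * j + 2 * m)) ≤
      ((4 ^ j * bf (2 * m) (2 * j) : ℕ) : ℝ) := by
    push_cast at h2 ⊢
    have e : (4 * (m : ℝ)) ^ (2 * j) = 4 ^ j * (2 * (m : ℝ)) ^ (2 * j) := by
      rw [pow_mul, pow_mul, ← mul_pow]; congr 1; ring
    rw [e, mul_assoc]
    exact mul_le_mul_of_nonneg_left h2 (by positivity)
  have h4 : (2 * (p : ℝ) + 1) ^ (2 * j) ≤
      ((4 * (m : ℝ)) ^ (2 * j) * Real.exp (-(2 * j + 2 * m))) *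
        ((4 * σ ^ 2) ^ n * Real.exp (2 * m)) := by
    have e1 : Real.exp (-(2 * (j : ℝ) + 2 * m)) * Real.exp (2 * m) =
        (Real.exp (-1)) ^ (2 * j) := by
      rw [← Real.exp_add, ← Real.exp_nat_mul]
      congr 1; push_cast; ring
    have e2 : (4 * (m : ℝ)) ^ (2 * j) * Real.exp (-(2 * j + 2 * m)) *
        ((4 * σ ^ 2) ^ n * Real.exp (2 * m)) =
        (4 * (m : ℝ) * Real.exp (-1)) ^ (2 * j) * (4 * σ ^ 2) ^ n := by
      rw [mul_pow (4 * (m : ℝ)) (Real.exp (-1)), ← e1]; ring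
    rw [e2]
    have e3 : (4 * σ ^ 2) ^ j ≤ (4 * σ ^ 2) ^ n :=
      pow_le_pow_right₀ (by nlinarith) hj
    refine le_trans ?_ (mul_le_mul_of_nonneg_left e3 (by positivity))
    rw [pow_mul, pow_mul, ← mul_pow]
    apply pow_le_pow_left₀ (by positivity)
    have e4 : (1 : ℝ) / 4 ≤ Real.exp (-1) := by
      rw [Real.exp_neg, one_div]
      exact inv_anti₀ (Real.exp_pos _) (by linarith [Real.exp_one_lt_d9])
    have e5 : (4 * (m : ℝ) * Real.exp (-1)) ^ 2 * (4 * σ ^ 2) =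
        (σ * (2 * m) * (4 * Real.exp (-1))) ^ 2 := by ring
    rw [e5]
    apply pow_le_pow_left₀ (by positivity)
    refine hσ.trans ?_
    have e6 : 0 ≤ σ * (2 * m) := by positivity
    nlinarith
  refine h4.trans ?_
  exact mul_le_mul_of_nonneg_right h3 (by positivity)

end Pool.Agent.ZC
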