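import Pool.Agent.ZC.Defs
import Pool.Agent.ZC.RS

/-! # ZC: from the rational matrix to the real one -/

namespace Pool.Agent.ZC

open Finset

theorem map_inv_ps (f : PowerSeries ℚ) (hf : PowerSeries.constantCoeff f ≠ 0) :
    PowerSeries.map (algebraMap ℚ ℝ) f⁻¹ = (PowerSeries.map (algebraMap ℚ ℝ) f)⁻¹ := by
  have h1 : PowerSeries.constantCoeff (PowerSeries.map (algebraMap ℚ ℝ) f) ≠ 0 := by
    rw [← PowerSeries.coeff_zero_eq_constantCoeff_apply, PowerSeries.coeff_map,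
      PowerSeries.coeff_zero_eq_constantCoeff_apply]
    simpa using hf
  rw [PowerSeries.eq_inv_iff_mul_eq_one h1, ← map_mul, PowerSeries.inv_mul_cancel _ hf, map_one]

theorem map_yl (p l : ℕ) : PowerSeries.map (algebraMap ℚ ℝ) (yl ℚ p l) = yl ℝ p l := by
  simp [yl]

theorem map_ev (p l : ℕ) (f : Polynomial ℚ) :
    PowerSeries.map (algebraMap ℚ ℝ) (ev ℚ p l f) = ev ℝ p l (f.map (algebraMap ℚ ℝ)) := by
  rw [ev, ev, Polynomial.aeval_def, Polynomial.aeval_def, Polynomial.hom_eval₂, map_yl,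
    Polynomial.eval₂_map]
  congr 1
  exact RingHom.ext_rat _ _

theorem map_Cp (j : ℕ) : (Cp ℚ j).map (algebraMap ℚ ℝ) = Cp ℝ j := by
  simp [Cp, Polynomial.map_prod]

theorem map_Cn (M j : ℕ) : (Cn ℚ M j).map (algebraMap ℚ ℝ) = Cn ℝ M j := by
  simp [Cn, map_Cp]

theorem map_An (M p b : ℕ) : (An ℚ M p b).map (algebraMap ℚ ℝ) = An ℝ M p b := by
  simp [An, Polynomial.map_comp, map_Cp]

theorem map_gs (p b l : ℕ) (hb : 1 ≤ b) : PowerSeries.map (algebraMap ℚ ℝ) (gs ℚ p b l) = gs ℝ p b l := by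
  have hb0 : (b : ℚ) ≠ 0 := by positivity
  rw [gs, gs, map_add, map_sum, map_sum]
  congr 1
  · refine sum_congr rfl fun k hk => ?_
    rw [mem_Icc] at hk
    have hk0 : (k : ℚ) ≠ 0 := by have := hk.1; positivity
    rw [map_inv_ps]
    · simp
    · simp [hk0, hb0]
  · refine sum_congr rfl fun k hk => ?_
    rw [mem_Icc] at hk
    have hk0 : (k : ℚ) ≠ 0 := by have := hk.1; positivity
    rw [map_inv_ps]
    · simp
    · simp [hk0, hb0]

theorem map_Gs (p b l : ℕ) (hb : 1 ≤ b) (S : Finset ℕ) (z : ℕ → ℚ) :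
    PowerSeries.map (algebraMap ℚ ℝ) (Gs ℚ p b l S z) = Gs ℝ p b l S (fun i => (z i : ℝ)) := by
  rw [Gs, Gs, map_sub, map_gs _ _ _ hb, map_sum]
  congr 1
  refine sum_congr rfl fun i _ => ?_
  simp

theorem map_rowPoly (M B p : ℕ) (I : Finset ℕ) (x : Row B p I) :
    (rowPoly ℚ M B p I x).map (algebraMap ℚ ℝ) = rowPoly ℝ M B p I x := by
  rcases x with j | x | x <;> simp [rowPoly, map_Cn, map_An]

theorem map_rowSer (B p : ℕ) (I S : Finset ℕ) (z : ℕ → ℚ) (l : ℕ) (x : Row B p I) :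
    PowerSeries.map (algebraMap ℚ ℝ) (rowSer ℚ B p I S z l x) = rowSer ℝ B p I S (fun i => (z i : ℝ)) l x := by
  rcases x with j | x | x
  · simp [rowSer]
  · simp [rowSer]
  · simp only [rowSer]
    exact map_Gs _ _ _ (by omega) _ _

theorem jet_cast (a M B p : ℕ) (I S : Finset ℕ) (z : ℕ → ℚ) (x : Row B p I) (c : Fin p × Fin a) :
    ((jet ℚ a M B p I S z x c : ℚ) : ℝ) = jet ℝ a M B p I S (fun i => (z i : ℝ)) x c := by
  rw [jet, jet, ← map_rowPoly, ← map_ev, ← map_rowSer, ← map_mul, PowerSeries.coeff_map]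
  rfl

/-! ### triangular basis -/

section
variable (K : Type*) [Field K]

theorem Cp_monic (j : ℕ) : (Cp K j).Monic :=
  Polynomial.monic_prod_of_monic _ _ fun _ _ => Polynomial.monic_X_sub_C _

theorem Cp_natDegree (j : ℕ) : (Cp K j).natDegree = j := by
  rw [Cp, Polynomial.natDegree_prod_of_monic _ _ fun _ _ => Polynomial.monic_X_sub_C _]
  simp only [Polynomial.natDegree_X_sub_C, sum_const, card_range, smul_eq_mul, mul_one]

theorem norm_ne_zero [CharZero K] (e M z : ℕ) : (((4 ^ e * bf M z : ℕ) : K)⁻¹) ≠ 0 := by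
  have := bf_pos M z
  refine inv_ne_zero (Nat.cast_ne_zero.2 ?_)
  positivity

theorem Cn_degree [CharZero K] (M j : ℕ) : (Cn K M j).degree = j := by
  rw [Cn, Polynomial.degree_C_mul (norm_ne_zero K _ _ _),
    Polynomial.degree_eq_natDegree (Cp_monic K j).ne_zero, Cp_natDegree]

theorem An_degree [CharZero K] (M p b : ℕ) (hb : b ≠ 0) : (An K M p b).degree = (2 * b * p : ℕ) := by
  have hb' : (b : K) ^ 2 ≠ 0 := pow_ne_zero _ (Nat.cast_ne_zero.2 hb)
  have h1 : (Polynomial.C ((b : K) ^ 2) * Polynomial.X).natDegree = 1 :=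
    Polynomial.natDegree_C_mul_X _ hb'
  have h2 : ((Cp K (2 * b * p)).comp (Polynomial.C ((b : K) ^ 2) * Polynomial.X)).natDegree =
      2 * b * p := by
    rw [Polynomial.natDegree_comp, h1, Cp_natDegree, mul_one]
  have h3 : (Cp K (2 * b * p)).comp (Polynomial.C ((b : K) ^ 2) * Polynomial.X) ≠ 0 := by
    intro h
    rcases Polynomial.comp_eq_zero_iff.1 h with h | h
    · exact (Cp_monic K _).ne_zero h
    · have := congrArg Polynomial.natDegree h.2
      rw [h1, Polynomial.natDegree_C] at this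
      omega
  rw [An, Polynomial.degree_C_mul (norm_ne_zero K _ _ _),
    Polynomial.degree_eq_natDegree h3, h2]

theorem exists_comb [CharZero K] (M : ℕ) (n : ℕ) (f : Polynomial K)
    (hf : f ∈ Polynomial.degreeLT K n) :
    ∃ α : Fin n → K, f = ∑ j, Polynomial.C (α j) * Cn K M j := by
  induction n generalizing f with
  | zero =>
    refine ⟨fun _ => 0, ?_⟩
    rw [Polynomial.mem_degreeLT] at hf
    have : f = 0 := by
      by_contra h
      rw [Polynomial.degree_eq_natDegree h] at hf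
      exact absurd hf (by simp)
    simp [this]
  | succ n ih =>
    have hlc : (Cn K M n).leadingCoeff ≠ 0 := by
      rw [Polynomial.leadingCoeff_ne_zero]
      intro h
      have := Cn_degree K M n
      rw [h] at this
      simp at this
    set c := f.coeff n / (Cn K M n).leadingCoeff with hc
    have hnat : (Cn K M n).natDegree = n := Polynomial.natDegree_eq_of_degree_eq_some (Cn_degree K M n)
    have hmem : f - Polynomial.C c * Cn K M n ∈ Polynomial.degreeLT K n := by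
      rw [Polynomial.mem_degreeLT, Polynomial.degree_lt_iff_coeff_zero]
      rw [Polynomial.mem_degreeLT, Polynomial.degree_lt_iff_coeff_zero] at hf
      intro m hm
      rw [Polynomial.coeff_sub, Polynomial.coeff_C_mul]
      rcases Nat.lt_or_ge n m with h | h
      · rw [hf m (by omega), Polynomial.coeff_eq_zero_of_natDegree_lt (by omega)]
        simp
      · have : m = n := by omega
        subst this
        have : (Cn K M m).coeff m = (Cn K M m).leadingCoeff := by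
          rw [Polynomial.leadingCoeff, hnat]
        rw [this, hc, div_mul_cancel₀ _ hlc, sub_self]
    obtain ⟨α, hα⟩ := ih _ hmem
    refine ⟨Fin.snoc α c, ?_⟩
    rw [Fin.sum_univ_castSucc]
    simp only [Fin.snoc_castSucc, Fin.snoc_last, Fin.val_castSucc, Fin.val_last]
    rw [← hα]
    ring

end

/-! ### the real matrix with moment rows -/

/-- the set of `F` rows -/
noncomputable def FR (B p : ℕ) (I : Finset ℕ) : Finset (Row B p I) := by
  classical
  exact univ.filter fun x => ∃ y, x = .inr (.inr y)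

theorem mem_FR {B p : ℕ} {I : Finset ℕ} {x : Row B p I} : x ∈ FR B p I ↔ ∃ y, x = .inr (.inr y) := by
  simp [FR]

theorem sum_compl_FR {B p : ℕ} {I : Finset ℕ} (f : Row B p I → ℝ) :
    ∑ x ∈ (FR B p I)ᶜ, f x = ∑ j, f (.inl j) + ∑ x, f (.inr (.inl x)) := by
  classical
  have h : (FR B p I)ᶜ = univ.filter (fun x => x ∉ FR B p I) := by ext; simp
  rw [h, sum_filter, Fintype.sum_sum_type, Fintype.sum_sum_type]
  have h1 : ∀ j, (Sum.inl j : Row B p I) ∉ FR B p I := by intro j; simp [mem_FR]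
  have h2 : ∀ x, (Sum.inr (Sum.inl x) : Row B p I) ∉ FR B p I := by
    intro x h
    obtain ⟨y, hy⟩ := mem_FR.1 h
    simp at hy
  have h3 : ∀ y, (Sum.inr (Sum.inr y) : Row B p I) ∈ FR B p I := fun y => mem_FR.2 ⟨y, rfl⟩
  simp only [h1, h2, h3, not_false_eq_true, if_true, not_true_eq_false, if_false,
    sum_const_zero, add_zero]

/-- polynomial of an `F` row -/
noncomputable def fF (M p : ℕ) (b j : ℕ) : Polynomial ℝ := An ℝ M p b * Cn ℝ M j

theorem fF_mem {M B p : ℕ} (β : ℕ) (j : ℕ) (hj : j < (4 * B - 2 * (2 * β + 1)) * p) :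
    fF M p (2 * β + 1) j ∈ Polynomial.degreeLT ℝ (4 * B * p) := by
  rw [Polynomial.mem_degreeLT, fF, Polynomial.degree_mul, An_degree ℝ M p _ (by omega), Cn_degree]
  have h : 2 * (2 * β + 1) * p + j < 4 * B * p := by
    have h0 : 0 < 4 * B - 2 * (2 * β + 1) := by
      rcases Nat.eq_zero_or_pos (4 * B - 2 * (2 * β + 1)) with h | h
      · rw [h] at hj; omega
      · exact h
    have h1 : 4 * B * p = (4 * B - 2 * (2 * β + 1)) * p + 2 * (2 * β + 1) * p := by
      rw [← add_mul]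
      congr 1
      omega
    rw [h1]; omega
  exact_mod_cast h

/-- real row = moment row + combination of the other rows -/
theorem exists_series_matrix (a M B p : ℕ) (I : Finset ℕ) (hI : I ⊆ oddS a) (z : ℕ → ℚ)
    (hz : ∀ i ∈ oddS a \ I, zr i = z i)
    (han : ∀ β < B, ∀ j < (4 * B - 2 * (2 * β + 1)) * p,
      ∃ Q ∈ Polynomial.degreeLT ℝ (4 * B * p), ∀ l < p, ∀ r < a,
        HasSum (fun k : ℕ => gam (4 * B * p) p (2 * β + 1) (fF M p (2 * β + 1) j) k *
          PowerSeries.coeff r (yl ℝ p l ^ (4 * B * p + k)))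
        (PowerSeries.coeff r (ev ℝ p l (fF M p (2 * β + 1) j) * Gs ℝ p (2 * β + 1) l (oddS a) zr) -
          PowerSeries.coeff r (ev ℝ p l Q)))
    (g : Row B p I → Fin p × Fin a) :
    ∃ A : Matrix (Row B p I) (Row B p I) ℝ,
      (((Matrix.of (fun x c => jet ℚ a M B p I (oddS a \ I) z x c)).submatrix id g).det : ℝ) = A.det ∧
      (∀ x ∉ FR B p I, ∀ c, A x c =
        jet ℝ a M B p I (oddS a \ I) (fun i => (z i : ℝ)) x (g c)) ∧
      ∀ (y : Σ β : Fin B, Fin ((4 * B - 2 * (2 * (β : ℕ) + 1)) * p)) (c : Row B p I),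
        HasSum (fun k : ℕ => gam (4 * B * p) p (2 * (y.1 : ℕ) + 1) (fF M p (2 * (y.1 : ℕ) + 1) y.2) k *
          PowerSeries.coeff ((g c).2 : ℕ) (yl ℝ p (g c).1 ^ (4 * B * p + k))) (A (.inr (.inr y)) c) := by
  classical
  choose! Q hQ hQs using han
  have hQc : ∀ β < B, ∀ j < (4 * B - 2 * (2 * β + 1)) * p,
      ∃ α : Fin (4 * B * p) → ℝ, Q β j = ∑ i, Polynomial.C (α i) * Cn ℝ M i :=
    fun β hβ j hj => exists_comb ℝ M _ _ (hQ β hβ j hj)
  have hfc : ∀ β < B, ∀ j < (4 * B - 2 * (2 * β + 1)) * p,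
      ∃ α : Fin (4 * B * p) → ℝ, fF M p (2 * β + 1) j = ∑ i, Polynomial.C (α i) * Cn ℝ M i :=
    fun β hβ j hj => exists_comb ℝ M _ _ (fF_mem β j hj)
  choose! αQ hαQ using hQc
  choose! αf hαf using hfc
  set A0 : Matrix (Row B p I) (Row B p I) ℝ := Matrix.of fun x c =>
    jet ℝ a M B p I (oddS a \ I) (fun i => (z i : ℝ)) x (g c) with hA0
  -- coefficients
  set cf : Row B p I → Row B p I → ℝ := fun x y =>
    match x, y with
    | .inr (.inr x), .inl j => αQ x.1 x.2 j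
    | .inr (.inr x), .inr (.inl y) =>
        -(2 * ((2 * (x.1 : ℕ) + 1 : ℕ) : ℝ) ^ (y.1 : ℕ) * zr y.1) * αf x.1 x.2 y.2
    | _, _ => 0 with hcf
  set A : Matrix (Row B p I) (Row B p I) ℝ := Matrix.of fun x c =>
    if x ∈ FR B p I then A0 x c - ∑ y ∈ (FR B p I)ᶜ, cf x y * A0 y c else A0 x c with hA
  have hdet : A0.det = A.det := by
    refine det_row_ops A A0 (FR B p I) cf ?_ ?_
    · intro x hx c
      simp only [hA, Matrix.of_apply, if_neg hx]
    · intro x hx c
      have h1 : ∑ k ∈ (FR B p I)ᶜ, cf x k * A k c = ∑ k ∈ (FR B p I)ᶜ, cf x k * A0 k c := by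
        refine sum_congr rfl fun k hk => ?_
        rw [mem_compl] at hk
        simp only [hA, Matrix.of_apply, if_neg hk]
      rw [h1]
      simp only [hA, Matrix.of_apply, if_pos hx]
      ring
  refine ⟨A, ?_, ?_, ?_⟩
  · rw [← hdet]
    have h1 : A0 = (((Matrix.of (fun x c => jet ℚ a M B p I (oddS a \ I) z x c)).submatrix id g).map
        (fun q : ℚ => (q : ℝ))) := by
      ext x c
      simp only [hA0, Matrix.of_apply, Matrix.map_apply, Matrix.submatrix_apply, id_eq]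
      rw [jet_cast]
    rw [h1]
    exact (RingHom.map_det (Rat.castHom ℝ) _)
  · intro x hx c
    simp only [hA, Matrix.of_apply, if_neg hx, hA0]
  · rintro ⟨β, j⟩ c
    have hβ := β.2
    have hj := j.2
    have hs := hQs β hβ j hj (g c).1 (g c).1.2 (g c).2 (g c).2.2
    have hx : (Sum.inr (Sum.inr ⟨β, j⟩) : Row B p I) ∈ FR B p I := mem_FR.2 ⟨_, rfl⟩
    convert hs using 1
    simp only [hA, Matrix.of_apply, if_pos hx]
    rw [sum_compl_FR]
    -- Gs splitting
    have hG : ev ℝ p (g c).1 (fF M p (2 * (β : ℕ) + 1) j) * Gs ℝ p (2 * (β : ℕ) + 1) (g c).1 (oddS a) zr =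
        ev ℝ p (g c).1 (fF M p (2 * (β : ℕ) + 1) j) *
          Gs ℝ p (2 * (β : ℕ) + 1) (g c).1 (oddS a \ I) (fun i => (z i : ℝ)) +
        ∑ i ∈ I, PowerSeries.C (2 * ((2 * (β : ℕ) + 1 : ℕ) : ℝ) ^ i * zr i) *
          (ev ℝ p (g c).1 (fF M p (2 * (β : ℕ) + 1) j) * PowerSeries.X ^ (i - 1)) := by
      rw [Gs, Gs, ← sum_sdiff hI]
      have : ∑ i ∈ oddS a \ I, PowerSeries.C (2 * ((2 * (β : ℕ) + 1 : ℕ) : ℝ) ^ i * zr i) *
          PowerSeries.X ^ (i - 1) = ∑ i ∈ oddS a \ I,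
          PowerSeries.C (2 * ((2 * (β : ℕ) + 1 : ℕ) : ℝ) ^ i * ((z i : ℚ) : ℝ)) *
          (PowerSeries.X : PowerSeries ℝ) ^ (i - 1) :=
        sum_congr rfl fun i hi => by rw [hz i hi]
      rw [this]
      have h2 : ∑ i ∈ I, PowerSeries.C (2 * ((2 * (β : ℕ) + 1 : ℕ) : ℝ) ^ i * zr i) *
          (ev ℝ p (g c).1 (fF M p (2 * (β : ℕ) + 1) j) * PowerSeries.X ^ (i - 1)) =
          ev ℝ p (g c).1 (fF M p (2 * (β : ℕ) + 1) j) *
          ∑ i ∈ I, PowerSeries.C (2 * ((2 * (β : ℕ) + 1 : ℕ) : ℝ) ^ i * zr i) *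
            PowerSeries.X ^ (i - 1) := by
        rw [mul_sum]
        exact sum_congr rfl fun i _ => by ring
      rw [h2]
      ring
    rw [hG, map_add, map_sum]
    have e1 : ∑ j', cf (Sum.inr (Sum.inr ⟨β, j⟩)) (Sum.inl j') * A0 (Sum.inl j') c =
        PowerSeries.coeff ((g c).2 : ℕ) (ev ℝ p (g c).1 (Q β j)) := by
      rw [hαQ β hβ j hj]
      simp only [ev, map_sum, map_mul, Polynomial.aeval_C]
      refine sum_congr rfl fun i _ => ?_
      simp only [hcf, hA0, Matrix.of_apply, jet, rowPoly, rowSer, mul_one]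
      rw [PowerSeries.algebraMap_apply, Algebra.algebraMap_self, RingHom.id_apply,
        PowerSeries.coeff_C_mul, ev]
    have e2 : ∑ x, cf (Sum.inr (Sum.inr ⟨β, j⟩)) (Sum.inr (Sum.inl x)) * A0 (Sum.inr (Sum.inl x)) c =
        -∑ i ∈ I, PowerSeries.coeff ((g c).2 : ℕ)
          (PowerSeries.C (2 * ((2 * (β : ℕ) + 1 : ℕ) : ℝ) ^ i * zr i) *
          (ev ℝ p (g c).1 (fF M p (2 * (β : ℕ) + 1) j) * PowerSeries.X ^ (i - 1))) := by
      rw [← sum_coe_sort I, ← sum_neg_distrib, Fintype.sum_prod_type]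
      refine sum_congr rfl fun i _ => ?_
      rw [hαf β hβ j hj, PowerSeries.coeff_C_mul, ← neg_mul]
      simp only [ev, map_sum, map_mul, Polynomial.aeval_C, sum_mul, mul_sum]
      refine sum_congr rfl fun i' _ => ?_
      simp only [hcf, hA0, Matrix.of_apply, jet, rowPoly, rowSer]
      rw [PowerSeries.algebraMap_apply, Algebra.algebraMap_self, RingHom.id_apply,
        mul_assoc (PowerSeries.C _), PowerSeries.coeff_C_mul, ev]
      ring
    rw [e1, e2]
    have e3 : A0 (Sum.inr (Sum.inr ⟨β, j⟩)) c = PowerSeries.coeff ((g c).2 : ℕ)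
        (ev ℝ p (g c).1 (fF M p (2 * (β : ℕ) + 1) j) *
          Gs ℝ p (2 * (β : ℕ) + 1) (g c).1 (oddS a \ I) (fun i => (z i : ℝ))) := by
      simp only [hA0, Matrix.of_apply, jet, rowPoly, rowSer, fF]
    rw [e3]
    ring

end Pool.Agent.ZC
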