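import Pool.Agent.ZC.Defs

/-! # ZC: the entries of the rational matrix are `d`-integral -/

namespace Pool.Agent.ZC

open Finset

/-- product of `(2w-1+2cX)^2 - (2k+1)^2` -/
theorem prod_sq (w c : ℤ) (j : ℕ) :
    ∏ k ∈ range j, ((PowerSeries.C (2 * (w : ℚ) - 1) + PowerSeries.C (2 * (c : ℚ)) *
      PowerSeries.X) ^ 2 - PowerSeries.C ((2 * (k : ℚ) + 1) ^ 2)) =
    PowerSeries.C ((4 : ℚ) ^ j) * run (w - j) c (2 * j) := by
  induction j with
  | zero => simp [run_zero]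
  | succ j ih =>
    rw [prod_range_succ, ih, show 2 * (j + 1) = 2 * j + 1 + 1 by ring, run_succ, run_succ']
    have e : w - ((j + 1 : ℕ) : ℤ) + 1 = w - (j : ℤ) := by push_cast; ring
    rw [e, pow_succ]
    push_cast
    simp only [map_sub, map_add, map_mul, map_one, map_pow, map_natCast, map_intCast, map_ofNat]
    ring

theorem ev_Cp_run (p l j : ℕ) :
    ev ℚ p l (Cp ℚ j) = PowerSeries.C ((4 : ℚ) ^ j) * run ((p : ℤ) - l - j) 1 (2 * j) := by
  have h := prod_sq ((p : ℤ) - l) 1 j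
  rw [← h, ev, Cp, map_prod]
  refine prod_congr rfl fun k _ => ?_
  rw [map_sub, Polynomial.aeval_X, Polynomial.aeval_C, yl]
  have : (2 * (p : ℚ) - 1 - 2 * (l : ℚ)) = 2 * (((p : ℤ) - l : ℤ) : ℚ) - 1 := by push_cast; ring
  rw [this]
  simp [PowerSeries.algebraMap_apply]

theorem bf_ne_zero' (M z : ℕ) : (bf M z : ℚ) ≠ 0 := by
  have := bf_pos M z
  positivity

theorem ev_Cn_eq (p l M j : ℕ) :
    ev ℚ p l (Cn ℚ M j) =
      PowerSeries.C ((bf M (2 * j) : ℚ)⁻¹) * run ((p : ℤ) - l - j) 1 (2 * j) := by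
  have h1 := ev_Cp_run p l j
  rw [ev] at h1
  rw [ev, Cn, map_mul, h1, Polynomial.aeval_C, PowerSeries.algebraMap_apply, Algebra.algebraMap_self,
    RingHom.id_apply, ← mul_assoc, ← map_mul]
  congr 2
  have := bf_ne_zero' M (2 * j)
  push_cast
  field_simp

theorem ev_Cn_mem {d M : ℕ} (hM : 0 < M) (hd : ∀ q : ℕ, 1 ≤ q → q ≤ M → q ∣ d) (p l j : ℕ) :
    ev ℚ p l (Cn ℚ M j) ∈ dR d := by
  rw [ev_Cn_eq]
  exact run_bf_mem hM 1 hd _ _

/-- the integer `w` with `2w - 1 = b (2p-1-2l)` -/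
def wb (p b l : ℕ) : ℤ := ((b : ℤ) * (2 * p - 1 - 2 * l) + 1) / 2

theorem wb_eq {p b l : ℕ} (hb : Odd b) : 2 * wb p b l - 1 = (b : ℤ) * (2 * p - 1 - 2 * l) := by
  obtain ⟨e, rfl⟩ := hb
  unfold wb
  have : (((2 * e + 1 : ℕ) : ℤ) * (2 * p - 1 - 2 * l) + 1) = 2 * ((2 * e + 1) * (p - l) - e) := by
    push_cast; ring
  rw [this, Int.mul_ediv_cancel_left _ (by norm_num)]
  push_cast; ring

theorem ev_An_eq (p l M b : ℕ) (hb : Odd b) :
    ev ℚ p l (An ℚ M p b) =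
      PowerSeries.C ((bf M (4 * b * p) : ℚ)⁻¹) * run (wb p b l - (2 * b * p : ℕ)) b (4 * b * p) := by
  have h := prod_sq (wb p b l) b (2 * b * p)
  have h2 : Polynomial.aeval (yl ℚ p l)
      ((Cp ℚ (2 * b * p)).comp (Polynomial.C ((b : ℚ) ^ 2) * Polynomial.X)) =
      PowerSeries.C ((4 : ℚ) ^ (2 * b * p)) * run (wb p b l - (2 * b * p : ℕ)) b (4 * b * p) := by
    rw [show 4 * b * p = 2 * (2 * b * p) by ring, ← h, Cp, Polynomial.prod_comp, map_prod]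
    refine prod_congr rfl fun k _ => ?_
    rw [Polynomial.sub_comp, Polynomial.X_comp, Polynomial.C_comp, map_sub, map_mul,
      Polynomial.aeval_X, Polynomial.aeval_C, Polynomial.aeval_C, yl]
    have h3 : (2 * ((wb p b l : ℤ) : ℚ) - 1) = (b : ℚ) * (2 * (p : ℚ) - 1 - 2 * (l : ℚ)) := by
      have := wb_eq (p := p) (l := l) hb
      have h4 := congrArg (Int.cast : ℤ → ℚ) this
      push_cast at h4
      exact h4
    rw [h3]
    simp only [PowerSeries.algebraMap_apply, Algebra.algebraMap_self, RingHom.id_apply]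
    simp only [map_mul, map_pow, Int.cast_natCast]
    ring
  rw [ev, An, map_mul, h2, Polynomial.aeval_C, PowerSeries.algebraMap_apply,
    Algebra.algebraMap_self, RingHom.id_apply, ← mul_assoc, ← map_mul]
  congr 2
  have := bf_ne_zero' M (4 * b * p)
  push_cast
  field_simp

theorem ev_An_mem {d M : ℕ} (hM : 0 < M) (hd : ∀ q : ℕ, 1 ≤ q → q ≤ M → q ∣ d) (p l b : ℕ)
    (hb : Odd b) : ev ℚ p l (An ℚ M p b) ∈ dR d := by
  rw [ev_An_eq _ _ _ _ hb]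
  exact run_bf_mem hM b hd _ _

/-- dividing the run by one of its factors -/
theorem run_div_mem {d M : ℕ} (hM : 0 < M) (hd : ∀ q : ℕ, 1 ≤ q → q ≤ M → q ∣ d)
    (u c : ℤ) (z k0 : ℕ) (hk : k0 < z) (b v : ℚ) (hb : b ≠ 0) (hv : v ≠ 0)
    (hbi : ∃ w : ℤ, b = w) (s : PowerSeries ℚ)
    (hs : PowerSeries.C ((u : ℚ) + k0) + PowerSeries.C (c : ℚ) * PowerSeries.X =
      PowerSeries.C b * s) (hs0 : PowerSeries.constantCoeff s = v) :
    PowerSeries.C ((d : ℚ) * (bf M z : ℚ)⁻¹) * (run u c z * s⁻¹) ∈ dR d := by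
  have h1 := runx_mul u c hk
  rw [← h1, hs]
  have h2 : s * s⁻¹ = 1 := PowerSeries.mul_inv_cancel _ (by rw [hs0]; exact hv)
  have h3 : runx u c z k0 * (PowerSeries.C b * s) * s⁻¹ = PowerSeries.C b * runx u c z k0 := by
    linear_combination (runx u c z k0 * PowerSeries.C b) * h2
  rw [h3, ← mul_assoc, mul_comm (PowerSeries.C ((d : ℚ) * (bf M z : ℚ)⁻¹)), mul_assoc]
  exact smul_int_mem hbi (runx_bf_mem hM c hd z k0 hk u)

theorem ev_An_gs_mem {d M : ℕ} (hM : 0 < M) (hd : ∀ q : ℕ, 1 ≤ q → q ≤ M → q ∣ d) (p l b : ℕ)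
    (hb : Odd b) (hl : l < 2 * p) :
    PowerSeries.C (d : ℚ) * (ev ℚ p l (An ℚ M p b) * gs ℚ p b l) ∈ dR d := by
  have hb0 : (b : ℚ) ≠ 0 := by
    have := hb.pos
    positivity
  obtain ⟨e, he⟩ := hb
  have hbb : Odd b := ⟨e, he⟩
  have hw := wb_eq (p := p) (l := l) hbb
  rw [ev_An_eq _ _ _ _ hbb, gs, mul_add, mul_add]
  have key : ∀ s : PowerSeries ℚ,
      PowerSeries.C (d : ℚ) * (PowerSeries.C ((bf M (4 * b * p) : ℚ)⁻¹) *
        run (wb p b l - (2 * b * p : ℕ)) b (4 * b * p) * s) =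
      PowerSeries.C ((d : ℚ) * (bf M (4 * b * p) : ℚ)⁻¹) *
        (run (wb p b l - (2 * b * p : ℕ)) b (4 * b * p) * s) := by
    intro s
    rw [map_mul]; ring
  -- facts in integers
  have hbl : (0 : ℤ) ≤ (b : ℤ) * l := by positivity
  have hbp : (b : ℤ) * l ≤ (b : ℤ) * (2 * p - 1) := by
    apply mul_le_mul_of_nonneg_left _ (by positivity)
    omega
  have hp1 : (b : ℤ) ≤ b * p := by
    have : 1 ≤ p := by omega
    nlinarith
  refine add_mem ?_ ?_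
  · rw [mul_sum, mul_sum]
    refine sum_mem fun k hk => ?_
    rw [mem_Icc] at hk
    rw [key]
    have hk1 : (k : ℤ) ≤ b * l := by exact_mod_cast hk.2
    -- index k0 with wb - 2bp + k0 = -k
    have h0 : 0 ≤ 2 * (b : ℤ) * p - wb p b l - k := by nlinarith
    obtain ⟨k0, hk0⟩ := Int.eq_ofNat_of_zero_le h0
    refine run_div_mem hM hd _ _ _ k0 ?_ (-(b : ℚ)) ((k : ℚ) / b) (by simpa using hb0) ?_
      ⟨-b, by simp⟩ _ ?_ ?_
    · have : (k0 : ℤ) < 4 * b * p := by rw [← hk0]; nlinarith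
      exact_mod_cast this
    · have : (k : ℚ) ≠ 0 := by
        have := hk.1
        positivity
      positivity
    · have h1 : ((wb p b l - (2 * b * p : ℕ) : ℤ) : ℚ) + k0 = -(k : ℚ) := by
        have h2 : (k0 : ℚ) = 2 * (b : ℚ) * p - wb p b l - k := by
          have := congrArg (Int.cast : ℤ → ℚ) hk0
          push_cast at this
          linarith
        rw [h2]; push_cast; ring
      rw [h1, mul_sub, ← map_mul]
      have h3 : -(b : ℚ) * ((k : ℚ) / b) = -k := by field_simp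
      rw [h3, map_neg, map_neg]
      push_cast
      ring
    · simp
  · rw [mul_sum, mul_sum]
    refine sum_mem fun k hk => ?_
    rw [mem_Icc] at hk
    rw [key]
    have hk1 : (k : ℤ) ≤ b * (2 * p - 1 - l) := by
      have h1 : ((2 * p - 1 - l : ℕ) : ℤ) = 2 * p - 1 - l := by omega
      rw [← h1]
      exact_mod_cast hk.2
    have h0 : 0 ≤ 2 * (b : ℤ) * p - wb p b l + k := by nlinarith
    obtain ⟨k0, hk0⟩ := Int.eq_ofNat_of_zero_le h0
    refine run_div_mem hM hd _ _ _ k0 ?_ (b : ℚ) ((k : ℚ) / b) hb0 ?_ ⟨b, by simp⟩ _ ?_ ?_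
    · have : (k0 : ℤ) < 4 * b * p := by rw [← hk0]; nlinarith
      exact_mod_cast this
    · have : (k : ℚ) ≠ 0 := by
        have := hk.1
        positivity
      positivity
    · have h1 : ((wb p b l - (2 * b * p : ℕ) : ℤ) : ℚ) + k0 = (k : ℚ) := by
        have h2 : (k0 : ℚ) = 2 * (b : ℚ) * p - wb p b l + k := by
          have := congrArg (Int.cast : ℤ → ℚ) hk0
          push_cast at this
          linarith
        rw [h2]; push_cast; ring
      rw [h1, mul_add, ← map_mul]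
      have h3 : (b : ℚ) * ((k : ℚ) / b) = k := by field_simp
      rw [h3]
      push_cast
      ring
    · simp

/-- from membership to integrality of coefficients below `a` -/
theorem coeff_int_of_mem {d a : ℕ} {f : PowerSeries ℚ} (hf : f ∈ dR d) {r : ℕ} (hr : r ≤ a) :
    ∃ w : ℤ, (d : ℚ) ^ a * PowerSeries.coeff r f = w := by
  obtain ⟨z, hz⟩ := mem_dR.1 hf r
  refine ⟨(d : ℤ) ^ (a - r) * z, ?_⟩
  push_cast
  rw [← hz, ← mul_assoc, ← pow_add, Nat.sub_add_cancel hr]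

theorem jet_int {a d M B p : ℕ} (hM : 0 < M) (hd : ∀ q : ℕ, 1 ≤ q → q ≤ M → q ∣ d)
    (I S : Finset ℕ) (z : ℕ → ℚ) (Q : ℕ) (hQ : ∀ i ∈ S, ∃ w : ℤ, (Q : ℚ) * z i = w)
    (x : Row B p I) (c : Fin p × Fin a) :
    ∃ w : ℤ, ((Q * d ^ (a + 1) : ℕ) : ℚ) * jet ℚ a M B p I S z x c = w := by
  have hc : (c.2 : ℕ) ≤ a := c.2.2.le
  have gen : ∀ f : PowerSeries ℚ, PowerSeries.C ((Q * d : ℕ) : ℚ) * f ∈ dR d →
      ∃ w : ℤ, ((Q * d ^ (a + 1) : ℕ) : ℚ) * PowerSeries.coeff (c.2 : ℕ) f = w := by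
    intro f hf
    obtain ⟨w, hw⟩ := coeff_int_of_mem hf hc
    refine ⟨w, ?_⟩
    rw [← hw, PowerSeries.coeff_C_mul]
    push_cast
    ring
  have gen' : ∀ f : PowerSeries ℚ, f ∈ dR d →
      ∃ w : ℤ, ((Q * d ^ (a + 1) : ℕ) : ℚ) * PowerSeries.coeff (c.2 : ℕ) f = w :=
    fun f hf => gen f (mul_mem (C_nat_mem _ _) hf)
  rcases x with j | x | x
  · simp only [jet, rowPoly, rowSer, mul_one]
    exact gen' _ (ev_Cn_mem hM hd _ _ _)
  · simp only [jet, rowPoly, rowSer]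
    exact gen' _ (mul_mem (ev_Cn_mem hM hd _ _ _) (pow_mem (X_mem d) _))
  · simp only [jet, rowPoly, rowSer]
    have hb : Odd (2 * (x.1 : ℕ) + 1) := ⟨_, rfl⟩
    apply gen
    have e1 : ev ℚ p c.1 (An ℚ M p (2 * (x.1 : ℕ) + 1) * Cn ℚ M x.2) =
        ev ℚ p c.1 (An ℚ M p (2 * (x.1 : ℕ) + 1)) * ev ℚ p c.1 (Cn ℚ M x.2) := by
      simp [ev]
    have h1 := ev_An_mem hM hd p c.1 _ hb
    have h2 := ev_Cn_mem hM hd p c.1 (x.2 : ℕ)
    have h3 := ev_An_gs_mem hM hd p c.1 _ hb (by have := c.1.2; omega)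
    rw [e1, Gs, mul_sub]
    have e2 : PowerSeries.C ((Q * d : ℕ) : ℚ) *
        (ev ℚ p c.1 (An ℚ M p (2 * (x.1 : ℕ) + 1)) * ev ℚ p c.1 (Cn ℚ M x.2) *
          (∑ i ∈ S, PowerSeries.C (2 * ((2 * (x.1 : ℕ) + 1 : ℕ) : ℚ) ^ i * z i) *
            PowerSeries.X ^ (i - 1)) -
          ev ℚ p c.1 (An ℚ M p (2 * (x.1 : ℕ) + 1)) * ev ℚ p c.1 (Cn ℚ M x.2) *
            gs ℚ p (2 * (x.1 : ℕ) + 1) c.1) =
        PowerSeries.C (d : ℚ) * (ev ℚ p c.1 (An ℚ M p (2 * (x.1 : ℕ) + 1)) *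
          ev ℚ p c.1 (Cn ℚ M x.2) * (PowerSeries.C (Q : ℚ) *
          ∑ i ∈ S, PowerSeries.C (2 * ((2 * (x.1 : ℕ) + 1 : ℕ) : ℚ) ^ i * z i) *
            PowerSeries.X ^ (i - 1))) -
        PowerSeries.C (Q : ℚ) * (ev ℚ p c.1 (Cn ℚ M x.2) *
          (PowerSeries.C (d : ℚ) * (ev ℚ p c.1 (An ℚ M p (2 * (x.1 : ℕ) + 1)) *
            gs ℚ p (2 * (x.1 : ℕ) + 1) c.1))) := by
      push_cast
      rw [map_mul]
      ring
    rw [e2]
    refine sub_mem (mul_mem (C_nat_mem _ _) (mul_mem (mul_mem h1 h2) ?_))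
      (mul_mem (C_nat_mem _ _) (mul_mem h2 h3))
    rw [mul_sum]
    refine sum_mem fun i hi => ?_
    rw [← mul_assoc, ← map_mul]
    refine mul_mem ?_ (pow_mem (X_mem d) _)
    obtain ⟨w, hw⟩ := hQ i hi
    have : (Q : ℚ) * (2 * ((2 * (x.1 : ℕ) + 1 : ℕ) : ℚ) ^ i * z i) =
        ((2 * (2 * (x.1 : ℕ) + 1 : ℕ) ^ i * w : ℤ) : ℚ) := by
      push_cast
      rw [← hw]; ring
    rw [this]
    exact C_int_mem _ _

end Pool.Agent.ZC
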