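import Mathlib

/-!
# ZC: upper bound for determinants some of whose rows are series over common vectors

`good_lemma`: rows outside `G` are bounded by `N r`; the rows in `G` are `∑_k γ r k • u k` with
`|γ r k * u k c| ≤ N r * t ^ (2 k)`, `0 ≤ t < 1`.  Then
`|det| ≤ n! * ∏ N r * t ^ (M (M - 1) / 2) * (1 / (1 - t)) ^ M`, `M = #G`.
-/

namespace Pool.Agent.ZC

open Finset Filter Topology

theorem abs_det_le {ι : Type*} [Fintype ι] [DecidableEq ι] (A : Matrix ι ι ℝ) (b : ι → ℝ)
    (hb : ∀ i j, |A i j| ≤ b i) : |A.det| ≤ (Fintype.card ι).factorial * ∏ i, b i := by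
  rw [← Matrix.det_transpose, Matrix.det_apply']
  refine (Finset.abs_sum_le_sum_abs _ _).trans ?_
  have h1 : ∀ σ ∈ (univ : Finset (Equiv.Perm ι)),
      |((Equiv.Perm.sign σ : ℤ) : ℝ) * ∏ i, A.transpose (σ i) i| ≤ ∏ i, b i := by
    intro σ _
    rw [abs_mul]
    have hs : |((Equiv.Perm.sign σ : ℤ) : ℝ)| = 1 := by
      rcases Int.units_eq_one_or (Equiv.Perm.sign σ) with h | h <;> simp [h]
    rw [hs, one_mul, Finset.abs_prod]
    exact Finset.prod_le_prod (fun i _ => abs_nonneg _) fun i _ => hb i (σ i)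
  refine (Finset.sum_le_sum h1).trans ?_
  rw [Finset.sum_const, Finset.card_univ, Fintype.card_perm, nsmul_eq_mul]

theorem sum_range_le_sum (S : Finset ℕ) : ∑ i ∈ range S.card, i ≤ ∑ x ∈ S, x := by
  induction S using Finset.induction_on_max with
  | empty => simp
  | insert a S hS ih =>
    have ha : a ∉ S := fun h => lt_irrefl _ (hS a h)
    rw [Finset.card_insert_of_notMem ha, Finset.sum_range_succ, Finset.sum_insert ha, add_comm]
    refine Nat.add_le_add ?_ ih
    have : S ⊆ range a := fun x hx => Finset.mem_range.2 (hS x hx)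
    simpa using Finset.card_le_card this

theorem le_sum_of_injOn {ι : Type*} [DecidableEq ι] (G : Finset ι) (f : ι → ℕ) (hf : Set.InjOn f G) :
    G.card * (G.card - 1) / 2 ≤ ∑ r ∈ G, f r := by
  have h1 := sum_range_le_sum (G.image f)
  rw [Finset.card_image_of_injOn hf, Finset.sum_image hf, Finset.sum_range_id] at h1
  exact h1

/-- finite version -/
theorem good_fin {ι : Type*} [Fintype ι] [DecidableEq ι] (A : Matrix ι ι ℝ) (G : Finset ι)
    (N : ι → ℝ) (hN : ∀ r, 0 ≤ N r) (t : ℝ) (ht0 : 0 ≤ t) (ht1 : t < 1) (γ : ι → ℕ → ℝ) (u : ℕ → ι → ℝ)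
    (Λ : ℕ) (h1 : ∀ r, r ∉ G → ∀ c, |A r c| ≤ N r)
    (h2 : ∀ r ∈ G, ∀ k c, |γ r k * u k c| ≤ N r * t ^ (2 * k))
    (h3 : ∀ r ∈ G, ∀ c, A r c = ∑ k ∈ range Λ, γ r k * u k c) :
    |A.det| ≤ (Fintype.card ι).factorial * (∏ r, N r) * t ^ (G.card * (G.card - 1) / 2) *
      (1 / (1 - t)) ^ G.card := by
  classical
  -- expansion
  set S : ι → Finset ℕ := fun r => if r ∈ G then range Λ else {0} with hS
  set g : ι → ℕ → ι → ℝ := fun r k => if r ∈ G then fun c => γ r k * u k c else A r with hg
  have hA : A = Matrix.of fun r => ∑ k ∈ S r, g r k := by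
    ext r c
    simp only [Matrix.of_apply, hS, hg]
    by_cases hr : r ∈ G
    · simp only [if_pos hr, Finset.sum_apply]
      exact h3 r hr c
    · simp only [if_neg hr, Finset.sum_singleton]
  have hexp : A.det = ∑ f ∈ Fintype.piFinset S, (Matrix.of fun r => g r (f r)).det := by
    conv_lhs => rw [hA]
    exact MultilinearMap.map_sum_finset (Matrix.detRowAlternating (R := ℝ) (n := ι)).toMultilinearMap g S
  -- every term
  set w : ι → ℕ → ℝ := fun r k => if r ∈ G then t ^ k else 1 with hw
  have hw0 : ∀ r k, 0 ≤ w r k := by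
    intro r k
    simp only [hw]
    split_ifs <;> positivity
  have hterm : ∀ f ∈ Fintype.piFinset S, |(Matrix.of fun r => g r (f r)).det| ≤
      (Fintype.card ι).factorial * (∏ r, N r) * t ^ (G.card * (G.card - 1) / 2) * ∏ r, w r (f r) := by
    intro f _
    have hprod0 : 0 ≤ ∏ r, N r := Finset.prod_nonneg fun r _ => hN r
    by_cases hf : Set.InjOn f G
    · have hb := abs_det_le (Matrix.of fun r => g r (f r))
        (fun r => N r * (w r (f r) * w r (f r))) (by
          intro r c
          simp only [Matrix.of_apply, hg, hw]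
          by_cases hr : r ∈ G
          · simp only [if_pos hr]
            refine (h2 r hr (f r) c).trans (le_of_eq ?_)
            rw [← pow_add, two_mul]
          · simp only [if_neg hr, mul_one]
            exact h1 r hr c)
      refine hb.trans ?_
      rw [Finset.prod_mul_distrib, Finset.prod_mul_distrib]
      have h5 : ∏ r, w r (f r) ≤ t ^ (G.card * (G.card - 1) / 2) := by
        have e : ∏ r, w r (f r) = ∏ r ∈ G, t ^ f r := by
          simp only [hw]
          rw [Finset.prod_ite_mem]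
          simp
        rw [e, Finset.prod_pow_eq_pow_sum]
        exact pow_le_pow_of_le_one ht0 ht1.le (le_sum_of_injOn G f hf)
      have h6 : 0 ≤ ∏ r, w r (f r) := Finset.prod_nonneg fun r _ => hw0 r _
      calc ((Fintype.card ι).factorial : ℝ) * ((∏ r, N r) * ((∏ r, w r (f r)) * ∏ r, w r (f r)))
          ≤ (Fintype.card ι).factorial * ((∏ r, N r) * (t ^ (G.card * (G.card - 1) / 2) *
              ∏ r, w r (f r))) := by gcongr
        _ = _ := by ring
    · -- two equal rows
      obtain ⟨r, hr, r', hr', hrr, hne⟩ : ∃ r ∈ G, ∃ r' ∈ G, f r = f r' ∧ r ≠ r' := by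
        simp only [Set.InjOn, not_forall] at hf
        obtain ⟨r, hr, r', hr', h, hne⟩ := hf
        exact ⟨r, hr, r', hr', h, hne⟩
      have hz : (Matrix.of fun r => g r (f r)).det = 0 := by
        have e : (Matrix.of fun r => g r (f r)) = Matrix.of fun i j =>
            (if i ∈ G then γ i (f i) else 1) *
              (Matrix.of fun i j => if i ∈ G then u (f i) j else A i j) i j := by
          ext i j
          simp only [Matrix.of_apply, hg]
          by_cases hi : i ∈ G
          · simp [hi]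
          · simp [hi]
        rw [e, Matrix.det_mul_column, Matrix.det_zero_of_row_eq hne, mul_zero]
        funext j
        simp [hr, hr', hrr]
      rw [hz, abs_zero]
      have h6 : 0 ≤ ∏ r, w r (f r) := Finset.prod_nonneg fun r _ => hw0 r _
      positivity
  rw [hexp]
  refine (Finset.abs_sum_le_sum_abs _ _).trans ((Finset.sum_le_sum hterm).trans ?_)
  rw [← Finset.mul_sum, ← Finset.prod_univ_sum]
  have hprod0 : 0 ≤ ∏ r, N r := Finset.prod_nonneg fun r _ => hN r
  have h7 : ∏ r, ∑ k ∈ S r, w r k ≤ (1 / (1 - t)) ^ G.card := by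
    have e : ∏ r, ∑ k ∈ S r, w r k = ∏ r ∈ G, ∑ k ∈ range Λ, t ^ k := by
      have : ∀ r, ∑ k ∈ S r, w r k = if r ∈ G then ∑ k ∈ range Λ, t ^ k else 1 := by
        intro r
        simp only [hS, hw]
        by_cases hr : r ∈ G
        · simp [hr]
        · simp [hr]
      simp_rw [this]
      rw [Finset.prod_ite_mem]
      simp
    rw [e, Finset.prod_const]
    apply pow_le_pow_left₀ (Finset.sum_nonneg fun k _ => pow_nonneg ht0 k)
    rw [one_div]
    exact (summable_geometric_of_lt_one ht0 ht1).sum_le_tsum (range Λ) (fun k _ => pow_nonneg ht0 k)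
      |>.trans (le_of_eq (tsum_geometric_of_lt_one ht0 ht1))
  have h8 : 0 ≤ ((Fintype.card ι).factorial : ℝ) * (∏ r, N r) * t ^ (G.card * (G.card - 1) / 2) := by
    positivity
  exact mul_le_mul_of_nonneg_left h7 h8

/-- **Good lemma.** -/
theorem good_lemma {ι : Type*} [Fintype ι] [DecidableEq ι] (A : Matrix ι ι ℝ) (G : Finset ι)
    (N : ι → ℝ) (hN : ∀ r, 0 ≤ N r) (t : ℝ) (ht0 : 0 ≤ t) (ht1 : t < 1) (γ : ι → ℕ → ℝ) (u : ℕ → ι → ℝ)
    (h1 : ∀ r, r ∉ G → ∀ c, |A r c| ≤ N r)
    (h2 : ∀ r ∈ G, ∀ k c, |γ r k * u k c| ≤ N r * t ^ (2 * k))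
    (h3 : ∀ r ∈ G, ∀ c, HasSum (fun k => γ r k * u k c) (A r c)) :
    |A.det| ≤ (Fintype.card ι).factorial * (∏ r, N r) * t ^ (G.card * (G.card - 1) / 2) *
      (1 / (1 - t)) ^ G.card := by
  classical
  set B : ℕ → Matrix ι ι ℝ := fun Λ => Matrix.of fun r c =>
    if r ∈ G then ∑ k ∈ range Λ, γ r k * u k c else A r c with hB
  have hlim : Tendsto (fun Λ => |(B Λ).det|) atTop (𝓝 |A.det|) := by
    apply Tendsto.abs
    have hBA : Tendsto B atTop (𝓝 A) := by
      refine tendsto_pi_nhds.2 fun r => tendsto_pi_nhds.2 fun c => ?_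
      by_cases hr : r ∈ G
      · have := (h3 r hr c).tendsto_sum_nat
        simpa [hB, hr] using this
      · simp [hB, hr]
    have hcont : Continuous fun M : Matrix ι ι ℝ => M.det := by fun_prop
    exact (hcont.tendsto A).comp hBA
  refine le_of_tendsto hlim (Eventually.of_forall fun Λ => ?_)
  refine good_fin (B Λ) G N hN t ht0 ht1 γ u Λ ?_ h2 ?_
  · intro r hr c
    simp only [hB, Matrix.of_apply, if_neg hr]
    exact h1 r hr c
  · intro r hr c
    simp only [hB, Matrix.of_apply, if_pos hr]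

end Pool.Agent.ZC
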