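import Pool.Agent.ZC.ZEA
import Mathlib.Algebra.Polynomial.Sequence

/-!
# ZC: the rows are linearly independent
-/

namespace Pool.Agent.ZC

open Finset

theorem LI_degree_Cp (j : ℕ) : (Cp ℚ j).degree = j := by
  unfold Cp
  rw [Polynomial.degree_prod_of_monic _ _ (fun k _ => Polynomial.monic_X_sub_C _)]
  simp only [Polynomial.degree_X_sub_C, Finset.sum_const, Finset.card_range, nsmul_eq_mul, mul_one]

theorem LI_const_ne {M : ℕ} (k j : ℕ) : (((4 ^ k * bf M j : ℕ) : ℚ)⁻¹) ≠ 0 := by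
  have := bf_pos M j
  positivity

theorem LI_degree_Cn (M j : ℕ) : (Cn ℚ M j).degree = j := by
  unfold Cn
  rw [Polynomial.degree_C_mul (LI_const_ne _ _), LI_degree_Cp]

theorem LI_natDegree_An_le (M p b : ℕ) : (An ℚ M p b).natDegree ≤ 2 * b * p := by
  unfold An
  refine (Polynomial.natDegree_C_mul_le _ _).trans ?_
  refine Polynomial.natDegree_comp_le.trans ?_
  have h1 : (Cp ℚ (2 * b * p)).natDegree = 2 * b * p :=
    Polynomial.natDegree_eq_of_degree_eq_some (LI_degree_Cp _)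
  have h2 : (Polynomial.C ((b : ℚ) ^ 2) * Polynomial.X).natDegree ≤ 1 :=
    (Polynomial.natDegree_C_mul_le _ _).trans Polynomial.natDegree_X_le
  rw [h1]
  calc 2 * b * p * (Polynomial.C ((b : ℚ) ^ 2) * Polynomial.X).natDegree ≤ 2 * b * p * 1 :=
        Nat.mul_le_mul_left _ h2
    _ = _ := mul_one _

theorem LI_An_ne_zero (M p b : ℕ) (hb : 0 < b) : An ℚ M p b ≠ 0 := by
  unfold An
  refine mul_ne_zero ((Polynomial.C_ne_zero).2 (LI_const_ne _ _)) ?_
  intro h
  rw [Polynomial.comp_eq_zero_iff] at h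
  rcases h with h | ⟨_, h⟩
  · have := LI_degree_Cp (2 * b * p)
    rw [h, Polynomial.degree_zero] at this
    exact absurd this.symm (WithBot.natCast_ne_bot _)
  · have h1 := congrArg Polynomial.natDegree h
    rw [Polynomial.natDegree_C_mul_X _ (by positivity), Polynomial.natDegree_C] at h1
    omega

theorem LI_An_mul_mem (M p b n N : ℕ) (hb : 0 < b) (hn : n = 2 * b * p + N) {f : Polynomial ℚ}
    (hf : f ∈ Polynomial.degreeLT ℚ N) : An ℚ M p b * f ∈ Polynomial.degreeLT ℚ n := by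
  rw [Polynomial.mem_degreeLT] at hf ⊢
  have h2 : (An ℚ M p b).degree ≤ ((2 * b * p : ℕ) : WithBot ℕ) :=
    Polynomial.natDegree_le_iff_degree_le.1 (LI_natDegree_An_le M p _)
  rw [Polynomial.degree_mul, hn, Nat.cast_add]
  exact WithBot.add_lt_add_of_le_of_lt (Polynomial.degree_ne_bot.2 (LI_An_ne_zero M p _ hb)) h2 hf

theorem LI_sum_mem (M n : ℕ) (g : Fin n → ℚ) :
    ∑ j : Fin n, Polynomial.C (g j) * Cn ℚ M j ∈ Polynomial.degreeLT ℚ n := by
  refine Submodule.sum_mem _ fun j _ => ?_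
  rw [← Polynomial.smul_eq_C_mul]
  refine Submodule.smul_mem _ _ ?_
  rw [Polynomial.mem_degreeLT, LI_degree_Cn]
  exact_mod_cast j.2

/-- the polynomials `Cn` as a sequence -/
noncomputable def LI_seq (M : ℕ) : Polynomial.Sequence ℚ where
  elems' := fun j => Cn ℚ M j
  degree_eq' := fun j => LI_degree_Cn M j

theorem LI_sum_eq_zero (M n : ℕ) (g : Fin n → ℚ)
    (h : ∑ j : Fin n, Polynomial.C (g j) * Cn ℚ M j = 0) : ∀ j, g j = 0 := by
  have h1 : LinearIndependent ℚ (fun j : Fin n => Cn ℚ M j) :=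
    (LI_seq M).linearIndependent.comp (fun j : Fin n => (j : ℕ)) Fin.val_injective
  exact Fintype.linearIndependent_iff.1 h1 g (by simpa only [Polynomial.smul_eq_C_mul] using h)

theorem LI_ev_C (p l : ℕ) (c : ℚ) (f : Polynomial ℚ) :
    ev ℚ p l (Polynomial.C c * f) = PowerSeries.C c * ev ℚ p l f := by
  unfold ev
  rw [map_mul, Polynomial.aeval_C]
  rfl

theorem LI_ev_mul (p l : ℕ) (f g : Polynomial ℚ) : ev ℚ p l (f * g) = ev ℚ p l f * ev ℚ p l g := by
  unfold ev
  rw [map_mul]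

theorem LI_ev_sum {ι : Type*} (s : Finset ι) (p l : ℕ) (f : ι → Polynomial ℚ) :
    ev ℚ p l (∑ i ∈ s, f i) = ∑ i ∈ s, ev ℚ p l (f i) := by
  unfold ev
  rw [map_sum]

theorem jet_indep (a B : ℕ) (hB : 1 ≤ B) (I S : Finset ℕ) (z : ℕ → ℚ) (hI : I ⊆ oddS a)
    (hS : S ⊆ oddS a) (hRS : ∀ c ∈ I, 8 * B * (I.filter (c ≤ ·)).card ≤ a + 1 - c)
    (hm : 8 * B * (1 + I.card + B) ≤ a) :
    ∃ p0 : ℕ, ∀ p ≥ p0, ∀ M > 0,
      LinearIndependent ℚ (fun x : Row B p I => jet ℚ a M B p I S z x) := by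
  classical
  obtain ⟨p0, h0⟩ := ze_inj a B hB I S z hI hS hRS hm
  refine ⟨p0 + 1, fun p hp M _ => ?_⟩
  rw [Fintype.linearIndependent_iff]
  intro g hg
  set f0 : Polynomial ℚ := ∑ j : Fin (4 * B * p), Polynomial.C (g (.inl j)) * Cn ℚ M j with hf0
  set q : ℕ → Polynomial ℚ := fun i => if h : i ∈ I then
    ∑ j : Fin (4 * B * p), Polynomial.C (g (.inr (.inl (⟨i, h⟩, j)))) * Cn ℚ M j else 0 with hq
  set P : ℕ → Polynomial ℚ := fun β => if h : β < B then An ℚ M p (2 * β + 1) *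
    ∑ j : Fin ((4 * B - 2 * (2 * β + 1)) * p),
      Polynomial.C (g (.inr (.inr ⟨⟨β, h⟩, j⟩))) * Cn ℚ M j else 0 with hP
  have hrel : ∀ l < p, (PowerSeries.X : PowerSeries ℚ) ^ a ∣ ev ℚ p l f0 +
        ∑ i ∈ I, PowerSeries.X ^ (i - 1) * ev ℚ p l (q i) +
        ∑ β ∈ range B, ev ℚ p l (P β) * Gs ℚ p (2 * β + 1) l S z := by
    intro l hl
    have e : ev ℚ p l f0 + ∑ i ∈ I, PowerSeries.X ^ (i - 1) * ev ℚ p l (q i) +
        ∑ β ∈ range B, ev ℚ p l (P β) * Gs ℚ p (2 * β + 1) l S z =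
        ∑ x : Row B p I, PowerSeries.C (g x) *
          (ev ℚ p l (rowPoly ℚ M B p I x) * rowSer ℚ B p I S z l x) := by
      rw [Fintype.sum_sum_type, Fintype.sum_sum_type, ← add_assoc]
      congr 1
      · congr 1
        · rw [hf0, LI_ev_sum]
          refine Finset.sum_congr rfl fun j _ => ?_
          rw [LI_ev_C]
          simp only [rowPoly, rowSer, mul_one]
        · rw [Fintype.sum_prod_type, ← Finset.sum_coe_sort I]
          refine Finset.sum_congr rfl fun i _ => ?_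
          simp only [hq, i.2, dif_pos, rowPoly, rowSer]
          rw [LI_ev_sum, Finset.mul_sum]
          refine Finset.sum_congr rfl fun j _ => ?_
          rw [LI_ev_C]
          ring
      · rw [Finset.sum_range, Fintype.sum_sigma]
        refine Finset.sum_congr rfl fun β _ => ?_
        simp only [hP, β.2, dif_pos, rowPoly, rowSer]
        rw [LI_ev_mul, LI_ev_sum, Finset.mul_sum, Finset.sum_mul]
        refine Finset.sum_congr rfl fun j _ => ?_
        rw [LI_ev_C, LI_ev_mul]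
        ring
    rw [e, PowerSeries.X_pow_dvd_iff]
    intro r hr
    have h1 := congrFun hg (⟨l, hl⟩, ⟨r, hr⟩)
    rw [Finset.sum_apply, Pi.zero_apply] at h1
    rw [map_sum, ← h1]
    refine Finset.sum_congr rfl fun x _ => ?_
    rw [PowerSeries.coeff_C_mul, Pi.smul_apply, smul_eq_mul]
    rfl
  obtain ⟨k1, k2, k3⟩ := h0 p (by omega) f0 q P (LI_sum_mem M _ _) (by
    intro i hi
    simp only [hq, hi, dif_pos]
    exact LI_sum_mem M _ _) (by
    intro β hβ
    simp only [hP, hβ, dif_pos]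
    refine LI_An_mul_mem M p _ _ _ (by omega) ?_ (LI_sum_mem M _ _)
    rw [← add_mul]
    congr 1
    omega) hrel
  rintro (j | ⟨i, j⟩ | ⟨β, j⟩)
  · exact LI_sum_eq_zero M _ _ k1 j
  · have h1 := k2 i i.2
    simp only [hq, i.2, dif_pos] at h1
    exact LI_sum_eq_zero M _ _ h1 j
  · have h1 := k3 β β.2
    simp only [hP, β.2, dif_pos] at h1
    rcases mul_eq_zero.1 h1 with h2 | h2
    · exact absurd h2 (LI_An_ne_zero M p _ (by omega))
    · exact LI_sum_eq_zero M _ _ h2 j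

end Pool.Agent.ZC
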