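import Mathlib

/-!
# ZC: a nonzero maximal minor

If the rows of a finite matrix over a field are linearly independent, then the columns can be
selected injectively so that the square submatrix has nonzero determinant.
-/

namespace Pool.Agent.ZC

open Module

theorem exists_minor {R C K : Type*} [Fintype R] [DecidableEq R] [Fintype C] [Field K]
    (A : Matrix R C K) (h : LinearIndependent K A.row) :
    ∃ g : R → C, Function.Injective g ∧ (A.submatrix id g).det ≠ 0 := by
  classical
  obtain ⟨κ, a, ha, hspan, hli⟩ := exists_linearIndependent' K A.col
  have hrank : A.rank = Fintype.card R := h.rank_matrix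
  rw [Matrix.rank_eq_finrank_span_cols] at hrank
  have : Finite κ := Finite.of_injective a ha
  have : Fintype κ := Fintype.ofFinite κ
  have hcard : Fintype.card κ = Fintype.card R := by
    have h1 := linearIndependent_iff_card_eq_finrank_span.mp hli
    rw [Set.finrank, hspan, hrank] at h1
    exact h1
  let e : R ≃ κ := Fintype.equivOfCardEq hcard.symm
  refine ⟨a ∘ e, ha.comp e.injective, ?_⟩
  have hcol : LinearIndependent K (A.submatrix id (a ∘ e)).col := by
    have : (A.submatrix id (a ∘ e)).col = (A.col ∘ a) ∘ e := by
      ext i j
      rfl
    rw [this]
    exact hli.comp e e.injective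
  have hu := Matrix.linearIndependent_cols_iff_isUnit.1 hcol
  exact ((Matrix.isUnit_iff_isUnit_det _).1 hu).ne_zero

end Pool.Agent.ZC
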