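import Pool.Agent.ZC.AN
import Pool.Agent.ZC.LI
import Pool.Agent.ZC.CORA
import Pool.Agent.ZC.ENT
import Pool.Agent.ZC.MIN
import Pool.Agent.ZC.GOOD
import Pool.Agent.ZC.BDC
import Pool.Agent.ZC.BDG

/-! # ZC: the core inequality -/

namespace Pool.Agent.ZC

open Finset Filter Topology

theorem lcmUpto_le (n : ℕ) : (Nat.lcmUpto n : ℝ) ≤ 256 ^ n := by
  have h1 := Chebyshev.psi_le_const_mul_self (x := (n : ℝ)) (by positivity)
  have h2 : Chebyshev.psi (n : ℝ) = Real.log (Nat.lcmUpto n) := by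
    have := Chebyshev.psi_eq_log_lcmUpto n
    exact this
  have h3 : (0 : ℝ) < Nat.lcmUpto n := by
    have := Nat.lcmUpto_pos n
    exact_mod_cast this
  have h4 : (Nat.lcmUpto n : ℝ) ≤ Real.exp ((Real.log 4 + 4) * n) := by
    rw [← Real.log_le_iff_le_exp h3, ← h2]
    exact h1
  refine h4.trans ?_
  rw [mul_comm, Real.exp_nat_mul]
  apply pow_le_pow_left₀ (Real.exp_pos _).le
  rw [Real.exp_add, Real.exp_log (by norm_num)]
  have h5 : Real.exp 4 = Real.exp 1 ^ 4 := by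
    rw [← Real.exp_nat_mul]; norm_num
  rw [h5]
  have h6 := Real.exp_one_lt_d9
  have h7 : Real.exp 1 ^ 4 ≤ 2.7182818286 ^ 4 := pow_le_pow_left₀ (Real.exp_pos _).le h6.le 4
  have h8 : (2.7182818286 : ℝ) ^ 4 ≤ 64 := by norm_num
  linarith

theorem sum_nb (B p : ℕ) :
    ∑ β : Fin B, (4 * B - 2 * (2 * (β : ℕ) + 1)) * p = 2 * B ^ 2 * p := by
  rw [← sum_mul]
  congr 1
  rw [Fin.sum_univ_eq_sum_range (fun β => 4 * B - 2 * (2 * β + 1)) B]
  have h : ∀ m ≤ B, (∑ β ∈ range m, (4 * B - 2 * (2 * β + 1)) : ℕ) + 2 * m ^ 2 = 4 * B * m := by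
    intro m
    induction m with
    | zero => simp
    | succ m ih =>
      intro hm
      rw [sum_range_succ]
      have := ih (by omega)
      have h2 : 2 * (2 * m + 1) ≤ 4 * B := by omega
      zify [h2] at this ⊢
      linarith
  have := h B le_rfl
  have h3 : 4 * B * B = 2 * B ^ 2 + 2 * B ^ 2 := by ring
  omega

theorem card_row (B p : ℕ) (I : Finset ℕ) :
    Fintype.card (Row B p I) = 4 * B * p * (1 + I.card) + 2 * B ^ 2 * p := by
  simp only [Row, Fintype.card_sum, Fintype.card_prod, Fintype.card_fin, Fintype.card_coe,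
    Fintype.card_sigma, sum_nb]
  ring

theorem card_FR (B p : ℕ) (I : Finset ℕ) : (FR B p I).card = 2 * B ^ 2 * p := by
  classical
  have h : FR B p I = univ.image (fun y => (.inr (.inr y) : Row B p I)) := by
    ext x
    rw [mem_FR]
    simp only [Finset.mem_image, mem_univ, true_and]
    constructor
    · rintro ⟨y, rfl⟩; exact ⟨y, rfl⟩
    · rintro ⟨y, rfl⟩; exact ⟨y, rfl⟩
  rw [h, card_image_of_injective _ (fun x y h => by simpa using h), card_univ, Fintype.card_sigma]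
  simp only [Fintype.card_fin, sum_nb]

/-- the determinant inequality for one `p` -/
theorem one_p (a B p : ℕ) (I : Finset ℕ) (hB : 1 ≤ B) (hBa : B ≤ a) (hI : I ⊆ oddS a) (z : ℕ → ℚ)
    (hz : ∀ i ∈ oddS a \ I, zr i = z i) (Q : ℕ) (hQ0 : 0 < Q)
    (hQ : ∀ i ∈ oddS a \ I, ∃ w : ℤ, (Q : ℚ) * z i = w) (hp : 1 ≤ p)
    (hind : ∀ M > 0, LinearIndependent ℚ (fun x : Row B p I => jet ℚ a M B p I (oddS a \ I) z x))
    (M : ℕ) (hM : 0 < M) (hMa : 4 * B * p ≤ a * M) :
    1 ≤ ((Q : ℝ) * (256 ^ M) ^ (a + 1)) ^ (Fintype.card (Row B p I)) *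
      (((Fintype.card (Row B p I)).factorial : ℝ) *
        (300 * (p : ℝ) ^ 2 * (a : ℝ) ^ 3 * (10 * (a : ℝ) ^ 2) ^ (4 * B * p) * Real.exp (2 * M)) ^
          (Fintype.card (Row B p I)) *
        (3 / 4 : ℝ) ^ ((FR B p I).card * ((FR B p I).card - 1) / 2) * 4 ^ (FR B p I).card) := by
  classical
  have ha : 1 ≤ a := hB.trans hBa
  obtain ⟨g, hg, hdet⟩ := exists_minor (K := ℚ)
    (Matrix.of (fun (x : Row B p I) c => jet ℚ a M B p I (oddS a \ I) z x c)) (hind M hM)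
  set R := Fintype.card (Row B p I) with hR
  set D : ℚ := ((Matrix.of (fun (x : Row B p I) c => jet ℚ a M B p I (oddS a \ I) z x c)).submatrix
    id g).det with hD
  set d := Nat.lcmUpto M with hd
  have hd0 : 0 < d := Nat.lcmUpto_pos M
  -- integrality
  have hint : ∃ w : ℤ, ((Q * d ^ (a + 1) : ℕ) : ℚ) ^ R * D = w := by
    have h1 : ∀ (x : Row B p I) (c : Row B p I), ∃ w : ℤ,
        ((Q * d ^ (a + 1) : ℕ) : ℚ) * jet ℚ a M B p I (oddS a \ I) z x (g c) = w :=
      fun x c => jet_int hM (fun q h1 h2 => dvd_lcmUpto h1 h2) I _ z Q hQ x (g c)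
    choose w hw using h1
    refine ⟨(Matrix.of w).det, ?_⟩
    have h2 : ((Matrix.of w).det : ℚ) = ((Matrix.of w).map (fun t : ℤ => (t : ℚ))).det :=
      (RingHom.map_det (Int.castRingHom ℚ) _)
    rw [h2]
    have h3 : (Matrix.of w).map (fun t : ℤ => (t : ℚ)) = ((Q * d ^ (a + 1) : ℕ) : ℚ) •
        ((Matrix.of (fun (x : Row B p I) c => jet ℚ a M B p I (oddS a \ I) z x c)).submatrix id g) := by
      ext x c
      simp only [Matrix.map_apply, Matrix.of_apply, Matrix.smul_apply, Matrix.submatrix_apply, id_eq,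
        smul_eq_mul]
      rw [hw]
    rw [h3, Matrix.det_smul]
  obtain ⟨w, hw⟩ := hint
  have hw0 : w ≠ 0 := by
    rintro rfl
    rw [Int.cast_zero, mul_eq_zero] at hw
    rcases hw with h | h
    · have : ((Q * d ^ (a + 1) : ℕ) : ℚ) ≠ 0 := by
        have : 0 < Q * d ^ (a + 1) := by positivity
        exact_mod_cast this.ne'
      exact pow_ne_zero _ this h
    · exact hdet h
  have h1 : (1 : ℝ) ≤ ((Q * d ^ (a + 1) : ℕ) : ℝ) ^ R * |(D : ℝ)| := by
    have h2 : (1 : ℝ) ≤ |(w : ℝ)| := by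
      have := Int.one_le_abs hw0
      exact_mod_cast this
    have h3 : (w : ℝ) = ((Q * d ^ (a + 1) : ℕ) : ℝ) ^ R * (D : ℝ) := by
      have := congrArg (fun t : ℚ => (t : ℝ)) hw
      push_cast at this ⊢
      exact this.symm
    rw [h3, abs_mul, abs_of_nonneg (by positivity)] at h2
    exact h2
  -- the series matrix
  obtain ⟨A, hA1, hA2, hA3⟩ := exists_series_matrix a M B p I hI z hz (fun β hβ j hj =>
    an_series a p (2 * β + 1) (4 * B * p) hp (by omega) (fF M p (2 * β + 1) j) (fF_mem β j hj)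
      (fun k hk hlt => by
        rw [fF, Polynomial.eval_mul, an_root M p _ k hp ⟨β, rfl⟩ hk hlt, zero_mul])) g
  set N : ℝ := 300 * (p : ℝ) ^ 2 * (a : ℝ) ^ 3 * (10 * (a : ℝ) ^ 2) ^ (4 * B * p) *
    Real.exp (2 * M) with hN
  have hp' : (1 : ℝ) ≤ p := by exact_mod_cast hp
  have ha' : (1 : ℝ) ≤ a := by exact_mod_cast ha
  have hN0 : 0 ≤ N := by positivity
  have hNle : (10 * (a : ℝ) ^ 2) ^ (4 * B * p) * Real.exp M ≤ N := by
    have e1 : (1 : ℝ) ≤ 300 * (p : ℝ) ^ 2 * (a : ℝ) ^ 3 := by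
      have := one_le_pow₀ (n := 2) hp'
      have := one_le_pow₀ (n := 3) ha'
      nlinarith
    have e2 : Real.exp M ≤ Real.exp (2 * M) := by
      apply Real.exp_le_exp.2
      have : (0 : ℝ) ≤ M := by positivity
      linarith
    have e3 : 0 ≤ (10 * (a : ℝ) ^ 2) ^ (4 * B * p) := by positivity
    calc (10 * (a : ℝ) ^ 2) ^ (4 * B * p) * Real.exp M
        ≤ (10 * (a : ℝ) ^ 2) ^ (4 * B * p) * Real.exp (2 * M) := mul_le_mul_of_nonneg_left e2 e3
      _ ≤ (300 * (p : ℝ) ^ 2 * (a : ℝ) ^ 3) *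
          ((10 * (a : ℝ) ^ 2) ^ (4 * B * p) * Real.exp (2 * M)) := by
          apply le_mul_of_one_le_left _ e1
          positivity
      _ = N := by rw [hN]; ring
  have hgood := good_lemma A (FR B p I) (fun _ => N) (fun _ => hN0) (3 / 4) (by norm_num)
    (by norm_num)
    (fun x k => match x with
      | .inr (.inr y) => gam (4 * B * p) p (2 * (y.1 : ℕ) + 1) (fF M p (2 * (y.1 : ℕ) + 1) y.2) k
      | _ => 0)
    (fun k c => PowerSeries.coeff ((g c).2 : ℕ) (yl ℝ p (g c).1 ^ (4 * B * p + k)))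
    (by
      intro x hx c
      rw [hA2 x hx c]
      refine le_trans ?_ hNle
      rcases x with j | x | x
      · simp only [jet, rowPoly, rowSer, mul_one]
        exact bd_Cn a M B p ha hB hp hM hMa _ (g c).1.2 _ j.2.le _
      · simp only [jet, rowPoly, rowSer]
        rw [PowerSeries.coeff_mul_X_pow']
        split_ifs
        · exact bd_Cn a M B p ha hB hp hM hMa _ (g c).1.2 _ x.2.2.le _
        · rw [abs_zero]; positivity
      · exact absurd (mem_FR.2 ⟨x, rfl⟩) hx)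
    (by
      intro x hx k c
      obtain ⟨⟨β, j⟩, rfl⟩ := mem_FR.1 hx
      exact bd_gam a M B p ha hB hBa hp hM hMa β β.2 j j.2 _ (g c).1.2 _ k)
    (by
      intro x hx c
      obtain ⟨y, rfl⟩ := mem_FR.1 hx
      exact hA3 y c)
  have h4 : (1 : ℝ) / (1 - 3 / 4) = 4 := by norm_num
  rw [h4, prod_const, card_univ, ← hR, ← hA1] at hgood
  have h5 : ((Q * d ^ (a + 1) : ℕ) : ℝ) ^ R ≤ ((Q : ℝ) * (256 ^ M) ^ (a + 1)) ^ R := by
    apply pow_le_pow_left₀ (by positivity)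
    push_cast
    apply mul_le_mul_of_nonneg_left _ (by positivity)
    exact pow_le_pow_left₀ (by positivity) (lcmUpto_le M) _
  calc (1 : ℝ) ≤ ((Q * d ^ (a + 1) : ℕ) : ℝ) ^ R * |(D : ℝ)| := h1
    _ ≤ ((Q : ℝ) * (256 ^ M) ^ (a + 1)) ^ R * _ :=
      mul_le_mul h5 hgood (abs_nonneg _) (by positivity)

/-- the limit argument -/
theorem limit_arg (X c1 c2 : ℝ) (p1 : ℕ)
    (h : ∀ p ≥ p1, X * (p : ℝ) ^ 2 ≤ c1 * p + c2 * (p * Real.log p)) : X ≤ 0 := by
  have h1 : Tendsto (fun p : ℕ => c1 * (1 / (p : ℝ)) + c2 * (Real.log p / p)) atTop (𝓝 (c1 * 0 + c2 * 0)) := by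
    refine (tendsto_one_div_atTop_nhds_zero_nat.const_mul c1).add (Tendsto.const_mul c2 ?_)
    have := (Real.isLittleO_log_id_atTop.tendsto_div_nhds_zero).comp
      (tendsto_natCast_atTop_atTop (R := ℝ))
    exact this
  rw [mul_zero, mul_zero, add_zero] at h1
  refine ge_of_tendsto h1 ?_
  filter_upwards [eventually_ge_atTop (max p1 1)] with p hp
  have hp1 := h p ((le_max_left _ _).trans hp)
  have hp0 : (0 : ℝ) < p := by
    have := (le_max_right p1 1).trans hp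
    exact_mod_cast this
  have : X * (p : ℝ) ^ 2 / (p : ℝ) ^ 2 ≤ (c1 * p + c2 * (p * Real.log p)) / (p : ℝ) ^ 2 :=
    div_le_div_of_nonneg_right hp1 (by positivity)
  have e1 : X * (p : ℝ) ^ 2 / (p : ℝ) ^ 2 = X := by field_simp
  have e2 : (c1 * p + c2 * (p * Real.log p)) / (p : ℝ) ^ 2 = c1 * (1 / (p : ℝ)) + c2 * (Real.log p / p) := by
    field_simp
  rw [e1, e2] at this
  exact this

theorem log_alg {R W B p M a lQ l2 lw lp l3 la lf l4 l43 : ℝ} (hR : 0 ≤ R) (hRW : R ≤ W * p)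
    (hp : 0 ≤ p) (hW : 0 ≤ W) (hB : 0 ≤ B) (ha : 0 ≤ a)
    (hM0 : 0 ≤ M) (hM1 : M ≤ 4 * B * p + 1) (hMa1 : (a + 1) * M ≤ 8 * B * p + (a + 1))
    (hlQ : 0 ≤ lQ) (hl2 : 0 ≤ l2) (hlw : 0 ≤ lw) (hlp : 0 ≤ lp) (hl3 : 0 ≤ l3) (hla : 0 ≤ la)
    (hfac : lf ≤ R * (lw + lp))
    (h0 : 0 ≤ R * (lQ + (a + 1) * (M * l2)) + (lf + R * (l3 + 2 * lp + 4 * B * p * la + 2 * M) +
      (2 * B ^ 4 * p ^ 2 - B ^ 2 * p) * (-l43) + 2 * B ^ 2 * p * l4)) :
    (2 * B ^ 4 * l43 - W * (4 * B) * (2 * l2 + la + 2)) * p ^ 2 ≤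
      (W * (lQ + (a + 1) * l2 + lw + l3 + 2) + 2 * B ^ 2 * l4 + B ^ 2 * l43) * p +
        3 * W * (p * lp) := by
  have h1 : (a + 1) * (M * l2) ≤ (8 * B * p + (a + 1)) * l2 := by
    rw [← mul_assoc]
    exact mul_le_mul_of_nonneg_right hMa1 hl2
  have h2 : lQ + (a + 1) * (M * l2) + (lw + lp) + (l3 + 2 * lp + 4 * B * p * la + 2 * M) ≤
      4 * B * p * (2 * l2 + la + 2) + (lQ + (a + 1) * l2 + lw + l3 + 2) + 3 * lp := by
    linarith
  have h3 : 0 ≤ lQ + (a + 1) * (M * l2) + (lw + lp) + (l3 + 2 * lp + 4 * B * p * la + 2 * M) := by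
    positivity
  have h4 : R * (lQ + (a + 1) * (M * l2) + (lw + lp) + (l3 + 2 * lp + 4 * B * p * la + 2 * M)) ≤
      (W * p) * (4 * B * p * (2 * l2 + la + 2) + (lQ + (a + 1) * l2 + lw + l3 + 2) + 3 * lp) :=
    mul_le_mul hRW h2 h3 (by positivity)
  linarith

/-- logarithm of the determinant inequality -/
theorem log_ineq (Q a B p M R w : ℕ) (hQ : 1 ≤ Q) (ha : 1 ≤ a) (hB : 1 ≤ B) (hp : 1 ≤ p) (hR : 1 ≤ R)
    (hRw : R ≤ 4 * B * w * p) (hM2 : a * M ≤ 4 * B * p + a)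
    (h : 1 ≤ ((Q : ℝ) * (256 ^ M) ^ (a + 1)) ^ R * ((R.factorial : ℝ) *
        (300 * (p : ℝ) ^ 2 * (a : ℝ) ^ 3 * (10 * (a : ℝ) ^ 2) ^ (4 * B * p) * Real.exp (2 * M)) ^ R *
        (3 / 4 : ℝ) ^ ((2 * B ^ 2 * p) * (2 * B ^ 2 * p - 1) / 2) * 4 ^ (2 * B ^ 2 * p))) :
    (2 * (B : ℝ) ^ 4 * Real.log (4 / 3) - 4 * B * w * (4 * B) *
        (2 * Real.log 256 + Real.log (10 * (a : ℝ) ^ 2) + 2)) * (p : ℝ) ^ 2 ≤
      (4 * B * w * (Real.log Q + (a + 1) * Real.log 256 + Real.log (4 * B * w) +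
        Real.log (300 * (a : ℝ) ^ 3) + 2) + 2 * (B : ℝ) ^ 2 * Real.log 4 +
        (B : ℝ) ^ 2 * Real.log (4 / 3)) * p + (12 * B * w) * (p * Real.log p) := by
  have hQ' : (1 : ℝ) ≤ Q := by exact_mod_cast hQ
  have ha' : (1 : ℝ) ≤ a := by exact_mod_cast ha
  have hB' : (1 : ℝ) ≤ B := by exact_mod_cast hB
  have hp' : (1 : ℝ) ≤ p := by exact_mod_cast hp
  have hR' : (1 : ℝ) ≤ R := by exact_mod_cast hR
  have hRw' : (R : ℝ) ≤ 4 * B * w * p := by exact_mod_cast hRw
  have hM2' : (a : ℝ) * M ≤ 4 * B * p + a := by exact_mod_cast hM2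
  have hM0 : (0 : ℝ) ≤ M := by positivity
  have h0 := Real.log_le_log one_pos h
  rw [Real.log_one, Real.log_mul (by positivity) (by positivity), Real.log_pow,
    Real.log_mul (by positivity) (by positivity), Real.log_pow, Real.log_pow,
    Real.log_mul (by positivity) (by positivity), Real.log_mul (by positivity) (by positivity),
    Real.log_mul (by positivity) (by positivity), Real.log_pow,
    Real.log_mul (by positivity) (by positivity), Real.log_mul (by positivity) (by positivity),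
    Real.log_exp, Real.log_pow, Real.log_pow, Real.log_pow] at h0
  have hN : Real.log (300 * (p : ℝ) ^ 2 * (a : ℝ) ^ 3) = Real.log (300 * (a : ℝ) ^ 3) + 2 * Real.log p := by
    rw [show 300 * (p : ℝ) ^ 2 * (a : ℝ) ^ 3 = (300 * (a : ℝ) ^ 3) * (p : ℝ) ^ 2 by ring,
      Real.log_mul (by positivity) (by positivity), Real.log_pow]
    norm_num
  rw [hN] at h0
  have hfac : Real.log (R.factorial : ℝ) ≤ R * (Real.log (4 * B * w) + Real.log p) := by
    have hw0 : (0 : ℝ) < w := by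
      by_contra hcon
      have : (w : ℝ) = 0 := le_antisymm (not_lt.1 hcon) (by positivity)
      rw [this] at hRw'
      simp at hRw'
      linarith
    have h1 : (R.factorial : ℝ) ≤ (R : ℝ) ^ R := by exact_mod_cast Nat.factorial_le_pow R
    have h2 := Real.log_le_log (by positivity) h1
    rw [Real.log_pow] at h2
    refine h2.trans (mul_le_mul_of_nonneg_left ?_ (by positivity))
    rw [← Real.log_mul (by positivity) (by positivity)]
    exact Real.log_le_log (by linarith) hRw'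
  have hlog34 : Real.log (3 / 4) = -Real.log (4 / 3) := by
    rw [← Real.log_inv]; norm_num
  have hK : (((2 * B ^ 2 * p) * (2 * B ^ 2 * p - 1) / 2 : ℕ) : ℝ) =
      2 * (B : ℝ) ^ 4 * (p : ℝ) ^ 2 - (B : ℝ) ^ 2 * p := by
    have e : (2 * B ^ 2 * p) * (2 * B ^ 2 * p - 1) / 2 = B ^ 2 * p * (2 * B ^ 2 * p - 1) := by
      rw [show (2 * B ^ 2 * p) * (2 * B ^ 2 * p - 1) = 2 * (B ^ 2 * p * (2 * B ^ 2 * p - 1)) by ring,
        Nat.mul_div_cancel_left _ (by norm_num)]
    have e1 : 1 ≤ 2 * B ^ 2 * p := by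
      have : 0 < B ^ 2 * p := by positivity
      nlinarith
    rw [e]
    push_cast [Nat.cast_sub e1]
    ring
  rw [hK, hlog34] at h0
  have hl256 : 0 ≤ Real.log 256 := Real.log_nonneg (by norm_num)
  have hlQ : 0 ≤ Real.log Q := Real.log_nonneg hQ'
  have hlp : 0 ≤ Real.log p := Real.log_nonneg hp'
  have hla : 0 ≤ Real.log (10 * (a : ℝ) ^ 2) := Real.log_nonneg (by nlinarith)
  have hl3 : 0 ≤ Real.log (300 * (a : ℝ) ^ 3) :=
    Real.log_nonneg (by have := one_le_pow₀ (n := 3) ha'; nlinarith)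
  have hM1 : (M : ℝ) ≤ 4 * B * p + 1 := by
    by_contra hcon
    rw [not_le] at hcon
    have h2 : (a : ℝ) * (4 * B * p + 1) < a * M := by
      apply mul_lt_mul_of_pos_left hcon (by linarith)
    have h3 : (a : ℝ) * (4 * B * p + 1) = a * (4 * B * p) + a := by ring
    have h4 : 4 * B * p ≤ (a : ℝ) * (4 * B * p) := le_mul_of_one_le_left (by positivity) ha'
    linarith
  have hMa1 : ((a : ℝ) + 1) * M ≤ 8 * B * p + (a + 1) := by
    have : ((a : ℝ) + 1) * M = a * M + M := by ring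
    linarith
  have hw1 : (1 : ℝ) ≤ 4 * B * w := by
    have : 0 < w := by
      rcases Nat.eq_zero_or_pos w with h | h
      · subst h; simp at hRw; omega
      · exact h
    have hw' : (1 : ℝ) ≤ w := by exact_mod_cast this
    rw [mul_assoc]
    refine one_le_mul_of_one_le_of_one_le (by norm_num) (one_le_mul_of_one_le_of_one_le hB' hw')
  have hlw : 0 ≤ Real.log (4 * B * w) := Real.log_nonneg hw1
  have := log_alg (R := (R : ℝ)) (W := 4 * B * w) (B := B) (p := p) (M := M) (a := a)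
    (l4 := Real.log 4) (l43 := Real.log (4 / 3)) (by positivity) hRw' (by positivity) (by positivity)
    (by positivity) (by positivity) hM0 hM1 hMa1 hlQ hl256 hlw hlp hl3 hla hfac
    (by push_cast at h0 ⊢; linarith)
  refine this.trans (le_of_eq ?_)
  ring

/-- **core inequality** -/
theorem core : ∃ C : ℝ, 0 < C ∧ ∀ (a B : ℕ) (I : Finset ℕ), 1 ≤ B → B ≤ a → I ⊆ oddS a →
    (∀ c ∈ I, 8 * B * (I.filter (c ≤ ·)).card ≤ a + 1 - c) → 8 * B * (1 + I.card + B) ≤ a →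
    (∀ i ∈ oddS a \ I, ∃ q : ℚ, zr i = q) →
    (B : ℝ) ^ 2 ≤ C * (1 + I.card + B) * (1 + Real.log a) := by
  have hl43 : 0 < Real.log (4 / 3) := Real.log_pos (by norm_num)
  refine ⟨128 / Real.log (4 / 3), by positivity, fun a B I hB hBa hI hRS hm hz => ?_⟩
  have ha : 1 ≤ a := hB.trans hBa
  choose! z hz using hz
  obtain ⟨p0, hp0⟩ := jet_indep a B hB I (oddS a \ I) z hI sdiff_subset hRS hm
  set Q : ℕ := ∏ i ∈ oddS a \ I, (z i).den with hQd
  have hQ0 : 0 < Q := prod_pos fun i _ => (z i).den_pos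
  have hQ : ∀ i ∈ oddS a \ I, ∃ w : ℤ, (Q : ℚ) * z i = w := by
    intro i hi
    obtain ⟨e, he⟩ := dvd_prod_of_mem (fun i => (z i).den) hi
    refine ⟨e * (z i).num, ?_⟩
    have h1 : ((z i).den : ℚ) ≠ 0 := by
      have := (z i).den_pos
      positivity
    have h2 : z i = (z i).num / (z i).den := (Rat.num_div_den (z i)).symm
    rw [hQd, he]
    push_cast
    conv_lhs => rw [h2]
    simp only [Rat.num_div_den]
    field_simp
    have := Rat.mul_den_eq_num (z i)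
    linear_combination (e : ℚ) * this
  set w : ℕ := 1 + I.card + B with hw
  have hX := limit_arg
    (2 * (B : ℝ) ^ 4 * Real.log (4 / 3) - 4 * B * w * (4 * B) *
        (2 * Real.log 256 + Real.log (10 * (a : ℝ) ^ 2) + 2))
    (4 * B * w * (Real.log Q + (a + 1) * Real.log 256 + Real.log (4 * B * w) +
        Real.log (300 * (a : ℝ) ^ 3) + 2) + 2 * (B : ℝ) ^ 2 * Real.log 4 +
        (B : ℝ) ^ 2 * Real.log (4 / 3)) (12 * B * w) (max p0 1) (fun p hp => by
      have hp1 : 1 ≤ p := (le_max_right _ _).trans hp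
      obtain ⟨M, hM⟩ : ∃ M, M = 4 * B * p / a + 1 := ⟨_, rfl⟩
      have hM1 : 4 * B * p ≤ a * M := by
        rw [hM]
        exact (Nat.lt_mul_div_succ _ (by omega)).le
      have hM2 : a * M ≤ 4 * B * p + a := by
        rw [hM, mul_add, mul_one]
        exact Nat.add_le_add_right (Nat.mul_div_le (4 * B * p) a) a
      have h1 := one_p a B p I hB hBa hI z hz Q hQ0 hQ hp1 (hp0 p ((le_max_left _ _).trans hp)) M
        (by rw [hM]; exact Nat.succ_pos _) hM1
      rw [card_FR] at h1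
      refine log_ineq Q a B p M _ w hQ0 ha hB hp1 ?_ ?_ hM2 h1
      · rw [card_row]
        have : 0 < 2 * B ^ 2 * p := by positivity
        omega
      · rw [card_row, hw]
        have h3 : 4 * B * (1 + I.card + B) * p = 4 * B * p * (1 + I.card) + 4 * B ^ 2 * p := by ring
        rw [h3]
        have : 2 * B ^ 2 * p ≤ 4 * B ^ 2 * p := by
          apply Nat.mul_le_mul_right
          apply Nat.mul_le_mul_right
          norm_num
        omega)
  have ha' : (1 : ℝ) ≤ a := by exact_mod_cast ha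
  have hB' : (1 : ℝ) ≤ B := by exact_mod_cast hB
  have hla : 0 ≤ Real.log a := Real.log_nonneg ha'
  have hnum : 2 * Real.log 256 + Real.log (10 * (a : ℝ) ^ 2) + 2 ≤ 16 * (1 + Real.log a) := by
    have e1 : Real.log 256 = 8 * Real.log 2 := by
      rw [show (256 : ℝ) = 2 ^ 8 by norm_num, Real.log_pow]; norm_num
    have e2 : Real.log (10 * (a : ℝ) ^ 2) ≤ 4 * Real.log 2 + 2 * Real.log a := by
      rw [Real.log_mul (by norm_num) (by positivity), Real.log_pow]
      have : Real.log 10 ≤ Real.log (2 ^ 4) := Real.log_le_log (by norm_num) (by norm_num)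
      rw [Real.log_pow] at this
      push_cast at this ⊢
      linarith
    have e3 := Real.log_two_lt_d9
    rw [e1]
    nlinarith
  have hwr : (1 : ℝ) + I.card + B = w := by rw [hw]; push_cast; ring
  rw [hwr]
  have hw0 : (0 : ℝ) ≤ w := by positivity
  have h5 : 2 * (B : ℝ) ^ 4 * Real.log (4 / 3) ≤ 16 * (B : ℝ) ^ 2 * w * (16 * (1 + Real.log a)) := by
    have : 16 * (B : ℝ) ^ 2 * w * (2 * Real.log 256 + Real.log (10 * (a : ℝ) ^ 2) + 2) ≤
        16 * (B : ℝ) ^ 2 * w * (16 * (1 + Real.log a)) :=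
      mul_le_mul_of_nonneg_left hnum (by positivity)
    have h6 : 4 * (B : ℝ) * w * (4 * B) * (2 * Real.log 256 + Real.log (10 * (a : ℝ) ^ 2) + 2) =
      16 * (B : ℝ) ^ 2 * w * (2 * Real.log 256 + Real.log (10 * (a : ℝ) ^ 2) + 2) := by ring
    rw [h6] at hX
    linarith
  have h7 : (B : ℝ) ^ 2 * Real.log (4 / 3) ≤ 128 * w * (1 + Real.log a) := by
    have hB2 : 0 < 2 * (B : ℝ) ^ 2 := by positivity
    refine le_of_mul_le_mul_left ?_ hB2
    nlinarith
  rw [div_mul_eq_mul_div, div_mul_eq_mul_div, le_div_iff₀ hl43]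
  exact h7

end Pool.Agent.ZC
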