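import Pool.Agent.ZC.Defs4
import Pool.Agent.ZC.ENT

/-! # ZC V4: the entries of the rational matrix are `d`-integral -/

namespace Pool.Agent.ZC

open Finset

/-! ### the blocks -/

theorem Bp_eq_Cp (m j : ℕ) (hj : j ≤ m) : Bp ℚ m j = Cp ℚ j := by
  unfold Bp Cp
  refine prod_congr rfl fun k hk => ?_
  rw [mem_range] at hk
  rw [Nat.mod_eq_of_lt (lt_of_lt_of_le hk hj)]

theorem Bp_add (m w : ℕ) : Bp ℚ m (m + w) = Cp ℚ m * Bp ℚ m w := by
  rw [← Bp_eq_Cp m m le_rfl]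
  unfold Bp
  rw [prod_range_add]
  congr 1
  refine prod_congr rfl fun k _ => ?_
  rw [Nat.add_mod_left]

theorem Bn_of_lt {m j : ℕ} (hj : j ≤ m) : Bn ℚ m j = Cn ℚ (2 * m) j := by
  unfold Bn Cn
  rw [Bp_eq_Cp m j hj]

theorem Bn_add {m : ℕ} (hm : 0 < m) (w : ℕ) : Bn ℚ m (m + w) = Cn ℚ (2 * m) m * Bn ℚ m w := by
  unfold Bn Cn
  rw [Bp_add, show 2 * (m + w) = 2 * m + 2 * w by ring, bf_add (by omega : 0 < 2 * m),
    bf_self (by omega : 0 < 2 * m)]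
  have h1 : ((4 ^ (m + w) * ((2 * m).factorial * bf (2 * m) (2 * w)) : ℕ) : ℚ)⁻¹ =
      ((4 ^ m * (2 * m).factorial : ℕ) : ℚ)⁻¹ * ((4 ^ w * bf (2 * m) (2 * w) : ℕ) : ℚ)⁻¹ := by
    rw [← mul_inv]
    congr 1
    push_cast
    ring
  rw [h1, map_mul]
  ring

theorem ev_mul' (p l : ℕ) (f g : Polynomial ℚ) : ev ℚ p l (f * g) = ev ℚ p l f * ev ℚ p l g := by
  simp [ev]

theorem ev_pow' (p l n : ℕ) (f : Polynomial ℚ) : ev ℚ p l (f ^ n) = ev ℚ p l f ^ n := by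
  simp [ev]

theorem ev_Bn_mem {d m : ℕ} (hm : 0 < m) (hd : ∀ q : ℕ, 1 ≤ q → q ≤ 2 * m → q ∣ d) (p l j : ℕ) :
    ev ℚ p l (Bn ℚ m j) ∈ dR d := by
  induction j using Nat.strong_induction_on with
  | _ j ih =>
    rcases Nat.lt_or_ge j m with h | h
    · rw [Bn_of_lt h.le]
      exact ev_Cn_mem (by omega) hd _ _ _
    · obtain ⟨w, rfl⟩ := Nat.exists_eq_add_of_le h
      rw [Bn_add hm, ev_mul']
      exact mul_mem (ev_Cn_mem (by omega) hd _ _ _) (ih w (by omega))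

/-! ### Hasse derivatives of simple fractions -/

theorem hs_add' (h : ℕ) (f g : PowerSeries ℚ) : hs ℚ h (f + g) = hs ℚ h f + hs ℚ h g := by
  ext r
  simp only [hs, PowerSeries.coeff_mk, map_add]
  ring

theorem hs_neg' (h : ℕ) (f : PowerSeries ℚ) : hs ℚ h (-f) = -hs ℚ h f := by
  ext r
  simp only [hs, PowerSeries.coeff_mk, map_neg]
  ring

theorem hs_sub' (h : ℕ) (f g : PowerSeries ℚ) : hs ℚ h (f - g) = hs ℚ h f - hs ℚ h g := by
  rw [sub_eq_add_neg, hs_add', hs_neg', ← sub_eq_add_neg]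

theorem hs_zero' (h : ℕ) : hs ℚ h 0 = 0 := by
  ext r
  simp [hs]

theorem hs_sum' {α : Type} (h : ℕ) (s : Finset α) (f : α → PowerSeries ℚ) :
    hs ℚ h (∑ i ∈ s, f i) = ∑ i ∈ s, hs ℚ h (f i) := by
  classical
  induction s using Finset.induction_on with
  | empty => simp [hs_zero']
  | insert a s ha ih => rw [sum_insert ha, sum_insert ha, hs_add', ih]

theorem inv_sub_eq {c : ℚ} (hc : c ≠ 0) :
    (PowerSeries.C c - PowerSeries.X)⁻¹ =
      PowerSeries.C c⁻¹ * PowerSeries.rescale c⁻¹ (PowerSeries.mk 1 : PowerSeries ℚ) := by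
  symm
  rw [PowerSeries.eq_inv_iff_mul_eq_one (by simpa using hc)]
  ext n
  rw [mul_sub, map_sub]
  rcases n with _ | n
  · simp [hc]
  · rw [PowerSeries.coeff_succ_mul_X, mul_comm _ (PowerSeries.C c), PowerSeries.coeff_C_mul,
      PowerSeries.coeff_C_mul, PowerSeries.coeff_C_mul, PowerSeries.coeff_rescale,
      PowerSeries.coeff_rescale]
    simp only [PowerSeries.coeff_mk, Pi.one_apply, mul_one, PowerSeries.coeff_one]
    rw [if_neg (Nat.succ_ne_zero n), pow_succ]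
    field_simp
    ring

theorem hs_inv_subQ {c : ℚ} (hc : c ≠ 0) (h : ℕ) :
    hs ℚ h ((PowerSeries.C c - PowerSeries.X)⁻¹) =
      ((PowerSeries.C c - PowerSeries.X)⁻¹) ^ (h + 1) := by
  rw [inv_sub_eq hc, mul_pow, ← map_pow, ← map_pow, PowerSeries.mk_one_pow_eq_mk_choose_add]
  ext r
  rw [hs, PowerSeries.coeff_mk, PowerSeries.coeff_C_mul, PowerSeries.coeff_C_mul,
    PowerSeries.coeff_rescale, PowerSeries.coeff_rescale, PowerSeries.coeff_mk,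
    PowerSeries.coeff_mk, add_comm h r, Pi.one_apply]
  ring

theorem hs_inv_addQ {c : ℚ} (hc : c ≠ 0) {h : ℕ} (hh : Even h) :
    hs ℚ h ((PowerSeries.C c + PowerSeries.X)⁻¹) =
      ((PowerSeries.C c + PowerSeries.X)⁻¹) ^ (h + 1) := by
  have h1 : (PowerSeries.C c + PowerSeries.X : PowerSeries ℚ)⁻¹ =
      -(PowerSeries.C (-c) - PowerSeries.X)⁻¹ := by
    symm
    rw [PowerSeries.eq_inv_iff_mul_eq_one (by simpa using hc)]
    have h2 : (PowerSeries.C (-c) - PowerSeries.X : PowerSeries ℚ)⁻¹ *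
        (PowerSeries.C (-c) - PowerSeries.X) = 1 :=
      PowerSeries.inv_mul_cancel _ (by simpa using hc)
    rw [map_neg] at h2 ⊢
    linear_combination h2
  have h3 : Odd (h + 1) := hh.add_one
  rw [h1, hs_neg', hs_inv_subQ (neg_ne_zero.2 hc), h3.neg_pow]

/-! ### the single terms of `gs` -/

theorem ev_An_sub_mem {d M : ℕ} (hM : 0 < M) (hd : ∀ q : ℕ, 1 ≤ q → q ≤ M → q ∣ d) (p l b : ℕ)
    (hb : Odd b) (hl : l < 2 * p) (k : ℕ) (hk : k ∈ Icc 1 (b * l)) :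
    PowerSeries.C (d : ℚ) * (ev ℚ p l (An ℚ M p b) *
      (PowerSeries.C ((k : ℚ) / b) - PowerSeries.X)⁻¹) ∈ dR d := by
  have hb0 : (b : ℚ) ≠ 0 := by
    have := hb.pos
    positivity
  obtain ⟨e, he⟩ := hb
  have hbb : Odd b := ⟨e, he⟩
  have hw := wb_eq (p := p) (l := l) hbb
  rw [ev_An_eq _ _ _ _ hbb]
  have key : ∀ s : PowerSeries ℚ,
      PowerSeries.C (d : ℚ) * (PowerSeries.C ((bf M (4 * b * p) : ℚ)⁻¹) *
        run (wb p b l - (2 * b * p : ℕ)) b (4 * b * p) * s) =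
      PowerSeries.C ((d : ℚ) * (bf M (4 * b * p) : ℚ)⁻¹) *
        (run (wb p b l - (2 * b * p : ℕ)) b (4 * b * p) * s) := by
    intro s
    rw [map_mul]; ring
  have hbl : (0 : ℤ) ≤ (b : ℤ) * l := by positivity
  have hbp : (b : ℤ) * l ≤ (b : ℤ) * (2 * p - 1) := by
    apply mul_le_mul_of_nonneg_left _ (by positivity)
    omega
  have hp1 : (b : ℤ) ≤ b * p := by
    have : 1 ≤ p := by omega
    nlinarith
  rw [mem_Icc] at hk
  rw [key]
  have hk1 : (k : ℤ) ≤ b * l := by exact_mod_cast hk.2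
  have h0 : 0 ≤ 2 * (b : ℤ) * p - wb p b l - k := by nlinarith
  obtain ⟨k0, hk0⟩ := Int.eq_ofNat_of_zero_le h0
  refine run_div_mem hM hd _ _ _ k0 ?_ (-(b : ℚ)) ((k : ℚ) / b) (by simpa using hb0) ?_
    ⟨-b, by simp⟩ _ ?_ ?_
  · have : (k0 : ℤ) < 4 * b * p := by rw [← hk0]; nlinarith
    exact_mod_cast this
  · have : (k : ℚ) ≠ 0 := by
      have := hk.1
      positivity
    positivity
  · have h1 : ((wb p b l - (2 * b * p : ℕ) : ℤ) : ℚ) + k0 = -(k : ℚ) := by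
      have h2 : (k0 : ℚ) = 2 * (b : ℚ) * p - wb p b l - k := by
        have := congrArg (Int.cast : ℤ → ℚ) hk0
        push_cast at this
        linarith
      rw [h2]; push_cast; ring
    rw [h1, mul_sub, ← map_mul]
    have h3 : -(b : ℚ) * ((k : ℚ) / b) = -k := by field_simp
    rw [h3, map_neg, map_neg]
    push_cast
    ring
  · simp

theorem ev_An_add_mem {d M : ℕ} (hM : 0 < M) (hd : ∀ q : ℕ, 1 ≤ q → q ≤ M → q ∣ d) (p l b : ℕ)
    (hb : Odd b) (hl : l < 2 * p) (k : ℕ) (hk : k ∈ Icc 1 (b * (2 * p - 1 - l))) :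
    PowerSeries.C (d : ℚ) * (ev ℚ p l (An ℚ M p b) *
      (PowerSeries.C ((k : ℚ) / b) + PowerSeries.X)⁻¹) ∈ dR d := by
  have hb0 : (b : ℚ) ≠ 0 := by
    have := hb.pos
    positivity
  obtain ⟨e, he⟩ := hb
  have hbb : Odd b := ⟨e, he⟩
  have hw := wb_eq (p := p) (l := l) hbb
  rw [ev_An_eq _ _ _ _ hbb]
  have key : ∀ s : PowerSeries ℚ,
      PowerSeries.C (d : ℚ) * (PowerSeries.C ((bf M (4 * b * p) : ℚ)⁻¹) *
        run (wb p b l - (2 * b * p : ℕ)) b (4 * b * p) * s) =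
      PowerSeries.C ((d : ℚ) * (bf M (4 * b * p) : ℚ)⁻¹) *
        (run (wb p b l - (2 * b * p : ℕ)) b (4 * b * p) * s) := by
    intro s
    rw [map_mul]; ring
  have hbl : (0 : ℤ) ≤ (b : ℤ) * l := by positivity
  have hbp : (b : ℤ) * l ≤ (b : ℤ) * (2 * p - 1) := by
    apply mul_le_mul_of_nonneg_left _ (by positivity)
    omega
  have hp1 : (b : ℤ) ≤ b * p := by
    have : 1 ≤ p := by omega
    nlinarith
  rw [mem_Icc] at hk
  rw [key]
  have hk1 : (k : ℤ) ≤ b * (2 * p - 1 - l) := by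
    have h1 : ((2 * p - 1 - l : ℕ) : ℤ) = 2 * p - 1 - l := by omega
    rw [← h1]
    exact_mod_cast hk.2
  have h0 : 0 ≤ 2 * (b : ℤ) * p - wb p b l + k := by nlinarith
  obtain ⟨k0, hk0⟩ := Int.eq_ofNat_of_zero_le h0
  refine run_div_mem hM hd _ _ _ k0 ?_ (b : ℚ) ((k : ℚ) / b) hb0 ?_ ⟨b, by simp⟩ _ ?_ ?_
  · have : (k0 : ℤ) < 4 * b * p := by rw [← hk0]; nlinarith
    exact_mod_cast this
  · have : (k : ℚ) ≠ 0 := by
      have := hk.1
      positivity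
    positivity
  · have h1 : ((wb p b l - (2 * b * p : ℕ) : ℤ) : ℚ) + k0 = (k : ℚ) := by
      have h2 : (k0 : ℚ) = 2 * (b : ℚ) * p - wb p b l + k := by
        have := congrArg (Int.cast : ℤ → ℚ) hk0
        push_cast at this
        linarith
      rw [h2]; push_cast; ring
    rw [h1, mul_add, ← map_mul]
    have h3 : (b : ℚ) * ((k : ℚ) / b) = k := by field_simp
    rw [h3]
    push_cast
    ring
  · simp

theorem ev_fP_hs_mem {d m : ℕ} (hm : 0 < m) (hd : ∀ q : ℕ, 1 ≤ q → q ≤ 2 * m → q ∣ d)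
    (h p l b j : ℕ) (hh : Even h) (hb : Odd b) (hl : l < 2 * p) :
    PowerSeries.C ((d : ℚ) ^ (h + 1)) * (ev ℚ p l (fP ℚ h m p b j) * hs ℚ h (gs ℚ p b l)) ∈
      dR d := by
  have hb0 : (b : ℚ) ≠ 0 := by
    have := hb.pos
    positivity
  have hM : 0 < 2 * m := by omega
  have hB := ev_Bn_mem hm hd p l j
  have e1 : ev ℚ p l (fP ℚ h m p b j) =
      ev ℚ p l (An ℚ (2 * m) p b) ^ (h + 1) * ev ℚ p l (Bn ℚ m j) := by
    rw [fP, ev_mul', ev_pow']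
  have key : ∀ s : PowerSeries ℚ,
      PowerSeries.C (d : ℚ) * (ev ℚ p l (An ℚ (2 * m) p b) * s) ∈ dR d →
      PowerSeries.C ((d : ℚ) ^ (h + 1)) * (ev ℚ p l (fP ℚ h m p b j) * s ^ (h + 1)) ∈ dR d := by
    intro s hs
    have e2 : PowerSeries.C ((d : ℚ) ^ (h + 1)) * (ev ℚ p l (fP ℚ h m p b j) * s ^ (h + 1)) =
        (PowerSeries.C (d : ℚ) * (ev ℚ p l (An ℚ (2 * m) p b) * s)) ^ (h + 1) *
          ev ℚ p l (Bn ℚ m j) := by
      rw [e1, map_pow, mul_pow, mul_pow]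
      ring
    rw [e2]
    exact mul_mem (pow_mem hs _) hB
  rw [gs, hs_add', hs_sum', hs_sum', mul_add, mul_add, mul_sum, mul_sum, mul_sum, mul_sum]
  refine add_mem (sum_mem fun k hk => ?_) (sum_mem fun k hk => ?_)
  · have hk0 : (k : ℚ) / b ≠ 0 := by
      have h1 := (mem_Icc.1 hk).1
      have : (k : ℚ) ≠ 0 := by positivity
      positivity
    rw [hs_inv_subQ hk0]
    exact key _ (ev_An_sub_mem hM hd p l b hb hl k hk)
  · have hk0 : (k : ℚ) / b ≠ 0 := by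
      have h1 := (mem_Icc.1 hk).1
      have : (k : ℚ) ≠ 0 := by positivity
      positivity
    rw [hs_inv_addQ hk0 hh]
    exact key _ (ev_An_add_mem hM hd p l b hb hl k hk)

theorem ev_fP_mem {d m : ℕ} (hm : 0 < m) (hd : ∀ q : ℕ, 1 ≤ q → q ≤ 2 * m → q ∣ d)
    (h p l b j : ℕ) (hb : Odd b) : ev ℚ p l (fP ℚ h m p b j) ∈ dR d := by
  rw [fP, ev_mul', ev_pow']
  exact mul_mem (pow_mem (ev_An_mem (by omega) hd _ _ _ hb) _) (ev_Bn_mem hm hd p l j)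

/-- integrality of all entries `r < a` -/
theorem row4_int {a d h m B p : ℕ} (hm : 0 < m) (hd : ∀ q : ℕ, 1 ≤ q → q ≤ 2 * m → q ∣ d)
    (hh : Even h) (J : Type) (ψ : J → PowerSeries ℚ) (S : Finset ℕ) (z : ℕ → ℚ) (Q : ℕ)
    (hQ : ∀ i ∈ S, ∃ w : ℤ, (Q : ℚ) * z i = w)
    (hψ : ∀ j, ∀ r < a, ∃ w : ℤ, (Q : ℚ) * PowerSeries.coeff r (ψ j) = w)
    (x : Row4 J B ((h + 1) * p)) (l : ℕ) (hl : l < p) (r : ℕ) (hr : r < a) :
    ∃ w : ℤ, ((Q * d ^ (a + h + 1) : ℕ) : ℚ) *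
      PowerSeries.coeff r (row4 ℚ J h m B p ψ S z l x) = w := by
  rcases x with x | x
  · simp only [row4]
    have hB := ev_Bn_mem hm hd p l (x.2 : ℕ)
    rw [PowerSeries.coeff_mul, mul_sum]
    have key : ∀ u ∈ antidiagonal r, ∃ w : ℤ, ((Q * d ^ (a + h + 1) : ℕ) : ℚ) *
        (PowerSeries.coeff u.1 (ψ x.1) * PowerSeries.coeff u.2 (ev ℚ p l (Bn ℚ m x.2))) = w := by
      intro u hu
      rw [HasAntidiagonal.mem_antidiagonal] at hu
      obtain ⟨w1, h1⟩ := hψ x.1 u.1 (by omega)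
      obtain ⟨w2, h2⟩ := coeff_int_of_mem (a := a + h + 1) hB (r := u.2) (by omega)
      refine ⟨w1 * w2, ?_⟩
      push_cast
      rw [← h1, ← h2]
      ring
    choose! w hw using key
    refine ⟨∑ u ∈ antidiagonal r, w u, ?_⟩
    push_cast
    refine sum_congr rfl fun u hu => ?_
    have := hw u hu
    push_cast at this
    exact this
  · simp only [row4]
    have hb : Odd (2 * (x.1 : ℕ) + 1) := ⟨_, rfl⟩
    have h1 := ev_fP_mem hm hd h p l (2 * (x.1 : ℕ) + 1) (x.2 : ℕ) hb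
    have h2 := ev_fP_hs_mem hm hd h p l (2 * (x.1 : ℕ) + 1) (x.2 : ℕ) hh hb (by omega)
    have hpoly : PowerSeries.C (Q : ℚ) * hs ℚ h (∑ i ∈ S,
        PowerSeries.C (2 * ((2 * (x.1 : ℕ) + 1 : ℕ) : ℚ) ^ i * z i) *
          PowerSeries.X ^ (i - 1)) ∈ dR d := by
      rw [hs_sum', mul_sum]
      refine sum_mem fun i hi => ?_
      rw [mem_dR]
      intro n
      obtain ⟨w, hw⟩ := hQ i hi
      rw [PowerSeries.coeff_C_mul, hs, PowerSeries.coeff_mk, PowerSeries.coeff_C_mul,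
        PowerSeries.coeff_X_pow]
      split_ifs with hc
      · refine ⟨(d : ℤ) ^ n * (((n + h).choose h : ℤ) * (2 * (2 * (x.1 : ℕ) + 1 : ℕ) ^ i * w)), ?_⟩
        push_cast
        rw [← hw]
        ring
      · exact ⟨0, by simp⟩
    have hmem : PowerSeries.C ((Q * d ^ (h + 1) : ℕ) : ℚ) *
        (ev ℚ p l (fP ℚ h m p (2 * (x.1 : ℕ) + 1) x.2) *
          hs ℚ h (Gs ℚ p (2 * (x.1 : ℕ) + 1) l S z)) ∈ dR d := by
      rw [Gs, hs_sub']
      have e2 : PowerSeries.C ((Q * d ^ (h + 1) : ℕ) : ℚ) *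
          (ev ℚ p l (fP ℚ h m p (2 * (x.1 : ℕ) + 1) x.2) *
            (hs ℚ h (∑ i ∈ S, PowerSeries.C (2 * ((2 * (x.1 : ℕ) + 1 : ℕ) : ℚ) ^ i * z i) *
              PowerSeries.X ^ (i - 1)) - hs ℚ h (gs ℚ p (2 * (x.1 : ℕ) + 1) l))) =
          PowerSeries.C ((d ^ (h + 1) : ℕ) : ℚ) *
            (ev ℚ p l (fP ℚ h m p (2 * (x.1 : ℕ) + 1) x.2) * (PowerSeries.C (Q : ℚ) *
              hs ℚ h (∑ i ∈ S, PowerSeries.C (2 * ((2 * (x.1 : ℕ) + 1 : ℕ) : ℚ) ^ i * z i) *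
                PowerSeries.X ^ (i - 1)))) -
          PowerSeries.C (Q : ℚ) * (PowerSeries.C ((d : ℚ) ^ (h + 1)) *
            (ev ℚ p l (fP ℚ h m p (2 * (x.1 : ℕ) + 1) x.2) *
              hs ℚ h (gs ℚ p (2 * (x.1 : ℕ) + 1) l))) := by
        push_cast
        rw [map_mul]
        ring
      rw [e2]
      exact sub_mem (mul_mem (C_nat_mem _ _) (mul_mem h1 hpoly)) (mul_mem (C_nat_mem _ _) h2)
    obtain ⟨w, hw⟩ := coeff_int_of_mem hmem hr.le
    refine ⟨w, ?_⟩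
    rw [← hw, PowerSeries.coeff_C_mul]
    push_cast
    ring

end Pool.Agent.ZC
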