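import Pool.Agent.ZC.GOOD
import Pool.Agent.ZC.MIN
import Pool.Agent.ZC.RS

/-! # ZC V4: abstract determinant inequality -/

namespace Pool.Agent.ZC

open Finset

theorem det_ineq {Cc Fi Col : Type} [Fintype Cc] [Fintype Fi] [Fintype Col]
    (v : Cc ⊕ Fi → Col → ℚ)
    (hmod : ∀ (c : Cc → ℚ) (f : Fi → ℚ),
      (∀ x, ∑ i, c i * v (.inl i) x + ∑ j, f j * v (.inr j) x = 0) → ∀ j, f j = 0)
    (D : ℕ) (hD : 0 < D) (hint : ∀ r x, ∃ w : ℤ, (D : ℚ) * v r x = w)
    (N t : ℝ) (hN : 0 ≤ N) (ht0 : 0 ≤ t) (ht1 : t < 1) (γ : Fi → ℕ → ℝ) (u : ℕ → Col → ℝ)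
    (h1 : ∀ i x, |(v (.inl i) x : ℝ)| ≤ N)
    (h2 : ∀ j k x, |γ j k * u k x| ≤ N * t ^ (2 * k))
    (h3 : ∀ j, ∃ α : Cc → ℝ, ∀ x, HasSum (fun k => γ j k * u k x)
      ((v (.inr j) x : ℝ) - ∑ i, α i * (v (.inl i) x : ℝ))) :
    ∃ R : ℕ, Fintype.card Fi ≤ R ∧ R ≤ Fintype.card Cc + Fintype.card Fi ∧
      1 ≤ (D : ℝ) ^ R * ((R.factorial : ℝ) * N ^ R *
        t ^ (Fintype.card Fi * (Fintype.card Fi - 1) / 2) * (1 / (1 - t)) ^ Fintype.card Fi) := by
  classical
  obtain ⟨κ, a, ha, hspan, hli⟩ := exists_linearIndependent' ℚ (fun i : Cc => v (.inl i))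
  have : Finite κ := Finite.of_injective a ha
  have : Fintype κ := Fintype.ofFinite κ
  -- the family
  have hliF : LinearIndependent ℚ (fun j : Fi => v (.inr j)) := by
    rw [Fintype.linearIndependent_iff]
    intro f hf
    refine hmod 0 f fun x => ?_
    have := congrFun hf x
    simpa [Finset.sum_apply] using this
  have hli2 : LinearIndependent ℚ (Sum.elim (fun i : κ => v (.inl (a i))) (fun j : Fi => v (.inr j))) := by
    refine LinearIndependent.sum_type hli hliF ?_
    rw [Submodule.disjoint_def]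
    intro x hx1 hx2
    rw [show (fun i : κ => v (Sum.inl (a i))) = (fun i : Cc => v (.inl i)) ∘ a from rfl, hspan] at hx1
    obtain ⟨c, hc⟩ := (Submodule.mem_span_range_iff_exists_fun ℚ).1 hx1
    obtain ⟨f, hf⟩ := (Submodule.mem_span_range_iff_exists_fun ℚ).1 hx2
    have hf0 := hmod (fun i => - c i) f (fun y => by
      have e1 := congrFun hc y
      have e2 := congrFun hf y
      simp only [Finset.sum_apply, Pi.smul_apply, smul_eq_mul] at e1 e2
      rw [e2, ← e1, ← Finset.sum_add_distrib]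
      exact Finset.sum_eq_zero fun i _ => by ring)
    rw [← hf]
    exact Finset.sum_eq_zero fun j _ => by rw [hf0 j, zero_smul]
  obtain ⟨g, hg, hdet⟩ := exists_minor (K := ℚ)
    (Matrix.of (Sum.elim (fun i : κ => v (.inl (a i))) (fun j : Fi => v (.inr j)))) hli2
  set W : κ ⊕ Fi → Col → ℚ := Sum.elim (fun i : κ => v (.inl (a i))) (fun j : Fi => v (.inr j)) with hW
  set R := Fintype.card (κ ⊕ Fi) with hR
  have hRc : R = Fintype.card κ + Fintype.card Fi := by rw [hR, Fintype.card_sum]
  refine ⟨R, by omega, by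
    have := Fintype.card_le_of_injective a ha
    omega, ?_⟩
  set Δ : ℚ := ((Matrix.of W).submatrix id g).det with hΔ
  -- integrality
  have hWint : ∀ r x, ∃ w : ℤ, (D : ℚ) * W r x = w := by
    rintro (i | j) x
    · exact hint _ _
    · exact hint _ _
  have hint2 : ∃ w : ℤ, (D : ℚ) ^ R * Δ = w := by
    choose w hw using fun (r : κ ⊕ Fi) (c : κ ⊕ Fi) => hWint r (g c)
    refine ⟨(Matrix.of w).det, ?_⟩
    have e2 : ((Matrix.of w).det : ℚ) = ((Matrix.of w).map (fun t : ℤ => (t : ℚ))).det :=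
      (RingHom.map_det (Int.castRingHom ℚ) _)
    rw [e2]
    have e3 : (Matrix.of w).map (fun t : ℤ => (t : ℚ)) = (D : ℚ) • ((Matrix.of W).submatrix id g) := by
      ext x c
      simp only [Matrix.map_apply, Matrix.of_apply, Matrix.smul_apply, Matrix.submatrix_apply, id_eq,
        smul_eq_mul]
      rw [hw]
    rw [e3, Matrix.det_smul]
  obtain ⟨w, hw⟩ := hint2
  have hw0 : w ≠ 0 := by
    rintro rfl
    rw [Int.cast_zero, mul_eq_zero] at hw
    rcases hw with h | h
    · have : (D : ℚ) ≠ 0 := by exact_mod_cast hD.ne'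
      exact pow_ne_zero _ this h
    · exact hdet h
  have hone : (1 : ℝ) ≤ (D : ℝ) ^ R * |(Δ : ℝ)| := by
    have e2 : (1 : ℝ) ≤ |(w : ℝ)| := by
      have := Int.one_le_abs hw0
      exact_mod_cast this
    have e3 : (w : ℝ) = (D : ℝ) ^ R * (Δ : ℝ) := by
      have := congrArg (fun t : ℚ => (t : ℝ)) hw
      push_cast at this ⊢
      exact this.symm
    rw [e3, abs_mul, abs_of_nonneg (by positivity)] at e2
    exact e2
  -- expansion of companions in the chosen ones
  have hcomb : ∀ i : Cc, ∃ c : κ → ℚ, ∀ x, v (.inl i) x = ∑ k, c k * v (.inl (a k)) x := by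
    intro i
    have hmem : v (.inl i) ∈ Submodule.span ℚ (Set.range ((fun i : Cc => v (.inl i)) ∘ a)) := by
      rw [hspan]
      exact Submodule.subset_span ⟨i, rfl⟩
    obtain ⟨c, hc⟩ := (Submodule.mem_span_range_iff_exists_fun ℚ).1 hmem
    refine ⟨c, fun x => ?_⟩
    have := congrFun hc x
    simp only [Finset.sum_apply, Pi.smul_apply, smul_eq_mul, Function.comp] at this
    exact this.symm
  choose cc hcc using hcomb
  choose α hα using h3
  set A0 : Matrix (κ ⊕ Fi) (κ ⊕ Fi) ℝ := Matrix.of fun r c => (W r (g c) : ℝ) with hA0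
  set G : Finset (κ ⊕ Fi) := univ.filter (fun r => r.isRight = true) with hG
  have memG : ∀ r : κ ⊕ Fi, r ∈ G ↔ r.isRight = true := by intro r; simp [hG]
  set cf : κ ⊕ Fi → κ ⊕ Fi → ℝ := fun r s =>
    match r, s with
    | .inr j, .inl k => ∑ i, α j i * ((cc i k : ℚ) : ℝ)
    | _, _ => 0 with hcf
  set A : Matrix (κ ⊕ Fi) (κ ⊕ Fi) ℝ := Matrix.of fun r c =>
    if r ∈ G then A0 r c - ∑ s ∈ Gᶜ, cf r s * A0 s c else A0 r c with hA
  have hdetA : A0.det = A.det := by
    refine det_row_ops A A0 G cf ?_ ?_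
    · intro x hx c
      simp only [hA, Matrix.of_apply, if_neg hx]
    · intro x hx c
      have e1 : ∑ k ∈ Gᶜ, cf x k * A k c = ∑ k ∈ Gᶜ, cf x k * A0 k c := by
        refine sum_congr rfl fun k hk => ?_
        rw [mem_compl] at hk
        simp only [hA, Matrix.of_apply, if_neg hk]
      rw [e1]
      simp only [hA, Matrix.of_apply, if_pos hx]
      ring
  have hcast : (Δ : ℝ) = A.det := by
    rw [← hdetA]
    have e1 : A0 = ((Matrix.of W).submatrix id g).map (fun q : ℚ => (q : ℝ)) := by
      ext x c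
      simp only [hA0, Matrix.of_apply, Matrix.map_apply, Matrix.submatrix_apply, id_eq]
    rw [e1]
    exact (RingHom.map_det (Rat.castHom ℝ) _)
  have hsumG : ∀ f : κ ⊕ Fi → ℝ, ∑ s ∈ Gᶜ, f s = ∑ k : κ, f (.inl k) := by
    intro f
    have e : Gᶜ = univ.filter (fun x => x ∉ G) := by ext; simp
    rw [e, sum_filter, Fintype.sum_sum_type]
    have e1 : ∀ k : κ, (Sum.inl k : κ ⊕ Fi) ∉ G := by intro k; simp [memG]
    have e2 : ∀ j : Fi, (Sum.inr j : κ ⊕ Fi) ∈ G := by intro j; simp [memG]
    simp only [e1, e2, not_false_eq_true, if_true, not_true_eq_false, if_false,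
      sum_const_zero, add_zero]
  have hgood := good_lemma A G (fun _ => N) (fun _ => hN) t ht0 ht1
    (fun r k => match r with
      | .inr j => γ j k
      | _ => 0)
    (fun k c => u k (g c))
    (by
      intro r hr c
      simp only [hA, Matrix.of_apply, if_neg hr, hA0]
      rcases r with k | j
      · exact h1 _ _
      · exact absurd ((memG _).2 rfl) hr)
    (by
      intro r hr k c
      rcases r with i | j
      · exact absurd ((memG _).1 hr) (by simp)
      · exact h2 j k _)
    (by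
      intro r hr c
      rcases r with i | j
      · exact absurd ((memG _).1 hr) (by simp)
      · have := hα j (g c)
        convert this using 1
        simp only [hA, Matrix.of_apply, if_pos hr]
        rw [hsumG]
        have e1 : A0 (Sum.inr j) c = (v (.inr j) (g c) : ℝ) := by
          simp only [hA0, Matrix.of_apply, hW, Sum.elim_inr]
        have e2 : ∑ k : κ, cf (Sum.inr j) (Sum.inl k) * A0 (Sum.inl k) c =
            ∑ i, α j i * (v (.inl i) (g c) : ℝ) := by
          simp only [hcf, hA0, Matrix.of_apply, hW, Sum.elim_inl, sum_mul]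
          rw [sum_comm]
          refine sum_congr rfl fun i _ => ?_
          have := congrArg (fun q : ℚ => (q : ℝ)) (hcc i (g c))
          push_cast at this
          rw [this, mul_sum]
          exact sum_congr rfl fun k _ => by ring
        rw [e1, e2])
  have hGc : G.card = Fintype.card Fi := by
    have : (G.card : ℝ) = Fintype.card Fi := by
      rw [hG, Finset.card_filter, Fintype.sum_sum_type]
      simp
    exact_mod_cast this
  rw [hGc, prod_const, card_univ, ← hR, ← hcast] at hgood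
  exact hone.trans (mul_le_mul_of_nonneg_left hgood (by positivity))

end Pool.Agent.ZC
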