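import Pool.Agent.ZC.Defs4

/-!
# ZC V4: Hasse derivatives of the geometric series
-/

namespace Pool.Agent.ZC

open Finset PowerSeries

variable {K : Type*} [Field K]

theorem coeff_hs (h r : ℕ) (f : PowerSeries K) :
    coeff r (hs K h f) = ((r + h).choose h : K) * coeff (r + h) f := by
  rw [hs, coeff_mk]

theorem hs_add (h : ℕ) (f g : PowerSeries K) : hs K h (f + g) = hs K h f + hs K h g := by
  ext r; simp only [coeff_hs, map_add]; ring

theorem hs_sub (h : ℕ) (f g : PowerSeries K) : hs K h (f - g) = hs K h f - hs K h g := by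
  ext r; simp only [coeff_hs, map_sub]; ring

theorem hs_sum {ι : Type*} (h : ℕ) (s : Finset ι) (f : ι → PowerSeries K) :
    hs K h (∑ i ∈ s, f i) = ∑ i ∈ s, hs K h (f i) := by
  ext r; simp only [coeff_hs, map_sum, Finset.mul_sum]

theorem hs_C_mul (h : ℕ) (c : K) (f : PowerSeries K) : hs K h (C c * f) = C c * hs K h f := by
  ext r; simp only [coeff_hs, coeff_C_mul]; ring

theorem inv_C_sub_X (c : K) (hc : c ≠ 0) :
    (C c - X : PowerSeries K)⁻¹ = C c⁻¹ * rescale c⁻¹ (PowerSeries.mk 1) := by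
  rw [eq_comm, PowerSeries.eq_inv_iff_mul_eq_one (by simpa using hc)]
  have h1 : (C c - X : PowerSeries K) = C c * rescale c⁻¹ (1 - X) := by
    rw [map_sub, map_one, rescale_X, mul_sub, mul_one, ← mul_assoc, ← map_mul, mul_inv_cancel₀ hc,
      map_one, one_mul]
  rw [h1]
  have h2 : C c⁻¹ * rescale c⁻¹ (PowerSeries.mk 1) * (C c * rescale c⁻¹ (1 - X)) =
      C (c⁻¹ * c) * rescale c⁻¹ (PowerSeries.mk 1 * (1 - X)) := by
    rw [map_mul, map_mul]; ring
  rw [h2, PowerSeries.mk_one_mul_one_sub_eq_one, inv_mul_cancel₀ hc]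
  simp

theorem inv_C_add_X (c : K) (hc : c ≠ 0) :
    (C c + X : PowerSeries K)⁻¹ = C c⁻¹ * rescale (-c⁻¹) (PowerSeries.mk 1) := by
  rw [eq_comm, PowerSeries.eq_inv_iff_mul_eq_one (by simpa using hc)]
  have h1 : (C c + X : PowerSeries K) = C c * rescale (-c⁻¹) (1 - X) := by
    rw [map_sub, map_one, rescale_X, mul_sub, mul_one, ← mul_assoc, ← map_mul, mul_neg,
      mul_inv_cancel₀ hc, map_neg, map_one]
    ring
  rw [h1]
  have h2 : C c⁻¹ * rescale (-c⁻¹) (PowerSeries.mk 1) * (C c * rescale (-c⁻¹) (1 - X)) =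
      C (c⁻¹ * c) * rescale (-c⁻¹) (PowerSeries.mk 1 * (1 - X)) := by
    rw [map_mul, map_mul]; ring
  rw [h2, PowerSeries.mk_one_mul_one_sub_eq_one, inv_mul_cancel₀ hc]
  simp

theorem coeff_inv_C_sub_X (c : K) (hc : c ≠ 0) (r : ℕ) :
    coeff r (C c - X : PowerSeries K)⁻¹ = c⁻¹ ^ (r + 1) := by
  rw [inv_C_sub_X c hc, coeff_C_mul, coeff_rescale, coeff_mk, Pi.one_apply]; ring

theorem coeff_inv_C_add_X (c : K) (hc : c ≠ 0) (r : ℕ) :
    coeff r (C c + X : PowerSeries K)⁻¹ = (-1) ^ r * c⁻¹ ^ (r + 1) := by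
  rw [inv_C_add_X c hc, coeff_C_mul, coeff_rescale, coeff_mk, Pi.one_apply, neg_pow]; ring

theorem hs_inv_sub (h : ℕ) (c : K) (hc : c ≠ 0) :
    hs K h (C c - X)⁻¹ = (C c - X)⁻¹ ^ (h + 1) := by
  have h1 : (C c - X : PowerSeries K)⁻¹ ^ (h + 1) =
      C (c⁻¹ ^ (h + 1)) * rescale c⁻¹ (PowerSeries.mk fun n => ((h + n).choose h : K)) := by
    rw [inv_C_sub_X c hc, mul_pow, ← map_pow, ← map_pow, PowerSeries.mk_one_pow_eq_mk_choose_add]
  rw [h1]
  ext r
  rw [coeff_hs, coeff_inv_C_sub_X c hc, coeff_C_mul, coeff_rescale, coeff_mk, add_comm h r]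
  ring

theorem hs_inv_add (h : ℕ) (hh : Even h) (c : K) (hc : c ≠ 0) :
    hs K h (C c + X)⁻¹ = (C c + X)⁻¹ ^ (h + 1) := by
  have h1 : (C c + X : PowerSeries K)⁻¹ ^ (h + 1) =
      C (c⁻¹ ^ (h + 1)) * rescale (-c⁻¹) (PowerSeries.mk fun n => ((h + n).choose h : K)) := by
    rw [inv_C_add_X c hc, mul_pow, ← map_pow, ← map_pow, PowerSeries.mk_one_pow_eq_mk_choose_add]
  rw [h1]
  ext r
  rw [coeff_hs, coeff_inv_C_add_X c hc, coeff_C_mul, coeff_rescale, coeff_mk, add_comm h r, pow_add,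
    hh.neg_one_pow, neg_pow c⁻¹ r]
  ring

end Pool.Agent.ZC
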