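import Pool.Agent.ZC.ZE4
import Pool.Agent.ZC.HS

/-!
# ZC V4: the zero estimate `ze4`
-/

namespace Pool.Agent.ZC

open Finset

theorem evenS_iff {K : Type*} [Field K] {f : PowerSeries K}
    (hf : ∀ r, Odd r → PowerSeries.coeff r f = 0) : PowerSeries.evalNegHom f = f := by
  ext r
  rw [PowerSeries.evalNegHom, PowerSeries.coeff_rescale]
  rcases Nat.even_or_odd r with hr | hr
  · rw [hr.neg_one_pow, one_mul]
  · rw [hf r hr, mul_zero]

theorem hs_gs {K : Type*} [Field K] [CharZero K] (p b h l : ℕ) (hb : 1 ≤ b) (hh : Even h) :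
    hs K h (gs K p b l) = gsh K p b h l := by
  have hbne : (b : K) ≠ 0 := Nat.cast_ne_zero.2 (by omega)
  have hk : ∀ k ∈ Icc 1 (b * l), ((k : K) / b) ≠ 0 := fun k hk =>
    div_ne_zero (Nat.cast_ne_zero.2 (by rw [mem_Icc] at hk; omega)) hbne
  have hk' : ∀ k ∈ Icc 1 (b * (2 * p - 1 - l)), ((k : K) / b) ≠ 0 := fun k hk =>
    div_ne_zero (Nat.cast_ne_zero.2 (by rw [mem_Icc] at hk; omega)) hbne
  unfold gs gsh
  rw [hs_add, hs_sum, hs_sum]
  congr 1
  · exact Finset.sum_congr rfl fun k hkm => hs_inv_sub h _ (hk k hkm)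
  · exact Finset.sum_congr rfl fun k hkm => hs_inv_add h hh _ (hk' k hkm)

theorem hs_Gs {K : Type*} [Field K] [CharZero K] (p b h l : ℕ) (hb : 1 ≤ b) (hh : Even h)
    (S : Finset ℕ) (z : ℕ → K) :
    hs K h (Gs K p b l S z) = hs K h (zs K b S z) - gsh K p b h l := by
  rw [← hs_gs p b h l hb hh, ← hs_sub]
  rfl

theorem hs_zs_even {K : Type*} [Field K] (b h : ℕ) (hh : Even h) (S : Finset ℕ) (hS : ∀ i ∈ S, Odd i)
    (z : ℕ → K) : ∀ r, Odd r → PowerSeries.coeff r (hs K h (zs K b S z)) = 0 := by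
  intro r hr
  rw [coeff_hs, zs, map_sum, Finset.sum_eq_zero, mul_zero]
  intro i hi
  rw [PowerSeries.coeff_C_mul, PowerSeries.coeff_X_pow, if_neg, mul_zero]
  intro h0
  have h1 : Odd (r + h) := hr.add_even hh
  have h2 : Even (i - 1) := (hS i hi).tsub_odd odd_one
  rw [h0] at h1
  exact (Nat.not_even_iff_odd.2 h1) h2

open Polynomial in
theorem ze4 {K : Type*} [Field K] [CharZero K] (a B h : ℕ) (hB : 1 ≤ B) (hh : Even h) (J : Type)
    [Fintype J] (ψ : J → PowerSeries K) (hψ : ∀ j, ∀ r, Odd r → PowerSeries.coeff r (ψ j) = 0)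
    (S : Finset ℕ) (hS : ∀ i ∈ S, Odd i) (z : ℕ → K)
    (hm : 8 * B * (h + 1) * (Fintype.card J + B + 1) ≤ a) :
    ∃ p0 : ℕ, ∀ p ≥ p0, ∀ (q : J → K[X]) (P : ℕ → K[X]),
      (∀ j, q j ∈ degreeLT K (4 * B * ((h + 1) * p))) →
      (∀ β < B, P β ∈ degreeLT K (4 * B * ((h + 1) * p))) →
      (∀ l < p, (PowerSeries.X : PowerSeries K) ^ a ∣ ∑ j, ψ j * ev K p l (q j) +
        ∑ β ∈ range B, ev K p l (P β) * hs K h (Gs K p (2 * β + 1) l S z)) →
      ∀ β < B, P β = 0 := by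
  have hm' : 8 * B * (h + 1) * (1 + Fintype.card J + B) ≤ a := by
    have : Fintype.card J + B + 1 = 1 + Fintype.card J + B := by ring
    rw [← this]; exact hm
  obtain ⟨p0, hp0⟩ := ze_funct (K := K) a B h hB hh ψ (fun j => evenS_iff (hψ j))
    (fun β => hs K h (zs K (2 * β + 1) S z)) (fun β => evenS_iff (hs_zs_even _ h hh S hS z)) hm'
  refine ⟨p0, fun p hp q P hq hP hrel => ?_⟩
  have e : 4 * B * ((h + 1) * p) = 4 * B * (h + 1) * p := by ring
  rw [e] at hq hP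
  refine hp0 p hp 0 q P (Submodule.zero_mem _) hq hP fun l hl => ?_
  have h1 := hrel l hl
  have h2 : ∀ β ∈ range B, ev K p l (P β) * hs K h (Gs K p (2 * β + 1) l S z) =
      ev K p l (P β) * (hs K h (zs K (2 * β + 1) S z) - gsh K p (2 * β + 1) h l) := by
    intro β _
    rw [hs_Gs p _ h l (by omega) hh]
  rw [Finset.sum_congr rfl h2] at h1
  have h3 : ev K p l (0 : K[X]) = 0 := by rw [ev, map_zero]
  rw [h3, zero_add]
  exact h1

end Pool.Agent.ZC
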