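import Pool.Agent.ZC.MOD4
import Pool.Agent.ZC.AN4
import Pool.Agent.ZC.ENT4
import Pool.Agent.ZC.BDB4
import Pool.Agent.ZC.ZE4F
import Pool.Agent.ZC.CORA
import Pool.Agent.ZC.COR
import Pool.Agent.ZC.LA4
import Pool.Agent.ZC.BDC

/-! # ZC V4: the core inequality -/

namespace Pool.Agent.ZC

open Finset Filter Topology

theorem map_hs (h : ℕ) (f : PowerSeries ℚ) :
    PowerSeries.map (algebraMap ℚ ℝ) (hs ℚ h f) = hs ℝ h (PowerSeries.map (algebraMap ℚ ℝ) f) := by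
  ext r
  simp [hs]

theorem map_Bn (m j : ℕ) : (Bn ℚ m j).map (algebraMap ℚ ℝ) = Bn ℝ m j := by
  simp [Bn, Bp, Polynomial.map_prod]

theorem map_fP (h m p b j : ℕ) : (fP ℚ h m p b j).map (algebraMap ℚ ℝ) = fP ℝ h m p b j := by
  simp [fP, map_Bn, map_An]

theorem Gs_eq (K : Type*) [Field K] (p b l : ℕ) (S : Finset ℕ) (z : ℕ → K) :
    Gs K p b l S z = zs K b S z - gs K p b l := rfl

/-! ### triangular basis -/

section
variable (K : Type*) [Field K]

theorem Bp_monic (m j : ℕ) : (Bp K m j).Monic :=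
  Polynomial.monic_prod_of_monic _ _ fun _ _ => Polynomial.monic_X_sub_C _

theorem Bp_natDegree (m j : ℕ) : (Bp K m j).natDegree = j := by
  rw [Bp, Polynomial.natDegree_prod_of_monic _ _ fun _ _ => Polynomial.monic_X_sub_C _]
  simp only [Polynomial.natDegree_X_sub_C, sum_const, card_range, smul_eq_mul, mul_one]

theorem Bn_degree [CharZero K] (m j : ℕ) : (Bn K m j).degree = j := by
  rw [Bn, Polynomial.degree_C_mul (norm_ne_zero K _ _ _),
    Polynomial.degree_eq_natDegree (Bp_monic K m j).ne_zero, Bp_natDegree]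

theorem fP_degree [CharZero K] (h m p b j : ℕ) (hb : b ≠ 0) :
    (fP K h m p b j).degree = ((h + 1) * (2 * b * p) + j : ℕ) := by
  rw [fP, Polynomial.degree_mul, Polynomial.degree_pow, An_degree K _ _ _ hb, Bn_degree]
  push_cast
  simp

theorem exists_comb_gen (g : ℕ → Polynomial K) (hg : ∀ j : ℕ, (g j).degree = j) (n : ℕ)
    (f : Polynomial K) (hf : f ∈ Polynomial.degreeLT K n) :
    ∃ α : Fin n → K, f = ∑ j, Polynomial.C (α j) * g j := by
  induction n generalizing f with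
  | zero =>
    refine ⟨fun _ => 0, ?_⟩
    rw [Polynomial.mem_degreeLT] at hf
    have : f = 0 := by
      by_contra h
      rw [Polynomial.degree_eq_natDegree h] at hf
      exact absurd hf (by simp)
    simp [this]
  | succ n ih =>
    have hlc : (g n).leadingCoeff ≠ 0 := by
      rw [Polynomial.leadingCoeff_ne_zero]
      intro h
      have := hg n
      rw [h] at this
      simp at this
    set c := f.coeff n / (g n).leadingCoeff with hc
    have hnat : (g n).natDegree = n := Polynomial.natDegree_eq_of_degree_eq_some (hg n)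
    have hmem : f - Polynomial.C c * g n ∈ Polynomial.degreeLT K n := by
      rw [Polynomial.mem_degreeLT, Polynomial.degree_lt_iff_coeff_zero]
      rw [Polynomial.mem_degreeLT, Polynomial.degree_lt_iff_coeff_zero] at hf
      intro m hm
      rw [Polynomial.coeff_sub, Polynomial.coeff_C_mul]
      rcases Nat.lt_or_ge n m with h | h
      · rw [hf m (by omega), Polynomial.coeff_eq_zero_of_natDegree_lt (by omega)]
        simp
      · have : m = n := by omega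
        subst this
        have : (g m).coeff m = (g m).leadingCoeff := by
          rw [Polynomial.leadingCoeff, hnat]
        rw [this, hc, div_mul_cancel₀ _ hlc, sub_self]
    obtain ⟨α, hα⟩ := ih _ hmem
    refine ⟨Fin.snoc α c, ?_⟩
    rw [Fin.sum_univ_castSucc]
    simp only [Fin.snoc_castSucc, Fin.snoc_last, Fin.val_castSucc, Fin.val_last]
    rw [← hα]
    ring

end

theorem fP_mem {h m B p : ℕ} (β : ℕ) (j : ℕ) (hj : j < (4 * B - 2 * (2 * β + 1)) * ((h + 1) * p)) :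
    fP ℝ h m p (2 * β + 1) j ∈ Polynomial.degreeLT ℝ (4 * B * ((h + 1) * p)) := by
  rw [Polynomial.mem_degreeLT, fP_degree ℝ h m p _ j (by omega)]
  have h : (h + 1) * (2 * (2 * β + 1) * p) + j < 4 * B * ((h + 1) * p) := by
    have h0 : 0 < 4 * B - 2 * (2 * β + 1) := by
      rcases Nat.eq_zero_or_pos (4 * B - 2 * (2 * β + 1)) with h | h
      · rw [h] at hj; omega
      · exact h
    have h1 : 4 * B * ((h + 1) * p) =
        (4 * B - 2 * (2 * β + 1)) * ((h + 1) * p) + (h + 1) * (2 * (2 * β + 1) * p) := by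
      have h2 : 4 * B = (4 * B - 2 * (2 * β + 1)) + 2 * (2 * β + 1) := by omega
      conv_lhs => rw [h2]
      ring
    rw [h1]; omega
  exact_mod_cast h

/-! ### the rational `F` entries and the real ones -/

theorem row4_real (a h m p b l j : ℕ) (hb : 1 ≤ b) (J : Type) [Fintype J] (ψ : J → PowerSeries ℚ)
    (S : Finset ℕ) (z : ℕ → ℚ) (lam : J → ℝ)
    (hlam : ∀ r < a, PowerSeries.coeff r (hs ℝ h (zs ℝ b (oddS (a + h)) zr)) =
        ((PowerSeries.coeff r (hs ℚ h (zs ℚ b S z)) : ℚ) : ℝ) +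
        ∑ j, lam j * ((PowerSeries.coeff r (ψ j) : ℚ) : ℝ)) (r : ℕ) (hr : r < a) :
    PowerSeries.coeff r (ev ℝ p l (fP ℝ h m p b j) * hs ℝ h (Gs ℝ p b l (oddS (a + h)) zr)) =
      ((PowerSeries.coeff r (ev ℚ p l (fP ℚ h m p b j) * hs ℚ h (Gs ℚ p b l S z)) : ℚ) : ℝ) +
      ∑ i, lam i * PowerSeries.coeff r (PowerSeries.map (algebraMap ℚ ℝ) (ψ i) * ev ℝ p l (fP ℝ h m p b j)) := by
  have e1 : ((PowerSeries.coeff r (ev ℚ p l (fP ℚ h m p b j) * hs ℚ h (Gs ℚ p b l S z)) : ℚ) : ℝ) =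
      PowerSeries.coeff r (ev ℝ p l (fP ℝ h m p b j) *
        PowerSeries.map (algebraMap ℚ ℝ) (hs ℚ h (Gs ℚ p b l S z))) := by
    rw [← map_fP, ← map_ev, ← map_mul, PowerSeries.coeff_map]
    rfl
  rw [e1]
  have e2 : ∀ s < a, PowerSeries.coeff s (hs ℝ h (Gs ℝ p b l (oddS (a + h)) zr)) =
      PowerSeries.coeff s (PowerSeries.map (algebraMap ℚ ℝ) (hs ℚ h (Gs ℚ p b l S z))) +
      ∑ i, lam i * PowerSeries.coeff s (PowerSeries.map (algebraMap ℚ ℝ) (ψ i)) := by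
    intro s hs'
    rw [Gs_eq, Gs_eq, hs_sub, hs_sub, map_sub, map_sub, map_hs h (gs ℚ p b l), map_gs p b l hb,
      map_sub, hlam s hs', PowerSeries.coeff_map]
    simp only [PowerSeries.coeff_map]
    simp only [eq_ratCast]
    ring
  rw [PowerSeries.coeff_mul, PowerSeries.coeff_mul]
  have e3 : ∀ x ∈ antidiagonal r, PowerSeries.coeff x.1 (ev ℝ p l (fP ℝ h m p b j)) *
      PowerSeries.coeff x.2 (hs ℝ h (Gs ℝ p b l (oddS (a + h)) zr)) =
      PowerSeries.coeff x.1 (ev ℝ p l (fP ℝ h m p b j)) *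
      PowerSeries.coeff x.2 (PowerSeries.map (algebraMap ℚ ℝ) (hs ℚ h (Gs ℚ p b l S z))) +
      ∑ i, lam i * (PowerSeries.coeff x.1 (ev ℝ p l (fP ℝ h m p b j)) *
        PowerSeries.coeff x.2 (PowerSeries.map (algebraMap ℚ ℝ) (ψ i))) := by
    intro x hx
    rw [HasAntidiagonal.mem_antidiagonal] at hx
    rw [e2 x.2 (by omega), mul_add, mul_sum]
    congr 1
    exact sum_congr rfl fun i _ => by ring
  rw [sum_congr rfl e3, sum_add_distrib, sum_comm]
  congr 1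
  refine sum_congr rfl fun i _ => ?_
  rw [mul_comm (PowerSeries.map (algebraMap ℚ ℝ) (ψ i)), PowerSeries.coeff_mul, mul_sum]

theorem coeff_mul_le (f g : PowerSeries ℝ) (a : ℕ) (F Gb : ℝ) (hF : ∑ s ∈ range a, |PowerSeries.coeff s f| ≤ F)
    (hG : ∀ s, |PowerSeries.coeff s g| ≤ Gb) (r : ℕ) (hr : r < a) :
    |PowerSeries.coeff r (f * g)| ≤ F * Gb := by
  have hG0 : 0 ≤ Gb := (abs_nonneg _).trans (hG 0)
  rw [PowerSeries.coeff_mul, Finset.Nat.sum_antidiagonal_eq_sum_range_succ_mk]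
  refine (abs_sum_le_sum_abs _ _).trans ?_
  have h1 : ∑ s ∈ range (r + 1), |PowerSeries.coeff s f * PowerSeries.coeff (r - s) g| ≤
      ∑ s ∈ range (r + 1), |PowerSeries.coeff s f| * Gb :=
    sum_le_sum fun s _ => by
      rw [abs_mul]
      exact mul_le_mul_of_nonneg_left (hG _) (abs_nonneg _)
  refine h1.trans ?_
  rw [← sum_mul]
  refine mul_le_mul_of_nonneg_right (le_trans ?_ hF) hG0
  exact sum_le_sum_of_subset_of_nonneg (range_mono (by omega)) fun _ _ _ => abs_nonneg _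

/-! ### numerical part -/

theorem log_alg4 {R W N1 K1 p a h lQ l2 lW lp lC lB l5 l54 dl lf e : ℝ} (hR : 0 ≤ R)
    (hRW : R ≤ W * p) (hp : 0 ≤ p) (hW : 0 ≤ W) (hN1 : 0 ≤ N1) (ha : 0 ≤ a) (hh : 0 ≤ h)
    (hlQ : 0 ≤ lQ) (hlW : 0 ≤ lW) (hlp : 0 ≤ lp) (hlC : 0 ≤ lC) (hlB : 0 ≤ lB)
    (hdl : dl ≤ (4 * (N1 * p) + 4 * a) * l2) (hdl0 : 0 ≤ dl) (he0 : 0 ≤ e)
    (he : e ≤ N1 * p + 2 * (h + 2)) (hfac : lf ≤ R * (lW + lp))
    (h0 : 0 ≤ R * (lQ + dl) + (lf + R * (lC + h * lp + (N1 * p) * lB + e) +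
      (((K1 * p) ^ 2 - K1 * p) / 2) * (-l54) + (K1 * p) * l5)) :
    (K1 ^ 2 / 2 * l54 - W * N1 * (4 * l2 + lB + 1)) * p ^ 2 ≤
      (W * (lQ + 4 * a * l2 + lW + lC + 2 * (h + 2)) + K1 * l5 + K1 / 2 * l54) * p +
        (W * (h + 1)) * (p * lp) := by
  have h2 : (lQ + dl) + (lW + lp) + (lC + h * lp + (N1 * p) * lB + e) ≤
      (N1 * p) * (4 * l2 + lB + 1) + (lQ + 4 * a * l2 + lW + lC + 2 * (h + 2)) + (h + 1) * lp := by
    nlinarith
  have h3 : 0 ≤ (lQ + dl) + (lW + lp) + (lC + h * lp + (N1 * p) * lB + e) := by positivity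
  have h4 : R * ((lQ + dl) + (lW + lp) + (lC + h * lp + (N1 * p) * lB + e)) ≤
      (W * p) * ((N1 * p) * (4 * l2 + lB + 1) + (lQ + 4 * a * l2 + lW + lC + 2 * (h + 2)) +
        (h + 1) * lp) := mul_le_mul hRW h2 h3 (by positivity)
  nlinarith

theorem card_F (B q : ℕ) :
    Fintype.card (Σ β : Fin B, Fin ((4 * B - 2 * (2 * (β : ℕ) + 1)) * q)) = 2 * B ^ 2 * q := by
  rw [Fintype.card_sigma]
  simp only [Fintype.card_fin, sum_nb]

/-- the determinant inequality for one `p` -/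
theorem one_p4 (a B h : ℕ) (J : Type) [Fintype J] (ψ : J → PowerSeries ℚ)
    (j0 : J) (S : Finset ℕ) (z : ℕ → ℚ) (hB : 1 ≤ B) (hh : Even h) (hj0 : ψ j0 = 1)
    (hlam : ∀ β < B, ∃ lam : J → ℝ, ∀ r < a,
      PowerSeries.coeff r (hs ℝ h (zs ℝ (2 * β + 1) (oddS (a + h)) zr)) =
        ((PowerSeries.coeff r (hs ℚ h (zs ℚ (2 * β + 1) S z)) : ℚ) : ℝ) +
        ∑ j, lam j * ((PowerSeries.coeff r (ψ j) : ℚ) : ℝ))
    (Q : ℕ) (hQ0 : 0 < Q) (hQ : ∀ i ∈ S, ∃ w : ℤ, (Q : ℚ) * z i = w)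
    (hQψ : ∀ j, ∀ r < a, ∃ w : ℤ, (Q : ℚ) * PowerSeries.coeff r (ψ j) = w)
    (C0 : ℝ) (hC0 : 0 < C0) (m p : ℕ) (hp : 1 ≤ p) (hm : 1 ≤ m) (hmp : m ≤ p) (σ : ℝ)
    (hσ : (2 * p + 1 : ℝ) ≤ σ * (2 * m)) (hσ1 : 1 ≤ σ)
    (han : ∀ (β j : ℕ), β < B → j < (4 * B - 2 * (2 * β + 1)) * ((h + 1) * p) →
      ∃ Q ∈ Polynomial.degreeLT ℝ (4 * B * ((h + 1) * p)), ∃ γ : ℕ → ℝ,
        (∀ k, |γ k| * (2 * p + 1 : ℝ) ^ (2 * (4 * B * ((h + 1) * p) + k)) ≤
          (C0 * (p : ℝ) ^ h * (15 * (B : ℝ) ^ 2 * σ ^ 2) ^ (4 * B * ((h + 1) * p)) *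
            Real.exp ((h + 2) * (2 * m))) * (4 / 5 : ℝ) ^ (2 * k)) ∧
        ∀ l < p, ∀ r < a,
          HasSum (fun k : ℕ => γ k *
            PowerSeries.coeff r (yl ℝ p l ^ (4 * B * ((h + 1) * p) + k)))
          (PowerSeries.coeff r (ev ℝ p l (fP ℝ h m p (2 * β + 1) j) *
            hs ℝ h (Gs ℝ p (2 * β + 1) l (oddS (a + h)) zr)) -
            PowerSeries.coeff r (ev ℝ p l Q)))
    (hmod : ∀ (c : J × Fin (4 * B * ((h + 1) * p)) → ℚ)
      (f : (Σ β : Fin B, Fin ((4 * B - 2 * (2 * (β : ℕ) + 1)) * ((h + 1) * p))) → ℚ),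
      (∀ l < p, ∀ r < a,
        ∑ i, c i * PowerSeries.coeff r (row4 ℚ J h m B p ψ S z l (.inl i)) +
        ∑ j, f j * PowerSeries.coeff r (row4 ℚ J h m B p ψ S z l (.inr j)) = 0) →
      ∀ j, f j = 0) :
    ∃ R : ℕ, 2 * B ^ 2 * ((h + 1) * p) ≤ R ∧
      R ≤ 4 * B * ((h + 1) * p) * (Fintype.card J + B) ∧
      1 ≤ ((Q : ℝ) * (256 ^ (2 * m)) ^ (a + h + 1)) ^ R * ((R.factorial : ℝ) *
        ((C0 + (∑ j, ∑ s ∈ range a, |((PowerSeries.coeff s (ψ j) : ℚ) : ℝ)|) + 1) *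
          (p : ℝ) ^ h * (15 * (B : ℝ) ^ 2 * σ ^ 2) ^ (4 * B * ((h + 1) * p)) *
            Real.exp ((h + 2) * (2 * m))) ^ R *
        (4 / 5 : ℝ) ^ ((2 * B ^ 2 * ((h + 1) * p)) * (2 * B ^ 2 * ((h + 1) * p) - 1) / 2) *
        5 ^ (2 * B ^ 2 * ((h + 1) * p))) := by
  classical
  set n := 4 * B * ((h + 1) * p) with hn
  set Ψ : ℝ := ∑ j, ∑ s ∈ range a, |((PowerSeries.coeff s (ψ j) : ℚ) : ℝ)| with hΨ
  set d := Nat.lcmUpto (2 * m) with hd
  have hd0 : 0 < d := Nat.lcmUpto_pos _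
  have hΨ0 : 0 ≤ Ψ := sum_nonneg fun _ _ => sum_nonneg fun _ _ => abs_nonneg _
  have hp' : (1 : ℝ) ≤ p := by exact_mod_cast hp
  have hB' : (1 : ℝ) ≤ B := by exact_mod_cast hB
  have hm' : (0 : ℝ) ≤ m := by positivity
  have hσ2 : 1 ≤ σ ^ 2 := one_le_pow₀ hσ1
  have hB2 : 1 ≤ (B : ℝ) ^ 2 := one_le_pow₀ hB'
  have hBσ : 1 ≤ (B : ℝ) ^ 2 * σ ^ 2 := one_le_mul_of_one_le_of_one_le hB2 hσ2
  have hph : (1 : ℝ) ≤ (p : ℝ) ^ h := one_le_pow₀ hp'
  set N : ℝ := (C0 + Ψ + 1) * (p : ℝ) ^ h * (15 * (B : ℝ) ^ 2 * σ ^ 2) ^ n *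
    Real.exp ((h + 2) * (2 * m)) with hN
  have hN0 : 0 ≤ N := by positivity
  have hC0N : C0 * (p : ℝ) ^ h * (15 * (B : ℝ) ^ 2 * σ ^ 2) ^ n * Real.exp ((h + 2) * (2 * m)) ≤ N := by
    rw [hN]
    gcongr
    linarith
  have hΨN : Ψ * ((4 * σ ^ 2) ^ n * Real.exp (2 * m)) ≤ N := by
    have e1 : (4 * σ ^ 2) ^ n ≤ (15 * (B : ℝ) ^ 2 * σ ^ 2) ^ n := by
      apply pow_le_pow_left₀ (by positivity)
      nlinarith
    have e2 : Real.exp (2 * m) ≤ Real.exp ((h + 2) * (2 * m)) := by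
      apply Real.exp_le_exp.2
      have : (0 : ℝ) ≤ h := by positivity
      nlinarith
    have e3 : (4 * σ ^ 2) ^ n * Real.exp (2 * m) ≤
        (15 * (B : ℝ) ^ 2 * σ ^ 2) ^ n * Real.exp ((h + 2) * (2 * m)) :=
      mul_le_mul e1 e2 (Real.exp_pos _).le (by positivity)
    calc Ψ * ((4 * σ ^ 2) ^ n * Real.exp (2 * m))
        ≤ ((C0 + Ψ + 1) * (p : ℝ) ^ h) *
          ((15 * (B : ℝ) ^ 2 * σ ^ 2) ^ n * Real.exp ((h + 2) * (2 * m))) := by
          apply mul_le_mul _ e3 (by positivity) (by positivity)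
          calc Ψ ≤ (C0 + Ψ + 1) * 1 := by linarith
            _ ≤ (C0 + Ψ + 1) * (p : ℝ) ^ h := mul_le_mul_of_nonneg_left hph (by linarith)
      _ = N := by rw [hN]; ring
  choose lam hlam using hlam
  choose! QQ hQQ γ hγ1 hγ2 using han
  have hf : ∀ (β : ℕ), β < B → ∀ j < (4 * B - 2 * (2 * β + 1)) * ((h + 1) * p),
      ∃ α : Fin n → ℝ, fP ℝ h m p (2 * β + 1) j = ∑ i, Polynomial.C (α i) * Bn ℝ m i :=
    fun β hβ j hj => exists_comb_gen ℝ (Bn ℝ m) (Bn_degree ℝ m) n _ (fP_mem β j hj)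
  have hq : ∀ (β j : ℕ), β < B → j < (4 * B - 2 * (2 * β + 1)) * ((h + 1) * p) →
      ∃ α : Fin n → ℝ, QQ β j = ∑ i, Polynomial.C (α i) * Bn ℝ m i :=
    fun β j hβ hj => exists_comb_gen ℝ (Bn ℝ m) (Bn_degree ℝ m) n _ (hQQ β j hβ hj)
  choose! αf hαf using hf
  choose! αq hαq using hq
  have hcastC : ∀ (i : J × Fin n) (l r : ℕ),
      ((PowerSeries.coeff r (row4 ℚ J h m B p ψ S z l (.inl i)) : ℚ) : ℝ) =
      PowerSeries.coeff r (PowerSeries.map (algebraMap ℚ ℝ) (ψ i.1) * ev ℝ p l (Bn ℝ m i.2)) := by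
    intro i l r
    rw [← map_Bn, ← map_ev, ← map_mul, PowerSeries.coeff_map]
    rfl
  obtain ⟨R, hR1, hR2, hR3⟩ := det_ineq (Cc := J × Fin n)
    (Fi := Σ β : Fin B, Fin ((4 * B - 2 * (2 * (β : ℕ) + 1)) * ((h + 1) * p)))
    (Col := Fin p × Fin a)
    (fun r c => PowerSeries.coeff (c.2 : ℕ) (row4 ℚ J h m B p ψ S z c.1 r))
    (fun c f hcf => hmod c f fun l hl r hr => hcf (⟨l, hl⟩, ⟨r, hr⟩))
    (Q * d ^ (a + h + 1)) (by positivity)
    (fun r c => row4_int (by omega) (fun q h1 h2 => dvd_lcmUpto h1 h2) hh J ψ S z Q hQ hQψ r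
      _ c.1.2 _ c.2.2)
    N (4 / 5) hN0 (by norm_num) (by norm_num)
    (fun x k => γ x.1 x.2 k) (fun k c => PowerSeries.coeff (c.2 : ℕ) (yl ℝ p c.1 ^ (n + k)))
    (by
      intro i c
      rw [hcastC]
      refine (coeff_mul_le _ _ a Ψ ((4 * σ ^ 2) ^ n * Real.exp (2 * m)) ?_ ?_ _ c.2.2).trans hΨN
      · simp only [PowerSeries.coeff_map, eq_ratCast]
        exact single_le_sum (f := fun j => ∑ s ∈ range a, |((PowerSeries.coeff s (ψ j) : ℚ) : ℝ)|)
          (fun _ _ => sum_nonneg fun _ _ => abs_nonneg _) (mem_univ i.1)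
      · intro s
        exact bd_Bn m p hm hmp σ hσ hσ1 _ c.1.2 n _ i.2.2.le s)
    (by
      intro x k c
      rw [abs_mul]
      have e1 := yl_pow_le p c.1 c.1.2 (n + k) c.2
      have e2 := hγ1 x.1 x.2 x.1.2 x.2.2 k
      calc |γ x.1 x.2 k| * |PowerSeries.coeff (c.2 : ℕ) (yl ℝ p c.1 ^ (n + k))|
          ≤ |γ x.1 x.2 k| * (2 * (p : ℝ) + 1) ^ (2 * (n + k)) :=
            mul_le_mul_of_nonneg_left e1 (abs_nonneg _)
        _ ≤ _ := e2
        _ ≤ N * (4 / 5) ^ (2 * k) := mul_le_mul_of_nonneg_right hC0N (by positivity))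
    (by
      intro x
      refine ⟨fun y => - (lam x.1 x.1.2 y.1 * αf x.1 x.2 y.2) +
        (if y.1 = j0 then αq x.1 x.2 y.2 else 0), fun c => ?_⟩
      have e1 := hγ2 x.1 x.2 x.1.2 x.2.2 c.1 c.1.2 c.2 c.2.2
      convert e1 using 1
      have e2 := row4_real a h m p (2 * (x.1 : ℕ) + 1) c.1 x.2 (by omega) J ψ S z
        (lam x.1 x.1.2) (hlam x.1 x.1.2) c.2 c.2.2
      rw [e2]
      have e3 : ∑ y : J × Fin n, (- (lam x.1 x.1.2 y.1 * αf x.1 x.2 y.2) +
          (if y.1 = j0 then αq x.1 x.2 y.2 else 0)) *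
          ((PowerSeries.coeff (c.2 : ℕ) (row4 ℚ J h m B p ψ S z c.1 (.inl y)) : ℚ) : ℝ) =
          - ∑ i, lam x.1 x.1.2 i * PowerSeries.coeff (c.2 : ℕ) (PowerSeries.map (algebraMap ℚ ℝ) (ψ i) *
            ev ℝ p c.1 (fP ℝ h m p (2 * (x.1 : ℕ) + 1) x.2)) +
          PowerSeries.coeff (c.2 : ℕ) (ev ℝ p c.1 (QQ x.1 x.2)) := by
        simp only [add_mul, sum_add_distrib]
        congr 1
        · rw [Fintype.sum_prod_type, ← sum_neg_distrib]
          refine sum_congr rfl fun i _ => ?_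
          rw [hαf x.1 x.1.2 x.2 x.2.2]
          simp only [hcastC, ev, map_sum, map_mul, Polynomial.aeval_C, mul_sum]
          rw [← sum_neg_distrib]
          refine sum_congr rfl fun i' _ => ?_
          rw [PowerSeries.algebraMap_apply, Algebra.algebraMap_self, RingHom.id_apply,
            mul_left_comm (PowerSeries.map (algebraMap ℚ ℝ) (ψ i)), PowerSeries.coeff_C_mul]
          ring
        · rw [Fintype.sum_prod_type, Finset.sum_eq_single j0]
          · rw [hαq x.1 x.2 x.1.2 x.2.2]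
            simp only [hcastC, ev, map_sum, map_mul, Polynomial.aeval_C, if_true, hj0, map_one,
              one_mul]
            refine sum_congr rfl fun i' _ => ?_
            rw [PowerSeries.algebraMap_apply, Algebra.algebraMap_self, RingHom.id_apply,
              PowerSeries.coeff_C_mul]
          · intro b _ hb
            simp [hb]
          · intro h; exact absurd (mem_univ _) h
      have e4 : ((PowerSeries.coeff (c.2 : ℕ) (row4 ℚ J h m B p ψ S z c.1 (.inr x)) : ℚ) : ℝ) =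
          ((PowerSeries.coeff (c.2 : ℕ) (ev ℚ p c.1 (fP ℚ h m p (2 * (x.1 : ℕ) + 1) x.2) *
            hs ℚ h (Gs ℚ p (2 * (x.1 : ℕ) + 1) c.1 S z)) : ℚ) : ℝ) := rfl
      rw [e3, e4]
      ring)
  rw [card_F] at hR1 hR2 hR3
  refine ⟨R, hR1, ?_, ?_⟩
  · refine hR2.trans ?_
    rw [Fintype.card_prod, Fintype.card_fin]
    have e1 : 2 * B ^ 2 * ((h + 1) * p) ≤ n * B := by
      rw [hn]
      calc 2 * B ^ 2 * ((h + 1) * p) ≤ 4 * B ^ 2 * ((h + 1) * p) := by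
            apply Nat.mul_le_mul_right
            apply Nat.mul_le_mul_right
            norm_num
        _ = 4 * B * ((h + 1) * p) * B := by ring
    rw [mul_add, mul_comm n (Fintype.card J)]
    omega
  · refine hR3.trans ?_
    have e5 : (1 : ℝ) / (1 - 4 / 5) = 5 := by norm_num
    rw [e5]
    have e6 : ((Q * d ^ (a + h + 1) : ℕ) : ℝ) ^ R ≤ ((Q : ℝ) * (256 ^ (2 * m)) ^ (a + h + 1)) ^ R := by
      apply pow_le_pow_left₀ (by positivity)
      push_cast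
      apply mul_le_mul_of_nonneg_left _ (by positivity)
      exact pow_le_pow_left₀ (by positivity) (lcmUpto_le _) _
    exact mul_le_mul_of_nonneg_right e6 (by positivity)

theorem cast_tri (K : ℕ) (hK : Even K) (hK0 : 0 < K) :
    ((K * (K - 1) / 2 : ℕ) : ℝ) = ((K : ℝ) ^ 2 - K) / 2 := by
  obtain ⟨k, rfl⟩ := hK
  have e : (k + k) * (k + k - 1) / 2 = k * (k + k - 1) := by
    rw [show (k + k) * (k + k - 1) = 2 * (k * (k + k - 1)) by ring,
      Nat.mul_div_cancel_left _ (by norm_num)]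
  rw [e]
  push_cast [Nat.cast_sub (show 1 ≤ k + k by omega)]
  ring

/-- logarithm of the determinant inequality -/
theorem log_ineq4 (Q a B h p m R w0 : ℕ) (C T : ℝ) (hQ : 1 ≤ Q) (ha : 2 * (h + 2) ≤ a) (hB : 1 ≤ B)
    (hp : 1 ≤ p) (hR : 1 ≤ R) (hC : 1 ≤ C) (hT : 1 ≤ T)
    (hRw : R ≤ 4 * B * ((h + 1) * p) * w0) (hm : a * m ≤ 4 * B * ((h + 1) * p) + a)
    (hin : 1 ≤ ((Q : ℝ) * (256 ^ (2 * m)) ^ (a + h + 1)) ^ R * ((R.factorial : ℝ) *
        (C * (p : ℝ) ^ h * T ^ (4 * B * ((h + 1) * p)) * Real.exp ((h + 2) * (2 * m))) ^ R *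
        (4 / 5 : ℝ) ^ ((2 * B ^ 2 * ((h + 1) * p)) * (2 * B ^ 2 * ((h + 1) * p) - 1) / 2) *
        5 ^ (2 * B ^ 2 * ((h + 1) * p)))) :
    ((2 * (B : ℝ) ^ 2 * (h + 1)) ^ 2 / 2 * Real.log (5 / 4) -
        (4 * B * (h + 1) * w0) * (4 * B * (h + 1)) * (4 * Real.log 256 + Real.log T + 1)) *
        (p : ℝ) ^ 2 ≤
      ((4 * B * (h + 1) * w0) * (Real.log Q + 4 * a * Real.log 256 + Real.log (4 * B * (h + 1) * w0) +
        Real.log C + 2 * (h + 2)) + (2 * (B : ℝ) ^ 2 * (h + 1)) * Real.log 5 +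
        (2 * (B : ℝ) ^ 2 * (h + 1)) / 2 * Real.log (5 / 4)) * p +
      ((4 * B * (h + 1) * w0) * (h + 1)) * (p * Real.log p) := by
  have hQ' : (1 : ℝ) ≤ Q := by exact_mod_cast hQ
  have hB' : (1 : ℝ) ≤ B := by exact_mod_cast hB
  have hp' : (1 : ℝ) ≤ p := by exact_mod_cast hp
  have hR' : (1 : ℝ) ≤ R := by exact_mod_cast hR
  have hh0 : (0 : ℝ) ≤ h := by positivity
  have hm0 : (0 : ℝ) ≤ m := by positivity
  have ha' : 2 * ((h : ℝ) + 2) ≤ a := by exact_mod_cast ha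
  have hRw' : (R : ℝ) ≤ 4 * B * (h + 1) * w0 * p := by
    have : (R : ℝ) ≤ 4 * B * ((h + 1) * p) * w0 := by exact_mod_cast hRw
    linarith
  have hm' : (a : ℝ) * m ≤ 4 * B * (h + 1) * p + a := by
    have : (a : ℝ) * m ≤ 4 * B * ((h + 1) * p) + a := by exact_mod_cast hm
    linarith
  have hw0 : (1 : ℝ) ≤ w0 := by
    have : 0 < w0 := by
      rcases Nat.eq_zero_or_pos w0 with h | h
      · subst h; simp at hRw; omega
      · exact h
    exact_mod_cast this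
  have hexp : (0 : ℝ) < Real.exp ((h + 2) * (2 * m)) := Real.exp_pos _
  have h0 := Real.log_le_log one_pos hin
  rw [Real.log_one, Real.log_mul (by positivity) (by positivity), Real.log_pow,
    Real.log_mul (by positivity) (by positivity), Real.log_pow, Real.log_pow,
    Real.log_mul (by positivity) (by positivity), Real.log_mul (by positivity) (by positivity),
    Real.log_mul (by positivity) (by positivity), Real.log_pow,
    Real.log_mul (by positivity) (by positivity), Real.log_mul (by positivity) (by positivity),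
    Real.log_mul (by positivity) (by positivity),
    Real.log_exp, Real.log_pow, Real.log_pow, Real.log_pow, Real.log_pow] at h0
  have hfac : Real.log (R.factorial : ℝ) ≤ R * (Real.log (4 * B * (h + 1) * w0) + Real.log p) := by
    have h1 : (R.factorial : ℝ) ≤ (R : ℝ) ^ R := by exact_mod_cast Nat.factorial_le_pow R
    have h2 := Real.log_le_log (by positivity) h1
    rw [Real.log_pow] at h2
    refine h2.trans (mul_le_mul_of_nonneg_left ?_ (by positivity))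
    rw [← Real.log_mul (by positivity) (by positivity)]
    exact Real.log_le_log (by linarith) hRw'
  have hlog : Real.log (4 / 5) = -Real.log (5 / 4) := by
    rw [← Real.log_inv]; norm_num
  rw [cast_tri _ ⟨B ^ 2 * ((h + 1) * p), by ring⟩ (by positivity), hlog] at h0
  have hl256 : 0 ≤ Real.log 256 := Real.log_nonneg (by norm_num)
  have hlQ : 0 ≤ Real.log Q := Real.log_nonneg hQ'
  have hlp : 0 ≤ Real.log p := Real.log_nonneg hp'
  have hlT : 0 ≤ Real.log T := Real.log_nonneg hT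
  have hlC : 0 ≤ Real.log C := Real.log_nonneg hC
  have hW1 : (1 : ℝ) ≤ 4 * B * (h + 1) * w0 := by
    have e1 : (1 : ℝ) ≤ 4 * B := by linarith
    have e2 : (1 : ℝ) ≤ 4 * B * (h + 1) := one_le_mul_of_one_le_of_one_le e1 (by linarith)
    exact one_le_mul_of_one_le_of_one_le e2 hw0
  have hlW : 0 ≤ Real.log (4 * B * (h + 1) * w0) := Real.log_nonneg hW1
  have hdl : ((a : ℝ) + h + 1) * (2 * m * Real.log 256) ≤
      (4 * (4 * B * (h + 1) * p) + 4 * a) * Real.log 256 := by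
    have e1 : ((a : ℝ) + h + 1) * (2 * m) ≤ 4 * (4 * B * (h + 1) * p) + 4 * a := by
      have e2 : ((a : ℝ) + h + 1) * m ≤ (2 * a) * m :=
        mul_le_mul_of_nonneg_right (by linarith) hm0
      linarith
    calc ((a : ℝ) + h + 1) * (2 * m * Real.log 256) = (((a : ℝ) + h + 1) * (2 * m)) * Real.log 256 := by
          ring
      _ ≤ _ := mul_le_mul_of_nonneg_right e1 hl256
  have he : ((h : ℝ) + 2) * (2 * m) ≤ 4 * B * (h + 1) * p + 2 * (h + 2) := by
    have e1 : (0 : ℝ) ≤ 4 * B * (h + 1) * p := by positivity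
    rcases Nat.eq_zero_or_pos m with hm1 | hm1
    · subst hm1
      simp only [Nat.cast_zero, mul_zero]
      linarith
    · have hm2 : (1 : ℝ) ≤ m := by exact_mod_cast hm1
      have e3 : 2 * ((h : ℝ) + 2) * (m - 1) ≤ a * (m - 1) :=
        mul_le_mul_of_nonneg_right ha' (by linarith)
      linarith
  have := log_alg4 (R := (R : ℝ)) (W := 4 * B * (h + 1) * w0) (N1 := 4 * B * (h + 1))
    (K1 := 2 * (B : ℝ) ^ 2 * (h + 1)) (p := p) (a := a) (h := h) (lQ := Real.log Q)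
    (l2 := Real.log 256) (lW := Real.log (4 * B * (h + 1) * w0)) (lp := Real.log p)
    (lC := Real.log C) (lB := Real.log T) (l5 := Real.log 5) (l54 := Real.log (5 / 4))
    (dl := ((a : ℝ) + h + 1) * (2 * m * Real.log 256)) (lf := Real.log (R.factorial : ℝ))
    (e := ((h : ℝ) + 2) * (2 * m))
    (by positivity) hRw' (by positivity) (by positivity) (by positivity) (by positivity) hh0
    hlQ hlW hlp hlC hlT hdl (by positivity) (by positivity) he hfac
    (by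
      push_cast at h0
      refine h0.trans (le_of_eq ?_)
      ring)
  exact this

theorem den_int (q : ℚ) (N : ℕ) (h : q.den ∣ N) : ∃ w : ℤ, (N : ℚ) * q = w := by
  obtain ⟨e, rfl⟩ := h
  refine ⟨e * q.num, ?_⟩
  have := Rat.mul_den_eq_num q
  push_cast
  linear_combination (e : ℚ) * this

theorem num_bd {Λ T : ℝ} (hΛ : 1 ≤ Λ) (hT : T = 135 / 64 * Λ ^ 2) :
    4 * Real.log 256 + Real.log T + 1 ≤ 25 * (1 + Real.log Λ) := by
  have e1 : Real.log 256 = 8 * Real.log 2 := by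
    rw [show (256 : ℝ) = 2 ^ 8 by norm_num, Real.log_pow]; norm_num
  have e2 : Real.log T ≤ 1 + 2 * Real.log Λ := by
    rw [hT, Real.log_mul (by norm_num) (by positivity), Real.log_pow]
    have : Real.log (135 / 64) ≤ 1 := by
      rw [Real.log_le_iff_le_exp (by norm_num)]
      have := Real.exp_one_gt_d9
      linarith
    push_cast
    linarith
  have e3 := Real.log_two_lt_d9
  have e4 : 0 ≤ Real.log Λ := Real.log_nonneg hΛ
  rw [e1]
  linarith

theorem final_alg {B h w0 l54 X lL : ℝ} (hB : 1 ≤ B) (hh : 0 ≤ h) (hw0 : 0 ≤ w0)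
    (hX : (2 * B ^ 2 * (h + 1)) ^ 2 / 2 * l54 - (4 * B * (h + 1) * w0) * (4 * B * (h + 1)) * X ≤ 0)
    (hXb : X ≤ 25 * (1 + lL)) : B ^ 2 * l54 ≤ 200 * w0 * (1 + lL) := by
  have h1 : (4 * B * (h + 1) * w0) * (4 * B * (h + 1)) * X ≤
      (4 * B * (h + 1) * w0) * (4 * B * (h + 1)) * (25 * (1 + lL)) :=
    mul_le_mul_of_nonneg_left hXb (by positivity)
  have h2 : 0 < 2 * B ^ 2 * (h + 1) ^ 2 := by positivity
  refine le_of_mul_le_mul_left ?_ h2
  nlinarith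

/-- **core inequality of V4** -/
theorem core4 : ∃ C : ℝ, 0 < C ∧ ∀ (a B h : ℕ) (J : Type) [Fintype J] (ψ : J → PowerSeries ℚ)
    (j0 : J) (S : Finset ℕ) (z : ℕ → ℚ), 1 ≤ B → Even h → 2 ≤ h → ψ j0 = 1 →
    (∀ j, ∀ r, Odd r → PowerSeries.coeff r (ψ j) = 0) → (∀ i ∈ S, Odd i) →
    8 * B * (h + 1) * (Fintype.card J + B + 1) ≤ a →
    (∀ β < B, ∃ lam : J → ℝ, ∀ r < a,
      PowerSeries.coeff r (hs ℝ h (zs ℝ (2 * β + 1) (oddS (a + h)) zr)) =
        ((PowerSeries.coeff r (hs ℚ h (zs ℚ (2 * β + 1) S z)) : ℚ) : ℝ) +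
        ∑ j, lam j * ((PowerSeries.coeff r (ψ j) : ℚ) : ℝ)) →
    (B : ℝ) ^ 2 ≤ C * (Fintype.card J + B + 1) * (1 + Real.log ((a : ℝ) / (h + 1))) := by
  classical
  have hl54 : 0 < Real.log (5 / 4) := Real.log_pos (by norm_num)
  refine ⟨200 / Real.log (5 / 4), by positivity, ?_⟩
  intro a B h J _ ψ j0 S z hB hh h2 hj0 hψ hS hm hlam
  obtain ⟨C0, hC0, han⟩ := an4 a B h hB hh h2
  obtain ⟨p0, hp0⟩ := row4_mod a B h hB hh J ψ hψ S hS z hm
  set Q1 : ℕ := ∏ i ∈ S, (z i).den with hQ1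
  set Q2 : ℕ := ∏ j, ∏ r ∈ range a, (PowerSeries.coeff r (ψ j)).den with hQ2
  have hQ10 : 0 < Q1 := prod_pos fun i _ => (z i).den_pos
  have hQ20 : 0 < Q2 := prod_pos fun j _ => prod_pos fun r _ => (PowerSeries.coeff r (ψ j)).den_pos
  have hQ0 : 0 < Q1 * Q2 := by positivity
  have hQ : ∀ i ∈ S, ∃ w : ℤ, ((Q1 * Q2 : ℕ) : ℚ) * z i = w := fun i hi =>
    den_int _ _ ((dvd_prod_of_mem (fun i => (z i).den) hi).mul_right _)
  have hQψ : ∀ j, ∀ r < a, ∃ w : ℤ, ((Q1 * Q2 : ℕ) : ℚ) * PowerSeries.coeff r (ψ j) = w :=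
    fun j r hr => den_int _ _ (((dvd_prod_of_mem (fun r => (PowerSeries.coeff r (ψ j)).den)
      (mem_range.2 hr)).trans (dvd_prod_of_mem
        (fun j => ∏ r ∈ range a, (PowerSeries.coeff r (ψ j)).den) (mem_univ j))).mul_left _)
  -- sizes
  have hcard : 1 ≤ Fintype.card J := Fintype.card_pos_iff.2 ⟨j0⟩
  obtain ⟨E, hE⟩ : ∃ E, E = B * (h + 1) := ⟨_, rfl⟩
  have hE3 : B * 3 ≤ E := by rw [hE]; exact Nat.mul_le_mul_left _ (by omega)
  have hEh : h + 1 ≤ E := by rw [hE]; exact Nat.le_mul_of_pos_left _ (by omega)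
  have hEa : 24 * E ≤ a := by
    refine le_trans ?_ hm
    rw [show 8 * B * (h + 1) = 8 * E by rw [hE]; ring, show 24 * E = 8 * E * 3 by ring]
    exact Nat.mul_le_mul_left _ (by omega)
  have hEpos : 0 < E := by omega
  have hE' : (E : ℝ) = B * (h + 1) := by rw [hE]; push_cast; ring
  have hEpos' : (0 : ℝ) < E := by exact_mod_cast hEpos
  have hEa' : 24 * (E : ℝ) ≤ a := by exact_mod_cast hEa
  have ha0 : 0 < a := by omega
  have hB' : (1 : ℝ) ≤ B := by exact_mod_cast hB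
  obtain ⟨σ, hσ⟩ : ∃ σ : ℝ, σ = 3 * a / (8 * E) := ⟨_, rfl⟩
  have hσ1 : 1 ≤ σ := by
    rw [hσ, le_div_iff₀ (by positivity)]
    linarith
  obtain ⟨T, hT⟩ : ∃ T : ℝ, T = 15 * (B : ℝ) ^ 2 * σ ^ 2 := ⟨_, rfl⟩
  have hTΛ : T = 135 / 64 * ((a : ℝ) / (h + 1)) ^ 2 := by
    rw [hT, hσ, hE']
    have : ((h : ℝ) + 1) ≠ 0 := by positivity
    field_simp
    ring
  have hΛ1 : 1 ≤ (a : ℝ) / (h + 1) := by
    rw [le_div_iff₀ (by positivity), one_mul]
    have : ((h + 1 : ℕ) : ℝ) ≤ E := by exact_mod_cast hEh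
    push_cast at this
    linarith
  have hT1 : 1 ≤ T := by
    rw [hTΛ]
    have := one_le_pow₀ (n := 2) hΛ1
    linarith
  set Ψ : ℝ := ∑ j, ∑ s ∈ range a, |((PowerSeries.coeff s (ψ j) : ℚ) : ℝ)| with hΨ
  have hΨ0 : 0 ≤ Ψ := sum_nonneg fun _ _ => sum_nonneg fun _ _ => abs_nonneg _
  set w0 : ℕ := Fintype.card J + B with hw0
  have hX := limit_arg _ _ _ (max p0 1) (fun p hp => by
      have hp1 : 1 ≤ p := (le_max_right _ _).trans hp
      have hp1' : (1 : ℝ) ≤ p := by exact_mod_cast hp1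
      obtain ⟨n, hn⟩ : ∃ n, n = 4 * B * ((h + 1) * p) := ⟨_, rfl⟩
      have hnE : n = 4 * E * p := by rw [hn, hE]; ring
      obtain ⟨m, hm⟩ : ∃ m, m = n / a + 1 := ⟨_, rfl⟩
      have hm1 : n ≤ a * m := by
        rw [hm]
        exact (Nat.lt_mul_div_succ _ ha0).le
      have hm2 : a * m ≤ n + a := by
        rw [hm, mul_add, mul_one]
        exact Nat.add_le_add_right (Nat.mul_div_le n a) a
      have hm0 : 1 ≤ m := by rw [hm]; exact Nat.succ_pos _
      have hmp : m ≤ p := by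
        rw [hm, Nat.succ_le_iff, Nat.div_lt_iff_lt_mul ha0, hnE, mul_comm p a]
        exact Nat.mul_lt_mul_of_pos_right (by omega) hp1
      have hσm : (2 * p + 1 : ℝ) ≤ σ * (2 * m) := by
        have e1 : 4 * (E : ℝ) * p ≤ a * m := by
          have : 4 * E * p ≤ a * m := hnE ▸ hm1
          exact_mod_cast this
        have e2 : 3 * (p : ℝ) ≤ σ * (2 * m) := by
          rw [hσ, div_mul_eq_mul_div, le_div_iff₀ (by positivity)]
          linarith
        linarith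
      obtain ⟨R, hR1, hR2, hR3⟩ := one_p4 a B h J ψ j0 S z hB hh hj0 hlam (Q1 * Q2) hQ0 hQ hQψ C0 hC0
        m p hp1 hm0 hmp σ hσm hσ1
        (fun β j hβ hj => han m p β j σ hp1 hm0 hmp hσm hσ1 hβ hj)
        (hp0 p ((le_max_left _ _).trans hp) m hm0)
      rw [← hT] at hR3
      exact log_ineq4 (Q1 * Q2) a B h p m R w0 (C0 + Ψ + 1) T hQ0
        (by omega) hB hp1
        (le_trans (by
          have : 0 < 2 * B ^ 2 * ((h + 1) * p) := by positivity
          omega) hR1)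
        (by linarith) hT1 hR2 (hn ▸ hm2) hR3)
  have hfin := final_alg (B := B) (h := h) (w0 := w0) hB' (by positivity) (by positivity) hX
    (num_bd hΛ1 hTΛ)
  have hlΛ : 0 ≤ Real.log ((a : ℝ) / (h + 1)) := Real.log_nonneg hΛ1
  rw [div_mul_eq_mul_div, div_mul_eq_mul_div, le_div_iff₀ hl54]
  refine hfin.trans ?_
  apply mul_le_mul_of_nonneg_right _ (by linarith)
  rw [hw0]
  push_cast
  linarith

end Pool.Agent.ZC
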