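import Pool.Agent.ZC.CAS

/-!
# ZC: the second case of the zero estimate, abstract part
-/

namespace Pool.Agent.ZC

open Polynomial Matrix

/-- `ψ_s = σ^s p + ∑_k σ^s(u_k) ∑_{r<s} σ^r(ρ_k)` -/
def psi {F : Type*} [Field F] (σ : F →+* F) {d : ℕ} (u ρ : Fin d → F) (p : F) (s : ℕ) : F :=
  (σ^[s]) p + ∑ k, (σ^[s]) (u k) * ∑ r ∈ Finset.range s, (σ^[r]) (ρ k)

theorem psi_succ {F : Type*} [Field F] (σ : F →+* F) {d : ℕ} (u ρ : Fin d → F) (p : F) (s : ℕ) :
    psi σ u ρ p (s + 1) = σ (psi σ u ρ p s) + ∑ k, (σ^[s + 1]) (u k) * ρ k := by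
  unfold psi
  simp only [map_add, map_sum, map_mul, ← Function.iterate_succ_apply' σ]
  rw [add_assoc, ← Finset.sum_add_distrib]
  congr 1
  refine Finset.sum_congr rfl fun k _ => ?_
  rw [Finset.sum_range_succ', ← mul_add]
  simp only [Function.iterate_zero, id_eq]

/-- the matrix with rows `(ψ_s, σ^s u_1, …, σ^s u_d)`, `s = 0, …, d` -/
def psiMat {F : Type*} [Field F] (σ : F →+* F) {d : ℕ} (u ρ : Fin d → F) (p : F) :
    Matrix (Fin (d + 1)) (Fin (d + 1)) F :=
  Matrix.of fun s j => Fin.cases (motive := fun _ => F) (psi σ u ρ p s) (fun k => (σ^[(s : ℕ)]) (u k)) j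

theorem lemmaZ_abs {F : Type*} [Field F] (σ : F →+* F) {d : ℕ} (u ρ : Fin d → F) (p : F)
    (hu : ∀ c : Fin d → F, (∀ i, σ (c i) = c i) → ∑ i, c i * u i = 0 → c = 0)
    (hdet : (psiMat σ u ρ p).det = 0) : ∃ α : Fin d → F, ∀ k, ρ k = α k - σ (α k) := by
  have hC := casorati_abs σ u hu
  obtain ⟨v, hv0, hv⟩ := Matrix.exists_mulVec_eq_zero_iff.2 hdet
  have hv' : ∀ s : ℕ, s < d + 1 → psi σ u ρ p s * v 0 + ∑ k : Fin d, (σ^[s]) (u k) * v k.succ = 0 := by
    intro s hs
    have := congrFun hv ⟨s, hs⟩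
    simpa [Matrix.mulVec, dotProduct, psiMat, Fin.sum_univ_succ] using this
  have hv00 : v 0 ≠ 0 := by
    intro h0
    apply hC
    apply Matrix.exists_vecMul_eq_zero_iff.1
    refine ⟨fun k => v k.succ, ?_, ?_⟩
    · intro hz
      apply hv0
      funext i
      refine Fin.cases h0 (fun k => congrFun hz k) i
    · funext j
      have := hv' j (by omega)
      rw [h0, mul_zero, zero_add] at this
      simp only [Matrix.vecMul, dotProduct, Matrix.of_apply, Pi.zero_apply]
      rw [← this]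
      exact Finset.sum_congr rfl fun k _ => mul_comm _ _
  set α : Fin d → F := fun k => - v k.succ / v 0 with hα
  have h1 : ∀ s : ℕ, s < d + 1 → psi σ u ρ p s = ∑ k, α k * (σ^[s]) (u k) := by
    intro s hs
    have := hv' s hs
    have h2 : ∑ k, α k * (σ^[s]) (u k) = - (∑ k : Fin d, (σ^[s]) (u k) * v k.succ) / v 0 := by
      rw [← Finset.sum_neg_distrib, Finset.sum_div]
      refine Finset.sum_congr rfl fun k _ => ?_
      simp only [hα]; ring
    rw [h2, eq_div_iff hv00]
    linear_combination this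
  refine ⟨α, ?_⟩
  -- compare the row `s` at `t + 1` with the row `s + 1` at `t`
  have h3 : ∀ s : ℕ, s < d → ∑ k, (α k - σ (α k) - ρ k) * (σ^[s + 1]) (u k) = 0 := by
    intro s hs
    have e1 := h1 (s + 1) (by omega)
    have e2 := congrArg σ (h1 s (by omega))
    rw [map_sum] at e2
    simp only [map_mul, ← Function.iterate_succ_apply' σ] at e2
    rw [psi_succ, e2] at e1
    have : ∑ k, (α k - σ (α k) - ρ k) * (σ^[s + 1]) (u k) =
        ∑ k, α k * (σ^[s + 1]) (u k) - (∑ k, σ (α k) * (σ^[s + 1]) (u k) +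
          ∑ k, (σ^[s + 1]) (u k) * ρ k) := by
      rw [← Finset.sum_add_distrib, ← Finset.sum_sub_distrib]
      exact Finset.sum_congr rfl fun k _ => by ring
    rw [this, e1, sub_self]
  have hC' : (Matrix.of fun i j : Fin d => (σ^[(j : ℕ) + 1]) (u i)).det ≠ 0 := by
    have : (Matrix.of fun i j : Fin d => (σ^[(j : ℕ) + 1]) (u i)).det =
        σ ((Matrix.of fun i j : Fin d => (σ^[(j : ℕ)]) (u i)).det) := by
      rw [RingHom.map_det]
      congr 1
      ext i j
      simp only [Matrix.of_apply, RingHom.mapMatrix_apply, Matrix.map_apply, Function.iterate_succ_apply']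
    rw [this]
    exact fun h0 => hC ((map_eq_zero σ).1 h0)
  have hz : (fun k => α k - σ (α k) - ρ k) = 0 := by
    by_contra hne
    apply hC'
    apply Matrix.exists_vecMul_eq_zero_iff.1
    refine ⟨_, hne, ?_⟩
    funext j
    have := h3 j j.2
    simpa [Matrix.vecMul, dotProduct] using this
  intro k
  have := congrFun hz k
  simp only [Pi.zero_apply] at this
  linear_combination -this

/-- The determinant of Case 2 vanishes only if all `ρ_k` are of the form `α(t) - α(t+1)`. -/
theorem lemmaZ {K : Type*} [Field K] [CharZero K] {d : ℕ} (u : Fin d → K[X])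
    (hu : LinearIndependent K u) (ρ : Fin d → FractionRing K[X]) (p : FractionRing K[X])
    (hdet : (psiMat (shf K) (fun k => algebraMap K[X] (FractionRing K[X]) (u k)) ρ p).det = 0) :
    ∃ α : Fin d → FractionRing K[X], ∀ k, ρ k = α k - shf K (α k) :=
  lemmaZ_abs (shf K) _ ρ p (indep_const u hu) hdet

end Pool.Agent.ZC
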