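import Pool.Agent.ZC.NS
import Pool.Agent.ZC.LZ

/-!
# ZC: the two halves of the zero estimate, generic form
-/

namespace Pool.Agent.ZC

open Polynomial Matrix

section gen

/-- adjugate trick -/
theorem dvd_det_mul {R n : Type*} [CommRing R] [Fintype n] [DecidableEq n] (M : Matrix n n R)
    (v : n → R) (x : R) (h : ∀ i, x ∣ M.mulVec v i) (j : n) : x ∣ M.det * v j := by
  have h1 : (M.adjugate.mulVec (M.mulVec v)) j = M.det * v j := by
    rw [Matrix.mulVec_mulVec, Matrix.adjugate_mul, Matrix.smul_mulVec, Matrix.one_mulVec]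
    rfl
  rw [← h1]
  exact Finset.dvd_sum fun i _ => Dvd.dvd.mul_left (h i) _

theorem natDegree_det_le {K n : Type*} [Field K] [Fintype n] [DecidableEq n] (M : Matrix n n K[X])
    (d : n → ℕ) (h : ∀ i j, (M i j).natDegree ≤ d j) : M.det.natDegree ≤ ∑ j, d j := by
  rw [Matrix.det_apply]
  refine Polynomial.natDegree_sum_le_of_forall_le _ _ fun σ _ => ?_
  have h1 : (∏ i, M (σ i) i).natDegree ≤ ∑ j, d j :=
    (Polynomial.natDegree_prod_le _ _).trans (Finset.sum_le_sum fun i _ => h _ _)
  rcases Int.units_eq_one_or (Equiv.Perm.sign σ) with hs | hs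
  · rw [hs, one_smul]; exact h1
  · rw [hs, Units.neg_smul, one_smul, Polynomial.natDegree_neg]; exact h1

end gen

variable {K : Type*} [Field K]

/-- the local expansion `f(-l + X)` of a polynomial `f` -/
noncomputable def loc (K : Type*) [Field K] (l : ℕ) : K[X] →+* PowerSeries K :=
  (Polynomial.coeToPowerSeries.ringHom).comp (Polynomial.compRingHom (X - C (l : K)))

theorem loc_apply (l : ℕ) (f : K[X]) : loc K l f = ((f.comp (X - C (l : K)) : K[X]) : PowerSeries K) := rfl

theorem loc_shift (l s : ℕ) (h : s ≤ l) (f : K[X]) :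
    loc K l (f.comp (X + C (s : K))) = loc K (l - s) f := by
  rw [loc_apply, loc_apply, Polynomial.comp_assoc]
  congr 2
  simp only [add_comp, X_comp, C_comp]
  rw [Nat.cast_sub h, C_sub]
  ring

theorem pow_dvd_of_loc {l e : ℕ} {V : K[X]} (h : (PowerSeries.X : PowerSeries K) ^ e ∣ loc K l V) :
    (X + C (l : K)) ^ e ∣ V := by
  rw [loc_apply, PowerSeries.X_pow_dvd_iff] at h
  have h1 : (X : K[X]) ^ e ∣ V.comp (X - C (l : K)) := by
    rw [Polynomial.X_pow_dvd_iff]
    intro d hd
    have := h d hd
    rwa [Polynomial.coeff_coe] at this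
  obtain ⟨g, hg⟩ := h1
  refine ⟨g.comp (X + C (l : K)), ?_⟩
  have h2 : V = (V.comp (X - C (l : K))).comp (X + C (l : K)) := by
    rw [Polynomial.comp_assoc]
    simp
  rw [h2, hg]
  simp

theorem card_mul_le_natDegree [CharZero K] {V : K[X]} (hV : V ≠ 0) (S : Finset ℕ) (e : ℕ)
    (h : ∀ l ∈ S, (PowerSeries.X : PowerSeries K) ^ e ∣ loc K l V) : e * S.card ≤ V.natDegree := by
  have hcop : (S : Set ℕ).Pairwise (Function.onFun IsCoprime fun l => (X + C (l : K)) ^ e) := by
    intro l _ l' _ hne
    apply IsCoprime.pow
    have h1 : IsCoprime (X - C (-(l : K))) (X - C (-(l' : K))) := by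
      apply Polynomial.isCoprime_X_sub_C_of_isUnit_sub
      have : (-(l : K)) - (-(l' : K)) ≠ 0 := by
        intro h0
        apply hne
        have : (l : K) = l' := by linear_combination -h0
        exact_mod_cast this
      exact this.isUnit
    simpa using h1
  have h1 : ∏ l ∈ S, (X + C (l : K)) ^ e ∣ V := Finset.prod_dvd_of_coprime hcop fun l hl => pow_dvd_of_loc (h l hl)
  have h2 := Polynomial.natDegree_le_of_dvd h1 hV
  rw [Polynomial.natDegree_prod_of_monic _ _ (fun l _ => (monic_X_add_C _).pow _)] at h2
  simp only [(monic_X_add_C _).natDegree_pow, natDegree_X_add_C, mul_one, Finset.sum_const, smul_eq_mul] at h2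
  rw [mul_comm]; exact h2

theorem pow_dvd_left_of_mul {f g : PowerSeries K} {a e : ℕ} (h : (PowerSeries.X : PowerSeries K) ^ a ∣ f * g)
    (hg : ¬ (PowerSeries.X : PowerSeries K) ^ (e + 1) ∣ g) : (PowerSeries.X : PowerSeries K) ^ (a - e) ∣ f := by
  rw [pow_dvd_iff_le_emultiplicity, emultiplicity_mul PowerSeries.X_prime] at h
  rw [pow_dvd_iff_le_emultiplicity, not_le] at hg
  rw [pow_dvd_iff_le_emultiplicity]
  have h1 : emultiplicity (PowerSeries.X : PowerSeries K) g ≤ e := by
    push_cast at hg
    exact Order.le_of_lt_add_one hg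
  have h2 : (a : ℕ∞) ≤ emultiplicity (PowerSeries.X : PowerSeries K) f + e :=
    h.trans (by gcongr)
  push_cast
  exact tsub_le_iff_right.2 h2

/-- **Case 1** of the zero estimate, generic form. -/
theorem case_one [CharZero K] {k : ℕ} (q : Fin k → K[X]) (hq : LinearIndependent K q) (D : ℕ)
    (hD : ∀ z, (q z).natDegree ≤ D) (β : Fin k → PowerSeries K) (a L : ℕ)
    (hrel : ∀ l ≤ L, (PowerSeries.X : PowerSeries K) ^ a ∣ ∑ z, loc K l (q z) * β z)
    (z : Fin k) (e : ℕ) (he : ¬ (PowerSeries.X : PowerSeries K) ^ (e + 1) ∣ β z) :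
    (a - e) * (L + 2 - k) ≤ k * D := by
  set W : Matrix (Fin k) (Fin k) K[X] := Matrix.of fun i j : Fin k => (q i).comp (X + C ((j : ℕ) : K)) with hW
  have hk : 0 < k := Fin.pos z
  have hdet : W.det ≠ 0 := casorati q hq
  have hloc : ∀ l ∈ Finset.Icc (k - 1) L, (PowerSeries.X : PowerSeries K) ^ (a - e) ∣ loc K l W.det := by
    intro l hl
    rw [Finset.mem_Icc] at hl
    refine pow_dvd_left_of_mul (g := β z) ?_ he
    have h1 : loc K l W.det = ((loc K l).mapMatrix Wᵀ).det := by
      rw [← RingHom.map_det, Matrix.det_transpose]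
    rw [h1]
    refine dvd_det_mul _ β _ (fun j => ?_) z
    have hj := j.2
    have h2 : ((loc K l).mapMatrix Wᵀ).mulVec β j = ∑ z, loc K (l - j) (q z) * β z := by
      simp only [Matrix.mulVec, dotProduct, RingHom.mapMatrix_apply, Matrix.map_apply, Matrix.transpose_apply,
        hW, Matrix.of_apply]
      refine Finset.sum_congr rfl fun z _ => ?_
      rw [loc_shift l j (by omega)]
    rw [h2]
    exact hrel _ (by omega)
  have h3 := card_mul_le_natDegree hdet _ _ hloc
  have h4 : W.det.natDegree ≤ ∑ _j : Fin k, D := by
    rw [← Matrix.det_transpose]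
    refine natDegree_det_le _ _ fun i j => ?_
    simp only [Matrix.transpose_apply, hW, Matrix.of_apply]
    rw [Polynomial.natDegree_comp, natDegree_X_add_C, mul_one]
    exact hD _
  rw [Finset.sum_const, Finset.card_univ, Fintype.card_fin, smul_eq_mul] at h4
  rw [Nat.card_Icc] at h3
  have h5 : L + 2 - k = L + 1 - (k - 1) := by omega
  rw [h5]
  exact h3.trans h4

/-- the product `∏_{r<k} den(t+r)` -/
noncomputable def denK (den : K[X]) (k : ℕ) : K[X] := ∏ r ∈ Finset.range k, den.comp (X + C (r : K))

/-- `num(t+r) ∏_{r' ≠ r} den(t+r')` -/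
noncomputable def numK (den num : K[X]) (k r : ℕ) : K[X] :=
  (∏ r' ∈ (Finset.range k).erase r, den.comp (X + C (r' : K))) * num.comp (X + C (r : K))

theorem denK_ne_zero {den : K[X]} (hden : den ≠ 0) (k : ℕ) : denK den k ≠ 0 := by
  refine Finset.prod_ne_zero_iff.2 fun r _ => ?_
  intro h0
  rw [Polynomial.comp_eq_zero_iff] at h0
  rcases h0 with h0 | ⟨_, h0⟩
  · exact hden h0
  · have := congrArg Polynomial.natDegree h0
    rw [natDegree_X_add_C, natDegree_C] at this
    omega

theorem natDegree_comp_shift (f : K[X]) (r : K) : (f.comp (X + C r)).natDegree = f.natDegree := by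
  rw [Polynomial.natDegree_comp, natDegree_X_add_C, mul_one]

theorem natDegree_denK_le (den : K[X]) (k : ℕ) : (denK den k).natDegree ≤ k * den.natDegree := by
  refine (Polynomial.natDegree_prod_le _ _).trans ?_
  simp only [natDegree_comp_shift, Finset.sum_const, Finset.card_range, smul_eq_mul, le_refl]

theorem natDegree_numK_le {den num : K[X]} (h : num.natDegree ≤ den.natDegree) {k r : ℕ} (hr : r < k) :
    (numK den num k r).natDegree ≤ k * den.natDegree := by
  refine Polynomial.natDegree_mul_le.trans ?_
  have h1 := Polynomial.natDegree_prod_le ((Finset.range k).erase r) fun r' => den.comp (X + C (r' : K))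
  simp only [natDegree_comp_shift, Finset.sum_const, smul_eq_mul] at h1
  rw [Finset.card_erase_of_mem (Finset.mem_range.2 hr), Finset.card_range] at h1
  rw [natDegree_comp_shift]
  obtain ⟨k', rfl⟩ : ∃ k', k = k' + 1 := ⟨k - 1, by omega⟩
  rw [Nat.add_sub_cancel] at h1
  nlinarith

theorem denK_mul (den : K[X]) {k r : ℕ} (hr : r < k) (num : K[X]) :
    denK den k * num.comp (X + C (r : K)) = den.comp (X + C (r : K)) * numK den num k r := by
  unfold denK numK
  rw [← Finset.mul_prod_erase (Finset.range k) _ (Finset.mem_range.2 hr)]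
  ring

theorem iter_div {F : Type*} [Field F] (σ : F →+* F) (x y : F) (r : ℕ) :
    (σ^[r]) (x / y) = (σ^[r]) x / (σ^[r]) y := by
  induction r with
  | zero => rfl
  | succ r ih => rw [Function.iterate_succ_apply', Function.iterate_succ_apply',
      Function.iterate_succ_apply', ih, map_div₀]

/-- **Case 2** of the zero estimate, generic form. -/
theorem case_two [CharZero K] {k : ℕ} (u : Fin k → K[X]) (hu : LinearIndependent K u) (p : K[X]) (D : ℕ)
    (hD : ∀ z, (u z).natDegree ≤ D) (hp : p.natDegree ≤ D) (η : Fin k → ℕ → PowerSeries K) (a L : ℕ)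
    (hrel : ∀ l ≤ L, (PowerSeries.X : PowerSeries K) ^ a ∣ loc K l p + ∑ z, loc K l (u z) * η z l)
    (den : K[X]) (hden : den ≠ 0) (num : Fin k → K[X]) (hnum : ∀ z, (num z).natDegree ≤ den.natDegree)
    (hshift : ∀ l < L, ∀ z, loc K (l + 1) den * (η z l - η z (l + 1)) = loc K (l + 1) (num z)) :
    (∃ α : Fin k → FractionRing K[X], ∀ z, emb K (num z) / emb K den = α z - shf K (α z)) ∨
      a * (L + 1 - k) ≤ k * den.natDegree + (k + 1) * D := by
  rw [or_iff_not_imp_left]
  intro hα
  set P : ℕ → K[X] := fun s => denK den k * p.comp (X + C (s : K)) +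
    ∑ z, (u z).comp (X + C (s : K)) * ∑ r ∈ Finset.range s, numK den (num z) k r with hP
  set V : Matrix (Fin (k + 1)) (Fin (k + 1)) K[X] := Matrix.of fun s j =>
    Fin.cases (motive := fun _ => K[X]) (P s) (fun z => (u z).comp (X + C ((s : ℕ) : K))) j with hV
  -- the determinant is not zero
  have hV0 : V.det ≠ 0 := by
    intro h0
    apply hα
    apply lemmaZ u hu (fun z => emb K (num z) / emb K den) (emb K p)
    have hD0 : emb K (denK den k) ≠ 0 := emb_ne_zero (denK_ne_zero hden k)
    have hden0 : ∀ r : ℕ, emb K (den.comp (X + C (r : K))) ≠ 0 := by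
      intro r
      apply emb_ne_zero
      intro h0
      rw [Polynomial.comp_eq_zero_iff] at h0
      rcases h0 with h0 | ⟨_, h0⟩
      · exact hden h0
      · have := congrArg Polynomial.natDegree h0
        rw [natDegree_X_add_C, natDegree_C] at this
        omega
    have hmat : (emb K).mapMatrix V = psiMat (shf K) (fun z => emb K (u z))
        (fun z => emb K (num z) / emb K den) (emb K p) *
        Matrix.diagonal (fun j : Fin (k + 1) => Fin.cases (motive := fun _ => FractionRing K[X])
          (emb K (denK den k)) (fun _ => 1) j) := by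
      ext s j
      rw [Matrix.mul_diagonal]
      refine Fin.cases ?_ (fun z => ?_) j
      · simp only [RingHom.mapMatrix_apply, Matrix.map_apply, hV, Matrix.of_apply, Fin.cases_zero, psiMat, hP,
          psi, map_add, map_mul, map_sum]
        have hs := s.2
        rw [iterate_shf p s, add_mul, Finset.sum_mul]
        congr 1
        · rw [mul_comm]
        · refine Finset.sum_congr rfl fun z _ => ?_
          rw [mul_assoc, iterate_shf (u z) s]
          congr 1
          rw [Finset.sum_mul]
          refine Finset.sum_congr rfl fun r hr => ?_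
          rw [Finset.mem_range] at hr
          have h1 := congrArg (emb K) (denK_mul den (show r < k by omega) (num z))
          rw [map_mul, map_mul] at h1
          have h2 : ((shf K)^[r]) (emb K (num z) / emb K den) =
              emb K ((num z).comp (X + C (r : K))) / emb K (den.comp (X + C (r : K))) := by
            rw [iter_div, emb, iterate_shf, iterate_shf]
          rw [h2, div_mul_eq_mul_div, eq_div_iff (hden0 r)]
          linear_combination -h1
      · simp only [RingHom.mapMatrix_apply, Matrix.map_apply, hV, Matrix.of_apply, Fin.cases_succ, psiMat,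
          mul_one]
        rw [emb, iterate_shf]
    have h1 : (emb K V.det) = 0 := by rw [h0, map_zero]
    rw [RingHom.map_det, hmat, Matrix.det_mul, Matrix.det_diagonal] at h1
    rcases mul_eq_zero.1 h1 with h1 | h1
    · exact h1
    · exfalso
      rw [Fin.prod_univ_succ] at h1
      simp only [Fin.cases_zero, Fin.cases_succ, Finset.prod_const_one, mul_one] at h1
      exact hD0 h1
  -- vanishing
  have hloc : ∀ l ∈ Finset.Icc k L, (PowerSeries.X : PowerSeries K) ^ a ∣ loc K l V.det := by
    intro l hl
    rw [Finset.mem_Icc] at hl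
    set v : Fin (k + 1) → PowerSeries K := fun j => Fin.cases (motive := fun _ => PowerSeries K) 1
      (fun z => loc K l (denK den k) * η z l) j with hv
    have h1 : (loc K l V.det) = ((loc K l).mapMatrix V).det * v 0 := by
      rw [← RingHom.map_det]
      simp [hv]
    rw [h1]
    refine dvd_det_mul _ v _ (fun s => ?_) 0
    have hs := s.2
    -- the shift of `η`
    have hη : ∀ z, ∀ s : ℕ, s ≤ k → loc K l (denK den k) * η z (l - s) =
        loc K l (denK den k) * η z l + ∑ r ∈ Finset.range s, loc K l (numK den (num z) k r) := by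
      intro z s
      induction s with
      | zero => intro _; simp
      | succ s ih =>
        intro hsk
        rw [Finset.sum_range_succ, ← add_assoc, ← ih (by omega)]
        have h2 := hshift (l - (s + 1)) (by omega) z
        have h3 : l - (s + 1) + 1 = l - s := by omega
        rw [h3] at h2
        have h4 : loc K l (denK den k) = loc K (l - s) den *
            loc K l (∏ r' ∈ (Finset.range k).erase s, den.comp (X + C (r' : K))) := by
          rw [← loc_shift l s (by omega), ← map_mul]
          unfold denK
          rw [Finset.mul_prod_erase (Finset.range k) (fun r' => den.comp (X + C (r' : K)))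
            (Finset.mem_range.2 (by omega))]
        have h5 : loc K l (numK den (num z) k s) =
            loc K l (∏ r' ∈ (Finset.range k).erase s, den.comp (X + C (r' : K))) * loc K (l - s) (num z) := by
          unfold numK
          rw [map_mul, loc_shift l s (by omega)]
        rw [h5, ← h2, h4]
        ring
    have h6 : ((loc K l).mapMatrix V).mulVec v s = loc K l (denK den k) *
        (loc K (l - s) p + ∑ z, loc K (l - s) (u z) * η z (l - s)) := by
      simp only [Matrix.mulVec, dotProduct, RingHom.mapMatrix_apply, Matrix.map_apply, Fin.sum_univ_succ,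
        hV, Matrix.of_apply, Fin.cases_zero, Fin.cases_succ, hv, mul_one]
      rw [hP]
      simp only [map_add, map_mul, map_sum]
      rw [loc_shift l s (by omega), mul_add, add_assoc, ← Finset.sum_add_distrib, Finset.mul_sum]
      congr 1
      refine Finset.sum_congr rfl fun z _ => ?_
      rw [loc_shift l s (by omega)]
      have := hη z s (by omega)
      linear_combination (-(loc K (l - s) (u z))) * this
    rw [h6]
    exact Dvd.dvd.mul_left (hrel _ (by omega)) _
  have h3 := card_mul_le_natDegree hV0 _ _ hloc
  rw [Nat.card_Icc] at h3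
  refine h3.trans ?_
  have h4 : V.det.natDegree ≤ ∑ j : Fin (k + 1), Fin.cases (motive := fun _ => ℕ)
      (k * den.natDegree + D) (fun _ => D) j := by
    refine natDegree_det_le _ _ fun s j => ?_
    have hs := s.2
    refine Fin.cases ?_ (fun z => ?_) j
    · simp only [hV, Matrix.of_apply, Fin.cases_zero, hP]
      refine (Polynomial.natDegree_add_le _ _).trans (max_le ?_ ?_)
      · refine Polynomial.natDegree_mul_le.trans ?_
        rw [natDegree_comp_shift]
        exact Nat.add_le_add (natDegree_denK_le _ _) hp
      · refine Polynomial.natDegree_sum_le_of_forall_le _ _ fun z _ => ?_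
        refine Polynomial.natDegree_mul_le.trans ?_
        rw [natDegree_comp_shift, add_comm]
        refine Nat.add_le_add ?_ (hD z)
        refine Polynomial.natDegree_sum_le_of_forall_le _ _ fun r hr => ?_
        rw [Finset.mem_range] at hr
        exact natDegree_numK_le (hnum z) (by omega)
    · simp only [hV, Matrix.of_apply, Fin.cases_succ]
      rw [natDegree_comp_shift]
      exact hD z
  refine h4.trans (le_of_eq ?_)
  rw [Fin.sum_univ_succ]
  simp only [Fin.cases_zero, Fin.cases_succ, Finset.sum_const, Finset.card_univ, Fintype.card_fin, smul_eq_mul]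
  ring

end Pool.Agent.ZC
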