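import Pool.Agent.ZC.Defs
import Pool.Agent.ZC.ZE

/-!
# ZC: shift of `Gs`, non-summability of the shifts, symmetry
-/

namespace Pool.Agent.ZC

open Finset

/-! ### poles of the shifts -/

/-- index type of the poles of the shifts -/
abbrev Pol (B : ℕ) : Type := (Σ β : Fin B, Fin (2 * (β : ℕ) + 1)) × Bool

/-- the poles: `(j+1)/b - 1` and `-(2p-1) - (j+1)/b`, `b = 2β+1`, `j < b` -/
noncomputable def yp (K : Type*) [Field K] (B p : ℕ) (x : Pol B) : K :=
  if x.2 then (((x.1.2 : ℕ) : K) + 1) / (2 * ((x.1.1 : ℕ) : K) + 1) - 1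
  else -(2 * (p : K) - 1) - (((x.1.2 : ℕ) : K) + 1) / (2 * ((x.1.1 : ℕ) : K) + 1)

noncomputable def den (K : Type*) [Field K] (B p : ℕ) : Polynomial K :=
  ∏ x : Pol B, (Polynomial.X - Polynomial.C (yp K B p x))

noncomputable def num (K : Type*) [Field K] (B p β : ℕ) : Polynomial K :=
  -∑ x : Pol B, if (x.1.1 : ℕ) = β then ∏ x' ∈ univ.erase x, (Polynomial.X - Polynomial.C (yp K B p x')) else 0

variable {K : Type*} [Field K]

theorem den_ne_zero (B p : ℕ) : den K B p ≠ 0 :=
  Finset.prod_ne_zero_iff.2 fun _ _ => Polynomial.X_sub_C_ne_zero _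

theorem card_Pol (B : ℕ) : Fintype.card (Pol B) = 2 * B ^ 2 := by
  rw [Fintype.card_prod, Fintype.card_sigma, Fintype.card_bool]
  simp only [Fintype.card_fin]
  rw [Fin.sum_univ_eq_sum_range (fun β => 2 * β + 1) B]
  have : ∀ B : ℕ, ∑ β ∈ range B, (2 * β + 1) = B ^ 2 := by
    intro B
    induction B with
    | zero => rfl
    | succ B ih => rw [Finset.sum_range_succ, ih]; ring
  rw [this]; ring

theorem natDegree_den (B p : ℕ) : (den K B p).natDegree = 2 * B ^ 2 := by
  rw [den, Polynomial.natDegree_prod_of_monic _ _ fun _ _ => Polynomial.monic_X_sub_C _]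
  simp only [Polynomial.natDegree_X_sub_C, Finset.sum_const, Finset.card_univ, smul_eq_mul, mul_one]
  exact card_Pol B

theorem natDegree_num_le (B p β : ℕ) : (num K B p β).natDegree ≤ (den K B p).natDegree := by
  rw [natDegree_den, num, Polynomial.natDegree_neg]
  refine Polynomial.natDegree_sum_le_of_forall_le _ _ fun x _ => ?_
  split_ifs
  · refine (Polynomial.natDegree_prod_le _ _).trans ?_
    simp only [Polynomial.natDegree_X_sub_C, Finset.sum_const, smul_eq_mul, mul_one]
    rw [← card_Pol, ← Finset.card_univ]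
    exact Finset.card_le_card (Finset.erase_subset _ _)
  · simp

/-- the shift function is `-∑ 1/(t - y)` -/
theorem num_div_den (B p β : ℕ) : emb K (num K B p β) / emb K (den K B p) =
    ∑ x : Pol B, emb K (Polynomial.C (if (x.1.1 : ℕ) = β then -1 else 0)) * pin (yp K B p x) := by
  have hden : emb K (den K B p) ≠ 0 := emb_ne_zero (den_ne_zero B p)
  rw [div_eq_iff hden, num, map_neg, map_sum, Finset.sum_mul, ← Finset.sum_neg_distrib]
  refine Finset.sum_congr rfl fun x _ => ?_
  by_cases hx : (x.1.1 : ℕ) = β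
  · rw [if_pos hx, if_pos hx]
    have h1 : emb K (den K B p) = emb K (Polynomial.X - Polynomial.C (yp K B p x)) *
        emb K (∏ x' ∈ univ.erase x, (Polynomial.X - Polynomial.C (yp K B p x'))) := by
      rw [← map_mul, den, ← Finset.mul_prod_erase univ _ (Finset.mem_univ x)]
    have h2 : emb K (Polynomial.X - Polynomial.C (yp K B p x)) ≠ 0 :=
      emb_ne_zero (Polynomial.X_sub_C_ne_zero _)
    rw [h1, pin]
    simp only [map_neg, map_one]
    field_simp
  · rw [if_neg hx, if_neg hx]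
    simp

/-- the shift functions are independent modulo `α(t) - α(t+1)` -/
theorem shift_indep [CharZero K] (B p : ℕ) (c : ℕ → K) (α : FractionRing (Polynomial K))
    (h : emb K (∑ β ∈ range B, Polynomial.C (c β) * num K B p β) / emb K (den K B p) = α - shf K α) :
    ∀ β < B, c β = 0 := by
  classical
  by_contra hcon
  push Not at hcon
  obtain ⟨β1, hβ1, hc1⟩ := hcon
  -- the largest one
  obtain ⟨β0, hβ0, hmax⟩ := Finset.exists_max_image ((range B).filter fun β => c β ≠ 0) id
    ⟨β1, by simp [hβ1, hc1]⟩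
  rw [Finset.mem_filter, Finset.mem_range] at hβ0
  set b0 : K := 2 * (β0 : K) + 1 with hb0
  have hbpos : ∀ β : ℕ, (2 * (β : K) + 1) ≠ 0 := by
    intro β
    have : ((2 * β + 1 : ℕ) : K) ≠ 0 := Nat.cast_ne_zero.2 (by omega)
    push_cast at this
    exact this
  have hsum : ∑ x : Pol B, emb K (Polynomial.C (-c x.1.1)) * pin (yp K B p x) = α - shf K α := by
    rw [← h, map_sum, Finset.sum_div]
    have h1 : ∀ β ∈ range B, emb K (Polynomial.C (c β) * num K B p β) / emb K (den K B p) =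
        ∑ x : Pol B, emb K (Polynomial.C (if (x.1.1 : ℕ) = β then -c β else 0)) * pin (yp K B p x) := by
      intro β _
      rw [map_mul, mul_div_assoc, num_div_den, Finset.mul_sum]
      refine Finset.sum_congr rfl fun x _ => ?_
      rw [← mul_assoc, ← map_mul, ← Polynomial.C_mul]
      congr 3
      split_ifs <;> ring
    rw [Finset.sum_congr rfl h1, Finset.sum_comm]
    refine Finset.sum_congr rfl fun x _ => ?_
    rw [← Finset.sum_mul, ← map_sum, ← map_sum]
    congr 3
    rw [Finset.sum_ite_eq (range B) (x.1.1 : ℕ) (fun β => -c β), if_pos (Finset.mem_range.2 x.1.1.2)]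
  have h2 := nonsum (fun x : Pol B => -c x.1.1) (yp K B p) (1 / b0) α hsum
  -- terms in the class
  have h3 : ∀ x : Pol B, (if ∃ m : ℤ, yp K B p x = 1 / b0 + m then -c x.1.1 else 0) =
      (if (∃ m : ℤ, yp K B p x = 1 / b0 + m) ∧ (x.1.1 : ℕ) = β0 then -c β0 else 0) := by
    intro x
    by_cases hx : ∃ m : ℤ, yp K B p x = 1 / b0 + m
    · by_cases hxβ : (x.1.1 : ℕ) = β0
      · rw [if_pos hx, if_pos ⟨hx, hxβ⟩, hxβ]
      · rw [if_pos hx, if_neg (fun h => hxβ h.2)]
        rw [neg_eq_zero]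
        by_contra hcx
        have hlt : (x.1.1 : ℕ) < β0 := by
          have := hmax x.1.1 (by simp [hcx])
          simp only [id] at this
          omega
        -- divisibility
        obtain ⟨m, hm⟩ := hx
        set b : K := 2 * ((x.1.1 : ℕ) : K) + 1 with hb
        have hbne : b ≠ 0 := hbpos _
        have hb0ne : b0 ≠ 0 := hbpos _
        have key : ∃ w : ℤ, b = b0 * w := by
          unfold yp at hm
          split_ifs at hm with hx2
          · refine ⟨((x.1.2 : ℕ) : ℤ) + 1 - (2 * ((x.1.1 : ℕ) : ℤ) + 1) - m * (2 * ((x.1.1 : ℕ) : ℤ) + 1), ?_⟩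
            push_cast
            rw [← hb] at hm ⊢
            field_simp at hm
            linear_combination -hm
          · refine ⟨-(2 * (p : ℤ) - 1) * (2 * ((x.1.1 : ℕ) : ℤ) + 1) - (((x.1.2 : ℕ) : ℤ) + 1) -
              m * (2 * ((x.1.1 : ℕ) : ℤ) + 1), ?_⟩
            push_cast
            rw [← hb] at hm ⊢
            field_simp at hm
            linear_combination -hm
        obtain ⟨w, hw⟩ := key
        have hwZ : (2 * ((x.1.1 : ℕ) : ℤ) + 1) = (2 * (β0 : ℤ) + 1) * w := by
          have : (((2 * ((x.1.1 : ℕ) : ℤ) + 1) : ℤ) : K) = (((2 * (β0 : ℤ) + 1) * w : ℤ) : K) := by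
            push_cast
            rw [← hb, ← hb0]
            exact hw
          exact_mod_cast this
        have hdvd : (2 * (β0 : ℤ) + 1) ∣ (2 * ((x.1.1 : ℕ) : ℤ) + 1) := ⟨w, hwZ⟩
        have := Int.le_of_dvd (by positivity) hdvd
        omega
    · rw [if_neg hx, if_neg (fun h => hx h.1)]
  simp only [h3] at h2
  rw [← Finset.sum_filter, Finset.sum_const, nsmul_eq_mul] at h2
  have h4 : (⟨⟨⟨β0, hβ0.1⟩, ⟨0, by simp⟩⟩, true⟩ : Pol B) ∈ univ.filter (fun x : Pol B =>
      (∃ m : ℤ, yp K B p x = 1 / b0 + m) ∧ (x.1.1 : ℕ) = β0) := by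
    rw [Finset.mem_filter]
    refine ⟨Finset.mem_univ _, ⟨-1, ?_⟩, rfl⟩
    unfold yp
    simp only [if_true]
    push_cast
    ring
  rcases mul_eq_zero.1 h2 with h5 | h5
  · rw [Nat.cast_eq_zero, Finset.card_eq_zero] at h5
    rw [h5] at h4
    exact absurd h4 (Finset.notMem_empty _)
  · exact hβ0.2 (neg_eq_zero.1 h5)

/-! ### the shift relation -/

theorem sum_Icc_eq_range {M : Type*} [AddCommMonoid M] (f : ℕ → M) (N : ℕ) :
    ∑ k ∈ Icc 1 N, f k = ∑ k ∈ range N, f (k + 1) := by
  induction N with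
  | zero => simp
  | succ N ih => rw [Finset.sum_Icc_succ_top (by omega), ih, Finset.sum_range_succ]

theorem loc_X_sub_C (l : ℕ) (y : K) :
    loc K l (Polynomial.X - Polynomial.C y) = PowerSeries.X - PowerSeries.C ((l : K) + y) := by
  rw [loc_apply, Polynomial.sub_comp, Polynomial.X_comp, Polynomial.C_comp]
  push_cast
  rw [map_add]
  ring

theorem Gs_shift [CharZero K] (B p β l : ℕ) (hβ : β < B) (hl : l + 1 ≤ 2 * p - 1) (S : Finset ℕ)
    (z : ℕ → K) :
    loc K (l + 1) (den K B p) * (Gs K p (2 * β + 1) l S z - Gs K p (2 * β + 1) (l + 1) S z) =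
      loc K (l + 1) (num K B p β) := by
  classical
  set b : ℕ := 2 * β + 1 with hb
  have hbne : (b : K) ≠ 0 := Nat.cast_ne_zero.2 (by omega)
  set A : ℕ → PowerSeries K := fun k => (PowerSeries.C ((k : K) / b) - PowerSeries.X)⁻¹ with hA
  set D : ℕ → PowerSeries K := fun k => (PowerSeries.C ((k : K) / b) + PowerSeries.X)⁻¹ with hD
  obtain ⟨L, hL⟩ : ∃ L : ℕ, 2 * p - 1 = l + 1 + L := ⟨2 * p - 1 - (l + 1), by omega⟩
  have h1 : Gs K p b l S z - Gs K p b (l + 1) S z =
      ∑ j ∈ range b, A (b * l + j + 1) - ∑ j ∈ range b, D (b * L + j + 1) := by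
    unfold Gs gs
    have e1 : 2 * p - 1 - l = L + 1 := by omega
    have e2 : 2 * p - 1 - (l + 1) = L := by omega
    have hs : ∀ (F : ℕ → PowerSeries K) (m : ℕ), ∑ k ∈ range (m + b), F (k + 1) =
        ∑ k ∈ range m, F (k + 1) + ∑ j ∈ range b, F (m + j + 1) :=
      fun F m => Finset.sum_range_add (fun k => F (k + 1)) m b
    rw [e1, e2, sum_Icc_eq_range, sum_Icc_eq_range, sum_Icc_eq_range, sum_Icc_eq_range]
    rw [show b * (L + 1) = b * L + b from Nat.mul_succ b L, show b * (l + 1) = b * l + b from Nat.mul_succ b l,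
      hs (fun k => (PowerSeries.C ((k : K) / b) + PowerSeries.X)⁻¹) (b * L),
      hs (fun k => (PowerSeries.C ((k : K) / b) - PowerSeries.X)⁻¹) (b * l)]
    simp only [hA, hD]
    abel
  have h2 : loc K (l + 1) (num K B p β) =
      -∑ j ∈ range b, (∏ x' ∈ univ.erase ((⟨⟨⟨β, hβ⟩, ⟨j % b, Nat.mod_lt _ (by omega)⟩⟩, true⟩ : Pol B)),
        loc K (l + 1) (Polynomial.X - Polynomial.C (yp K B p x'))) -
      ∑ j ∈ range b, (∏ x' ∈ univ.erase ((⟨⟨⟨β, hβ⟩, ⟨j % b, Nat.mod_lt _ (by omega)⟩⟩, false⟩ : Pol B)),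
        loc K (l + 1) (Polynomial.X - Polynomial.C (yp K B p x'))) := by
    rw [num, map_neg, map_sum]
    rw [← neg_add', neg_inj, ← Finset.sum_add_distrib]
    rw [Fintype.sum_prod_type, Fintype.sum_sigma]
    rw [Finset.sum_eq_single (⟨β, hβ⟩ : Fin B)]
    · rw [Finset.sum_range]
      refine Finset.sum_congr rfl fun j _ => ?_
      rw [Fintype.sum_bool]
      have hj : (⟨(j : ℕ) % b, Nat.mod_lt _ (by omega)⟩ : Fin (2 * β + 1)) = j := by
        ext
        exact Nat.mod_eq_of_lt j.2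
      simp only [if_true, map_prod, hj]
    · intro β' _ hne
      refine Finset.sum_eq_zero fun j _ => Finset.sum_eq_zero fun s _ => ?_
      rw [if_neg, map_zero]
      intro h0
      apply hne
      ext
      exact h0
    · intro h0
      exact absurd (Finset.mem_univ _) h0
  have h3 : ∀ x : Pol B, loc K (l + 1) (den K B p) = loc K (l + 1) (Polynomial.X - Polynomial.C (yp K B p x)) *
      ∏ x' ∈ univ.erase x, loc K (l + 1) (Polynomial.X - Polynomial.C (yp K B p x')) := by
    intro x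
    rw [den, map_prod]
    exact (Finset.mul_prod_erase univ (fun x' => loc K (l + 1) (Polynomial.X - Polynomial.C (yp K B p x')))
      (Finset.mem_univ x)).symm
  rw [h1, h2, mul_sub, Finset.mul_sum, Finset.mul_sum, ← Finset.sum_neg_distrib]
  congr 1
  · refine Finset.sum_congr rfl fun j hj => ?_
    rw [Finset.mem_range] at hj
    rw [h3 ⟨⟨⟨β, hβ⟩, ⟨j % b, Nat.mod_lt _ (by omega)⟩⟩, true⟩, loc_X_sub_C]
    have e1 : ((l + 1 : ℕ) : K) + yp K B p ⟨⟨⟨β, hβ⟩, ⟨j % b, Nat.mod_lt _ (by omega)⟩⟩, true⟩ =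
        ((b * l + j + 1 : ℕ) : K) / b := by
      unfold yp
      simp only [if_true, Nat.mod_eq_of_lt hj]
      have : (2 * (β : K) + 1) = b := by rw [hb]; push_cast; ring
      rw [this]
      push_cast
      field_simp
      ring
    rw [e1]
    have e2 : (PowerSeries.C (((b * l + j + 1 : ℕ) : K) / b) - PowerSeries.X) * A (b * l + j + 1) = 1 := by
      rw [hA]
      refine PowerSeries.mul_inv_cancel _ ?_
      simp only [map_sub, PowerSeries.constantCoeff_C, PowerSeries.constantCoeff_X, sub_zero]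
      exact div_ne_zero (Nat.cast_ne_zero.2 (by omega)) hbne
    linear_combination (-(∏ x' ∈ univ.erase ((⟨⟨⟨β, hβ⟩, ⟨j % b, Nat.mod_lt _ (by omega)⟩⟩, true⟩ : Pol B)),
        loc K (l + 1) (Polynomial.X - Polynomial.C (yp K B p x')))) * e2
  · refine Finset.sum_congr rfl fun j hj => ?_
    rw [Finset.mem_range] at hj
    rw [h3 ⟨⟨⟨β, hβ⟩, ⟨j % b, Nat.mod_lt _ (by omega)⟩⟩, false⟩, loc_X_sub_C]
    have e1 : ((l + 1 : ℕ) : K) + yp K B p ⟨⟨⟨β, hβ⟩, ⟨j % b, Nat.mod_lt _ (by omega)⟩⟩, false⟩ =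
        -(((b * L + j + 1 : ℕ) : K) / b) := by
      unfold yp
      simp only [Bool.false_eq_true, if_false, Nat.mod_eq_of_lt hj]
      have : (2 * (β : K) + 1) = b := by rw [hb]; push_cast; ring
      rw [this]
      have hp : (2 * (p : K) - 1) = (l : K) + 1 + L := by
        have h5 : ((2 * p : ℕ) : K) = ((l + 1 + L + 1 : ℕ) : K) := by
          congr 1; omega
        push_cast at h5
        linear_combination h5
      rw [hp]
      push_cast
      field_simp
      ring
    rw [e1]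
    have e2 : (PowerSeries.C (((b * L + j + 1 : ℕ) : K) / b) + PowerSeries.X) * D (b * L + j + 1) = 1 := by
      rw [hD]
      refine PowerSeries.mul_inv_cancel _ ?_
      simp only [map_add, PowerSeries.constantCoeff_C, PowerSeries.constantCoeff_X, add_zero]
      exact div_ne_zero (Nat.cast_ne_zero.2 (by omega)) hbne
    rw [map_neg]
    linear_combination (∏ x' ∈ univ.erase ((⟨⟨⟨β, hβ⟩, ⟨j % b, Nat.mod_lt _ (by omega)⟩⟩, false⟩ : Pol B)),
        loc K (l + 1) (Polynomial.X - Polynomial.C (yp K B p x'))) * e2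

/-! ### symmetry -/

theorem sg_inv (f : PowerSeries K) (h : PowerSeries.constantCoeff f ≠ 0) :
    PowerSeries.evalNegHom f⁻¹ = (PowerSeries.evalNegHom f)⁻¹ := by
  have h1 : PowerSeries.constantCoeff (PowerSeries.evalNegHom f) ≠ 0 := by
    rw [PowerSeries.evalNegHom, ← PowerSeries.coeff_zero_eq_constantCoeff_apply, PowerSeries.coeff_rescale]
    simpa using h
  rw [PowerSeries.eq_inv_iff_mul_eq_one h1, ← map_mul, PowerSeries.inv_mul_cancel _ h, map_one]

theorem sg_C (c : K) : PowerSeries.evalNegHom (PowerSeries.C c) = PowerSeries.C c := by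
  ext n
  rw [PowerSeries.evalNegHom, PowerSeries.coeff_rescale, PowerSeries.coeff_C]
  split_ifs with h
  · rw [h]; simp
  · simp

theorem sg_X : PowerSeries.evalNegHom (PowerSeries.X : PowerSeries K) = -PowerSeries.X :=
  PowerSeries.rescale_neg_one_X

theorem cast_sub_sym {p l : ℕ} (hp : 1 ≤ p) (hl : l ≤ 2 * p - 1) :
    ((2 * p - 1 - l : ℕ) : K) = 2 * (p : K) - 1 - l := by
  rw [Nat.cast_sub hl, Nat.cast_sub (by omega)]
  push_cast
  ring

theorem sg_yl {p l : ℕ} (hp : 1 ≤ p) (hl : l ≤ 2 * p - 1) :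
    PowerSeries.evalNegHom (yl K p l) = yl K p (2 * p - 1 - l) := by
  unfold yl
  rw [map_pow, map_add, map_mul, sg_C, sg_C, sg_X, cast_sub_sym hp hl]
  have : (2 * (p : K) - 1 - 2 * (2 * (p : K) - 1 - l)) = -(2 * (p : K) - 1 - 2 * l) := by ring
  rw [this, map_neg]
  ring

theorem sg_ev {p l : ℕ} (hp : 1 ≤ p) (hl : l ≤ 2 * p - 1) (f : Polynomial K) :
    PowerSeries.evalNegHom (ev K p l f) = ev K p (2 * p - 1 - l) f := by
  unfold ev
  rw [← sg_yl hp hl, Polynomial.aeval_def, Polynomial.aeval_def, Polynomial.hom_eval₂]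
  congr 1
  ext c
  simp only [RingHom.comp_apply]
  exact congrArg _ (sg_C c)

theorem sg_gs [CharZero K] {p l : ℕ} (hl : l ≤ 2 * p - 1) (b : ℕ) (hb : 1 ≤ b) :
    PowerSeries.evalNegHom (gs K p b l) = gs K p b (2 * p - 1 - l) := by
  have hbne : (b : K) ≠ 0 := Nat.cast_ne_zero.2 (by omega)
  unfold gs
  rw [show 2 * p - 1 - (2 * p - 1 - l) = l by omega, map_add, map_sum, map_sum, add_comm]
  congr 1
  · refine Finset.sum_congr rfl fun k hk => ?_
    rw [Finset.mem_Icc] at hk
    rw [sg_inv]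
    · rw [map_add, sg_C, sg_X, ← sub_eq_add_neg]
    · simp only [map_add, PowerSeries.constantCoeff_C, PowerSeries.constantCoeff_X, add_zero]
      exact div_ne_zero (Nat.cast_ne_zero.2 (by omega)) hbne
  · refine Finset.sum_congr rfl fun k hk => ?_
    rw [Finset.mem_Icc] at hk
    rw [sg_inv]
    · rw [map_sub, sg_C, sg_X, sub_neg_eq_add]
    · simp only [map_sub, PowerSeries.constantCoeff_C, PowerSeries.constantCoeff_X, sub_zero]
      exact div_ne_zero (Nat.cast_ne_zero.2 (by omega)) hbne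

theorem sg_X_pow {i : ℕ} (hi : Odd i) :
    PowerSeries.evalNegHom ((PowerSeries.X : PowerSeries K) ^ (i - 1)) = PowerSeries.X ^ (i - 1) := by
  rw [map_pow, sg_X]
  have : Even (i - 1) := hi.tsub_odd odd_one
  exact this.neg_pow _

theorem sg_Gs [CharZero K] {p l : ℕ} (hl : l ≤ 2 * p - 1) (b : ℕ) (hb : 1 ≤ b)
    (S : Finset ℕ) (hS : ∀ i ∈ S, Odd i) (z : ℕ → K) :
    PowerSeries.evalNegHom (Gs K p b l S z) = Gs K p b (2 * p - 1 - l) S z := by
  unfold Gs
  rw [map_sub, sg_gs hl b hb, map_sum]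
  congr 1
  refine Finset.sum_congr rfl fun i hi => ?_
  rw [map_mul, sg_C, sg_X_pow (hS i hi)]

theorem X_pow_dvd_sg {a : ℕ} {f : PowerSeries K} (h : PowerSeries.X ^ a ∣ f) :
    PowerSeries.X ^ a ∣ PowerSeries.evalNegHom f := by
  have h1 := map_dvd (PowerSeries.evalNegHom (A := K)) h
  rw [map_pow, sg_X] at h1
  refine dvd_trans ?_ h1
  refine pow_dvd_pow_of_dvd ?_ a
  exact (dvd_neg).2 dvd_rfl

/-- the polynomial `(2t + 2p - 1)^2` -/
noncomputable def tp (K : Type*) [Field K] (p : ℕ) : Polynomial K :=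
  (Polynomial.C 2 * Polynomial.X + Polynomial.C (2 * (p : K) - 1)) ^ 2

theorem ev_eq_loc (p l : ℕ) (f : Polynomial K) : ev K p l f = loc K l (f.comp (tp K p)) := by
  have h1 : loc K l (tp K p) = yl K p l := by
    unfold tp yl
    rw [loc_apply]
    simp only [Polynomial.pow_comp, Polynomial.add_comp, Polynomial.mul_comp, Polynomial.C_comp,
      Polynomial.X_comp, Polynomial.coe_pow, Polynomial.coe_add, Polynomial.coe_mul, Polynomial.coe_sub,
      Polynomial.coe_C, Polynomial.coe_X]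
    congr 1
    simp only [map_sub, map_mul]
    ring
  unfold ev
  rw [← h1, Polynomial.comp, Polynomial.hom_eval₂, Polynomial.aeval_def]
  congr 1
  ext c
  rw [RingHom.comp_apply, loc_apply, Polynomial.C_comp, Polynomial.coe_C]
  rfl

/-- the relation at all poles `l ≤ 2p - 1`, in terms of `loc` -/
theorem rel_all [CharZero K] {a B p : ℕ} (hp : 1 ≤ p) (I S : Finset ℕ) (hI : ∀ i ∈ I, Odd i)
    (hS : ∀ i ∈ S, Odd i) (z : ℕ → K) (f0 : Polynomial K) (q P : ℕ → Polynomial K)
    (h : ∀ l < p, (PowerSeries.X : PowerSeries K) ^ a ∣ ev K p l f0 +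
        ∑ i ∈ I, PowerSeries.X ^ (i - 1) * ev K p l (q i) +
        ∑ β ∈ range B, ev K p l (P β) * Gs K p (2 * β + 1) l S z) :
    ∀ l ≤ 2 * p - 1, (PowerSeries.X : PowerSeries K) ^ a ∣ loc K l (f0.comp (tp K p)) +
        ∑ i ∈ I, PowerSeries.X ^ (i - 1) * loc K l ((q i).comp (tp K p)) +
        ∑ β ∈ range B, loc K l ((P β).comp (tp K p)) * Gs K p (2 * β + 1) l S z := by
  intro l hl
  simp only [← ev_eq_loc]
  by_cases hlp : l < p
  · exact h l hlp
  · have h1 := X_pow_dvd_sg (h (2 * p - 1 - l) (by omega))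
    have h2 : 2 * p - 1 - (2 * p - 1 - l) = l := by omega
    have hl' : 2 * p - 1 - l ≤ 2 * p - 1 := by omega
    rw [map_add, map_add, map_sum, map_sum, sg_ev hp hl', h2] at h1
    have h3 : ∑ i ∈ I, PowerSeries.evalNegHom (PowerSeries.X ^ (i - 1) * ev K p (2 * p - 1 - l) (q i)) =
        ∑ i ∈ I, PowerSeries.X ^ (i - 1) * ev K p l (q i) := by
      refine Finset.sum_congr rfl fun i hi => ?_
      rw [map_mul, sg_X_pow (hI i hi), sg_ev hp hl', h2]
    have h4 : ∑ β ∈ range B, PowerSeries.evalNegHom (ev K p (2 * p - 1 - l) (P β) *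
        Gs K p (2 * β + 1) (2 * p - 1 - l) S z) =
        ∑ β ∈ range B, ev K p l (P β) * Gs K p (2 * β + 1) l S z := by
      refine Finset.sum_congr rfl fun β _ => ?_
      rw [map_mul, sg_ev hp hl', sg_Gs hl' _ (by omega) S hS, h2]
    rw [h3, h4] at h1
    exact h1

theorem natDegree_comp_tp (p : ℕ) (f : Polynomial K) [CharZero K] :
    (f.comp (tp K p)).natDegree = 2 * f.natDegree := by
  have h : (tp K p).natDegree = 2 := by
    unfold tp
    rw [Polynomial.natDegree_pow, Polynomial.natDegree_linear two_ne_zero]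
  rw [Polynomial.natDegree_comp, h, mul_comm]

theorem comp_tp_injective [CharZero K] (p : ℕ) : Function.Injective fun f : Polynomial K => f.comp (tp K p) := by
  intro f g hfg
  simp only at hfg
  have h1 : (f - g).comp (tp K p) = 0 := by rw [Polynomial.sub_comp, hfg, sub_self]
  rw [Polynomial.comp_eq_zero_iff] at h1
  rcases h1 with h1 | ⟨_, h1⟩
  · exact sub_eq_zero.1 h1
  · exfalso
    have := congrArg Polynomial.natDegree h1
    unfold tp at this
    rw [Polynomial.natDegree_pow, Polynomial.natDegree_linear two_ne_zero, Polynomial.natDegree_C] at this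
    omega

end Pool.Agent.ZC
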