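import Pool.Agent.ZC.LZ

/-!
# ZC: several inhomogeneous columns
-/

namespace Pool.Agent.ZC

open Polynomial Matrix

theorem casorati_shift {F : Type*} [Field F] (σ : F →+* F) {d : ℕ} (u : Fin d → F)
    (hu : ∀ c : Fin d → F, (∀ i, σ (c i) = c i) → ∑ i, c i * u i = 0 → c = 0) (s0 : ℕ) :
    (Matrix.of fun i j : Fin d => (σ^[s0 + (j : ℕ)]) (u i)).det ≠ 0 := by
  induction s0 with
  | zero => simpa using casorati_abs σ u hu
  | succ s0 ih =>
    have : (Matrix.of fun i j : Fin d => (σ^[s0 + 1 + (j : ℕ)]) (u i)).det =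
        σ ((Matrix.of fun i j : Fin d => (σ^[s0 + (j : ℕ)]) (u i)).det) := by
      rw [RingHom.map_det]
      congr 1
      ext i j
      simp only [Matrix.of_apply, RingHom.mapMatrix_apply, Matrix.map_apply]
      rw [show s0 + 1 + (j : ℕ) = (s0 + j) + 1 by ring, Function.iterate_succ_apply']
    rw [this]
    exact fun h0 => ih ((map_eq_zero σ).1 h0)

theorem zero_of_rows {F : Type*} [Field F] (σ : F →+* F) {d : ℕ} (u : Fin d → F)
    (hu : ∀ c : Fin d → F, (∀ i, σ (c i) = c i) → ∑ i, c i * u i = 0 → c = 0) (s0 : ℕ)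
    (c : Fin d → F) (h : ∀ s, s0 ≤ s → s < s0 + d → ∑ i, c i * (σ^[s]) (u i) = 0) : c = 0 := by
  by_contra hne
  apply casorati_shift σ u hu s0
  apply Matrix.exists_vecMul_eq_zero_iff.1
  refine ⟨c, hne, ?_⟩
  funext j
  have := h (s0 + j) (Nat.le_add_right _ _) (by have := j.2; omega)
  simpa [Matrix.vecMul, dotProduct] using this

/-- the key induction -/
theorem lemmaY_key {F : Type*} [Field F] (σ : F →+* F) {d m : ℕ} (u : Fin d → F) (q : Fin m → F)
    (ρ : Fin m → Fin d → F)
    (hu : ∀ c : Fin d → F, (∀ i, σ (c i) = c i) → ∑ i, c i * u i = 0 → c = 0) :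
    ∀ (n : ℕ) (α : Fin m → F) (β : Fin d → F) (s0 N : ℕ), α ≠ 0 →
      (∃ T : Finset (Fin m), T.card ≤ n ∧ ∀ e, e ∉ T → α e = 0) → s0 + n + d ≤ N →
      (∀ s, s0 ≤ s → s < N → ∑ e, α e * psi σ u (ρ e) (q e) s = ∑ z, β z * (σ^[s]) (u z)) →
      ∃ (α : Fin m → F) (β : Fin d → F), α ≠ 0 ∧ (∀ e, σ (α e) = α e) ∧
        (∀ z, ∑ e, α e * ρ e z = β z - σ (β z)) ∧ ∑ e, α e * q e = ∑ z, β z * u z := by
  intro n
  induction n with
  | zero =>
    intro α β s0 N hα hT _ _
    exfalso
    obtain ⟨T, hT, hT0⟩ := hT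
    apply hα
    funext e
    apply hT0
    rw [Nat.le_zero, Finset.card_eq_zero] at hT
    rw [hT]; exact Finset.notMem_empty _
  | succ n ih =>
    intro α β s0 N hα hT hN hrel
    obtain ⟨T, hT, hT0⟩ := hT
    obtain ⟨e0, he0⟩ : ∃ e, α e ≠ 0 := by
      by_contra hcon
      push Not at hcon
      exact hα (funext hcon)
    -- normalise
    set a : Fin m → F := fun e => α e / α e0 with ha
    set b : Fin d → F := fun z => β z / α e0 with hb
    have ha0 : a e0 = 1 := div_self he0
    have hrel' : ∀ s, s0 ≤ s → s < N →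
        ∑ e, a e * psi σ u (ρ e) (q e) s = ∑ z, b z * (σ^[s]) (u z) := by
      intro s h1 h2
      have := congrArg (fun x => x / α e0) (hrel s h1 h2)
      simp only [Finset.sum_div] at this
      rw [show ∑ e, a e * psi σ u (ρ e) (q e) s = ∑ e, α e * psi σ u (ρ e) (q e) s / α e0 from
        Finset.sum_congr rfl fun e _ => by simp only [ha]; ring, this]
      exact Finset.sum_congr rfl fun z _ => by simp only [hb]; ring
    -- shift and subtract
    have hdiff : ∀ s, s0 + 1 ≤ s → s < N →
        ∑ e, (σ (a e) - a e) * psi σ u (ρ e) (q e) s =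
          ∑ z, (σ (b z) - b z + ∑ e, σ (a e) * ρ e z) * (σ^[s]) (u z) := by
      intro s h1 h2
      obtain ⟨t, rfl⟩ : ∃ t, s = t + 1 := ⟨s - 1, by omega⟩
      have e1 := hrel' (t + 1) (by omega) h2
      have e2 := congrArg σ (hrel' t (by omega) (by omega))
      rw [map_sum, map_sum] at e2
      simp only [map_mul, ← Function.iterate_succ_apply' σ] at e2
      have e3 : ∑ e, σ (a e) * psi σ u (ρ e) (q e) (t + 1) =
          ∑ e, σ (a e) * σ (psi σ u (ρ e) (q e) t) +
            ∑ z, (∑ e, σ (a e) * ρ e z) * (σ^[t + 1]) (u z) := by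
        have e4 : ∑ z, (∑ e, σ (a e) * ρ e z) * (σ^[t + 1]) (u z) =
            ∑ e, σ (a e) * ∑ z, (σ^[t + 1]) (u z) * ρ e z := by
          simp only [Finset.sum_mul, Finset.mul_sum]
          rw [Finset.sum_comm]
          exact Finset.sum_congr rfl fun e _ => Finset.sum_congr rfl fun z _ => by ring
        rw [e4, ← Finset.sum_add_distrib]
        exact Finset.sum_congr rfl fun e _ => by rw [psi_succ]; ring
      have e5 : ∑ e, (σ (a e) - a e) * psi σ u (ρ e) (q e) (t + 1) =
          ∑ e, σ (a e) * psi σ u (ρ e) (q e) (t + 1) - ∑ e, a e * psi σ u (ρ e) (q e) (t + 1) := by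
        rw [← Finset.sum_sub_distrib]
        exact Finset.sum_congr rfl fun e _ => by ring
      have e6 : ∑ z, (σ (b z) - b z + ∑ e, σ (a e) * ρ e z) * (σ^[t + 1]) (u z) =
          ∑ z, σ (b z) * (σ^[t + 1]) (u z) + ∑ z, (∑ e, σ (a e) * ρ e z) * (σ^[t + 1]) (u z) -
            ∑ z, b z * (σ^[t + 1]) (u z) := by
        rw [← Finset.sum_add_distrib, ← Finset.sum_sub_distrib]
        exact Finset.sum_congr rfl fun z _ => by ring
      rw [e5, e6, e3, e2, e1]
    by_cases hz : (fun e => σ (a e) - a e) = 0
    · -- constants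
      have hconst : ∀ e, σ (a e) = a e := fun e => by
        have := congrFun hz e
        simpa [sub_eq_zero] using this
      have hβ : (fun z => σ (b z) - b z + ∑ e, σ (a e) * ρ e z) = 0 := by
        apply zero_of_rows σ u hu (s0 + 1)
        intro s h1 h2
        rw [← hdiff s h1 (by omega)]
        exact Finset.sum_eq_zero fun e _ => by rw [hconst e, sub_self, zero_mul]
      have hβ' : ∀ z, ∑ e, a e * ρ e z = b z - σ (b z) := by
        intro z
        have := congrFun hβ z
        simp only [hconst, Pi.zero_apply] at this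
        linear_combination this
      refine ⟨a, b, ?_, hconst, hβ', ?_⟩
      · intro h0
        have := congrFun h0 e0
        rw [ha0] at this
        exact one_ne_zero this
      · -- descend to `s = 0`
        have hdesc : ∀ k ≤ s0, ∑ e, a e * psi σ u (ρ e) (q e) (s0 - k) =
            ∑ z, b z * (σ^[s0 - k]) (u z) := by
          intro k
          induction k with
          | zero => intro _; exact hrel' s0 le_rfl (by omega)
          | succ k ihk =>
            intro hk
            have h1 := ihk (by omega)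
            obtain ⟨t, ht⟩ : ∃ t, s0 - k = t + 1 := ⟨s0 - k - 1, by omega⟩
            have ht' : s0 - (k + 1) = t := by omega
            rw [ht] at h1
            rw [ht']
            apply σ.injective
            rw [map_sum, map_sum]
            simp only [map_mul, ← Function.iterate_succ_apply' σ, hconst]
            have e3 : ∑ e, a e * psi σ u (ρ e) (q e) (t + 1) =
                ∑ e, a e * σ (psi σ u (ρ e) (q e) t) +
                  ∑ z, (∑ e, a e * ρ e z) * (σ^[t + 1]) (u z) := by
              have e4 : ∑ z, (∑ e, a e * ρ e z) * (σ^[t + 1]) (u z) =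
                  ∑ e, a e * ∑ z, (σ^[t + 1]) (u z) * ρ e z := by
                simp only [Finset.sum_mul, Finset.mul_sum]
                rw [Finset.sum_comm]
                exact Finset.sum_congr rfl fun e _ => Finset.sum_congr rfl fun z _ => by ring
              rw [e4, ← Finset.sum_add_distrib]
              exact Finset.sum_congr rfl fun e _ => by rw [psi_succ]; ring
            have e5 : ∑ z, (∑ e, a e * ρ e z) * (σ^[t + 1]) (u z) =
                ∑ z, b z * (σ^[t + 1]) (u z) - ∑ z, σ (b z) * (σ^[t + 1]) (u z) := by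
              rw [← Finset.sum_sub_distrib]
              exact Finset.sum_congr rfl fun z _ => by rw [hβ' z]; ring
            rw [e3, e5] at h1
            linear_combination h1
        have := hdesc s0 le_rfl
        rw [Nat.sub_self] at this
        simpa [psi] using this
    · -- induction
      refine ih (fun e => σ (a e) - a e) _ (s0 + 1) N hz ⟨T.erase e0, ?_, ?_⟩ (by omega) hdiff
      · have h1 : e0 ∈ T := by
          by_contra h0
          exact he0 (hT0 e0 h0)
        rw [Finset.card_erase_of_mem h1]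
        omega
      · intro e he
        rw [Finset.mem_erase, not_and_or, not_not] at he
        rcases he with he | he
        · rw [he, ha0, map_one, sub_self]
        · have : a e = 0 := by simp only [ha, hT0 e he, zero_div]
          rw [this, map_zero, sub_self]

/-- matrix with several inhomogeneous columns -/
def yMat {F : Type*} [Field F] (σ : F →+* F) {d m : ℕ} (u : Fin d → F) (q : Fin m → F)
    (ρ : Fin m → Fin d → F) : Matrix (Fin m ⊕ Fin d) (Fin m ⊕ Fin d) F :=
  Matrix.of fun i j => Sum.elim (fun e => psi σ u (ρ e) (q e) (finSumFinEquiv i : Fin (m + d)))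
    (fun z => (σ^[((finSumFinEquiv i : Fin (m + d)) : ℕ)]) (u z)) j

theorem lemmaY_abs {F : Type*} [Field F] (σ : F →+* F) {d m : ℕ} (u : Fin d → F) (q : Fin m → F)
    (ρ : Fin m → Fin d → F)
    (hu : ∀ c : Fin d → F, (∀ i, σ (c i) = c i) → ∑ i, c i * u i = 0 → c = 0)
    (hdet : (yMat σ u q ρ).det = 0) :
    ∃ (α : Fin m → F) (β : Fin d → F), α ≠ 0 ∧ (∀ e, σ (α e) = α e) ∧
        (∀ z, ∑ e, α e * ρ e z = β z - σ (β z)) ∧ ∑ e, α e * q e = ∑ z, β z * u z := by
  obtain ⟨v, hv0, hv⟩ := Matrix.exists_mulVec_eq_zero_iff.2 hdet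
  have hv' : ∀ s : ℕ, s < m + d → ∑ e, v (Sum.inl e) * psi σ u (ρ e) (q e) s =
      ∑ z, (-v (Sum.inr z)) * (σ^[s]) (u z) := by
    intro s hs
    have h1 := congrFun hv (finSumFinEquiv.symm ⟨s, hs⟩)
    simp only [Matrix.mulVec, dotProduct, yMat, Matrix.of_apply, Fintype.sum_sum_type, Sum.elim_inl,
      Sum.elim_inr, Equiv.apply_symm_apply, Pi.zero_apply] at h1
    have h2 : ∑ z, (-v (Sum.inr z)) * (σ^[s]) (u z) = -∑ z, (σ^[s]) (u z) * v (Sum.inr z) := by
      rw [← Finset.sum_neg_distrib]
      exact Finset.sum_congr rfl fun z _ => by ring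
    rw [h2, ← add_eq_zero_iff_eq_neg, ← h1]
    congr 1
    exact Finset.sum_congr rfl fun e _ => mul_comm _ _
  by_cases hα : (fun e => v (Sum.inl e)) = 0
  · exfalso
    have hβ : (fun z => -v (Sum.inr z)) = 0 := by
      apply zero_of_rows σ u hu 0
      intro s _ hs
      rw [← hv' s (by omega)]
      exact Finset.sum_eq_zero fun e _ => by
        have := congrFun hα e
        simp only [Pi.zero_apply] at this
        rw [this, zero_mul]
    apply hv0
    funext i
    rcases i with e | z
    · exact congrFun hα e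
    · have := congrFun hβ z
      simpa using this
  · exact lemmaY_key σ u q ρ hu m _ _ 0 (m + d) hα ⟨Finset.univ, by simp, fun e he => absurd (Finset.mem_univ e) he⟩
      (by omega) (fun s _ hs => hv' s hs)

end Pool.Agent.ZC
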