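import Pool.Agent.ZC.NSP

/-!
# ZC: non-summability, all pole orders at once
-/

namespace Pool.Agent.ZC

open Polynomial

variable {K : Type*} [Field K]

/-- `∑_{k<S} c_k f^(k+1)` -/
noncomputable def ppl (S : ℕ) (c : ℕ → K) (f : FractionRing K[X]) : FractionRing K[X] :=
  ∑ k ∈ Finset.range S, emb K (C (c k)) * f ^ (k + 1)

theorem Reg.ppl {x : K} {f : FractionRing K[X]} (hf : Reg x f) (S : ℕ) (c : ℕ → K) :
    Reg x (ppl S c f) :=
  Reg.sum _ fun _ _ => (Reg.emb _).mul (hf.pow _)

theorem pin_mul_self (x : K) : emb K (X - C x) * pin x = 1 := by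
  rw [pin, mul_inv_cancel₀ (emb_ne_zero (X_sub_C_ne_zero x))]

theorem not_reg_ppl {x : K} {S : ℕ} {c : ℕ → K} (hr : Reg x (ppl S c (pin x))) :
    ∀ k < S, c k = 0 := by
  classical
  by_contra hcon
  push Not at hcon
  obtain ⟨k1, hk1, hc1⟩ := hcon
  obtain ⟨k0, hk0, hmax⟩ := Finset.exists_max_image ((Finset.range S).filter fun k => c k ≠ 0) id
    ⟨k1, by simp [hk1, hc1]⟩
  rw [Finset.mem_filter, Finset.mem_range] at hk0
  apply hk0.2
  apply not_reg_pin (x := x)
  have h1 : Reg x (emb K ((X - C x) ^ k0) * ppl S c (pin x)) := (Reg.emb _).mul hr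
  have h2 : emb K ((X - C x) ^ k0) * ppl S c (pin x) =
      emb K (C (c k0)) * pin x + ∑ k ∈ (Finset.range S).erase k0,
        emb K (C (c k)) * (if k < k0 then emb K ((X - C x) ^ (k0 - (k + 1))) else 0) := by
    unfold ppl
    rw [Finset.mul_sum, ← Finset.add_sum_erase _ _ (Finset.mem_range.2 hk0.1)]
    congr 1
    · have : emb K ((X - C x) ^ k0) * pin x ^ k0 = 1 := by
        rw [map_pow, ← mul_pow, pin_mul_self, one_pow]
      rw [pow_succ]
      linear_combination (emb K (C (c k0)) * pin x) * this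
    · refine Finset.sum_congr rfl fun k hk => ?_
      rw [Finset.mem_erase, Finset.mem_range] at hk
      by_cases hlt : k < k0
      · rw [if_pos hlt]
        have : emb K ((X - C x) ^ (k + 1)) * pin x ^ (k + 1) = 1 := by
          rw [map_pow, ← mul_pow, pin_mul_self, one_pow]
        have e : (X - C x) ^ k0 = (X - C x) ^ (k0 - (k + 1)) * (X - C x) ^ (k + 1) := by
          rw [← pow_add]; congr 1; omega
        rw [e, map_mul]
        linear_combination (emb K (C (c k)) * emb K ((X - C x) ^ (k0 - (k + 1)))) * this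
      · rw [if_neg hlt, mul_zero]
        have hck : c k = 0 := by
          by_contra hne
          have := hmax k (by simp [hk.2, hne])
          simp only [id] at this
          omega
        rw [hck, C_0, map_zero, zero_mul, mul_zero]
  have h3 : emb K (C (c k0)) * pin x = emb K ((X - C x) ^ k0) * ppl S c (pin x) -
      ∑ k ∈ (Finset.range S).erase k0,
        emb K (C (c k)) * (if k < k0 then emb K ((X - C x) ^ (k0 - (k + 1))) else 0) := by
    rw [h2, add_sub_cancel_right]
  rw [h3]
  refine h1.sub (Reg.sum _ fun k _ => (Reg.emb _).mul ?_)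
  split_ifs
  · exact Reg.emb _
  · exact Reg.zero

section shift

variable [CharZero K]

theorem iter_shf_ppl (S : ℕ) (c : ℕ → K) (f : FractionRing K[X]) (r : ℕ) :
    ((shf K)^[r]) (ppl S c f) = ppl S c (((shf K)^[r]) f) := by
  unfold ppl
  rw [iter_shf_sum]
  refine Finset.sum_congr rfl fun k _ => ?_
  rw [iter_shf_mul, iter_shf_C, iter_pow]

/-- **Non-summability**, all pole orders at once. -/
theorem nonsum_multi {J : Type*} [Fintype J] (S : ℕ) (c : J → ℕ → K) (y : J → K) (x : K)
    (α : FractionRing K[X]) (hs : ∑ j, ppl S (c j) (pin (y j)) = α - shf K α) :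
    ∀ k < S, ∑ j, (open Classical in if ∃ m : ℤ, y j = x + m then c j k else 0) = 0 := by
  classical
  obtain ⟨N1, hN1⟩ := exists_reg x α
  -- bound for the integers m_j
  obtain ⟨N2, hN2⟩ : ∃ N2 : ℕ, ∀ j, ∀ m : ℤ, y j = x + m → |m| < N2 := by
    have : ∀ j, ∃ N2 : ℕ, ∀ m : ℤ, y j = x + m → |m| < N2 := by
      intro j
      by_cases hj : ∃ m : ℤ, y j = x + m
      · obtain ⟨m, hm⟩ := hj
        refine ⟨m.natAbs + 1, fun m' hm' => ?_⟩
        have : (m' : K) = m := by
          have := hm'.symm.trans hm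
          simpa using this
        have : m' = m := by exact_mod_cast this
        rw [this]; push_cast; omega
      · exact ⟨0, fun m hm => absurd ⟨m, hm⟩ hj⟩
    choose N hN using this
    refine ⟨∑ j, N j, fun j m hm => (hN j m hm).trans_le ?_⟩
    exact_mod_cast Finset.single_le_sum (f := N) (fun _ _ => Nat.zero_le _) (Finset.mem_univ j)
  set N := N1 + N2 + 1 with hNdef
  set x1 : K := x - N with hx1
  have hL : ∑ r ∈ Finset.range (2 * N), ((shf K)^[r]) (∑ j, ppl S (c j) (pin (y j))) =
      ∑ j, ∑ r ∈ Finset.range (2 * N), ppl S (c j) (pin (y j - r)) := by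
    rw [Finset.sum_comm]
    refine Finset.sum_congr rfl fun r _ => ?_
    rw [iter_shf_sum]
    refine Finset.sum_congr rfl fun j _ => ?_
    rw [iter_shf_ppl, iter_shf_pin]
  have hR : Reg x1 (∑ r ∈ Finset.range (2 * N), ((shf K)^[r]) (∑ j, ppl S (c j) (pin (y j)))) := by
    rw [hs, sum_iter_sub]
    apply Reg.sub
    · have := hN1 (-(N : ℤ)) (by rw [abs_neg, Nat.abs_cast]; omega)
      have e : x + ((-(N : ℤ) : ℤ) : K) = x1 := by rw [hx1]; push_cast; ring
      rwa [e] at this
    · apply Reg.iter
      have := hN1 (N : ℤ) (by rw [Nat.abs_cast]; omega)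
      have e : x + (((N : ℤ) : ℤ) : K) = x1 + ((2 * N : ℕ) : K) := by rw [hx1]; push_cast; ring
      rwa [e] at this
  have hj : ∀ j, Reg x1 (∑ r ∈ Finset.range (2 * N), ppl S (c j) (pin (y j - r)) -
      ppl S (fun k => if ∃ m : ℤ, y j = x + m then c j k else 0) (pin x1)) := by
    intro j
    by_cases hjm : ∃ m : ℤ, y j = x + m
    · simp only [if_pos hjm]
      obtain ⟨m, hm⟩ := hjm
      have hmN := hN2 j m hm
      have hr0 : (m + N).toNat ∈ Finset.range (2 * N) := by
        rw [Finset.mem_range]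
        have := abs_lt.1 hmN
        omega
      have hrc : (((m + N).toNat : ℕ) : K) = m + N := by
        have h1 : (((m + N).toNat : ℕ) : ℤ) = m + N := Int.toNat_of_nonneg (by
          have := abs_lt.1 hmN
          omega)
        have h2 := congrArg (fun z : ℤ => (z : K)) h1
        push_cast at h2
        exact h2
      rw [← Finset.add_sum_erase _ _ hr0]
      have e : y j - (((m + N).toNat : ℕ) : K) = x1 := by rw [hrc, hm, hx1]; ring
      have e' : ppl S (fun k => c j k) (pin x1) = ppl S (c j) (pin x1) := rfl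
      rw [e, e', add_sub_cancel_left]
      refine Reg.sum _ fun r hr => Reg.ppl (Reg.pin ?_) _ _
      intro h0
      apply (Finset.mem_erase.1 hr).1
      have : (r : K) = (((m + N).toNat : ℕ) : K) := by
        rw [hrc]
        rw [hm, hx1] at h0
        linear_combination h0
      exact_mod_cast this
    · simp only [if_neg hjm]
      have e0 : ppl S (fun _ => (0 : K)) (pin x1) = 0 := by
        unfold ppl
        exact Finset.sum_eq_zero fun k _ => by rw [C_0, map_zero, zero_mul]
      rw [e0, sub_zero]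
      refine Reg.sum _ fun r _ => Reg.ppl (Reg.pin ?_) _ _
      intro h0
      apply hjm
      refine ⟨(r : ℤ) - N, ?_⟩
      push_cast
      rw [hx1] at h0
      linear_combination -h0
  have hfin : Reg x1 (ppl S (fun k => ∑ j, (if ∃ m : ℤ, y j = x + m then c j k else 0)) (pin x1)) := by
    have e1 : ppl S (fun k => ∑ j, (if ∃ m : ℤ, y j = x + m then c j k else 0)) (pin x1) =
        ∑ j, ppl S (fun k => if ∃ m : ℤ, y j = x + m then c j k else 0) (pin x1) := by
      unfold ppl
      rw [Finset.sum_comm]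
      refine Finset.sum_congr rfl fun k _ => ?_
      rw [map_sum, map_sum, Finset.sum_mul]
    have e : ppl S (fun k => ∑ j, (if ∃ m : ℤ, y j = x + m then c j k else 0)) (pin x1) =
        ∑ r ∈ Finset.range (2 * N), ((shf K)^[r]) (∑ j, ppl S (c j) (pin (y j))) -
        ∑ j, (∑ r ∈ Finset.range (2 * N), ppl S (c j) (pin (y j - r)) -
          ppl S (fun k => if ∃ m : ℤ, y j = x + m then c j k else 0) (pin x1)) := by
      rw [hL, Finset.sum_sub_distrib, sub_sub_cancel, e1]
    rw [e]
    exact hR.sub (Reg.sum _ fun j _ => hj j)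
  exact not_reg_ppl hfin

end shift

end Pool.Agent.ZC
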