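import Pool.Agent.ZC.ZEB

/-!
# ZC: the zero estimate with slack, over any field of characteristic 0
-/

namespace Pool.Agent.ZC

open Finset Polynomial

variable {K : Type*} [Field K]

theorem span_natDegree_le {ι : Type*} (v : ι → K[X]) (D : ℕ) (hv : ∀ i, (v i).natDegree ≤ D)
    {f : K[X]} (hf : f ∈ Submodule.span K (Set.range v)) : f.natDegree ≤ D := by
  have h1 : Submodule.span K (Set.range v) ≤ degreeLE K D := by
    rw [Submodule.span_le]
    rintro _ ⟨i, rfl⟩
    rw [SetLike.mem_coe, mem_degreeLE]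
    exact natDegree_le_iff_degree_le.1 (hv i)
  exact natDegree_le_iff_degree_le.2 (mem_degreeLE.1 (h1 hf))

/-- expansion of a finite family in a basis of its span -/
theorem exists_expansion {ι : Type*} [Fintype ι] (v : ι → K[X]) (D : ℕ) (hv : ∀ i, (v i).natDegree ≤ D) :
    ∃ (k : ℕ) (u : Fin k → K[X]) (c : ι → Fin k → K), LinearIndependent K u ∧
      (∀ z, (u z).natDegree ≤ D) ∧ (∀ i, v i = ∑ z, C (c i z) * u z) ∧
      k ≤ (Set.toFinite {i | v i ≠ 0}).toFinset.card := by
  classical
  set V := Submodule.span K (Set.range v) with hV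
  have : FiniteDimensional K V := FiniteDimensional.span_of_finite K (Set.finite_range v)
  set b := Module.finBasis K V with hb
  have hmem : ∀ i, v i ∈ V := fun i => Submodule.subset_span ⟨i, rfl⟩
  refine ⟨Module.finrank K V, fun z => (b z : K[X]), fun i z => b.repr ⟨v i, hmem i⟩ z, ?_, ?_, ?_, ?_⟩
  · have := b.linearIndependent.map' V.subtype (Submodule.ker_subtype V)
    exact this
  · intro z
    exact span_natDegree_le v D hv (b z).2
  · intro i
    have h1 := congrArg (Subtype.val) (b.sum_repr ⟨v i, hmem i⟩)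
    rw [Submodule.coe_sum] at h1
    refine h1.symm.trans (Finset.sum_congr rfl fun z _ => ?_)
    rw [Submodule.coe_smul, Polynomial.smul_eq_C_mul]
  · have h1 : V ≤ Submodule.span K (((Set.toFinite {i | v i ≠ 0}).toFinset.image v : Finset K[X]) : Set K[X]) := by
      rw [hV, Submodule.span_le]
      rintro _ ⟨i, rfl⟩
      by_cases hi : v i = 0
      · rw [hi]; exact Submodule.zero_mem _
      · exact Submodule.subset_span (by
          rw [Finset.coe_image]
          exact ⟨i, by simp [hi], rfl⟩)
    have h2 := Submodule.finrank_mono h1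
    have h3 := finrank_span_finset_le_card (R := K) ((Set.toFinite {i | v i ≠ 0}).toFinset.image v)
    exact h2.trans (h3.trans Finset.card_image_le)

theorem loc_C (l : ℕ) (c : K) : loc K l (C c) = PowerSeries.C c := by
  rw [loc_apply, Polynomial.C_comp, Polynomial.coe_C]

/-- Case 1: no functionals -/
theorem ze_case1 [CharZero K] (a B p : ℕ) (hB : 1 ≤ B) (I : Finset ℕ) (hI : I ⊆ oddS a)
    (hRS : ∀ c ∈ I, 8 * B * (I.filter (c ≤ ·)).card ≤ a + 1 - c)
    (hm : 8 * B * (1 + I.card + B) ≤ a) (hp : I.card + 1 ≤ p) (f0 : K[X]) (q : ℕ → K[X])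
    (hf0 : f0.natDegree ≤ 8 * B * p) (hq : ∀ i ∈ I, (q i).natDegree ≤ 8 * B * p)
    (h : ∀ l ≤ 2 * p - 1, (PowerSeries.X : PowerSeries K) ^ a ∣ loc K l f0 +
        ∑ i ∈ I, PowerSeries.X ^ (i - 1) * loc K l (q i)) :
    f0 = 0 ∧ ∀ i ∈ I, q i = 0 := by
  classical
  have hIa : ∀ i ∈ I, 3 ≤ i ∧ i ≤ a := by
    intro i hi
    have := hI hi
    rw [oddS, Finset.mem_filter, Finset.mem_Icc] at this
    exact this.1
  set v : Option I → K[X] := fun x => x.elim f0 (fun i => q i) with hv
  set e : Option I → ℕ := fun x => x.elim 0 (fun i => (i : ℕ) - 1) with he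
  have hvD : ∀ x, (v x).natDegree ≤ 8 * B * p := by
    rintro (_ | i)
    · exact hf0
    · exact hq i i.2
  have hall : ∀ x, v x = 0 := by
    by_contra hne
    push Not at hne
    obtain ⟨x1, hx1⟩ := hne
    obtain ⟨x0, hx0, hmin⟩ := Finset.exists_min_image (univ.filter fun x => v x ≠ 0) e ⟨x1, by simp [hx1]⟩
    rw [Finset.mem_filter] at hx0
    obtain ⟨k, u, c, hu, huD, hexp, hk⟩ := exists_expansion v (8 * B * p) hvD
    have hkcard : (Set.toFinite {x | v x ≠ 0}).toFinset = univ.filter fun x => v x ≠ 0 := by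
      ext x; simp
    rw [hkcard] at hk
    obtain ⟨z, hz⟩ : ∃ z, c x0 z ≠ 0 := by
      by_contra hcon
      push Not at hcon
      apply hx0.2
      rw [hexp x0]
      exact Finset.sum_eq_zero fun z _ => by rw [hcon z]; simp
    have heinj : Function.Injective e := by
      rintro (_ | i) (_ | j) hij
      · rfl
      · simp only [he, Option.elim_none, Option.elim_some] at hij
        have := hIa j j.2
        omega
      · simp only [he, Option.elim_none, Option.elim_some] at hij
        have := hIa i i.2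
        omega
      · simp only [he, Option.elim_some] at hij
        have h1 := hIa i i.2
        have h2 := hIa j j.2
        have : (i : ℕ) = j := by omega
        rw [Subtype.ext this]
    set β : Fin k → PowerSeries K := fun z => ∑ x, PowerSeries.C (c x z) * PowerSeries.X ^ (e x) with hβ
    have hrel : ∀ l ≤ 2 * p - 1, (PowerSeries.X : PowerSeries K) ^ a ∣ ∑ z, loc K l (u z) * β z := by
      intro l hl
      have h1 := h l hl
      have h2 : ∑ z, loc K l (u z) * β z = loc K l f0 + ∑ i ∈ I, PowerSeries.X ^ (i - 1) * loc K l (q i) := by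
        have h3 : ∑ z, loc K l (u z) * β z = ∑ x, PowerSeries.X ^ (e x) * loc K l (v x) := by
          simp only [hβ, Finset.mul_sum]
          rw [Finset.sum_comm]
          refine Finset.sum_congr rfl fun x _ => ?_
          rw [hexp x, map_sum, Finset.mul_sum]
          refine Finset.sum_congr rfl fun z _ => ?_
          rw [map_mul, loc_C]
          ring
        rw [h3, Fintype.sum_option]
        congr 1
        · simp [he, hv]
        · exact Finset.sum_coe_sort I (fun i => PowerSeries.X ^ (i - 1) * loc K l (q i))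
      rw [h2]; exact h1
    have hnd : ¬ (PowerSeries.X : PowerSeries K) ^ (e x0 + 1) ∣ β z := by
      rw [PowerSeries.X_pow_dvd_iff]
      intro hall
      have h1 := hall (e x0) (Nat.lt_succ_self _)
      apply hz
      rw [hβ] at h1
      simp only [map_sum, PowerSeries.coeff_C_mul, PowerSeries.coeff_X_pow] at h1
      rw [Finset.sum_eq_single x0] at h1
      · simpa using h1
      · intro x _ hx
        rw [if_neg, mul_zero]
        intro h2
        exact hx (heinj h2.symm)
      · intro h2; exact absurd (Finset.mem_univ _) h2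
    have hcase := case_one u hu (8 * B * p) huD β a (2 * p - 1) hrel z (e x0) hnd
    have hkI : k ≤ I.card + 1 := by
      refine hk.trans ((Finset.card_filter_le _ _).trans ?_)
      rw [Finset.card_univ, Fintype.card_option, Fintype.card_coe]
    rcases x0 with _ | i0
    · simp only [he, Option.elim_none, Nat.sub_zero] at hcase
      have ha : 0 < a := lt_of_lt_of_le (by positivity) hm
      have h1 : k * (8 * B * p) ≤ p * a := by
        calc k * (8 * B * p) ≤ (I.card + 1) * (8 * B * p) := Nat.mul_le_mul_right _ hkI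
          _ = p * (8 * B * (1 + I.card)) := by ring
          _ ≤ p * a := by
            apply Nat.mul_le_mul_left
            refine le_trans ?_ hm
            apply Nat.mul_le_mul_left
            omega
      have h2 : p + 1 ≤ 2 * p - 1 + 2 - k := by omega
      have h3 : a * (p + 1) ≤ p * a := (Nat.mul_le_mul_left a h2).trans (hcase.trans h1)
      nlinarith
    · simp only [he, Option.elim_some] at hcase
      have hi0 := hIa i0 i0.2
      have hk2 : k ≤ (I.filter ((i0 : ℕ) ≤ ·)).card := by
        refine hk.trans ?_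
        have hsub : (univ.filter fun x => v x ≠ 0) ⊆ (univ.filter fun i : I => (i0 : ℕ) ≤ i).map
            Function.Embedding.some := by
          intro x hx
          have h1 := hmin x hx
          rw [Finset.mem_map]
          rcases x with _ | i
          · simp only [he, Option.elim_none, Option.elim_some] at h1
            omega
          · refine ⟨i, ?_, rfl⟩
            simp only [he, Option.elim_some] at h1
            have := hIa i i.2
            simp only [Finset.mem_filter, Finset.mem_univ, true_and]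
            omega
        refine (Finset.card_le_card hsub).trans ?_
        rw [Finset.card_map]
        refine Finset.card_le_card_of_injOn (fun i => (i : ℕ)) ?_ (fun i _ j _ hij => Subtype.ext hij)
        intro i hi
        simp only [Finset.coe_filter, Finset.mem_univ, true_and, Set.mem_ofPred_eq] at hi
        simp only [Finset.coe_filter, Set.mem_ofPred_eq]
        exact ⟨i.2, hi⟩
      have h1 := hRS i0 i0.2
      have h2 : a - ((i0 : ℕ) - 1) = a + 1 - i0 := by omega
      rw [h2] at hcase
      have h3 : k * (8 * B * p) ≤ p * (a + 1 - i0) := by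
        calc k * (8 * B * p) = p * (8 * B * k) := by ring
          _ ≤ p * (a + 1 - i0) := Nat.mul_le_mul_left _ ((Nat.mul_le_mul_left _ hk2).trans h1)
      have h4 : p + 1 ≤ 2 * p - 1 + 2 - k := by omega
      have h5 : (a + 1 - i0) * (p + 1) ≤ p * (a + 1 - i0) := (Nat.mul_le_mul_left _ h4).trans (hcase.trans h3)
      have h6 : 0 < a + 1 - i0 := by omega
      nlinarith
  refine ⟨hall none, fun i hi => hall (some ⟨i, hi⟩)⟩

/-- Case 2: all functionals vanish -/
theorem ze_case2 [CharZero K] (a B p : ℕ) (hB : 1 ≤ B) (I S : Finset ℕ)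
    (hm : 8 * B * (1 + I.card + B) ≤ a) (hp : (I.card + B) * (1 + 2 * B ^ 2) + 1 ≤ p) (z : ℕ → K)
    (f0 : K[X]) (q P : ℕ → K[X])
    (hf0 : f0.natDegree ≤ 8 * B * p) (hq : ∀ i ∈ I, (q i).natDegree ≤ 8 * B * p)
    (hP : ∀ β < B, (P β).natDegree ≤ 8 * B * p)
    (h : ∀ l ≤ 2 * p - 1, (PowerSeries.X : PowerSeries K) ^ a ∣ loc K l f0 +
        ∑ i ∈ I, PowerSeries.X ^ (i - 1) * loc K l (q i) +
        ∑ β ∈ range B, loc K l (P β) * Gs K p (2 * β + 1) l S z) :
    ∀ β < B, P β = 0 := by
  classical
  set v : I ⊕ Fin B → K[X] := Sum.elim (fun i => q i) (fun β => P β) with hv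
  set ser : I ⊕ Fin B → ℕ → PowerSeries K := Sum.elim (fun i _ => PowerSeries.X ^ ((i : ℕ) - 1))
    (fun β l => Gs K p (2 * (β : ℕ) + 1) l S z) with hser
  have hvD : ∀ x, (v x).natDegree ≤ 8 * B * p := by
    rintro (i | β)
    · exact hq i i.2
    · exact hP β β.2
  obtain ⟨k, u, c, hu, huD, hexp, hk⟩ := exists_expansion v (8 * B * p) hvD
  have hkB : k ≤ I.card + B := by
    refine hk.trans ?_
    have := Finset.card_le_univ (Set.toFinite {x | v x ≠ 0}).toFinset
    rwa [Fintype.card_sum, Fintype.card_coe, Fintype.card_fin] at this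
  set η : Fin k → ℕ → PowerSeries K := fun y l => ∑ x, PowerSeries.C (c x y) * ser x l with hη
  set c' : Fin k → ℕ → K := fun y β => if hβ : β < B then c (Sum.inr ⟨β, hβ⟩) y else 0 with hc'
  have hrel : ∀ l ≤ 2 * p - 1, (PowerSeries.X : PowerSeries K) ^ a ∣ loc K l f0 +
      ∑ y, loc K l (u y) * η y l := by
    intro l hl
    have h1 := h l hl
    have h2 : ∑ y, loc K l (u y) * η y l = ∑ i ∈ I, PowerSeries.X ^ (i - 1) * loc K l (q i) +
        ∑ β ∈ range B, loc K l (P β) * Gs K p (2 * β + 1) l S z := by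
      have h3 : ∑ y, loc K l (u y) * η y l = ∑ x, ser x l * loc K l (v x) := by
        simp only [hη, Finset.mul_sum]
        rw [Finset.sum_comm]
        refine Finset.sum_congr rfl fun x _ => ?_
        rw [hexp x, map_sum, Finset.mul_sum]
        refine Finset.sum_congr rfl fun y _ => ?_
        rw [map_mul, loc_C]
        ring
      rw [h3, Fintype.sum_sum_type]
      congr 1
      · exact Finset.sum_coe_sort I (fun i => PowerSeries.X ^ (i - 1) * loc K l (q i))
      · rw [Finset.sum_range]
        refine Finset.sum_congr rfl fun β _ => ?_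
        simp only [hser, hv, Sum.elim_inr]
        ring
    rw [h2, ← add_assoc]; exact h1
  have hshift : ∀ l < 2 * p - 1, ∀ y, loc K (l + 1) (den K B p) * (η y l - η y (l + 1)) =
      loc K (l + 1) (∑ β ∈ range B, C (c' y β) * num K B p β) := by
    intro l hl y
    have h1 : η y l - η y (l + 1) = ∑ β : Fin B, PowerSeries.C (c (Sum.inr β) y) *
        (Gs K p (2 * (β : ℕ) + 1) l S z - Gs K p (2 * (β : ℕ) + 1) (l + 1) S z) := by
      simp only [hη, hser]
      rw [← Finset.sum_sub_distrib, Fintype.sum_sum_type]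
      simp only [Sum.elim_inl, Sum.elim_inr, sub_self, Finset.sum_const_zero, zero_add, mul_sub]
    rw [h1, Finset.mul_sum, map_sum, Finset.sum_range]
    refine Finset.sum_congr rfl fun β _ => ?_
    have h2 := Gs_shift (K := K) B p β l β.2 (by omega) S z
    have h3 : c' y β = c (Sum.inr β) y := by
      simp only [hc', β.2, dif_pos]
    rw [map_mul, loc_C, h3, ← h2]
    ring
  have hnum : ∀ y, (∑ β ∈ range B, C (c' y β) * num K B p β).natDegree ≤ (den K B p).natDegree := by
    intro y
    refine Polynomial.natDegree_sum_le_of_forall_le _ _ fun β _ => ?_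
    exact (Polynomial.natDegree_C_mul_le _ _).trans (natDegree_num_le B p β)
  rcases case_two u hu f0 (8 * B * p) huD hf0 η a (2 * p - 1) hrel (den K B p) (den_ne_zero B p)
    (fun y => ∑ β ∈ range B, C (c' y β) * num K B p β) hnum hshift with ⟨α, hα⟩ | hcount
  · intro β hβ
    have h1 : v (Sum.inr ⟨β, hβ⟩) = 0 := by
      rw [hexp]
      refine Finset.sum_eq_zero fun y _ => ?_
      have h2 := shift_indep B p (c' y) (α y) (hα y) β hβ
      have h3 : c' y β = c (Sum.inr ⟨β, hβ⟩) y := by
        simp only [hc', hβ, dif_pos]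
      rw [← h3, h2]
      simp
    exact h1
  · exfalso
    rw [natDegree_den] at hcount
    have ha : 0 < a := lt_of_lt_of_le (by positivity) hm
    have h1 : (k + 1) * (8 * B * p) ≤ p * a := by
      calc (k + 1) * (8 * B * p) ≤ (I.card + B + 1) * (8 * B * p) := Nat.mul_le_mul_right _ (by omega)
        _ = p * (8 * B * (1 + I.card + B)) := by ring
        _ ≤ p * a := Nat.mul_le_mul_left _ hm
    have h2 : 2 * p - 1 + 1 - k = p + (p - k) := by
      have : I.card + B ≤ (I.card + B) * (1 + 2 * B ^ 2) := Nat.le_mul_of_pos_right _ (by positivity)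
      omega
    rw [h2, Nat.mul_add] at hcount
    have h3 : a * (p - k) ≤ k * (2 * B ^ 2) := by
      have : a * p = p * a := Nat.mul_comm _ _
      omega
    have h4 : k * (2 * B ^ 2) + 1 ≤ p - k := by
      have h5 : k * (1 + 2 * B ^ 2) ≤ (I.card + B) * (1 + 2 * B ^ 2) := Nat.mul_le_mul_right _ hkB
      have h6 : k * (1 + 2 * B ^ 2) = k + k * (2 * B ^ 2) := by ring
      omega
    have h5 : p - k ≤ a * (p - k) := Nat.le_mul_of_pos_left _ ha
    omega

theorem ze_inj_K [CharZero K] (a B : ℕ) (hB : 1 ≤ B) (I S : Finset ℕ) (z : ℕ → K) (hI : I ⊆ oddS a)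
    (hS : S ⊆ oddS a) (hRS : ∀ c ∈ I, 8 * B * (I.filter (c ≤ ·)).card ≤ a + 1 - c)
    (hm : 8 * B * (1 + I.card + B) ≤ a) :
    ∃ p0 : ℕ, ∀ p ≥ p0, ∀ (f0 : K[X]) (q P : ℕ → K[X]), f0 ∈ degreeLT K (4 * B * p) →
      (∀ i ∈ I, q i ∈ degreeLT K (4 * B * p)) → (∀ β < B, P β ∈ degreeLT K (4 * B * p)) →
      (∀ l < p, (PowerSeries.X : PowerSeries K) ^ a ∣ ev K p l f0 +
        ∑ i ∈ I, PowerSeries.X ^ (i - 1) * ev K p l (q i) +
        ∑ β ∈ range B, ev K p l (P β) * Gs K p (2 * β + 1) l S z) →
      f0 = 0 ∧ (∀ i ∈ I, q i = 0) ∧ ∀ β < B, P β = 0 := by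
  refine ⟨(I.card + B) * (1 + 2 * B ^ 2) + 1, fun p hp f0 q P hf0 hq hP hrel => ?_⟩
  have hp1 : 1 ≤ p := le_trans (Nat.le_add_left 1 _) hp
  have hodd : ∀ T ⊆ oddS a, ∀ i ∈ T, Odd i := fun T hT i hi => (Finset.mem_filter.1 (hT hi)).2
  have hD : ∀ f : K[X], f ∈ degreeLT K (4 * B * p) → (f.comp (tp K p)).natDegree ≤ 8 * B * p := by
    intro f hf
    rw [natDegree_comp_tp]
    have h1 : f.natDegree ≤ 4 * B * p := by
      rw [mem_degreeLT] at hf
      exact natDegree_le_of_degree_le hf.le
    calc 2 * f.natDegree ≤ 2 * (4 * B * p) := Nat.mul_le_mul_left _ h1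
      _ = 8 * B * p := by ring
  have hcomp0 : ∀ f : K[X], f.comp (tp K p) = 0 → f = 0 := by
    intro f hf
    apply comp_tp_injective (K := K) p
    simp only [hf, Polynomial.zero_comp]
  have hall := rel_all hp1 I S (hodd I hI) (hodd S hS) z f0 q P hrel
  have hP0 : ∀ β < B, (P β).comp (tp K p) = 0 :=
    ze_case2 a B p hB I S hm hp z (f0.comp (tp K p)) (fun i => (q i).comp (tp K p))
      (fun β => (P β).comp (tp K p)) (hD _ hf0) (fun i hi => hD _ (hq i hi)) (fun β hβ => hD _ (hP β hβ)) hall
  have hall' : ∀ l ≤ 2 * p - 1, (PowerSeries.X : PowerSeries K) ^ a ∣ loc K l (f0.comp (tp K p)) +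
      ∑ i ∈ I, PowerSeries.X ^ (i - 1) * loc K l ((q i).comp (tp K p)) := by
    intro l hl
    have h1 := hall l hl
    have h2 : ∑ β ∈ range B, loc K l ((P β).comp (tp K p)) * Gs K p (2 * β + 1) l S z = 0 := by
      refine Finset.sum_eq_zero fun β hβ => ?_
      rw [hP0 β (Finset.mem_range.1 hβ), map_zero, zero_mul]
    rwa [h2, add_zero] at h1
  have hpI : I.card + 1 ≤ p := by
    have : I.card + B ≤ (I.card + B) * (1 + 2 * B ^ 2) := Nat.le_mul_of_pos_right _ (by positivity)
    omega
  obtain ⟨h1, h2⟩ := ze_case1 a B p hB I hI hRS hm hpI (f0.comp (tp K p)) (fun i => (q i).comp (tp K p))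
    (hD _ hf0) (fun i hi => hD _ (hq i hi)) hall'
  exact ⟨hcomp0 _ h1, fun i hi => hcomp0 _ (h2 i hi), fun β hβ => hcomp0 _ (hP0 β hβ)⟩

end Pool.Agent.ZC
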