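import Pool.Agent.ZC.Defs

set_option autoImplicit false

/-!
# ZC: expansion of the real functionals in moments
-/

namespace Pool.Agent.ZC

open Finset Filter

open scoped Topology

section inverse

private theorem an_inv_sub (c : ℝ) (hc : c ≠ 0) :
    (PowerSeries.C c - PowerSeries.X)⁻¹ = PowerSeries.mk fun r => (c⁻¹) ^ (r + 1) := by
  rw [PowerSeries.inv_eq_iff_mul_eq_one (by simpa using hc)]
  ext r
  rw [mul_sub, map_sub, mul_comm, PowerSeries.coeff_C_mul, PowerSeries.coeff_mk]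
  rcases r with _ | r
  · simp [hc]
  · rw [PowerSeries.coeff_succ_mul_X, PowerSeries.coeff_mk, PowerSeries.coeff_one,
      if_neg (Nat.succ_ne_zero r), pow_succ' c⁻¹ (r + 1), ← mul_assoc, mul_inv_cancel₀ hc]
    ring

private theorem an_inv_add (c : ℝ) (hc : c ≠ 0) :
    (PowerSeries.C c + PowerSeries.X)⁻¹ =
      PowerSeries.mk fun r => (-1) ^ r * (c⁻¹) ^ (r + 1) := by
  rw [PowerSeries.inv_eq_iff_mul_eq_one (by simpa using hc)]
  ext r
  rw [mul_add, map_add, mul_comm, PowerSeries.coeff_C_mul, PowerSeries.coeff_mk]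
  rcases r with _ | r
  · simp [hc]
  · rw [PowerSeries.coeff_succ_mul_X, PowerSeries.coeff_mk, PowerSeries.coeff_one,
      if_neg (Nat.succ_ne_zero r), pow_succ' c⁻¹ (r + 1), pow_succ' (-1 : ℝ) r]
    have : c * (-1 * (-1) ^ r * (c⁻¹ * c⁻¹ ^ (r + 1))) = -((c * c⁻¹) * ((-1) ^ r * c⁻¹ ^ (r + 1))) := by
      ring
    rw [this, mul_inv_cancel₀ hc]
    ring

end inverse

/-- coefficients of powers of `y` -/
private theorem an_coeff_pow (u : ℝ) (N r : ℕ) :
    |PowerSeries.coeff r ((PowerSeries.C u + PowerSeries.C (2 : ℝ) * PowerSeries.X) ^ N)| ≤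
      2 ^ r * (|u| + 1) ^ N := by
  induction N generalizing r with
  | zero =>
    rw [pow_zero, pow_zero, mul_one, PowerSeries.coeff_one]
    split
    · rw [abs_one]; exact one_le_pow₀ (by norm_num)
    · rw [abs_zero]; positivity
  | succ N ih =>
    rw [pow_succ', add_mul, map_add, PowerSeries.coeff_C_mul, mul_assoc, PowerSeries.coeff_C_mul]
    have h1 : |u * PowerSeries.coeff r
        ((PowerSeries.C u + PowerSeries.C (2 : ℝ) * PowerSeries.X) ^ N)| ≤
        |u| * (2 ^ r * (|u| + 1) ^ N) := by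
      rw [abs_mul]
      exact mul_le_mul_of_nonneg_left (ih r) (abs_nonneg u)
    rcases r with _ | r
    · rw [mul_comm PowerSeries.X, PowerSeries.coeff_zero_mul_X, mul_zero, add_zero]
      refine h1.trans ?_
      rw [pow_succ (|u| + 1) N]
      have : 0 ≤ (2 : ℝ) ^ 0 * (|u| + 1) ^ N := by positivity
      nlinarith
    · rw [mul_comm PowerSeries.X, PowerSeries.coeff_succ_mul_X]
      have h2 := ih r
      refine (abs_add_le _ _).trans ?_
      rw [abs_mul (2 : ℝ), abs_of_pos (by norm_num : (0 : ℝ) < 2)]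
      rw [pow_succ (|u| + 1) N, pow_succ (2 : ℝ) r] at *
      nlinarith

private theorem an_coeff_yl (p l N r : ℕ) (hl : l < p) :
    |PowerSeries.coeff r (yl ℝ p l ^ N)| ≤ 2 ^ r * (2 * (p : ℝ)) ^ (2 * N) := by
  unfold yl
  rw [← pow_mul]
  refine (an_coeff_pow _ _ _).trans ?_
  have h1 : |2 * (p : ℝ) - 1 - 2 * (l : ℝ)| + 1 ≤ 2 * (p : ℝ) := by
    have h2 : (l : ℝ) + 1 ≤ p := by exact_mod_cast hl
    have h3 : (0 : ℝ) ≤ l := Nat.cast_nonneg l
    rw [abs_of_nonneg (by linarith)]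
    linarith
  gcongr


private theorem an_pf (p l b k : ℕ) (hl : l < p) (hb : 1 ≤ b) (hk : 1 ≤ k) :
    PowerSeries.C (4 * nd p b k) * (PowerSeries.C (nd p b k ^ 2) - yl ℝ p l)⁻¹ =
      (PowerSeries.C ((k : ℝ) / b + (l : ℕ)) - PowerSeries.X)⁻¹ +
      (PowerSeries.C ((k : ℝ) / b + ((2 * p - 1 - l : ℕ) : ℝ)) + PowerSeries.X)⁻¹ := by
  have hb0 : (0 : ℝ) < b := by exact_mod_cast hb
  have hk0 : (0 : ℝ) < k := by exact_mod_cast hk
  have hx : 0 < (k : ℝ) / b := div_pos hk0 hb0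
  have hcast : ((2 * p - 1 - l : ℕ) : ℝ) = 2 * (p : ℝ) - 1 - l := by
    rw [Nat.cast_sub (by omega), Nat.cast_sub (by omega)]; push_cast; ring
  have hne1 : (k : ℝ) / b + (l : ℕ) ≠ 0 := by positivity
  have hne2 : (k : ℝ) / b + ((2 * p - 1 - l : ℕ) : ℝ) ≠ 0 := by positivity
  set α : PowerSeries ℝ := PowerSeries.C ((k : ℝ) / b + (l : ℕ)) - PowerSeries.X with hα
  set β : PowerSeries ℝ := PowerSeries.C ((k : ℝ) / b + ((2 * p - 1 - l : ℕ) : ℝ)) +
    PowerSeries.X with hβ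
  have hα1 : α * α⁻¹ = 1 := PowerSeries.mul_inv_cancel _ (by rw [hα]; simpa using hne1)
  have hβ1 : β * β⁻¹ = 1 := PowerSeries.mul_inv_cancel _ (by rw [hβ]; simpa using hne2)
  have hsum : α + β = PowerSeries.C (nd p b k) := by
    rw [hα, hβ]
    have : PowerSeries.C ((k : ℝ) / b + (l : ℕ)) - PowerSeries.X +
      (PowerSeries.C ((k : ℝ) / b + ((2 * p - 1 - l : ℕ) : ℝ)) + PowerSeries.X) =
      PowerSeries.C ((k : ℝ) / b + (l : ℕ)) +
        PowerSeries.C ((k : ℝ) / b + ((2 * p - 1 - l : ℕ) : ℝ)) := by ring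
    rw [this, ← map_add]
    congr 1
    rw [hcast]; unfold nd; ring
  have hprod : PowerSeries.C (nd p b k ^ 2) - yl ℝ p l = PowerSeries.C (4 : ℝ) * (α * β) := by
    have h1 : PowerSeries.C (nd p b k) - (PowerSeries.C (2 * (p : ℝ) - 1 - 2 * (l : ℝ)) +
        PowerSeries.C (2 : ℝ) * PowerSeries.X) = PowerSeries.C (2 : ℝ) * α := by
      rw [hα, mul_sub, ← map_mul]
      have : PowerSeries.C (nd p b k) - (PowerSeries.C (2 * (p : ℝ) - 1 - 2 * (l : ℝ)) +
        PowerSeries.C (2 : ℝ) * PowerSeries.X) =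
        (PowerSeries.C (nd p b k) - PowerSeries.C (2 * (p : ℝ) - 1 - 2 * (l : ℝ))) -
        PowerSeries.C (2 : ℝ) * PowerSeries.X := by ring
      rw [this, ← map_sub]
      congr 2
      unfold nd; ring
    have h2 : PowerSeries.C (nd p b k) + (PowerSeries.C (2 * (p : ℝ) - 1 - 2 * (l : ℝ)) +
        PowerSeries.C (2 : ℝ) * PowerSeries.X) = PowerSeries.C (2 : ℝ) * β := by
      rw [hβ, mul_add, ← map_mul, ← add_assoc, ← map_add]
      congr 2
      rw [hcast]; unfold nd; ring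
    have h3 : PowerSeries.C (nd p b k ^ 2) - yl ℝ p l =
        (PowerSeries.C (nd p b k) - (PowerSeries.C (2 * (p : ℝ) - 1 - 2 * (l : ℝ)) +
        PowerSeries.C (2 : ℝ) * PowerSeries.X)) *
        (PowerSeries.C (nd p b k) + (PowerSeries.C (2 * (p : ℝ) - 1 - 2 * (l : ℝ)) +
        PowerSeries.C (2 : ℝ) * PowerSeries.X)) := by
      unfold yl
      rw [map_pow]; ring
    rw [h3, h1, h2]
    have h4 : PowerSeries.C (4 : ℝ) = PowerSeries.C (2 : ℝ) * PowerSeries.C (2 : ℝ) := by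
      rw [← map_mul]; norm_num
    rw [h4]; ring
  rw [hprod, PowerSeries.mul_inv_rev, PowerSeries.mul_inv_rev, PowerSeries.C_inv]
  have h5 : α⁻¹ + β⁻¹ = PowerSeries.C (nd p b k) * (β⁻¹ * α⁻¹) := by
    rw [← hsum]
    calc α⁻¹ + β⁻¹ = (β * β⁻¹) * α⁻¹ + (α * α⁻¹) * β⁻¹ := by rw [hα1, hβ1]; ring
      _ = (α + β) * (β⁻¹ * α⁻¹) := by ring
  rw [h5]
  have h6 : PowerSeries.C (4 * nd p b k) * (β⁻¹ * α⁻¹ * PowerSeries.C ((4 : ℝ)⁻¹)) =
      (PowerSeries.C (4 * nd p b k) * PowerSeries.C ((4 : ℝ)⁻¹)) * (β⁻¹ * α⁻¹) := by ring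
  rw [h6, ← map_mul]
  congr 2
  ring

private theorem an_Icc (M : ℕ) (g : ℕ → ℝ) : ∑ k ∈ Icc 1 M, g k = ∑ n ∈ range M, g (n + 1) := by
  induction M with
  | zero => simp
  | succ M ih => rw [Finset.sum_range_succ, ← ih, Finset.sum_Icc_succ_top (by omega)]

/-- shifted sums, exponent at least two -/
private theorem an_lim2 (b m i : ℕ) (hb : 1 ≤ b) (hi : 2 ≤ i) :
    Tendsto (fun K : ℕ => ∑ k ∈ range K, ((((k + 1 : ℕ) : ℝ) / b + (m : ℕ))⁻¹) ^ i) atTop
      (𝓝 ((b : ℝ) ^ i * zr i - ∑ k ∈ Icc 1 (b * m), (((k : ℝ) / b)⁻¹) ^ i)) := by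
  have hb0 : (b : ℝ) ≠ 0 := by positivity
  have hsm : Summable fun n : ℕ => 1 / ((n : ℝ) + 1) ^ i := by
    have h := (Real.summable_one_div_nat_pow (p := i)).2 (by omega)
    have h2 := (summable_nat_add_iff 1).2 h
    simpa using h2
  have h1 : Tendsto (fun K : ℕ => ∑ n ∈ range (K + b * m), 1 / ((n : ℝ) + 1) ^ i) atTop
      (𝓝 (zr i)) := by
    have := hsm.hasSum.tendsto_sum_nat
    exact this.comp (tendsto_add_atTop_nat (b * m))
  have h2 : ∀ K : ℕ, ∑ k ∈ range K, ((((k + 1 : ℕ) : ℝ) / b + (m : ℕ))⁻¹) ^ i =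
      (b : ℝ) ^ i * (∑ n ∈ range (K + b * m), 1 / ((n : ℝ) + 1) ^ i -
        ∑ n ∈ range (b * m), 1 / ((n : ℝ) + 1) ^ i) := by
    intro K
    rw [add_comm K, Finset.sum_range_add_sub_sum_range, Finset.mul_sum]
    refine Finset.sum_congr rfl fun k _ => ?_
    have : (((k + 1 : ℕ) : ℝ) / b + (m : ℕ))⁻¹ = b * (1 / (((b * m + k : ℕ) : ℝ) + 1)) := by
      push_cast
      field_simp
      ring
    rw [this, mul_pow, one_div_pow]
  have h3 : ∑ k ∈ Icc 1 (b * m), (((k : ℝ) / b)⁻¹) ^ i =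
      (b : ℝ) ^ i * ∑ n ∈ range (b * m), 1 / ((n : ℝ) + 1) ^ i := by
    rw [an_Icc, Finset.mul_sum]
    refine Finset.sum_congr rfl fun k _ => ?_
    rw [inv_div, div_pow]
    push_cast
    ring
  simp_rw [h2]
  rw [h3, ← mul_sub]
  exact (h1.sub_const _).const_mul _

/-- shifted sums, exponent one -/
private theorem an_lim1 (b m : ℕ) (hb : 1 ≤ b) :
    Tendsto (fun K : ℕ => ∑ k ∈ range K, (((k + 1 : ℕ) : ℝ) / b + (m : ℕ))⁻¹ -
      (b : ℝ) * ∑ k ∈ range K, 1 / ((k : ℝ) + 1)) atTop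
      (𝓝 (- ∑ k ∈ Icc 1 (b * m), ((k : ℝ) / b)⁻¹)) := by
  have hb0 : (b : ℝ) ≠ 0 := by positivity
  have h2 : ∀ K : ℕ, ∑ k ∈ range K, (((k + 1 : ℕ) : ℝ) / b + (m : ℕ))⁻¹ -
      (b : ℝ) * ∑ k ∈ range K, 1 / ((k : ℝ) + 1) =
      (b : ℝ) * ∑ j ∈ range (b * m), 1 / (((K + j : ℕ) : ℝ) + 1) -
        (b : ℝ) * ∑ n ∈ range (b * m), 1 / ((n : ℝ) + 1) := by
    intro K
    have e1 : ∑ k ∈ range K, (((k + 1 : ℕ) : ℝ) / b + (m : ℕ))⁻¹ =
        (b : ℝ) * (∑ n ∈ range (b * m + K), 1 / ((n : ℝ) + 1) -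
        ∑ n ∈ range (b * m), 1 / ((n : ℝ) + 1)) := by
      rw [Finset.sum_range_add_sub_sum_range, Finset.mul_sum]
      refine Finset.sum_congr rfl fun k _ => ?_
      push_cast
      field_simp
      ring
    have e2 : ∑ n ∈ range (b * m + K), 1 / ((n : ℝ) + 1) =
        ∑ n ∈ range K, 1 / ((n : ℝ) + 1) + ∑ j ∈ range (b * m), 1 / (((K + j : ℕ) : ℝ) + 1) := by
      rw [add_comm (b * m), Finset.sum_range_add]
    rw [e1, e2]
    ring
  have h3 : ∑ k ∈ Icc 1 (b * m), ((k : ℝ) / b)⁻¹ =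
      (b : ℝ) * ∑ n ∈ range (b * m), 1 / ((n : ℝ) + 1) := by
    rw [an_Icc, Finset.mul_sum]
    refine Finset.sum_congr rfl fun k _ => ?_
    rw [inv_div]
    push_cast
    ring
  have h4 : Tendsto (fun K : ℕ => ∑ j ∈ range (b * m), 1 / (((K + j : ℕ) : ℝ) + 1)) atTop
      (𝓝 (∑ _j ∈ range (b * m), (0 : ℝ))) := by
    refine tendsto_finsetSum _ fun j _ => ?_
    exact tendsto_one_div_add_atTop_nhds_zero_nat.comp (tendsto_add_atTop_nat j)
  rw [Finset.sum_const_zero] at h4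
  simp_rw [h2]
  rw [h3]
  have h5 := (h4.const_mul (b : ℝ)).sub_const ((b : ℝ) * ∑ n ∈ range (b * m), 1 / ((n : ℝ) + 1))
  rw [mul_zero, zero_sub] at h5
  exact h5

/-- the truncated kernel, regularised -/
noncomputable def anW (p b l K : ℕ) : PowerSeries ℝ :=
  ∑ k ∈ range K, PowerSeries.C (4 * nd p b (k + 1)) *
    (PowerSeries.C (nd p b (k + 1) ^ 2) - yl ℝ p l)⁻¹ -
    PowerSeries.C (2 * (b : ℝ) * ∑ k ∈ range K, 1 / ((k : ℝ) + 1))

private theorem an_coeff_gs (p b l r : ℕ) :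
    PowerSeries.coeff r (gs ℝ p b l) =
      ∑ k ∈ Icc 1 (b * l), (((k : ℝ) / b)⁻¹) ^ (r + 1) +
      (-1) ^ r * ∑ k ∈ Icc 1 (b * (2 * p - 1 - l)), (((k : ℝ) / b)⁻¹) ^ (r + 1) := by
  unfold gs
  rcases Nat.eq_zero_or_pos b with rfl | hb
  · simp
  have hb0 : (0 : ℝ) < b := by exact_mod_cast hb
  rw [map_add, map_sum, map_sum, Finset.mul_sum]
  congr 1
  · refine Finset.sum_congr rfl fun k hk => ?_
    have hk1 : (0 : ℝ) < k := by exact_mod_cast (Finset.mem_Icc.1 hk).1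
    rw [an_inv_sub _ (div_pos hk1 hb0).ne', PowerSeries.coeff_mk]
  · refine Finset.sum_congr rfl fun k hk => ?_
    have hk1 : (0 : ℝ) < k := by exact_mod_cast (Finset.mem_Icc.1 hk).1
    rw [an_inv_add _ (div_pos hk1 hb0).ne', PowerSeries.coeff_mk]

private theorem an_coeff_zeta (b a r : ℕ) :
    PowerSeries.coeff r (∑ i ∈ oddS a, PowerSeries.C (2 * (b : ℝ) ^ i * zr i) *
      PowerSeries.X ^ (i - 1)) =
      if r + 1 ∈ oddS a then 2 * (b : ℝ) ^ (r + 1) * zr (r + 1) else 0 := by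
  rw [map_sum]
  have h : ∀ i ∈ oddS a, PowerSeries.coeff r (PowerSeries.C (2 * (b : ℝ) ^ i * zr i) *
      PowerSeries.X ^ (i - 1)) = if i = r + 1 then 2 * (b : ℝ) ^ (r + 1) * zr (r + 1) else 0 := by
    intro i hi
    have hi3 : 3 ≤ i := by
      unfold oddS at hi
      rw [Finset.mem_filter, Finset.mem_Icc] at hi
      exact hi.1.1
    rw [PowerSeries.coeff_C_mul, PowerSeries.coeff_X_pow]
    by_cases h : i = r + 1
    · subst h
      simp
    · rw [if_neg (by omega), if_neg h, mul_zero]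
  rw [Finset.sum_congr rfl h, Finset.sum_ite_eq']

private theorem an_coeff_W (p b l K r : ℕ) (hl : l < p) (hb : 1 ≤ b) :
    PowerSeries.coeff r (anW p b l K) =
      ∑ k ∈ range K, ((((k + 1 : ℕ) : ℝ) / b + (l : ℕ))⁻¹) ^ (r + 1) +
      (-1) ^ r * ∑ k ∈ range K,
        ((((k + 1 : ℕ) : ℝ) / b + ((2 * p - 1 - l : ℕ) : ℝ))⁻¹) ^ (r + 1) -
      (if r = 0 then 2 * (b : ℝ) * ∑ k ∈ range K, 1 / ((k : ℝ) + 1) else 0) := by
  have hb0 : (0 : ℝ) < b := by exact_mod_cast hb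
  unfold anW
  rw [map_sub, map_sum, PowerSeries.coeff_C]
  congr 1
  rw [Finset.mul_sum, ← Finset.sum_add_distrib]
  refine Finset.sum_congr rfl fun k _ => ?_
  have hk0 : (0 : ℝ) < ((k + 1 : ℕ) : ℝ) / b := div_pos (by positivity) hb0
  rw [an_pf p l b (k + 1) hl hb (by omega), map_add, an_inv_sub _ (by positivity),
    an_inv_add _ (by positivity), PowerSeries.coeff_mk, PowerSeries.coeff_mk]

theorem an_lim (a p b l r : ℕ) (hl : l < p) (hb : 1 ≤ b) (hr : r < a) :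
    Tendsto (fun K : ℕ => PowerSeries.coeff r (anW p b l K)) atTop
      (𝓝 (PowerSeries.coeff r (Gs ℝ p b l (oddS a) zr))) := by
  unfold Gs
  rw [map_sub, an_coeff_zeta, an_coeff_gs]
  simp_rw [an_coeff_W p b l _ r hl hb]
  rcases Nat.eq_zero_or_pos r with rfl | hr0
  · have h0 : (0 : ℕ) + 1 ∉ oddS a := by
      unfold oddS
      rw [Finset.mem_filter, Finset.mem_Icc]
      omega
    rw [if_neg h0]
    have h1 := (an_lim1 b l hb).add (an_lim1 b (2 * p - 1 - l) hb)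
    simp only [zero_add, pow_zero, one_mul, pow_one, if_true, zero_sub, neg_add]
    refine h1.congr fun K => ?_
    ring
  · have h1 := (an_lim2 b l (r + 1) hb (by omega)).add
      ((an_lim2 b (2 * p - 1 - l) (r + 1) hb (by omega)).const_mul ((-1 : ℝ) ^ r))
    simp only [if_neg hr0.ne', sub_zero]
    have e : (if r + 1 ∈ oddS a then 2 * (b : ℝ) ^ (r + 1) * zr (r + 1) else 0) =
        (b : ℝ) ^ (r + 1) * zr (r + 1) + (-1 : ℝ) ^ r * ((b : ℝ) ^ (r + 1) * zr (r + 1)) := by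
      rcases Nat.even_or_odd r with hev | hod
      · have hm : r + 1 ∈ oddS a := by
          unfold oddS
          rw [Finset.mem_filter, Finset.mem_Icc]
          obtain ⟨t, ht⟩ := hev
          exact ⟨⟨by omega, by omega⟩, ⟨t, by omega⟩⟩
        rw [if_pos hm, hev.neg_one_pow]
        ring
      · have hm : r + 1 ∉ oddS a := by
          unfold oddS
          rw [Finset.mem_filter]
          rintro ⟨_, t, ht⟩
          obtain ⟨w, hw⟩ := hod
          omega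
        rw [if_neg hm, hod.neg_one_pow]
        ring
    rw [e]
    have e2 : (b : ℝ) ^ (r + 1) * zr (r + 1) + (-1 : ℝ) ^ r * ((b : ℝ) ^ (r + 1) * zr (r + 1)) -
        (∑ k ∈ Icc 1 (b * l), (((k : ℝ) / b)⁻¹) ^ (r + 1) +
        (-1) ^ r * ∑ k ∈ Icc 1 (b * (2 * p - 1 - l)), (((k : ℝ) / b)⁻¹) ^ (r + 1)) =
        (b : ℝ) ^ (r + 1) * zr (r + 1) - ∑ k ∈ Icc 1 (b * l), (((k : ℝ) / b)⁻¹) ^ (r + 1) +
        (-1 : ℝ) ^ r * ((b : ℝ) ^ (r + 1) * zr (r + 1) -
          ∑ k ∈ Icc 1 (b * (2 * p - 1 - l)), (((k : ℝ) / b)⁻¹) ^ (r + 1)) := by ring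
    rw [e2]
    exact h1

/-! ### The algebraic identity -/

private theorem an_div (n : ℕ) (f : Polynomial ℝ) (hf : f ∈ Polynomial.degreeLT ℝ n) (A : ℝ)
    (hA : A ≠ 0) :
    ∃ q ∈ Polynomial.degreeLT ℝ n,
      f = q * (Polynomial.C A - Polynomial.X) +
        Polynomial.C (f.eval A / A ^ n) * Polynomial.X ^ n := by
  set g := f - Polynomial.C (f.eval A / A ^ n) * Polynomial.X ^ n with hg
  have hroot : Polynomial.IsRoot g A := by
    rw [Polynomial.IsRoot, hg]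
    simp only [Polynomial.eval_sub, Polynomial.eval_mul, Polynomial.eval_C, Polynomial.eval_pow,
      Polynomial.eval_X]
    rw [div_mul_cancel₀ _ (pow_ne_zero n hA), sub_self]
  have hmul := Polynomial.mul_divByMonic_eq_iff_isRoot.2 hroot
  set h := g /ₘ (Polynomial.X - Polynomial.C A) with hh
  refine ⟨-h, ?_, ?_⟩
  · apply Submodule.neg_mem
    rw [Polynomial.mem_degreeLT] at hf ⊢
    have hgdeg : g.degree ≤ n := by
      rw [hg]
      refine (Polynomial.degree_sub_le _ _).trans (max_le hf.le ?_)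
      exact Polynomial.degree_C_mul_X_pow_le _ _
    by_cases h0 : h = 0
    · rw [h0, Polynomial.degree_zero]
      exact WithBot.bot_lt_coe n
    · rw [← hmul, Polynomial.degree_mul, Polynomial.degree_X_sub_C,
        Polynomial.degree_eq_natDegree h0] at hgdeg
      rw [Polynomial.degree_eq_natDegree h0]
      have h1 : 1 + h.natDegree ≤ n := by exact_mod_cast hgdeg
      have h2 : h.natDegree < n := by omega
      exact_mod_cast h2
  · calc f = g + Polynomial.C (f.eval A / A ^ n) * Polynomial.X ^ n := by rw [hg]; ring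
      _ = (Polynomial.X - Polynomial.C A) * h +
          Polynomial.C (f.eval A / A ^ n) * Polynomial.X ^ n := by rw [hmul]
      _ = -h * (Polynomial.C A - Polynomial.X) +
          Polynomial.C (f.eval A / A ^ n) * Polynomial.X ^ n := by ring

private theorem an_cc (p l : ℕ) (s : ℝ) (hl : l < p) (hs : 2 * (p : ℝ) - 1 < s) :
    PowerSeries.constantCoeff (PowerSeries.C (s ^ 2) - yl ℝ p l) ≠ 0 := by
  unfold yl
  simp only [map_sub, map_pow, map_add, map_mul, PowerSeries.constantCoeff_C,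
    PowerSeries.constantCoeff_X, mul_zero, add_zero]
  have h2 : (l : ℝ) + 1 ≤ p := by exact_mod_cast hl
  have h3 : (0 : ℝ) ≤ l := Nat.cast_nonneg l
  have h4 : (2 * (p : ℝ) - 1 - 2 * l) ^ 2 < s ^ 2 := by
    apply pow_lt_pow_left₀ _ (by linarith) (by norm_num)
    linarith
  linarith

private theorem an_term (n p l : ℕ) (f q : Polynomial ℝ) (A s c : ℝ)
    (h0 : PowerSeries.constantCoeff (PowerSeries.C A - yl ℝ p l) ≠ 0)
    (hq : f = q * (Polynomial.C A - Polynomial.X) + Polynomial.C c * Polynomial.X ^ n) :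
    ev ℝ p l f * (PowerSeries.C s * (PowerSeries.C A - yl ℝ p l)⁻¹) =
      ev ℝ p l (Polynomial.C s * q) +
        PowerSeries.C (s * c) * (yl ℝ p l ^ n * (PowerSeries.C A - yl ℝ p l)⁻¹) := by
  have h1 : ev ℝ p l f = ev ℝ p l q * (PowerSeries.C A - yl ℝ p l) +
      PowerSeries.C c * yl ℝ p l ^ n := by
    rw [hq]
    unfold ev
    simp only [map_add, map_mul, map_sub, map_pow, Polynomial.aeval_X, Polynomial.aeval_C]
    simp
  have h2 : ev ℝ p l (Polynomial.C s * q) = PowerSeries.C s * ev ℝ p l q := by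
    unfold ev
    rw [map_mul, Polynomial.aeval_C]
    simp
  have h3 := PowerSeries.mul_inv_cancel _ h0
  rw [h1, h2]
  set W := PowerSeries.C A - yl ℝ p l with hW
  calc (ev ℝ p l q * W + PowerSeries.C c * yl ℝ p l ^ n) * (PowerSeries.C s * W⁻¹)
      = PowerSeries.C s * ev ℝ p l q * (W * W⁻¹) +
        (PowerSeries.C s * PowerSeries.C c) * (yl ℝ p l ^ n * W⁻¹) := by ring
    _ = _ := by rw [h3, ← map_mul, mul_one]

private theorem an_bound (n p l r j : ℕ) (hl : l < p) (s : ℝ) (hs : 4 * (p : ℝ) ≤ s) :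
    |PowerSeries.coeff r (yl ℝ p l ^ (n + j))| / (s ^ 2) ^ (n + j) ≤ 2 ^ r * (1 / 4 : ℝ) ^ j := by
  have hp : (0 : ℝ) < p := by exact_mod_cast (by omega : 0 < p)
  have hs0 : 0 < s := by linarith
  rw [div_le_iff₀ (by positivity)]
  refine (an_coeff_yl p l (n + j) r hl).trans ?_
  rw [mul_assoc]
  refine mul_le_mul_of_nonneg_left ?_ (by positivity)
  rw [pow_mul, pow_add, pow_add (s ^ 2)]
  have h1 : ((2 * (p : ℝ)) ^ 2) ^ n ≤ (s ^ 2) ^ n := by
    gcongr
    linarith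
  have h2 : ((2 * (p : ℝ)) ^ 2) ^ j ≤ (1 / 4 : ℝ) ^ j * (s ^ 2) ^ j := by
    rw [← mul_pow]
    gcongr
    nlinarith
  calc ((2 * (p : ℝ)) ^ 2) ^ n * ((2 * (p : ℝ)) ^ 2) ^ j
      ≤ (s ^ 2) ^ n * ((1 / 4 : ℝ) ^ j * (s ^ 2) ^ j) := by gcongr
    _ = _ := by ring

private theorem an_geom (n p l r : ℕ) (hl : l < p) (s : ℝ) (hs : 4 * (p : ℝ) ≤ s) :
    HasSum (fun j : ℕ => PowerSeries.coeff r (yl ℝ p l ^ (n + j)) / (s ^ 2) ^ (n + j + 1))
      (PowerSeries.coeff r (yl ℝ p l ^ n * (PowerSeries.C (s ^ 2) - yl ℝ p l)⁻¹) /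
        (s ^ 2) ^ n) := by
  have hp : (0 : ℝ) < p := by exact_mod_cast (by omega : 0 < p)
  have hs0 : 0 < s := by linarith
  have hA0 : s ^ 2 ≠ 0 := by positivity
  set W := (PowerSeries.C (s ^ 2) - yl ℝ p l)⁻¹ with hW
  have hW1 : (PowerSeries.C (s ^ 2) - yl ℝ p l) * W = 1 :=
    PowerSeries.mul_inv_cancel _ (an_cc p l s hl (by linarith))
  have hsm : Summable (fun j : ℕ =>
      PowerSeries.coeff r (yl ℝ p l ^ (n + j)) / (s ^ 2) ^ (n + j + 1)) := by
    have hg : Summable (fun j : ℕ => (2 ^ r / s ^ 2) * (1 / 4 : ℝ) ^ j) :=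
      (summable_geometric_of_lt_one (by norm_num) (by norm_num)).mul_left _
    refine Summable.of_norm_bounded hg fun j => ?_
    rw [Real.norm_eq_abs, abs_div, abs_of_pos (by positivity : (0 : ℝ) < (s ^ 2) ^ (n + j + 1)),
      pow_succ, ← div_div]
    have := an_bound n p l r j hl s hs
    calc |PowerSeries.coeff r (yl ℝ p l ^ (n + j))| / (s ^ 2) ^ (n + j) / s ^ 2
        ≤ (2 ^ r * (1 / 4 : ℝ) ^ j) / s ^ 2 := by gcongr
      _ = _ := by ring
  rw [hsm.hasSum_iff_tendsto_nat]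
  have hpart : ∀ J : ℕ, ∑ j ∈ range J,
      PowerSeries.coeff r (yl ℝ p l ^ (n + j)) / (s ^ 2) ^ (n + j + 1) =
      PowerSeries.coeff r (yl ℝ p l ^ n * W) / (s ^ 2) ^ n -
        PowerSeries.coeff r (yl ℝ p l ^ (n + J) * W) / (s ^ 2) ^ (n + J) := by
    intro J
    induction J with
    | zero => simp
    | succ J ih =>
      rw [Finset.sum_range_succ, ih]
      have h1 : yl ℝ p l ^ (n + (J + 1)) * W =
          PowerSeries.C (s ^ 2) * (yl ℝ p l ^ (n + J) * W) - yl ℝ p l ^ (n + J) := by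
        calc yl ℝ p l ^ (n + (J + 1)) * W
            = PowerSeries.C (s ^ 2) * (yl ℝ p l ^ (n + J) * W) -
              yl ℝ p l ^ (n + J) * ((PowerSeries.C (s ^ 2) - yl ℝ p l) * W) := by ring
          _ = _ := by rw [hW1, mul_one]
      rw [h1, map_sub, PowerSeries.coeff_C_mul, ← add_assoc, pow_succ (s ^ 2) (n + J)]
      field_simp
      ring
  simp_rw [hpart]
  have h0 : Tendsto (fun J : ℕ => PowerSeries.coeff r (yl ℝ p l ^ (n + J) * W) /
      (s ^ 2) ^ (n + J)) atTop (𝓝 0) := by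
    have h1 : ∀ J : ℕ, PowerSeries.coeff r (yl ℝ p l ^ (n + J) * W) / (s ^ 2) ^ (n + J) =
        ∑ x ∈ antidiagonal r, (PowerSeries.coeff x.1 (yl ℝ p l ^ (n + J)) / (s ^ 2) ^ (n + J)) *
          PowerSeries.coeff x.2 W := by
      intro J
      rw [PowerSeries.coeff_mul, Finset.sum_div]
      refine Finset.sum_congr rfl fun x _ => ?_
      ring
    simp_rw [h1]
    have h2 : Tendsto (fun J : ℕ => ∑ x ∈ antidiagonal r,
        (PowerSeries.coeff x.1 (yl ℝ p l ^ (n + J)) / (s ^ 2) ^ (n + J)) *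
          PowerSeries.coeff x.2 W) atTop (𝓝 (∑ x ∈ antidiagonal r, 0 *
            PowerSeries.coeff x.2 W)) := by
      refine tendsto_finsetSum _ fun x _ => ?_
      refine Tendsto.mul_const _ ?_
      have h3 : Tendsto (fun J : ℕ => 2 ^ x.1 * (1 / 4 : ℝ) ^ J) atTop (𝓝 (2 ^ x.1 * 0)) :=
        (tendsto_pow_atTop_nhds_zero_of_lt_one (by norm_num) (by norm_num)).const_mul _
      rw [mul_zero] at h3
      refine squeeze_zero_norm (fun J => ?_) h3
      rw [Real.norm_eq_abs, abs_div, abs_of_pos (by positivity : (0 : ℝ) < (s ^ 2) ^ (n + J))]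
      exact an_bound n p l x.1 J hl s hs
    simpa using h2
  have h3 := tendsto_const_nhds (x := PowerSeries.coeff r (yl ℝ p l ^ n * W) / (s ^ 2) ^ n)
    (f := (atTop : Filter ℕ))
  simpa using h3.sub h0

/-! ### The double series -/

private theorem an_eval_bound (n : ℕ) (f : Polynomial ℝ) (hf : f ∈ Polynomial.degreeLT ℝ n) :
    ∃ F : ℝ, 0 ≤ F ∧ ∀ Y : ℝ, 1 ≤ Y → |f.eval Y| * Y ≤ F * Y ^ n := by
  by_cases h0 : f = 0
  · refine ⟨0, le_rfl, fun Y _ => ?_⟩
    rw [h0, Polynomial.eval_zero, abs_zero, zero_mul, zero_mul]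
  · rw [Polynomial.mem_degreeLT] at hf
    have hdeg : f.natDegree < n := (Polynomial.natDegree_lt_iff_degree_lt h0).2 hf
    refine ⟨∑ i ∈ range n, |f.coeff i|, Finset.sum_nonneg fun i _ => abs_nonneg _, fun Y hY => ?_⟩
    rw [Polynomial.eval_eq_sum_range' hdeg Y, Finset.sum_mul]
    refine (mul_le_mul_of_nonneg_right (Finset.abs_sum_le_sum_abs _ _) (by linarith)).trans ?_
    rw [Finset.sum_mul]
    refine Finset.sum_le_sum fun i hi => ?_
    have hi' : i + 1 ≤ n := Finset.mem_range.1 hi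
    rw [abs_mul, abs_of_nonneg (by positivity : 0 ≤ Y ^ i), mul_assoc, ← pow_succ]
    exact mul_le_mul_of_nonneg_left (pow_le_pow_right₀ hY hi') (abs_nonneg _)

private theorem an_nd_gt (p b k : ℕ) (hb : 1 ≤ b) (hk : 1 ≤ k) :
    2 * (p : ℝ) - 1 < nd p b k := by
  have hb0 : (0 : ℝ) < b := by exact_mod_cast hb
  have hk0 : (0 : ℝ) < k := by exact_mod_cast hk
  unfold nd
  have : 0 < 2 * (k : ℝ) / b := by positivity
  linarith

/-- the terms of the double series -/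
private noncomputable def anT (n p b : ℕ) (f : Polynomial ℝ) (l r k j : ℕ) : ℝ :=
  4 * nd p b (k + 1) * f.eval (nd p b (k + 1) ^ 2) / (nd p b (k + 1) ^ 2) ^ (n + j + 1) *
    PowerSeries.coeff r (yl ℝ p l ^ (n + j))

private theorem an_summable (n p b : ℕ) (hp : 1 ≤ p) (hb : 1 ≤ b) (f : Polynomial ℝ)
    (hf : f ∈ Polynomial.degreeLT ℝ n)
    (hz : ∀ k : ℕ, 1 ≤ k → nd p b k < 4 * p → f.eval (nd p b k ^ 2) = 0) (l r : ℕ) (hl : l < p) :
    Summable (fun x : ℕ × ℕ => anT n p b f l r x.1 x.2) := by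
  obtain ⟨F, hF0, hF⟩ := an_eval_bound n f hf
  have hb0 : (0 : ℝ) < b := by exact_mod_cast hb
  have hp1 : (1 : ℝ) ≤ p := by exact_mod_cast hp
  have h1 : Summable (fun k : ℕ => 1 / ((k : ℝ) + 1) ^ 3) := by
    have h := (Real.summable_one_div_nat_pow (p := 3)).2 (by norm_num)
    have h2 := (summable_nat_add_iff 1).2 h
    simpa using h2
  have h2 : Summable (fun j : ℕ => (1 / 4 : ℝ) ^ j) :=
    summable_geometric_of_lt_one (by norm_num) (by norm_num)
  have h3 : Summable (fun x : ℕ × ℕ => (1 / ((x.1 : ℝ) + 1) ^ 3) * (1 / 4 : ℝ) ^ x.2) :=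
    Summable.mul_of_nonneg h1 h2 (fun k => by positivity) (fun j => by positivity)
  refine Summable.of_norm_bounded
    (h3.mul_left (4 * F * (2 ^ r * (2 * (p : ℝ)) ^ (2 * n)) * (b : ℝ) ^ 3)) fun x => ?_
  obtain ⟨k, j⟩ := x
  simp only
  rw [Real.norm_eq_abs]
  unfold anT
  set s := nd p b (k + 1) with hs
  have hsgt : 2 * (p : ℝ) - 1 < s := an_nd_gt p b (k + 1) hb (by omega)
  have hs1 : 1 ≤ s := by linarith
  by_cases h4 : s < 4 * p
  · rw [hz (k + 1) (by omega) h4]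
    simp only [mul_zero, zero_div, zero_mul, abs_zero]
    positivity
  · push Not at h4
    have hsb : ((k : ℝ) + 1) / b ≤ s := by
      rw [hs]
      unfold nd
      push_cast
      have : ((k : ℝ) + 1) / b ≤ 2 * ((k : ℝ) + 1) / b := by
        gcongr
        linarith
      linarith
    have hs3 : 1 / s ^ 3 ≤ (b : ℝ) ^ 3 * (1 / ((k : ℝ) + 1) ^ 3) := by
      have : (((k : ℝ) + 1) / b) ^ 3 ≤ s ^ 3 := by gcongr
      calc 1 / s ^ 3 ≤ 1 / ((((k : ℝ) + 1) / b) ^ 3) := by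
            apply one_div_le_one_div_of_le _ this
            positivity
        _ = _ := by field_simp
    have hc : |PowerSeries.coeff r (yl ℝ p l ^ (n + j))| ≤
        2 ^ r * (2 * (p : ℝ)) ^ (2 * n) * ((1 / 4 : ℝ) ^ j * (s ^ 2) ^ j) := by
      refine (an_coeff_yl p l (n + j) r hl).trans ?_
      rw [mul_add, pow_add, ← mul_assoc]
      refine mul_le_mul_of_nonneg_left ?_ (by positivity)
      rw [pow_mul, ← mul_pow]
      gcongr
      nlinarith
    have hev := hF (s ^ 2) (by nlinarith)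
    have hden : (0 : ℝ) < (s ^ 2) ^ (n + j + 1) := by positivity
    rw [abs_mul, abs_div, abs_of_pos hden, abs_mul, abs_of_pos (by linarith : 0 < 4 * s)]
    have hev2 : |f.eval (s ^ 2)| ≤ F * (s ^ 2) ^ n / s ^ 2 := by
      rw [le_div_iff₀ (by positivity)]
      exact hev
    calc 4 * s * |f.eval (s ^ 2)| / (s ^ 2) ^ (n + j + 1) *
          |PowerSeries.coeff r (yl ℝ p l ^ (n + j))|
        ≤ 4 * s * (F * (s ^ 2) ^ n / s ^ 2) / (s ^ 2) ^ (n + j + 1) *
          (2 ^ r * (2 * (p : ℝ)) ^ (2 * n) * ((1 / 4 : ℝ) ^ j * (s ^ 2) ^ j)) := by gcongr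
      _ = 4 * F * (2 ^ r * (2 * (p : ℝ)) ^ (2 * n)) * (1 / s ^ 3) * (1 / 4 : ℝ) ^ j := by
          have e1 : (s ^ 2) ^ (n + j + 1) = (s ^ 2) ^ n * (s ^ 2) ^ j * s ^ 2 := by ring
          rw [e1]
          field_simp
      _ ≤ 4 * F * (2 ^ r * (2 * (p : ℝ)) ^ (2 * n)) * ((b : ℝ) ^ 3 * (1 / ((k : ℝ) + 1) ^ 3)) *
          (1 / 4 : ℝ) ^ j := by gcongr
      _ = _ := by ring

private theorem an_key (n p b : ℕ) (hp : 1 ≤ p) (hb : 1 ≤ b) (f : Polynomial ℝ)
    (hf : f ∈ Polynomial.degreeLT ℝ n)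
    (hz : ∀ k : ℕ, 1 ≤ k → nd p b k < 4 * p → f.eval (nd p b k ^ 2) = 0) (l r : ℕ) (hl : l < p) :
    HasSum (fun k : ℕ => gam n p b f k * PowerSeries.coeff r (yl ℝ p l ^ (n + k)))
      (∑' x : ℕ × ℕ, anT n p b f l r x.1 x.2) ∧
    Tendsto (fun K : ℕ => ∑ k ∈ range K, PowerSeries.coeff r
      (PowerSeries.C (4 * nd p b (k + 1) *
        (f.eval (nd p b (k + 1) ^ 2) / (nd p b (k + 1) ^ 2) ^ n)) *
        (yl ℝ p l ^ n * (PowerSeries.C (nd p b (k + 1) ^ 2) - yl ℝ p l)⁻¹))) atTop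
      (𝓝 (∑' x : ℕ × ℕ, anT n p b f l r x.1 x.2)) := by
  have hS := an_summable n p b hp hb f hf hz l r hl
  constructor
  · have hS' : HasSum (fun x : ℕ × ℕ => anT n p b f l r x.2 x.1)
        (∑' x : ℕ × ℕ, anT n p b f l r x.1 x.2) :=
      (Equiv.prodComm ℕ ℕ).hasSum_iff.2 hS.hasSum
    have h1 := hS'.prod_fiberwise (fun j => (hS'.summable.prod_factor j).hasSum)
    have e : (fun j : ℕ => ∑' k : ℕ, anT n p b f l r k j) =
        fun j : ℕ => gam n p b f j * PowerSeries.coeff r (yl ℝ p l ^ (n + j)) := by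
      funext j
      unfold gam anT
      rw [tsum_mul_right]
    simp only at h1
    rw [e] at h1
    exact h1
  · have h1 := hS.hasSum.prod_fiberwise (fun k => (hS.prod_factor k).hasSum)
    have h2 := h1.tendsto_sum_nat
    refine h2.congr fun K => ?_
    refine Finset.sum_congr rfl fun k _ => ?_
    simp only
    rw [PowerSeries.coeff_C_mul]
    by_cases h4 : nd p b (k + 1) < 4 * p
    · unfold anT
      rw [hz (k + 1) (by omega) h4]
      simp
    · push Not at h4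
      have h5 := (an_geom n p l r hl _ h4).mul_left
        (4 * nd p b (k + 1) * f.eval (nd p b (k + 1) ^ 2))
      have h6 : (fun j : ℕ => anT n p b f l r k j) = fun j : ℕ =>
          4 * nd p b (k + 1) * f.eval (nd p b (k + 1) ^ 2) *
          (PowerSeries.coeff r (yl ℝ p l ^ (n + j)) / (nd p b (k + 1) ^ 2) ^ (n + j + 1)) := by
        funext j
        unfold anT
        ring
      rw [h6, h5.tsum_eq]
      ring

/-! ### The theorem -/

open Polynomial in
theorem an_series (a p b n : ℕ) (hp : 1 ≤ p) (hb : 1 ≤ b) (f : ℝ[X]) (hf : f ∈ degreeLT ℝ n)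
    (hz : ∀ k : ℕ, 1 ≤ k → nd p b k < 4 * p → f.eval (nd p b k ^ 2) = 0) :
    ∃ Q ∈ degreeLT ℝ n, ∀ l < p, ∀ r < a,
      HasSum (fun k : ℕ => gam n p b f k * PowerSeries.coeff r (yl ℝ p l ^ (n + k)))
        (PowerSeries.coeff r (ev ℝ p l f * Gs ℝ p b l (oddS a) zr) -
          PowerSeries.coeff r (ev ℝ p l Q)) := by
  have hp1 : (1 : ℝ) ≤ p := by exact_mod_cast hp
  have hndne : ∀ k : ℕ, nd p b (k + 1) ^ 2 ≠ 0 := by
    intro k
    have := an_nd_gt p b (k + 1) hb (by omega)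
    have h2 : 0 < nd p b (k + 1) := by linarith
    positivity
  choose q hq1 hq2 using fun k : ℕ => an_div n f hf (nd p b (k + 1) ^ 2) (hndne k)
  set V : ℕ → ℕ → ℝ := fun l r => ∑' x : ℕ × ℕ, anT n p b f l r x.1 x.2 with hV
  set QK : ℕ → ℝ[X] := fun K => ∑ k ∈ range K, Polynomial.C (4 * nd p b (k + 1)) * q k -
    Polynomial.C (2 * (b : ℝ) * ∑ k ∈ range K, 1 / ((k : ℝ) + 1)) * f with hQK
  have hQKmem : ∀ K, QK K ∈ degreeLT ℝ n := by
    intro K
    rw [hQK]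
    refine Submodule.sub_mem _ (Submodule.sum_mem _ fun k _ => ?_) ?_
    · rw [← Polynomial.smul_eq_C_mul]
      exact Submodule.smul_mem _ _ (hq1 k)
    · rw [← Polynomial.smul_eq_C_mul]
      exact Submodule.smul_mem _ _ hf
  have hevQ : ∀ K l, l < p → ev ℝ p l (QK K) = ev ℝ p l f * anW p b l K -
      ∑ k ∈ range K, (PowerSeries.C (4 * nd p b (k + 1) *
        (f.eval (nd p b (k + 1) ^ 2) / (nd p b (k + 1) ^ 2) ^ n)) *
        (yl ℝ p l ^ n * (PowerSeries.C (nd p b (k + 1) ^ 2) - yl ℝ p l)⁻¹)) := by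
    intro K l hl
    have h1 : ∀ k, ev ℝ p l (Polynomial.C (4 * nd p b (k + 1)) * q k) =
        ev ℝ p l f * (PowerSeries.C (4 * nd p b (k + 1)) *
          (PowerSeries.C (nd p b (k + 1) ^ 2) - yl ℝ p l)⁻¹) -
        PowerSeries.C (4 * nd p b (k + 1) *
        (f.eval (nd p b (k + 1) ^ 2) / (nd p b (k + 1) ^ 2) ^ n)) *
        (yl ℝ p l ^ n * (PowerSeries.C (nd p b (k + 1) ^ 2) - yl ℝ p l)⁻¹) := by
      intro k
      rw [an_term n p l f (q k) _ _ _
        (an_cc p l _ hl (an_nd_gt p b (k + 1) hb (by omega))) (hq2 k)]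
      ring
    have h2 : ev ℝ p l (Polynomial.C (2 * (b : ℝ) * ∑ k ∈ range K, 1 / ((k : ℝ) + 1)) * f) =
        ev ℝ p l f * PowerSeries.C (2 * (b : ℝ) * ∑ k ∈ range K, 1 / ((k : ℝ) + 1)) := by
      unfold ev
      rw [map_mul, Polynomial.aeval_C, mul_comm]
      rfl
    have h3 : ev ℝ p l (QK K) = ∑ k ∈ range K, ev ℝ p l (Polynomial.C (4 * nd p b (k + 1)) * q k) -
        ev ℝ p l (Polynomial.C (2 * (b : ℝ) * ∑ k ∈ range K, 1 / ((k : ℝ) + 1)) * f) := by
      rw [hQK]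
      unfold ev
      rw [map_sub, map_sum]
    rw [h3, h2, Finset.sum_congr rfl fun k _ => h1 k, Finset.sum_sub_distrib]
    unfold anW
    have h4 : ev ℝ p l f * ∑ k ∈ range K, PowerSeries.C (4 * nd p b (k + 1)) *
        (PowerSeries.C (nd p b (k + 1) ^ 2) - yl ℝ p l)⁻¹ =
        ∑ k ∈ range K, ev ℝ p l f * (PowerSeries.C (4 * nd p b (k + 1)) *
          (PowerSeries.C (nd p b (k + 1) ^ 2) - yl ℝ p l)⁻¹) := Finset.mul_sum _ _ _
    rw [mul_sub, h4]
    abel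
  have hlim : ∀ l < p, ∀ r < a, Tendsto (fun K => PowerSeries.coeff r (ev ℝ p l (QK K))) atTop
      (𝓝 (PowerSeries.coeff r (ev ℝ p l f * Gs ℝ p b l (oddS a) zr) - V l r)) := by
    intro l hl r hr
    have h1 : Tendsto (fun K => PowerSeries.coeff r (ev ℝ p l f * anW p b l K)) atTop
        (𝓝 (PowerSeries.coeff r (ev ℝ p l f * Gs ℝ p b l (oddS a) zr))) := by
      simp_rw [PowerSeries.coeff_mul]
      refine tendsto_finsetSum _ fun x hx => ?_
      refine Tendsto.const_mul _ (an_lim a p b l x.2 hl hb ?_)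
      have := Finset.HasAntidiagonal.mem_antidiagonal.1 hx
      omega
    have h2 := (an_key n p b hp hb f hf hz l r hl).2
    have h3 := h1.sub h2
    refine h3.congr fun K => ?_
    rw [hevQ K l hl, map_sub, map_sum]
  -- the space of jets
  let Ψ : ℝ[X] →ₗ[ℝ] (Fin p × Fin a → ℝ) :=
    { toFun := fun g c => PowerSeries.coeff (c.2 : ℕ) (ev ℝ p c.1 g)
      map_add' := by
        intro g h
        funext c
        simp only [Pi.add_apply]
        unfold ev
        rw [map_add, map_add]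
      map_smul' := by
        intro t g
        funext c
        simp only [Pi.smul_apply, RingHom.id_apply]
        unfold ev
        rw [map_smul, PowerSeries.coeff_smul] }
  have hclosed : IsClosed (((degreeLT ℝ n).map Ψ : Submodule ℝ (Fin p × Fin a → ℝ)) :
      Set (Fin p × Fin a → ℝ)) := Submodule.closed_of_finiteDimensional _
  have hv : (fun c : Fin p × Fin a => PowerSeries.coeff (c.2 : ℕ)
      (ev ℝ p c.1 f * Gs ℝ p b c.1 (oddS a) zr) - V c.1 c.2) ∈
      (((degreeLT ℝ n).map Ψ : Submodule ℝ (Fin p × Fin a → ℝ)) :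
      Set (Fin p × Fin a → ℝ)) := by
    refine hclosed.mem_of_tendsto (f := fun K => Ψ (QK K)) (b := atTop) ?_ ?_
    · rw [tendsto_pi_nhds]
      intro c
      exact hlim c.1 c.1.2 c.2 c.2.2
    · exact Eventually.of_forall fun K => ⟨QK K, hQKmem K, rfl⟩
  obtain ⟨Q, hQ, hQe⟩ := hv
  refine ⟨Q, hQ, fun l hl r hr => ?_⟩
  have h1 : PowerSeries.coeff r (ev ℝ p l Q) =
      PowerSeries.coeff r (ev ℝ p l f * Gs ℝ p b l (oddS a) zr) - V l r :=
    congrFun hQe (⟨l, hl⟩, ⟨r, hr⟩)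
  rw [h1, sub_sub_cancel]
  exact (an_key n p b hp hb f hf hz l r hl).1

end Pool.Agent.ZC
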