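import Pool.Agent.ZC.Defs4
import Pool.Agent.ZC.HS

/-!
# ZC V4: moments of the far nodes and the coefficients of the remainder
-/

namespace Pool.Agent.ZC

open Finset

/-- `∑_{s ≥ 4p} 2^(h+2) binom(2m+h,h) s^(-h-1-2m)` -/
noncomputable def eta4 (h p b m : ℕ) : ℝ :=
  ∑' i : ℕ, if 4 * (p : ℝ) ≤ nd p b (i + 1) then
    2 ^ (h + 2) * ((2 * m + h).choose h : ℝ) * ((nd p b (i + 1))⁻¹) ^ (h + 1 + 2 * m) else 0

/-- coefficients of the remainder of `f * ∑ eta_m y^m` -/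
noncomputable def gam4 (h p b n : ℕ) (f : Polynomial ℝ) (k : ℕ) : ℝ :=
  ∑ j ∈ range n, f.coeff j * eta4 h p b (n + k - j)

end Pool.Agent.ZC
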