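import Pool.Agent.ZC.AN
import Pool.Agent.ZC.BDC
import Pool.Agent.ZC.AN4D

set_option autoImplicit false

/-!
# ZC V4: the series identity and the far nodes (`an4_series`)
-/

namespace Pool.Agent.ZC

open Finset Filter

open scoped Topology

/-! ### Hasse derivative of powers of `y` -/

theorem coeff_lin_pow (u : ℝ) (N k : ℕ) :
    PowerSeries.coeff k ((PowerSeries.C u + PowerSeries.C (2 : ℝ) * PowerSeries.X) ^ N) =
      u ^ (N - k) * 2 ^ k * (N.choose k : ℝ) := by
  have h1 : (PowerSeries.C u + PowerSeries.C (2 : ℝ) * PowerSeries.X) ^ N =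
      (((Polynomial.C (2 : ℝ)) ^ N * (Polynomial.X + Polynomial.C (u / 2)) ^ N : Polynomial ℝ) :
        PowerSeries ℝ) := by
    rw [← mul_pow, Polynomial.coe_pow]
    congr 1
    rw [mul_add, ← map_mul, mul_div_cancel₀ _ (by norm_num : (2 : ℝ) ≠ 0)]
    rw [Polynomial.coe_add, Polynomial.coe_mul, Polynomial.coe_C, Polynomial.coe_C,
      Polynomial.coe_X]
    ring
  rw [h1, Polynomial.coeff_coe, ← map_pow, Polynomial.coeff_C_mul, Polynomial.coeff_X_add_C_pow]
  rcases Nat.lt_or_ge N k with h | h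
  · rw [Nat.choose_eq_zero_of_lt h]; simp
  · obtain ⟨d, rfl⟩ := Nat.exists_eq_add_of_le h
    rw [Nat.add_sub_cancel_left, div_pow, pow_add]
    field_simp

theorem hs_lin_pow (h N r : ℕ) (u : ℝ) :
    PowerSeries.coeff r (hs ℝ h ((PowerSeries.C u + PowerSeries.C (2 : ℝ) * PowerSeries.X) ^ N)) =
      2 ^ h * (N.choose h : ℝ) *
        PowerSeries.coeff r ((PowerSeries.C u + PowerSeries.C (2 : ℝ) * PowerSeries.X) ^ (N - h)) := by
  rw [coeff_hs, coeff_lin_pow, coeff_lin_pow]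
  have h1 : N.choose (r + h) * (r + h).choose h = N.choose h * (N - h).choose r := by
    rw [Nat.choose_mul (by omega : h ≤ r + h), Nat.add_sub_cancel]
  have h2 : (N.choose (r + h) : ℝ) * ((r + h).choose h : ℝ) =
      (N.choose h : ℝ) * ((N - h).choose r : ℝ) := by exact_mod_cast h1
  have h3 : N - h - r = N - (r + h) := by omega
  rw [h3, pow_add]
  linear_combination (u ^ (N - (r + h)) * (2 ^ r * 2 ^ h)) * h2

theorem hs_yl_zero (h p l j r : ℕ) (hj : 2 * j < h) :
    PowerSeries.coeff r (hs ℝ h (yl ℝ p l ^ j)) = 0 := by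
  rw [yl, ← pow_mul, hs_lin_pow, Nat.choose_eq_zero_of_lt hj]
  simp

theorem hs_yl (h t p l m r : ℕ) (ht : h = 2 * t) :
    PowerSeries.coeff r (hs ℝ h (yl ℝ p l ^ (m + t))) =
      2 ^ h * ((2 * m + h).choose h : ℝ) * PowerSeries.coeff r (yl ℝ p l ^ m) := by
  have h1 : 2 * (m + t) = 2 * m + h := by omega
  rw [yl, ← pow_mul, hs_lin_pow, h1, Nat.add_sub_cancel, ← pow_mul]

/-! ### Geometric expansion at a far node -/

theorem an4_cc (p l : ℕ) (s : ℝ) (hl : l < p) (hs : 2 * (p : ℝ) - 1 < s) :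
    PowerSeries.constantCoeff (PowerSeries.C (s ^ 2) - yl ℝ p l) ≠ 0 := by
  unfold yl
  simp only [map_sub, map_pow, map_add, map_mul, PowerSeries.constantCoeff_C,
    PowerSeries.constantCoeff_X, mul_zero, add_zero]
  have h2 : (l : ℝ) + 1 ≤ p := by exact_mod_cast hl
  have h3 : (0 : ℝ) ≤ l := Nat.cast_nonneg l
  have h4 : (2 * (p : ℝ) - 1 - 2 * l) ^ 2 < s ^ 2 := by
    apply pow_lt_pow_left₀ _ (by linarith) (by norm_num)
    linarith
  linarith

/-- the ratio `(2p+1)/s` is at most `3/4` -/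
theorem an4_bound1 (p l r j : ℕ) (hl : l < p) (s : ℝ) (hs : 4 * (p : ℝ) ≤ s) :
    |PowerSeries.coeff r (yl ℝ p l ^ j)| ≤ (3 / 4 : ℝ) ^ (2 * j) * s ^ (2 * j) := by
  have hp : (1 : ℝ) ≤ p := by exact_mod_cast (by omega : 1 ≤ p)
  refine (yl_pow_le p l hl j r).trans ?_
  rw [← mul_pow]
  apply pow_le_pow_left₀ (by positivity)
  linarith

theorem an4_geom (p l r : ℕ) (hl : l < p) (s : ℝ) (hs : 4 * (p : ℝ) ≤ s) :
    HasSum (fun j : ℕ => PowerSeries.coeff r (yl ℝ p l ^ j) / (s ^ 2) ^ (j + 1))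
      (PowerSeries.coeff r (PowerSeries.C (s ^ 2) - yl ℝ p l)⁻¹) := by
  have hp : (1 : ℝ) ≤ p := by exact_mod_cast (by omega : 1 ≤ p)
  have hs0 : 0 < s := by linarith
  have hA0 : s ^ 2 ≠ 0 := by positivity
  set W := (PowerSeries.C (s ^ 2) - yl ℝ p l)⁻¹ with hW
  have hW1 : (PowerSeries.C (s ^ 2) - yl ℝ p l) * W = 1 :=
    PowerSeries.mul_inv_cancel _ (an4_cc p l s hl (by linarith))
  have hb : ∀ r j : ℕ, |PowerSeries.coeff r (yl ℝ p l ^ j)| / (s ^ 2) ^ j ≤ (9 / 16 : ℝ) ^ j := by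
    intro r j
    rw [div_le_iff₀ (by positivity)]
    have := an4_bound1 p l r j hl s hs
    rw [pow_mul, pow_mul] at this
    norm_num at this ⊢
    exact this
  have hsm : Summable (fun j : ℕ =>
      PowerSeries.coeff r (yl ℝ p l ^ j) / (s ^ 2) ^ (j + 1)) := by
    have hg : Summable (fun j : ℕ => (1 / s ^ 2) * (9 / 16 : ℝ) ^ j) :=
      (summable_geometric_of_lt_one (by norm_num) (by norm_num)).mul_left _
    refine Summable.of_norm_bounded hg fun j => ?_
    rw [Real.norm_eq_abs, abs_div, abs_of_pos (by positivity : (0 : ℝ) < (s ^ 2) ^ (j + 1)),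
      pow_succ, ← div_div]
    have := hb r j
    calc |PowerSeries.coeff r (yl ℝ p l ^ j)| / (s ^ 2) ^ j / s ^ 2
        ≤ (9 / 16 : ℝ) ^ j / s ^ 2 := by gcongr
      _ = _ := by ring
  rw [hsm.hasSum_iff_tendsto_nat]
  have hpart : ∀ J : ℕ, ∑ j ∈ range J,
      PowerSeries.coeff r (yl ℝ p l ^ j) / (s ^ 2) ^ (j + 1) =
      PowerSeries.coeff r W -
        PowerSeries.coeff r (yl ℝ p l ^ J * W) / (s ^ 2) ^ J := by
    intro J
    induction J with
    | zero => simp
    | succ J ih =>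
      rw [Finset.sum_range_succ, ih]
      have h1 : yl ℝ p l ^ (J + 1) * W =
          PowerSeries.C (s ^ 2) * (yl ℝ p l ^ J * W) - yl ℝ p l ^ J := by
        calc yl ℝ p l ^ (J + 1) * W
            = PowerSeries.C (s ^ 2) * (yl ℝ p l ^ J * W) -
              yl ℝ p l ^ J * ((PowerSeries.C (s ^ 2) - yl ℝ p l) * W) := by ring
          _ = _ := by rw [hW1, mul_one]
      rw [h1, map_sub, PowerSeries.coeff_C_mul, pow_succ (s ^ 2) J]
      field_simp
      ring
  simp_rw [hpart]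
  have h0 : Tendsto (fun J : ℕ => PowerSeries.coeff r (yl ℝ p l ^ J * W) /
      (s ^ 2) ^ J) atTop (𝓝 0) := by
    have h1 : ∀ J : ℕ, PowerSeries.coeff r (yl ℝ p l ^ J * W) / (s ^ 2) ^ J =
        ∑ x ∈ antidiagonal r, (PowerSeries.coeff x.1 (yl ℝ p l ^ J) / (s ^ 2) ^ J) *
          PowerSeries.coeff x.2 W := by
      intro J
      rw [PowerSeries.coeff_mul, Finset.sum_div]
      refine Finset.sum_congr rfl fun x _ => ?_
      ring
    simp_rw [h1]
    have h2 : Tendsto (fun J : ℕ => ∑ x ∈ antidiagonal r,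
        (PowerSeries.coeff x.1 (yl ℝ p l ^ J) / (s ^ 2) ^ J) *
          PowerSeries.coeff x.2 W) atTop (𝓝 (∑ x ∈ antidiagonal r, 0 *
            PowerSeries.coeff x.2 W)) := by
      refine tendsto_finsetSum _ fun x _ => ?_
      refine Tendsto.mul_const _ ?_
      have h3 : Tendsto (fun J : ℕ => (9 / 16 : ℝ) ^ J) atTop (𝓝 0) :=
        tendsto_pow_atTop_nhds_zero_of_lt_one (by norm_num) (by norm_num)
      refine squeeze_zero_norm (fun J => ?_) h3
      rw [Real.norm_eq_abs, abs_div, abs_of_pos (by positivity : (0 : ℝ) < (s ^ 2) ^ J)]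
      exact hb x.1 J
    simpa using h2
  simpa using tendsto_const_nhds (x := PowerSeries.coeff r W) (f := (atTop : Filter ℕ))|>.sub h0

/-- expansion of `hs (4 s / (s^2 - y))` in powers of `y` -/
theorem an4_far (h p l r : ℕ) (hh : Even h) (hl : l < p) (s : ℝ) (hs4 : 4 * (p : ℝ) ≤ s) :
    HasSum (fun m : ℕ => 2 ^ (h + 2) * ((2 * m + h).choose h : ℝ) * s⁻¹ ^ (h + 1 + 2 * m) *
        PowerSeries.coeff r (yl ℝ p l ^ m))
      (PowerSeries.coeff r (hs ℝ h
        (PowerSeries.C (4 * s) * (PowerSeries.C (s ^ 2) - yl ℝ p l)⁻¹))) := by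
  obtain ⟨t, ht⟩ := hh
  have ht' : h = 2 * t := by omega
  have hp : (1 : ℝ) ≤ p := by exact_mod_cast (by omega : 1 ≤ p)
  have hs0 : 0 < s := by linarith
  rw [hs_C_mul, PowerSeries.coeff_C_mul, coeff_hs]
  have h1 := ((an4_geom p l (r + h) hl s hs4).mul_left ((r + h).choose h : ℝ)).mul_left (4 * s)
  have h2 : ∀ j : ℕ, 4 * s * (((r + h).choose h : ℝ) *
      (PowerSeries.coeff (r + h) (yl ℝ p l ^ j) / (s ^ 2) ^ (j + 1))) =
      4 * s / (s ^ 2) ^ (j + 1) * PowerSeries.coeff r (hs ℝ h (yl ℝ p l ^ j)) := by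
    intro j
    rw [coeff_hs]; ring
  simp_rw [h2] at h1
  rw [← hasSum_nat_add_iff' t] at h1
  rw [Finset.sum_eq_zero (fun j hj => ?_), sub_zero] at h1
  · have h3 : (fun m : ℕ => 2 ^ (h + 2) * ((2 * m + h).choose h : ℝ) * s⁻¹ ^ (h + 1 + 2 * m) *
        PowerSeries.coeff r (yl ℝ p l ^ m)) = fun m : ℕ =>
        4 * s / (s ^ 2) ^ (m + t + 1) * PowerSeries.coeff r (hs ℝ h (yl ℝ p l ^ (m + t))) := by
      funext m
      rw [hs_yl h t p l m r ht']
      have e1 : (s ^ 2) ^ (m + t + 1) = s ^ (h + 1 + 2 * m) * s := by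
        rw [← pow_mul, ← pow_succ]
        congr 1
        omega
      rw [e1, inv_pow]
      field_simp
      ring
    rw [h3]
    exact h1
  · rw [hs_yl_zero h p l j r (by have := mem_range.1 hj; omega), mul_zero]

/-! ### The double series over the far nodes -/

theorem an4_nd_gt (p b k : ℕ) (hb : 1 ≤ b) (hk : 1 ≤ k) :
    2 * (p : ℝ) - 1 < nd p b k := by
  have hb0 : (0 : ℝ) < b := by exact_mod_cast hb
  have hk0 : (0 : ℝ) < k := by exact_mod_cast hk
  unfold nd
  have : 0 < 2 * (k : ℝ) / b := by positivity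
  linarith

/-- the coefficients of the expansion at a far node (zero at the near nodes) -/
noncomputable def c4 (h p b k m : ℕ) : ℝ :=
  if 4 * (p : ℝ) ≤ nd p b (k + 1) then
    2 ^ (h + 2) * ((2 * m + h).choose h : ℝ) * ((nd p b (k + 1))⁻¹) ^ (h + 1 + 2 * m) else 0

theorem eta4_eq (h p b m : ℕ) : eta4 h p b m = ∑' k : ℕ, c4 h p b k m := rfl

theorem an4_choose_summable (h : ℕ) :
    Summable (fun m : ℕ => ((2 * m + h).choose h : ℝ) * (3 / 4 : ℝ) ^ (2 * m)) := by
  have h1 : Summable (fun n : ℕ => ((n + h).choose h : ℝ) * (3 / 4 : ℝ) ^ n) :=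
    summable_choose_mul_geometric_of_norm_lt_one h
      (by rw [Real.norm_eq_abs, abs_of_pos] <;> norm_num)
  exact h1.comp_injective (i := fun m : ℕ => 2 * m) (fun x y hxy => by simpa using hxy)

theorem an4_dsum (h p b l r : ℕ) (h2 : 2 ≤ h) (hp : 1 ≤ p) (hb : 1 ≤ b) (hl : l < p) :
    Summable (fun x : ℕ × ℕ => c4 h p b x.1 x.2 * PowerSeries.coeff r (yl ℝ p l ^ x.2)) := by
  have hb0 : (0 : ℝ) < b := by exact_mod_cast hb
  have hp1 : (1 : ℝ) ≤ p := by exact_mod_cast hp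
  have h1 : Summable (fun k : ℕ => 1 / ((k : ℝ) + 1) ^ 3) := by
    have h := (Real.summable_one_div_nat_pow (p := 3)).2 (by norm_num)
    have h2 := (summable_nat_add_iff 1).2 h
    simpa using h2
  have h3 : Summable (fun x : ℕ × ℕ => (1 / ((x.1 : ℝ) + 1) ^ 3) *
      (((2 * x.2 + h).choose h : ℝ) * (3 / 4 : ℝ) ^ (2 * x.2))) :=
    Summable.mul_of_nonneg h1 (an4_choose_summable h) (fun k => by positivity)
      (fun j => by positivity)
  refine Summable.of_norm_bounded (h3.mul_left (2 ^ (h + 2) * (b : ℝ) ^ 3)) fun x => ?_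
  obtain ⟨k, m⟩ := x
  simp only
  rw [Real.norm_eq_abs, abs_mul]
  unfold c4
  split_ifs with h4
  · set s := nd p b (k + 1) with hs
    have hs1 : 1 ≤ s := by linarith
    have hs0 : 0 < s := by linarith
    have hsb : ((k : ℝ) + 1) / b ≤ s := by
      rw [hs]
      unfold nd
      push_cast
      have : ((k : ℝ) + 1) / b ≤ 2 * ((k : ℝ) + 1) / b := by
        gcongr
        linarith
      linarith
    have hs3 : s⁻¹ ^ (h + 1) ≤ (b : ℝ) ^ 3 * (1 / ((k : ℝ) + 1) ^ 3) := by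
      have e1 : s⁻¹ ^ (h + 1) ≤ s⁻¹ ^ 3 :=
        pow_le_pow_of_le_one (by positivity) (inv_le_one_of_one_le₀ hs1) (by omega)
      refine e1.trans ?_
      have : (((k : ℝ) + 1) / b) ^ 3 ≤ s ^ 3 := by gcongr
      calc s⁻¹ ^ 3 = 1 / s ^ 3 := by rw [inv_pow, one_div]
        _ ≤ 1 / ((((k : ℝ) + 1) / b) ^ 3) := by
            apply one_div_le_one_div_of_le _ this
            positivity
        _ = _ := by field_simp
    have hc := an4_bound1 p l r m hl s h4
    rw [abs_of_nonneg (by positivity)]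
    calc 2 ^ (h + 2) * ((2 * m + h).choose h : ℝ) * s⁻¹ ^ (h + 1 + 2 * m) *
          |PowerSeries.coeff r (yl ℝ p l ^ m)|
        ≤ 2 ^ (h + 2) * ((2 * m + h).choose h : ℝ) * s⁻¹ ^ (h + 1 + 2 * m) *
          ((3 / 4 : ℝ) ^ (2 * m) * s ^ (2 * m)) := by gcongr
      _ = 2 ^ (h + 2) * ((2 * m + h).choose h : ℝ) * (3 / 4 : ℝ) ^ (2 * m) * s⁻¹ ^ (h + 1) := by
          rw [pow_add s⁻¹ (h + 1) (2 * m), inv_pow s (2 * m)]
          field_simp
      _ ≤ 2 ^ (h + 2) * ((2 * m + h).choose h : ℝ) * (3 / 4 : ℝ) ^ (2 * m) *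
          ((b : ℝ) ^ 3 * (1 / ((k : ℝ) + 1) ^ 3)) := by gcongr
      _ = _ := by ring
  · rw [abs_zero, zero_mul]
    positivity

/-- the kernel at the node `k + 1` -/
noncomputable def T4 (h p b l k : ℕ) : PowerSeries ℝ :=
  hs ℝ h (PowerSeries.C (4 * nd p b (k + 1)) *
    (PowerSeries.C (nd p b (k + 1) ^ 2) - yl ℝ p l)⁻¹)

/-- the indices of the near nodes -/
noncomputable def near4 (p b : ℕ) : Finset ℕ :=
  (range (b * (2 * p + 1))).filter fun k => nd p b (k + 1) < 4 * p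

theorem mem_near4 (p b k : ℕ) (hb : 1 ≤ b) : k ∈ near4 p b ↔ nd p b (k + 1) < 4 * p := by
  unfold near4
  rw [mem_filter, mem_range, and_iff_right_iff_imp]
  intro h
  have hb0 : (0 : ℝ) < b := by exact_mod_cast hb
  unfold nd at h
  have h1 : 2 * ((k + 1 : ℕ) : ℝ) / b < 2 * p + 1 := by linarith
  rw [div_lt_iff₀ hb0] at h1
  have h2 : 2 * (k + 1) < (2 * p + 1) * b := by exact_mod_cast h1
  nlinarith

theorem an4_F (a h p b l r : ℕ) (hh : Even h) (h2 : 2 ≤ h) (hp : 1 ≤ p) (hb : 1 ≤ b)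
    (hl : l < p) (hr : r < a) :
    HasSum (fun m : ℕ => eta4 h p b m * PowerSeries.coeff r (yl ℝ p l ^ m))
      (PowerSeries.coeff r (hs ℝ h (Gs ℝ p b l (oddS (a + h)) zr)) -
        ∑ k ∈ near4 p b, PowerSeries.coeff r (T4 h p b l k)) := by
  have hS := an4_dsum h p b l r h2 hp hb hl
  set V : ℝ := ∑' x : ℕ × ℕ, c4 h p b x.1 x.2 * PowerSeries.coeff r (yl ℝ p l ^ x.2) with hV
  -- first order
  have hA : HasSum (fun m : ℕ => eta4 h p b m * PowerSeries.coeff r (yl ℝ p l ^ m)) V := by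
    have hS' : HasSum (fun x : ℕ × ℕ => c4 h p b x.2 x.1 * PowerSeries.coeff r (yl ℝ p l ^ x.1))
        V := (Equiv.prodComm ℕ ℕ).hasSum_iff.2 hS.hasSum
    have h1 := hS'.prod_fiberwise (fun j => (hS'.summable.prod_factor j).hasSum)
    have e : (fun j : ℕ => ∑' k : ℕ, c4 h p b k j * PowerSeries.coeff r (yl ℝ p l ^ j)) =
        fun j : ℕ => eta4 h p b j * PowerSeries.coeff r (yl ℝ p l ^ j) := by
      funext j
      rw [tsum_mul_right, eta4_eq]
    simp only at h1
    rw [e] at h1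
    exact h1
  -- second order
  have hB : HasSum (fun k : ℕ => if 4 * (p : ℝ) ≤ nd p b (k + 1) then
      PowerSeries.coeff r (T4 h p b l k) else 0) V := by
    have h1 := hS.hasSum.prod_fiberwise (fun k => (hS.prod_factor k).hasSum)
    have e : (fun k : ℕ => ∑' m : ℕ, c4 h p b k m * PowerSeries.coeff r (yl ℝ p l ^ m)) =
        fun k : ℕ => if 4 * (p : ℝ) ≤ nd p b (k + 1) then
          PowerSeries.coeff r (T4 h p b l k) else 0 := by
      funext k
      unfold c4
      split_ifs with h4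
      · exact (an4_far h p l r hh hl _ h4).tsum_eq
      · simp
    simp only at h1
    rw [e] at h1
    exact h1
  have hlim : Tendsto (fun K : ℕ => ∑ k ∈ range K, PowerSeries.coeff r (T4 h p b l k)) atTop
      (𝓝 (PowerSeries.coeff r (hs ℝ h (Gs ℝ p b l (oddS (a + h)) zr)))) := by
    have h1 := (an_lim (a + h) p b l (r + h) hl hb (by omega)).const_mul ((r + h).choose h : ℝ)
    rw [← coeff_hs] at h1
    refine h1.congr fun K => ?_
    rw [← coeff_hs]
    unfold anW
    rw [hs_sub, hs_sum, map_sub, map_sum]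
    have h3 : PowerSeries.coeff r (hs ℝ h (PowerSeries.C
        (2 * (b : ℝ) * ∑ k ∈ range K, 1 / ((k : ℝ) + 1)))) = 0 := by
      rw [coeff_hs, PowerSeries.coeff_C, if_neg (by omega), mul_zero]
    rw [h3, sub_zero]
    rfl
  have hlim2 : Tendsto (fun K : ℕ => ∑ k ∈ range K, PowerSeries.coeff r (T4 h p b l k)) atTop
      (𝓝 (V + ∑ k ∈ near4 p b, PowerSeries.coeff r (T4 h p b l k))) := by
    have h1 := hB.tendsto_sum_nat.add_const (∑ k ∈ near4 p b, PowerSeries.coeff r (T4 h p b l k))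
    refine h1.congr' ?_
    filter_upwards [eventually_ge_atTop (b * (2 * p + 1))] with K hK
    have h3 : ∑ k ∈ near4 p b, PowerSeries.coeff r (T4 h p b l k) =
        ∑ k ∈ range K, if 4 * (p : ℝ) ≤ nd p b (k + 1) then 0 else
          PowerSeries.coeff r (T4 h p b l k) := by
      have h4 : near4 p b = (range K).filter fun k => ¬ 4 * (p : ℝ) ≤ nd p b (k + 1) := by
        ext k
        rw [mem_near4 p b k hb, mem_filter, mem_range, not_le, iff_and_self]
        intro h5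
        have := (mem_near4 p b k hb).2 h5
        unfold near4 at this
        have := mem_range.1 (mem_filter.1 this).1
        omega
      rw [h4, Finset.sum_filter]
      refine Finset.sum_congr rfl fun k _ => ?_
      by_cases h5 : 4 * (p : ℝ) ≤ nd p b (k + 1)
      · rw [if_neg (not_not.2 h5), if_pos h5]
      · rw [if_pos h5, if_neg h5]
    rw [h3, ← Finset.sum_add_distrib]
    refine Finset.sum_congr rfl fun k _ => ?_
    split_ifs <;> ring
  have hu := tendsto_nhds_unique hlim hlim2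
  rw [hu, add_sub_cancel_right]
  exact hA

/-! ### Assembly -/

open Polynomial in
theorem an4_series (a h p b n : ℕ) (hh : Even h) (h2 : 2 ≤ h) (hp : 1 ≤ p) (hb : 1 ≤ b)
    (f : ℝ[X]) (hf : f ∈ degreeLT ℝ n)
    (hz : ∀ k : ℕ, 1 ≤ k → nd p b k < 4 * p → ∃ q ∈ degreeLT ℝ n, ∀ l < p,
      ev ℝ p l f * hs ℝ h (PowerSeries.C (4 * nd p b k) *
        (PowerSeries.C (nd p b k ^ 2) - yl ℝ p l)⁻¹) = ev ℝ p l q) :
    ∃ Q ∈ degreeLT ℝ n, ∀ l < p, ∀ r < a,
      HasSum (fun k : ℕ => gam4 h p b n f k * PowerSeries.coeff r (yl ℝ p l ^ (n + k)))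
        (PowerSeries.coeff r (ev ℝ p l f * hs ℝ h (Gs ℝ p b l (oddS (a + h)) zr)) -
          PowerSeries.coeff r (ev ℝ p l Q)) := by
  classical
  have hz' : ∀ k : ℕ, ∃ q ∈ degreeLT ℝ n, nd p b (k + 1) < 4 * p → ∀ l < p,
      ev ℝ p l f * T4 h p b l k = ev ℝ p l q := by
    intro k
    by_cases h4 : nd p b (k + 1) < 4 * p
    · obtain ⟨q, hq, hq2⟩ := hz (k + 1) (by omega) h4
      exact ⟨q, hq, fun _ => hq2⟩
    · exact ⟨0, Submodule.zero_mem _, fun h5 => absurd h5 h4⟩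
  choose q hq1 hq2 using hz'
  set Qn : ℝ[X] := ∑ k ∈ near4 p b, q k with hQn
  set Qf : ℝ[X] := ∑ j ∈ range n, ∑ m ∈ range (n - j),
    Polynomial.C (f.coeff j * eta4 h p b m) * Polynomial.X ^ (j + m) with hQf
  have hQn1 : Qn ∈ degreeLT ℝ n := Submodule.sum_mem _ fun k _ => hq1 k
  have hQf1 : Qf ∈ degreeLT ℝ n := by
    refine Submodule.sum_mem _ fun j hj => Submodule.sum_mem _ fun m hm => ?_
    rw [Polynomial.mem_degreeLT]
    refine (Polynomial.degree_C_mul_X_pow_le _ _).trans_lt ?_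
    have h1 := mem_range.1 hj
    have h3 := mem_range.1 hm
    exact_mod_cast (by omega : j + m < n)
  refine ⟨Qn + Qf, Submodule.add_mem _ hQn1 hQf1, fun l hl r hr => ?_⟩
  -- the far part as a power series
  set F : PowerSeries ℝ := hs ℝ h (Gs ℝ p b l (oddS (a + h)) zr) - ∑ k ∈ near4 p b, T4 h p b l k
    with hF
  have hF1 : ∀ v < a, HasSum (fun m : ℕ => eta4 h p b m * PowerSeries.coeff v (yl ℝ p l ^ m))
      (PowerSeries.coeff v F) := by
    intro v hv
    have := an4_F a h p b l v hh h2 hp hb hl hv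
    rw [hF, map_sub, map_sum]
    exact this
  have hF2 : ∀ j : ℕ, HasSum (fun m : ℕ => eta4 h p b m *
      PowerSeries.coeff r (yl ℝ p l ^ (j + m))) (PowerSeries.coeff r (yl ℝ p l ^ j * F)) := by
    intro j
    have e1 : PowerSeries.coeff r (yl ℝ p l ^ j * F) = ∑ x ∈ antidiagonal r,
        PowerSeries.coeff x.1 (yl ℝ p l ^ j) * PowerSeries.coeff x.2 F :=
      PowerSeries.coeff_mul _ _ _
    have e2 : (fun m : ℕ => eta4 h p b m * PowerSeries.coeff r (yl ℝ p l ^ (j + m))) =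
        fun m : ℕ => ∑ x ∈ antidiagonal r, PowerSeries.coeff x.1 (yl ℝ p l ^ j) *
          (eta4 h p b m * PowerSeries.coeff x.2 (yl ℝ p l ^ m)) := by
      funext m
      rw [pow_add, PowerSeries.coeff_mul, Finset.mul_sum]
      refine Finset.sum_congr rfl fun x _ => ?_
      ring
    rw [e1, e2]
    refine hasSum_sum fun x hx => ?_
    have h1 := Finset.HasAntidiagonal.mem_antidiagonal.1 hx
    exact (hF1 x.2 (by omega)).mul_left _
  have hF3 : ∀ j < n, HasSum (fun k : ℕ => eta4 h p b (n + k - j) *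
      PowerSeries.coeff r (yl ℝ p l ^ (n + k))) (PowerSeries.coeff r (yl ℝ p l ^ j * F) -
        ∑ m ∈ range (n - j), eta4 h p b m * PowerSeries.coeff r (yl ℝ p l ^ (j + m))) := by
    intro j hj
    have h1 := (hasSum_nat_add_iff' (n - j)).2 (hF2 j)
    have e2 : (fun k : ℕ => eta4 h p b (n + k - j) *
        PowerSeries.coeff r (yl ℝ p l ^ (n + k))) = fun k : ℕ => eta4 h p b (k + (n - j)) *
        PowerSeries.coeff r (yl ℝ p l ^ (j + (k + (n - j)))) := by
      funext k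
      rw [show n + k - j = k + (n - j) by omega, show n + k = j + (k + (n - j)) by omega]
    rw [e2]
    exact h1
  have hF4 : HasSum (fun k : ℕ => gam4 h p b n f k * PowerSeries.coeff r (yl ℝ p l ^ (n + k)))
      (∑ j ∈ range n, f.coeff j * (PowerSeries.coeff r (yl ℝ p l ^ j * F) -
        ∑ m ∈ range (n - j), eta4 h p b m * PowerSeries.coeff r (yl ℝ p l ^ (j + m)))) := by
    have e2 : (fun k : ℕ => gam4 h p b n f k * PowerSeries.coeff r (yl ℝ p l ^ (n + k))) =
        fun k : ℕ => ∑ j ∈ range n, f.coeff j * (eta4 h p b (n + k - j) *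
          PowerSeries.coeff r (yl ℝ p l ^ (n + k))) := by
      funext k
      unfold gam4
      rw [Finset.sum_mul]
      refine Finset.sum_congr rfl fun j _ => ?_
      ring
    rw [e2]
    exact hasSum_sum fun j hj => (hF3 j (mem_range.1 hj)).mul_left _
  convert hF4 using 1
  -- evaluation
  have hfn : f = ∑ j ∈ range n, Polynomial.C (f.coeff j) * Polynomial.X ^ j := by
    rw [Polynomial.mem_degreeLT] at hf
    by_cases h0 : f = 0
    · rw [h0]; simp
    · exact Polynomial.as_sum_range_C_mul_X_pow' _ ((Polynomial.natDegree_lt_iff_degree_lt h0).2 hf)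
  have e3 : PowerSeries.coeff r (ev ℝ p l f * F) =
      ∑ j ∈ range n, f.coeff j * PowerSeries.coeff r (yl ℝ p l ^ j * F) := by
    have e4 : ev ℝ p l f = ∑ j ∈ range n, PowerSeries.C (f.coeff j) * yl ℝ p l ^ j := by
      conv_lhs => rw [hfn]
      unfold ev
      rw [map_sum]
      refine Finset.sum_congr rfl fun j _ => ?_
      rw [map_mul, map_pow, Polynomial.aeval_X, Polynomial.aeval_C]
      rfl
    rw [e4, Finset.sum_mul, map_sum]
    refine Finset.sum_congr rfl fun j _ => ?_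
    rw [mul_assoc, PowerSeries.coeff_C_mul]
  have e5 : PowerSeries.coeff r (ev ℝ p l Qf) = ∑ j ∈ range n, f.coeff j *
      ∑ m ∈ range (n - j), eta4 h p b m * PowerSeries.coeff r (yl ℝ p l ^ (j + m)) := by
    rw [hQf]
    unfold ev
    rw [map_sum, map_sum]
    refine Finset.sum_congr rfl fun j _ => ?_
    rw [map_sum, map_sum, Finset.mul_sum]
    refine Finset.sum_congr rfl fun m _ => ?_
    rw [map_mul, map_pow, Polynomial.aeval_X, Polynomial.aeval_C]
    have : (algebraMap ℝ (PowerSeries ℝ)) (f.coeff j * eta4 h p b m) =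
      PowerSeries.C (f.coeff j * eta4 h p b m) := rfl
    rw [this, PowerSeries.coeff_C_mul]
    ring
  have e6 : ev ℝ p l Qn = ∑ k ∈ near4 p b, ev ℝ p l f * T4 h p b l k := by
    rw [hQn]
    unfold ev
    rw [map_sum]
    refine Finset.sum_congr rfl fun k hk => ?_
    exact (hq2 k ((mem_near4 p b k hb).1 hk) l hl).symm
  have e7 : ev ℝ p l (Qn + Qf) = ev ℝ p l Qn + ev ℝ p l Qf := by
    unfold ev
    rw [map_add]
  have e8 : ev ℝ p l f * hs ℝ h (Gs ℝ p b l (oddS (a + h)) zr) = ev ℝ p l f * F +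
      ∑ k ∈ near4 p b, ev ℝ p l f * T4 h p b l k := by
    rw [hF, mul_sub, Finset.mul_sum, sub_add_cancel]
  rw [e7, e8, e6, map_add, map_add, e3, e5]
  have e9 : ∀ A B : ℕ → ℝ, ∑ j ∈ range n, f.coeff j * (A j - B j) =
      ∑ j ∈ range n, f.coeff j * A j - ∑ j ∈ range n, f.coeff j * B j := by
    intro A B
    rw [← Finset.sum_sub_distrib]
    refine Finset.sum_congr rfl fun j _ => ?_
    ring
  rw [e9]
  ring

end Pool.Agent.ZC
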