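import Pool.Agent.ZC.AN4A
import Pool.Agent.ZC.BDG

set_option autoImplicit false

/-!
# ZC V4: bound of the moments of the far nodes
-/

namespace Pool.Agent.ZC

open Finset Filter

open scoped Topology

theorem c4_nonneg (h p b k m : ℕ) (hb : 1 ≤ b) (hp : 1 ≤ p) : 0 ≤ c4 h p b k m := by
  unfold c4
  split_ifs with h4
  · have hp1 : (1 : ℝ) ≤ p := by exact_mod_cast hp
    have : 0 < nd p b (k + 1) := by linarith
    positivity
  · exact le_rfl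

theorem eta4_nonneg (h p b m : ℕ) (hb : 1 ≤ b) (hp : 1 ≤ p) : 0 ≤ eta4 h p b m := by
  rw [eta4_eq]
  exact tsum_nonneg fun k => c4_nonneg h p b k m hb hp

theorem c4_le (h p b k m : ℕ) (h2 : 2 ≤ h) (hp : 1 ≤ p) (hb : 1 ≤ b) :
    c4 h p b k m * (4 * (p : ℝ)) ^ (2 * m) ≤
      2 ^ (h + 2) * (b : ℝ) ^ 3 * ((2 * m + h).choose h : ℝ) * (1 / ((k : ℝ) + 1) ^ 2) := by
  have hb0 : (0 : ℝ) < b := by exact_mod_cast hb
  have hp1 : (1 : ℝ) ≤ p := by exact_mod_cast hp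
  unfold c4
  split_ifs with h4
  · set s := nd p b (k + 1) with hs
    have hs1 : 1 ≤ s := by linarith
    have hs0 : 0 < s := by linarith
    have hsb : ((k : ℝ) + 1) / b ≤ s := by
      rw [hs]
      unfold nd
      push_cast
      have : ((k : ℝ) + 1) / b ≤ 2 * ((k : ℝ) + 1) / b := by
        gcongr
        linarith
      linarith
    have hs3 : s⁻¹ ^ (h + 1) ≤ (b : ℝ) ^ 3 * (1 / ((k : ℝ) + 1) ^ 3) := by
      have e1 : s⁻¹ ^ (h + 1) ≤ s⁻¹ ^ 3 :=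
        pow_le_pow_of_le_one (by positivity) (inv_le_one_of_one_le₀ hs1) (by omega)
      refine e1.trans ?_
      have : (((k : ℝ) + 1) / b) ^ 3 ≤ s ^ 3 := by gcongr
      calc s⁻¹ ^ 3 = 1 / s ^ 3 := by rw [inv_pow, one_div]
        _ ≤ 1 / ((((k : ℝ) + 1) / b) ^ 3) := by
            apply one_div_le_one_div_of_le _ this
            positivity
        _ = _ := by field_simp
    have hk3 : 1 / ((k : ℝ) + 1) ^ 3 ≤ 1 / ((k : ℝ) + 1) ^ 2 := by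
      apply one_div_le_one_div_of_le (by positivity)
      have : (1 : ℝ) ≤ (k : ℝ) + 1 := by have : (0 : ℝ) ≤ k := Nat.cast_nonneg k
                                         linarith
      exact pow_le_pow_right₀ this (by norm_num)
    have h5 : (4 * (p : ℝ)) ^ (2 * m) ≤ s ^ (2 * m) := by gcongr
    calc 2 ^ (h + 2) * ((2 * m + h).choose h : ℝ) * s⁻¹ ^ (h + 1 + 2 * m) * (4 * (p : ℝ)) ^ (2 * m)
        ≤ 2 ^ (h + 2) * ((2 * m + h).choose h : ℝ) * s⁻¹ ^ (h + 1 + 2 * m) * s ^ (2 * m) := by gcongr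
      _ = 2 ^ (h + 2) * ((2 * m + h).choose h : ℝ) * s⁻¹ ^ (h + 1) := by
          rw [pow_add s⁻¹ (h + 1) (2 * m), inv_pow s (2 * m)]
          field_simp
      _ ≤ 2 ^ (h + 2) * ((2 * m + h).choose h : ℝ) * ((b : ℝ) ^ 3 * (1 / ((k : ℝ) + 1) ^ 3)) := by
          gcongr
      _ ≤ 2 ^ (h + 2) * ((2 * m + h).choose h : ℝ) * ((b : ℝ) ^ 3 * (1 / ((k : ℝ) + 1) ^ 2)) := by
          gcongr
      _ = _ := by ring
  · rw [zero_mul]
    positivity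

theorem eta4_le (h p b m : ℕ) (h2 : 2 ≤ h) (hp : 1 ≤ p) (hb : 1 ≤ b) :
    eta4 h p b m * (4 * (p : ℝ)) ^ (2 * m) ≤
      2 ^ (h + 3) * (b : ℝ) ^ 3 * ((2 * m + h).choose h : ℝ) := by
  rw [eta4_eq, ← tsum_mul_right]
  have hsum := hasSum_inv_sq.mul_left (2 ^ (h + 2) * (b : ℝ) ^ 3 * ((2 * m + h).choose h : ℝ))
  have hsm : Summable fun k : ℕ => c4 h p b k m * (4 * (p : ℝ)) ^ (2 * m) :=
    Summable.of_nonneg_of_le (fun k => mul_nonneg (c4_nonneg h p b k m hb hp) (by positivity))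
      (fun k => c4_le h p b k m h2 hp hb) hsum.summable
  have h1 := hasSum_le (fun k => c4_le h p b k m h2 hp hb) hsm.hasSum hsum
  refine h1.trans ?_
  have hpi : Real.pi ^ 2 / 6 ≤ 2 := by
    have h1 := Real.pi_lt_d2
    have h2 := Real.pi_pos
    nlinarith
  have h3 : (0 : ℝ) ≤ 2 ^ (h + 2) * (b : ℝ) ^ 3 * ((2 * m + h).choose h : ℝ) := by positivity
  calc 2 ^ (h + 2) * (b : ℝ) ^ 3 * ((2 * m + h).choose h : ℝ) * (Real.pi ^ 2 / 6)
      ≤ 2 ^ (h + 2) * (b : ℝ) ^ 3 * ((2 * m + h).choose h : ℝ) * 2 :=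
        mul_le_mul_of_nonneg_left hpi h3
    _ = _ := by ring

theorem pow_mul_geom_bdd (h : ℕ) (t : ℝ) (ht0 : 0 ≤ t) (ht1 : t < 1) :
    ∃ C : ℝ, 0 < C ∧ ∀ k : ℕ, ((k : ℝ) + 1) ^ h * t ^ k ≤ C := by
  have h1 : Tendsto (fun k : ℕ => (k : ℝ) ^ h * t ^ k) atTop (𝓝 0) :=
    tendsto_pow_const_mul_const_pow_of_lt_one h ht0 ht1
  have h2 := h1.comp (tendsto_add_atTop_nat 1)
  rcases eq_or_lt_of_le ht0 with h0 | h0
  · refine ⟨1, one_pos, fun k => ?_⟩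
    rw [← h0]
    rcases k with _ | k
    · simp
    · simp
  · obtain ⟨C, hC⟩ := (h2.bddAbove_range)
    refine ⟨max C 1 / t, by positivity, fun k => ?_⟩
    rw [le_div_iff₀ h0]
    have h3 := hC ⟨k, rfl⟩
    simp only [Function.comp_apply] at h3
    push_cast at h3
    have h4 : ((k : ℝ) + 1) ^ h * t ^ k * t = ((k : ℝ) + 1) ^ h * t ^ (k + 1) := by ring
    rw [h4]
    exact h3.trans (le_max_left _ _)

theorem choose_split (B h : ℕ) : ∃ C : ℝ, 0 < C ∧ ∀ p : ℕ, 1 ≤ p → ∀ k : ℕ,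
    ((2 * (4 * B * ((h + 1) * p) + k) + h).choose h : ℝ) * (9 / 16 : ℝ) ^ k ≤
      C * (p : ℝ) ^ h * (4 / 5 : ℝ) ^ (2 * k) := by
  obtain ⟨C, hC0, hC⟩ := pow_mul_geom_bdd h (225 / 256) (by norm_num) (by norm_num)
  refine ⟨(8 * B * (h + 1) + 2 + h : ℝ) ^ h * C, by positivity, fun p hp k => ?_⟩
  have hp1 : (1 : ℝ) ≤ p := by exact_mod_cast hp
  have h1 : ((2 * (4 * B * ((h + 1) * p) + k) + h).choose h : ℝ) ≤
      ((2 * (4 * B * ((h + 1) * p) + k) + h : ℕ) : ℝ) ^ h := by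
    exact_mod_cast Nat.choose_le_pow _ _
  have h2 : ((2 * (4 * B * ((h + 1) * p) + k) + h : ℕ) : ℝ) ≤
      (8 * B * (h + 1) + 2 + h : ℝ) * p * (k + 1) := by
    push_cast
    have hk : (0 : ℝ) ≤ k := Nat.cast_nonneg k
    have hB : (0 : ℝ) ≤ B := Nat.cast_nonneg B
    have hh : (0 : ℝ) ≤ h := Nat.cast_nonneg h
    have e1 : 0 ≤ (B : ℝ) * (h + 1) * p * k := by positivity
    have e2 : (k : ℝ) + h ≤ (k + h) * p := by nlinarith
    have e3 : 0 ≤ (h : ℝ) * p * k := by positivity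
    have e4 : 0 ≤ (k : ℝ) * p := by positivity
    nlinarith
  have h3 : (9 / 16 : ℝ) ^ k = (225 / 256 : ℝ) ^ k * (4 / 5 : ℝ) ^ (2 * k) := by
    rw [pow_mul, ← mul_pow]; norm_num
  rw [h3]
  calc ((2 * (4 * B * ((h + 1) * p) + k) + h).choose h : ℝ) *
        ((225 / 256 : ℝ) ^ k * (4 / 5 : ℝ) ^ (2 * k))
      ≤ ((8 * B * (h + 1) + 2 + h : ℝ) * p * (k + 1)) ^ h *
        ((225 / 256 : ℝ) ^ k * (4 / 5 : ℝ) ^ (2 * k)) := by
        apply mul_le_mul_of_nonneg_right _ (by positivity)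
        exact h1.trans (pow_le_pow_left₀ (by positivity) h2 h)
    _ = (8 * B * (h + 1) + 2 + h : ℝ) ^ h * (((k : ℝ) + 1) ^ h * (225 / 256 : ℝ) ^ k) *
        (p : ℝ) ^ h * (4 / 5 : ℝ) ^ (2 * k) := by
        rw [mul_pow, mul_pow]; ring
    _ ≤ (8 * B * (h + 1) + 2 + h : ℝ) ^ h * C * (p : ℝ) ^ h * (4 / 5 : ℝ) ^ (2 * k) := by
        gcongr
        exact hC k

end Pool.Agent.ZC
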