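import Mathlib

/-! # ZC: block factorials and `d`-integral power series (no primes) -/

namespace Pool.Agent.ZC

open PowerSeries Finset
open scoped Nat

/-- the subring of power series `f` over `ℚ` with `d ^ r * coeff r f ∈ ℤ` for all `r` -/
noncomputable def dR (d : ℕ) : Subring (PowerSeries ℚ) :=
  ((PowerSeries.map (Int.castRingHom ℚ)).range).comap (rescale (d : ℚ))

theorem mem_dR {d : ℕ} {f : PowerSeries ℚ} :
    f ∈ dR d ↔ ∀ r : ℕ, ∃ z : ℤ, (d : ℚ) ^ r * coeff r f = z := by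
  rw [dR, Subring.mem_comap, RingHom.mem_range]
  constructor
  · rintro ⟨g, hg⟩ r
    refine ⟨coeff r g, ?_⟩
    have := congrArg (coeff r) hg
    rw [coeff_map, coeff_rescale] at this
    rw [← this]; rfl
  · intro h
    choose z hz using h
    refine ⟨PowerSeries.mk z, ?_⟩
    ext r
    rw [coeff_map, coeff_rescale, coeff_mk, hz]
    rfl

theorem C_int_mem (d : ℕ) (z : ℤ) : (C (z : ℚ)) ∈ dR d := by
  have : (C (z : ℚ) : PowerSeries ℚ) = ((z : ℤ) : PowerSeries ℚ) := by
    simp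
  rw [this]
  exact intCast_mem _ _

theorem C_nat_mem (d : ℕ) (z : ℕ) : (C (z : ℚ)) ∈ dR d := by
  have := C_int_mem d (z : ℤ)
  simpa using this

/-- `C c * X` with `d * c` an integer -/
theorem C_mul_X_mem {d : ℕ} {c : ℚ} (h : ∃ z : ℤ, (d : ℚ) * c = z) : (C c * X) ∈ dR d := by
  rw [mem_dR]
  intro r
  obtain ⟨z, hz⟩ := h
  rcases r with _ | r
  · exact ⟨0, by simp⟩
  rcases r with _ | r
  · refine ⟨z, ?_⟩
    simp [coeff_succ_mul_X, hz]
  · refine ⟨0, ?_⟩
    rw [coeff_succ_mul_X, coeff_C]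
    simp

theorem X_mem (d : ℕ) : (X : PowerSeries ℚ) ∈ dR d := by
  have := C_mul_X_mem (d := d) (c := 1) ⟨d, by simp⟩
  simpa using this

theorem smul_int_mem {d : ℕ} {c : ℚ} {f : PowerSeries ℚ} (hc : ∃ z : ℤ, c = z) (hf : f ∈ dR d) :
    C c * f ∈ dR d := by
  obtain ⟨z, rfl⟩ := hc
  exact mul_mem (C_int_mem d z) hf

/-- product of `z` consecutive integers plus `c X` -/
noncomputable def run (u c : ℤ) (z : ℕ) : PowerSeries ℚ :=
  ∏ k ∈ range z, (C ((u : ℚ) + k) + C (c : ℚ) * X)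

theorem run_zero (u c : ℤ) : run u c 0 = 1 := by simp [run]

theorem run_succ (u c : ℤ) (z : ℕ) :
    run u c (z + 1) = run u c z * (C ((u : ℚ) + z) + C (c : ℚ) * X) := by
  simp [run, prod_range_succ]

theorem run_succ' (u c : ℤ) (z : ℕ) :
    run u c (z + 1) = (C (u : ℚ) + C (c : ℚ) * X) * run (u + 1) c z := by
  rw [run, prod_range_succ', mul_comm]
  congr 1
  · simp
  · apply prod_congr rfl
    intro k _
    push_cast
    ring_nf

theorem run_add (u c : ℤ) (z w : ℕ) :
    run u c (z + w) = run u c z * run (u + z) c w := by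
  rw [run, prod_range_add]
  congr 1
  apply prod_congr rfl
  intro k _
  push_cast
  ring_nf

/-- a block of at most `M` consecutive factors -/
theorem run_fact_mem {d : ℕ} (c : ℤ) (z : ℕ) (hz : ∀ q : ℕ, 1 ≤ q → q ≤ z → q ∣ d) (u : ℤ) :
    C ((z ! : ℚ)⁻¹) * run u c z ∈ dR d := by
  induction z generalizing u with
  | zero => simpa [run_zero] using one_mem _
  | succ z ih =>
    have ih' := ih (fun q h1 h2 => hz q h1 (by omega))
    have hq : ∀ q : ℕ, 1 ≤ q → q ≤ z + 1 → ∃ w : ℤ, (d : ℚ) * ((c : ℚ) / q) = w := by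
      intro q h1 h2
      obtain ⟨e, he⟩ := hz q h1 h2
      refine ⟨e * c, ?_⟩
      have : (q : ℚ) ≠ 0 := by positivity
      rw [he]; push_cast; field_simp
    have base : C (((z + 1)! : ℚ)⁻¹) * run 0 c (z + 1) ∈ dR d := by
      have h1 : C (((z + 1)! : ℚ)⁻¹) * run 0 c (z + 1) =
          (C ((c : ℚ) / ((z + 1 : ℕ) : ℚ)) * X) *
            ∏ k ∈ range z, (1 + C ((c : ℚ) / ((k + 1 : ℕ) : ℚ)) * X) := by
        have h2 : ∀ z : ℕ, run 1 c z = C (z ! : ℚ) *
            ∏ k ∈ range z, (1 + C ((c : ℚ) / ((k + 1 : ℕ) : ℚ)) * X) := by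
          intro z
          induction z with
          | zero => simp [run_zero]
          | succ z ih2 =>
            rw [run_succ, ih2, prod_range_succ, Nat.factorial_succ]
            have h3 : ((z + 1 : ℕ) : ℚ) ≠ 0 := by positivity
            have h4 : (C (((1 : ℤ) : ℚ) + z) + C (c : ℚ) * X : PowerSeries ℚ) =
                C ((z + 1 : ℕ) : ℚ) * (1 + C ((c : ℚ) / ((z + 1 : ℕ) : ℚ)) * X) := by
              rw [mul_add, mul_one, ← mul_assoc, ← map_mul, mul_div_cancel₀ _ h3]
              push_cast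
              ring_nf
            rw [h4]
            push_cast
            rw [map_mul]
            ring
        rw [run_succ', zero_add (1 : ℤ), h2]
        have h5 : ((z + 1)! : ℚ) = ((z + 1 : ℕ) : ℚ) * (z ! : ℚ) := by
          rw [Nat.factorial_succ]; push_cast; ring
        have h6 : (z ! : ℚ) ≠ 0 := by positivity
        have h7 : ((z + 1 : ℕ) : ℚ) ≠ 0 := by positivity
        have h8 : (C (((z + 1)! : ℚ)⁻¹) * C (c : ℚ) * C (z ! : ℚ) : PowerSeries ℚ) =
            C ((c : ℚ) / ((z + 1 : ℕ) : ℚ)) := by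
          rw [← map_mul, ← map_mul]
          congr 1
          rw [h5]; field_simp
        simp only [Int.cast_zero, map_zero, zero_add]
        rw [← h8]
        ring
      rw [h1]
      refine mul_mem (C_mul_X_mem (hq _ (by omega) le_rfl)) (prod_mem fun k hk => ?_)
      exact add_mem (one_mem _) (C_mul_X_mem (hq _ (by omega) (by simp at hk; omega)))
    have step : ∀ u : ℤ, C (((z + 1)! : ℚ)⁻¹) * run (u + 1) c (z + 1) =
        C (((z + 1)! : ℚ)⁻¹) * run u c (z + 1) + C ((z ! : ℚ)⁻¹) * run (u + 1) c z := by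
      intro u
      rw [run_succ (u + 1), run_succ' u]
      have h5 : ((z + 1)! : ℚ) = ((z + 1 : ℕ) : ℚ) * (z ! : ℚ) := by
        rw [Nat.factorial_succ]; push_cast; ring
      have h6 : (z ! : ℚ) ≠ 0 := by positivity
      have h7 : ((z + 1 : ℕ) : ℚ) ≠ 0 := by positivity
      have h8 : (C ((z ! : ℚ)⁻¹) : PowerSeries ℚ) =
          C (((z + 1)! : ℚ)⁻¹) * C ((z + 1 : ℕ) : ℚ) := by
        rw [← map_mul]; congr 1; rw [h5]; field_simp
      rw [h8]
      have h9 : (C (((u + 1 : ℤ) : ℚ) + z) + C (c : ℚ) * X : PowerSeries ℚ) =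
          (C (u : ℚ) + C (c : ℚ) * X) + C ((z + 1 : ℕ) : ℚ) := by
        push_cast
        simp only [map_add, map_one]
        ring
      rw [h9]
      ring
    induction u using Int.induction_on with
    | zero => exact base
    | succ i hi =>
      rw [step]
      exact add_mem hi (ih' _)
    | pred i hi =>
      have := step (-(i : ℤ) - 1)
      rw [sub_add_cancel] at this
      have h10 : C (((z + 1)! : ℚ)⁻¹) * run (-(i : ℤ) - 1) c (z + 1) =
          C (((z + 1)! : ℚ)⁻¹) * run (-(i : ℤ)) c (z + 1) -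
            C ((z ! : ℚ)⁻¹) * run (-(i : ℤ)) c z := by
        rw [this]; ring
      rw [h10]
      exact sub_mem hi (ih' _)

/-- block factorial -/
def bf (M z : ℕ) : ℕ := (M !) ^ (z / M) * (z % M)!

theorem bf_pos (M z : ℕ) : 0 < bf M z := by unfold bf; positivity

theorem bf_of_lt {M z : ℕ} (h : z < M) : bf M z = z ! := by
  unfold bf
  rw [Nat.div_eq_of_lt h, Nat.mod_eq_of_lt h]; simp

theorem bf_self {M : ℕ} (h : 0 < M) : bf M M = M ! := by
  unfold bf
  rw [Nat.div_self h, Nat.mod_self]; simp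

theorem bf_add {M : ℕ} (h : 0 < M) (z : ℕ) : bf M (M + z) = M ! * bf M z := by
  unfold bf
  rw [Nat.add_div_left _ h, Nat.add_mod_left, pow_succ]
  ring

/-- a run of any length over its block factorial -/
theorem run_bf_mem {d M : ℕ} (hM : 0 < M) (c : ℤ) (hd : ∀ q : ℕ, 1 ≤ q → q ≤ M → q ∣ d)
    (z : ℕ) (u : ℤ) : C ((bf M z : ℚ)⁻¹) * run u c z ∈ dR d := by
  induction z using Nat.strong_induction_on generalizing u with
  | _ z ih =>
    rcases Nat.lt_or_ge z M with h | h
    · rw [bf_of_lt h]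
      exact run_fact_mem c z (fun q h1 h2 => hd q h1 (by omega)) u
    · obtain ⟨w, rfl⟩ := Nat.exists_eq_add_of_le h
      rw [run_add, bf_add hM]
      have h1 := run_fact_mem c M hd u
      have h2 := ih w (by omega) (u + M)
      have h3 : (C (((M ! * bf M w : ℕ) : ℚ)⁻¹) : PowerSeries ℚ) =
          C ((M ! : ℚ)⁻¹) * C ((bf M w : ℚ)⁻¹) := by
        rw [← map_mul]; congr 1; push_cast; rw [mul_inv]
      rw [h3]
      have := mul_mem h1 h2
      convert this using 1
      ring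

theorem beta_int {d : ℕ} (e : ℕ) : ∀ k : ℕ, (∀ q : ℕ, 1 ≤ q → q ≤ k + e + 1 → q ∣ d) →
    ∃ z : ℤ, (d : ℚ) * ((k ! : ℚ) * (e ! : ℚ) / ((k + e + 1)! : ℚ)) = z := by
  induction e with
  | zero =>
    intro k hd
    obtain ⟨w, hw⟩ := hd (k + 1) (by omega) (by omega)
    refine ⟨w, ?_⟩
    have h1 : ((k + 0 + 1)! : ℚ) = ((k + 1 : ℕ) : ℚ) * (k ! : ℚ) := by
      rw [add_zero, Nat.factorial_succ]; push_cast; ring
    have h2 : (k ! : ℚ) ≠ 0 := by positivity
    have h3 : ((k + 1 : ℕ) : ℚ) ≠ 0 := by positivity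
    rw [h1, hw]
    push_cast at h3 ⊢
    simp only [Nat.factorial_zero, Nat.cast_one, mul_one]
    field_simp
  | succ e ih =>
    intro k hd
    obtain ⟨z1, h1⟩ := ih k (fun q a b => hd q a (by omega))
    obtain ⟨z2, h2⟩ := ih (k + 1) (fun q a b => hd q a (by omega))
    refine ⟨z1 - z2, ?_⟩
    push_cast
    rw [← h1, ← h2, ← mul_sub]
    congr 1
    have e1 : k + 1 + e + 1 = k + (e + 1) + 1 := by ring
    have e2 : k + (e + 1) + 1 = (k + e + 1) + 1 := by ring
    have e3 : k + 1 + e + 1 = (k + e + 1) + 1 := by ring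
    have f1 : (((k + e + 1) + 1)! : ℚ) = ((k : ℚ) + e + 2) * ((k + e + 1)! : ℚ) := by
      rw [Nat.factorial_succ]; push_cast; ring
    have f2 : ((k + 1)! : ℚ) = ((k : ℚ) + 1) * (k ! : ℚ) := by
      rw [Nat.factorial_succ]; push_cast; ring
    have f3 : ((e + 1)! : ℚ) = ((e : ℚ) + 1) * (e ! : ℚ) := by
      rw [Nat.factorial_succ]; push_cast; ring
    rw [e2, e3, f1, f2, f3]
    have g1 : ((k + e + 1)! : ℚ) ≠ 0 := by positivity
    have g2 : ((k : ℚ) + e + 2) ≠ 0 := by positivity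
    field_simp
    ring

/-- a run with the factor `k0` removed -/
noncomputable def runx (u c : ℤ) (z k0 : ℕ) : PowerSeries ℚ :=
  run u c k0 * run (u + k0 + 1) c (z - 1 - k0)

theorem runx_mul (u c : ℤ) {z k0 : ℕ} (h : k0 < z) :
    runx u c z k0 * (C ((u : ℚ) + k0) + C (c : ℚ) * X) = run u c z := by
  obtain ⟨w, rfl⟩ := Nat.exists_eq_add_of_lt h
  have e : k0 + w + 1 - 1 - k0 = w := by omega
  rw [runx, e, show k0 + w + 1 = k0 + (w + 1) by ring, run_add, run_succ']
  push_cast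
  ring

theorem runx_fact_mem {d : ℕ} (c : ℤ) {z k0 : ℕ} (hk : k0 < z)
    (hz : ∀ q : ℕ, 1 ≤ q → q ≤ z → q ∣ d) (u : ℤ) :
    C ((d : ℚ) * (z ! : ℚ)⁻¹) * runx u c z k0 ∈ dR d := by
  obtain ⟨w, rfl⟩ := Nat.exists_eq_add_of_lt hk
  have e : k0 + w + 1 - 1 - k0 = w := by omega
  rw [runx, e]
  have h1 := run_fact_mem c k0 (fun q a b => hz q a (by omega)) u
  have h2 := run_fact_mem c w (fun q a b => hz q a (by omega)) (u + k0 + 1)
  have h3 := beta_int w k0 hz
  have h4 : (C ((d : ℚ) * (((k0 + w + 1)! : ℕ) : ℚ)⁻¹) : PowerSeries ℚ) =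
      C ((d : ℚ) * ((k0 ! : ℚ) * (w ! : ℚ) / ((k0 + w + 1)! : ℚ))) *
        (C ((k0 ! : ℚ)⁻¹) * C ((w ! : ℚ)⁻¹)) := by
    rw [← map_mul, ← map_mul]
    congr 1
    have : (k0 ! : ℚ) ≠ 0 := by positivity
    have : (w ! : ℚ) ≠ 0 := by positivity
    field_simp
  rw [h4]
  have := smul_int_mem h3 (mul_mem h1 h2)
  convert this using 1
  ring

theorem runx_bf_mem {d M : ℕ} (hM : 0 < M) (c : ℤ) (hd : ∀ q : ℕ, 1 ≤ q → q ≤ M → q ∣ d)
    (z : ℕ) (k0 : ℕ) (hk : k0 < z) (u : ℤ) :
    C ((d : ℚ) * (bf M z : ℚ)⁻¹) * runx u c z k0 ∈ dR d := by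
  induction z using Nat.strong_induction_on generalizing u k0 with
  | _ z ih =>
    rcases Nat.lt_or_ge z M with h | h
    · rw [bf_of_lt h]
      exact runx_fact_mem c hk (fun q h1 h2 => hd q h1 (by omega)) u
    · obtain ⟨w, rfl⟩ := Nat.exists_eq_add_of_le h
      rw [bf_add hM]
      rcases Nat.lt_or_ge k0 M with h0 | h0
      · have h1 := runx_fact_mem c h0 hd u
        have h2 := run_bf_mem hM c hd w (u + M)
        have h3 : (C ((d : ℚ) * ((M ! * bf M w : ℕ) : ℚ)⁻¹) : PowerSeries ℚ) =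
            C ((d : ℚ) * (M ! : ℚ)⁻¹) * C ((bf M w : ℚ)⁻¹) := by
          rw [← map_mul]; congr 1; push_cast; rw [mul_inv]; ring
        have h4 : runx u c (M + w) k0 = runx u c M k0 * run (u + M) c w := by
          have e : M + w - 1 - k0 = (M - 1 - k0) + w := by omega
          rw [runx, runx, e, run_add, mul_assoc]
          congr 3
          push_cast [Nat.cast_sub (show k0 ≤ M - 1 by omega), Nat.cast_sub (show 1 ≤ M by omega)]
          ring
        rw [h3, h4]
        have := mul_mem h1 h2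
        convert this using 1
        ring
      · obtain ⟨v, rfl⟩ := Nat.exists_eq_add_of_le h0
        have h1 := run_fact_mem c M hd u
        have h2 := ih w (by omega) v (by omega) (u + M)
        have h3 : (C ((d : ℚ) * ((M ! * bf M w : ℕ) : ℚ)⁻¹) : PowerSeries ℚ) =
            C ((M ! : ℚ)⁻¹) * C ((d : ℚ) * (bf M w : ℚ)⁻¹) := by
          rw [← map_mul]; congr 1; push_cast; rw [mul_inv]; ring
        have h4 : runx u c (M + w) (M + v) = run u c M * runx (u + M) c w v := by
          have e : M + w - 1 - (M + v) = w - 1 - v := by omega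
          rw [runx, runx, e, run_add, mul_assoc]
          congr 3
          push_cast
          ring
        rw [h3, h4]
        have := mul_mem h1 h2
        convert this using 1
        ring

/-! ## size of the block factorial -/

theorem le_bf {M : ℕ} (hM : 0 < M) (z : ℕ) :
    (M : ℝ) ^ z * Real.exp (-(z + M : ℕ)) ≤ bf M z := by
  have key : ∀ r : ℕ, (M : ℝ) ^ r * Real.exp (-(M : ℝ)) ≤ (r ! : ℝ) := by
    intro r
    have h := Real.pow_div_factorial_le_exp (M : ℝ) (by positivity) r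
    rw [div_le_iff₀ (by positivity)] at h
    rw [Real.exp_neg, ← div_eq_mul_inv, div_le_iff₀ (Real.exp_pos _)]
    linarith
  induction z using Nat.strong_induction_on with
  | _ z ih =>
    rcases Nat.lt_or_ge z M with h | h
    · rw [bf_of_lt h]
      refine le_trans ?_ (key z)
      apply mul_le_mul_of_nonneg_left _ (by positivity)
      apply Real.exp_le_exp.2
      push_cast
      linarith [(Nat.cast_nonneg z : (0 : ℝ) ≤ z)]
    · obtain ⟨w, rfl⟩ := Nat.exists_eq_add_of_le h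
      rw [bf_add hM]
      push_cast
      have h1 := key M
      have h2 := ih w (by omega)
      have h3 : (M : ℝ) ^ (M + w) * Real.exp (-((M : ℝ) + w + M)) =
          ((M : ℝ) ^ M * Real.exp (-(M : ℝ))) * ((M : ℝ) ^ w * Real.exp (-((w + M : ℕ) : ℝ))) := by
        have : Real.exp (-((M : ℝ) + w + M)) =
            Real.exp (-(M : ℝ)) * Real.exp (-((w + M : ℕ) : ℝ)) := by
          rw [← Real.exp_add]; congr 1; push_cast; ring
        rw [this, pow_add]; ring
      rw [h3]
      exact mul_le_mul h1 h2 (by positivity) (by positivity)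

theorem dvd_lcmUpto {M q : ℕ} (h1 : 1 ≤ q) (h2 : q ≤ M) : q ∣ Nat.lcmUpto M := by
  rw [Nat.lcmUpto]
  exact Finset.dvd_lcm (f := id) (by simp; omega)

end Pool.Agent.ZC
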