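import Mathlib

/-!
# ZC: Casorati determinants of linearly independent polynomials
-/

namespace Pool.Agent.ZC

open Polynomial Matrix

/-- Casorati's criterion in a field with an endomorphism. -/
theorem casorati_abs {F : Type*} [Field F] (σ : F →+* F) : ∀ {k : ℕ} (z : Fin k → F),
    (∀ c : Fin k → F, (∀ i, σ (c i) = c i) → ∑ i, c i * z i = 0 → c = 0) →
    (Matrix.of fun i j : Fin k => (σ^[(j : ℕ)]) (z i)).det ≠ 0
  | 0, _, _ => by simp
  | k + 1, z, h => by
    intro hdet
    obtain ⟨v, hv0, hv⟩ := Matrix.exists_vecMul_eq_zero_iff.2 hdet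
    have hv' : ∀ j : ℕ, j < k + 1 → ∑ i, v i * (σ^[j]) (z i) = 0 := by
      intro j hj
      have := congrFun hv ⟨j, hj⟩
      simpa [Matrix.vecMul, dotProduct] using this
    obtain ⟨i0, hi0⟩ : ∃ i0, v i0 ≠ 0 := by
      by_contra hcon
      push Not at hcon
      exact hv0 (funext hcon)
    -- normalise
    set w : Fin (k + 1) → F := fun i => v i / v i0 with hw
    have hw0 : w i0 = 1 := by simp [hw, hi0]
    have hw' : ∀ j : ℕ, j < k + 1 → ∑ i, w i * (σ^[j]) (z i) = 0 := by
      intro j hj
      have : ∑ i, w i * (σ^[j]) (z i) = (∑ i, v i * (σ^[j]) (z i)) / v i0 := by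
        rw [Finset.sum_div]
        refine Finset.sum_congr rfl fun i _ => ?_
        simp only [hw]; ring
      rw [this, hv' j hj, zero_div]
    have hdiff : ∀ j : ℕ, j < k → ∑ i, (σ (w i) - w i) * σ ((σ^[j]) (z i)) = 0 := by
      intro j hj
      have h1 : ∑ i, σ (w i) * σ ((σ^[j]) (z i)) = 0 := by
        have := congrArg σ (hw' j (by omega))
        simpa [map_sum, map_mul] using this
      have h2 : ∑ i, w i * σ ((σ^[j]) (z i)) = 0 := by
        have := hw' (j + 1) (by omega)
        simpa only [Function.iterate_succ_apply'] using this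
      calc ∑ i, (σ (w i) - w i) * σ ((σ^[j]) (z i))
          = ∑ i, σ (w i) * σ ((σ^[j]) (z i)) - ∑ i, w i * σ ((σ^[j]) (z i)) := by
            rw [← Finset.sum_sub_distrib]
            exact Finset.sum_congr rfl fun i _ => by ring
        _ = 0 := by rw [h1, h2, sub_zero]
    -- induction hypothesis for the family without `i0`
    have hIH := casorati_abs σ (fun i : Fin k => z (i0.succAbove i)) (by
      intro c hc hsum
      have := h (fun i => Fin.insertNth (α := fun _ => F) i0 0 c i) (by
        intro i
        refine Fin.succAboveCases i0 ?_ (fun i => ?_) i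
        · simp
        · simp [hc i]) (by
        rw [Fin.sum_univ_succAbove _ i0]
        simpa using hsum)
      funext i
      have := congrFun this (i0.succAbove i)
      simpa using this)
    have hIH' : (Matrix.of fun i j : Fin k => σ ((σ^[(j : ℕ)]) (z (i0.succAbove i)))).det ≠ 0 := by
      have : (Matrix.of fun i j : Fin k => σ ((σ^[(j : ℕ)]) (z (i0.succAbove i)))).det =
          σ ((Matrix.of fun i j : Fin k => (σ^[(j : ℕ)]) (z (i0.succAbove i))).det) := by
        rw [RingHom.map_det]; rfl
      rw [this]
      exact fun h0 => hIH ((map_eq_zero σ).1 h0)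
    have hper : ∀ i, σ (w i) = w i := by
      have hz : (fun i : Fin k => σ (w (i0.succAbove i)) - w (i0.succAbove i)) = 0 := by
        by_contra hne
        apply hIH'
        apply Matrix.exists_vecMul_eq_zero_iff.1
        refine ⟨_, hne, ?_⟩
        funext j
        have := hdiff j j.2
        rw [Fin.sum_univ_succAbove _ i0, hw0, map_one, sub_self, zero_mul, zero_add] at this
        simpa [Matrix.vecMul, dotProduct] using this
      intro i
      refine Fin.succAboveCases i0 ?_ (fun i => ?_) i
      · rw [hw0, map_one]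
      · exact sub_eq_zero.1 (congrFun hz i)
    have := h w hper (by simpa using hw' 0 (by omega))
    rw [this] at hw0
    simp at hw0

section periodic

variable {K : Type*} [Field K] [CharZero K]

theorem poly_const_of_periodic {p : K[X]} (h : p.comp (X + C 1) = p) : p = C (p.eval 0) := by
  have h1 : ∀ n : ℕ, p.eval (n : K) = p.eval 0 := by
    intro n
    induction n with
    | zero => simp
    | succ n ih =>
      have := congrArg (fun q : K[X] => q.eval (n : K)) h
      simp only [eval_comp, eval_add, eval_X, eval_C] at this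
      push_cast
      rw [this, ih]
  have h2 : p - C (p.eval 0) = 0 := by
    apply Polynomial.eq_zero_of_infinite_isRoot
    apply Set.infinite_of_injective_forall_mem (f := fun n : ℕ => (n : K)) Nat.cast_injective
    intro n
    simp [IsRoot, h1 n]
  exact sub_eq_zero.1 h2

/-- the shift `t ↦ t + 1` on rational functions -/
noncomputable def shf (K : Type*) [Field K] : FractionRing K[X] →+* FractionRing K[X] :=
  IsFractionRing.map (A := K[X]) (B := K[X]) (K := FractionRing K[X]) (L := FractionRing K[X])
    (j := (Polynomial.compRingHom (X + C 1) : K[X] →+* K[X])) (by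
      intro p q hpq
      have : (p - q).comp (X + C 1) = 0 := by
        rw [sub_comp]; exact sub_eq_zero.2 hpq
      have h2 := congrArg (fun r : K[X] => r.comp (X - C 1)) this
      simp only [comp_assoc, add_comp, X_comp, C_comp, sub_add_cancel, comp_X, zero_comp] at h2
      exact sub_eq_zero.1 h2)

omit [CharZero K] in
theorem shf_algebraMap (p : K[X]) : shf K (algebraMap K[X] (FractionRing K[X]) p) =
    algebraMap K[X] (FractionRing K[X]) (p.comp (X + C 1)) := by
  unfold shf IsFractionRing.map
  rw [IsLocalization.map_eq]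
  rfl

omit [CharZero K] in
theorem comp_shift_inj {p q : K[X]} (h : p.comp (X + C 1) = q.comp (X + C 1)) : p = q := by
  have h2 := congrArg (fun r : K[X] => r.comp (X - C 1)) h
  simpa only [comp_assoc, add_comp, X_comp, C_comp, sub_add_cancel, comp_X] using h2

theorem const_of_periodic {x : FractionRing K[X]} (h : shf K x = x) :
    ∃ c : K, x = algebraMap K[X] (FractionRing K[X]) (C c) := by
  obtain ⟨p, q, hpq, hx⟩ := IsFractionRing.exists_reduced_fraction (A := K[X]) x
  have hq0 : (q : K[X]) ≠ 0 := nonZeroDivisors.ne_zero q.2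
  have hQ0 : algebraMap K[X] (FractionRing K[X]) q ≠ 0 := by
    intro h0
    exact hq0 ((IsFractionRing.injective K[X] (FractionRing K[X])) (by rw [h0, map_zero]))
  have hq1 : ((q : K[X]).comp (X + C 1)) ≠ 0 := by
    intro h0
    exact hq0 (comp_shift_inj (by rw [h0, zero_comp]))
  have hQ1 : algebraMap K[X] (FractionRing K[X]) ((q : K[X]).comp (X + C 1)) ≠ 0 := by
    intro h0
    exact hq1 ((IsFractionRing.injective K[X] (FractionRing K[X])) (by rw [h0, map_zero]))
  rw [IsFractionRing.mk'_eq_div] at hx
  rw [← hx, map_div₀, shf_algebraMap, shf_algebraMap, div_eq_div_iff hQ1 hQ0, ← map_mul, ← map_mul] at h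
  have h1 : p.comp (X + C 1) * (q : K[X]) = p * (q : K[X]).comp (X + C 1) :=
    IsFractionRing.injective K[X] (FractionRing K[X]) h
  -- `q` divides its shift
  have hcop : IsCoprime p (q : K[X]) := hpq.isCoprime
  have hdvd : (q : K[X]) ∣ (q : K[X]).comp (X + C 1) :=
    hcop.symm.dvd_of_dvd_mul_left (by rw [← h1]; exact dvd_mul_left _ _)
  obtain ⟨u, hu⟩ := hdvd
  have hdeg : ((q : K[X]).comp (X + C 1)).natDegree = (q : K[X]).natDegree := by
    rw [natDegree_comp, natDegree_X_add_C, mul_one]
  have hu0 : u ≠ 0 := by
    rintro rfl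
    rw [mul_zero] at hu
    exact hq1 hu
  have hud : u.natDegree = 0 := by
    have := congrArg natDegree hu
    rw [hdeg, natDegree_mul hq0 hu0] at this
    omega
  obtain ⟨a, ha⟩ := natDegree_eq_zero.1 hud
  have hlc : ((q : K[X]).comp (X + C 1)).leadingCoeff = (q : K[X]).leadingCoeff := by
    rw [leadingCoeff_comp (by rw [natDegree_X_add_C]; exact one_ne_zero), leadingCoeff_X_add_C, one_pow, mul_one]
  have ha1 : a = 1 := by
    have := congrArg leadingCoeff hu
    rw [hlc, leadingCoeff_mul, ← ha, leadingCoeff_C] at this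
    have hl0 : (q : K[X]).leadingCoeff ≠ 0 := leadingCoeff_ne_zero.2 hq0
    field_simp at this
    exact this.symm
  have hqq : (q : K[X]).comp (X + C 1) = q := by
    rw [hu, ← ha, ha1, C_1, mul_one]
  have hpp : p.comp (X + C 1) = p := by
    rw [hqq] at h1
    exact mul_right_cancel₀ hq0 h1
  have hpc := poly_const_of_periodic hpp
  have hqc := poly_const_of_periodic hqq
  refine ⟨p.eval 0 / (q : K[X]).eval 0, ?_⟩
  have hq2 : (q : K[X]).eval 0 ≠ 0 := by
    intro h0
    rw [h0, C_0] at hqc
    exact hq0 hqc
  rw [← hx, div_eq_iff hQ0, ← map_mul]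
  congr 1
  conv_rhs => rw [hqc]
  rw [eval_C, ← C_mul, div_mul_cancel₀ _ hq2]
  exact hpc

theorem iterate_shf (p : K[X]) (j : ℕ) : ((shf K)^[j]) (algebraMap K[X] (FractionRing K[X]) p) =
    algebraMap K[X] (FractionRing K[X]) (p.comp (X + C (j : K))) := by
  induction j with
  | zero => simp
  | succ j ih =>
    rw [Function.iterate_succ_apply', ih, shf_algebraMap, comp_assoc]
    congr 2
    simp only [add_comp, X_comp, C_comp]
    rw [add_assoc, ← C_add, add_comm (1 : K)]
    push_cast
    rfl

/-- linearly independent polynomials are linearly independent over the periodic rational functions -/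
theorem indep_const {k : ℕ} (z : Fin k → K[X]) (h : LinearIndependent K z)
    (c : Fin k → FractionRing K[X]) (hc : ∀ i, shf K (c i) = c i)
    (hsum : ∑ i, c i * algebraMap K[X] (FractionRing K[X]) (z i) = 0) : c = 0 := by
  choose d hd using fun i => const_of_periodic (hc i)
  have h1 : algebraMap K[X] (FractionRing K[X]) (∑ i, C (d i) * z i) = 0 := by
    rw [map_sum, ← hsum]
    refine Finset.sum_congr rfl fun i _ => ?_
    rw [map_mul, ← hd i]
  have h2 : ∑ i, C (d i) * z i = 0 :=
    (IsFractionRing.injective K[X] (FractionRing K[X])) (by rw [h1, map_zero])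
  have h3 := Fintype.linearIndependent_iff.1 h d (by simpa [smul_eq_C_mul] using h2)
  funext i
  rw [hd i, h3 i, C_0, map_zero, Pi.zero_apply]

/-- **Casorati**: linearly independent polynomials have a non-zero Casorati determinant. -/
theorem casorati {k : ℕ} (z : Fin k → K[X]) (h : LinearIndependent K z) :
    (Matrix.of fun i j : Fin k => (z i).comp (X + C ((j : ℕ) : K))).det ≠ 0 := by
  intro hdet
  refine casorati_abs (shf K) (fun i => algebraMap K[X] (FractionRing K[X]) (z i))
    (indep_const z h) ?_
  have : (Matrix.of fun i j : Fin k => ((shf K)^[(j : ℕ)]) (algebraMap K[X] (FractionRing K[X]) (z i))) =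
      (Matrix.of fun i j : Fin k => (z i).comp (X + C ((j : ℕ) : K))).map
        (algebraMap K[X] (FractionRing K[X])) := by
    ext i j
    simp only [Matrix.of_apply, Matrix.map_apply]
    exact iterate_shf (z i) j
  rw [this, ← RingHom.mapMatrix_apply, ← RingHom.map_det, hdet, map_zero]

end periodic

end Pool.Agent.ZC
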