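import Pool.Agent.ZC.BLK

/-!
# ZC: definitions

`y_l = (2p-1-2l+2X)^2` at the pole `t = -l + X`; rows of the determinant.
-/

namespace Pool.Agent.ZC

open Finset

noncomputable section

variable (K : Type*) [Field K]

/-- `y = (2 t + 2 p - 1)^2` at `t = -l + X` -/
def yl (p l : ℕ) : PowerSeries K :=
  (PowerSeries.C (2 * (p : K) - 1 - 2 * (l : K)) + PowerSeries.C (2 : K) * PowerSeries.X) ^ 2

/-- `∏_{k<j} (Y - (2k+1)^2)` -/
def Cp (j : ℕ) : Polynomial K :=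
  ∏ k ∈ range j, (Polynomial.X - Polynomial.C ((2 * (k : K) + 1) ^ 2))

/-- normalised `Cp` -/
def Cn (M j : ℕ) : Polynomial K :=
  Polynomial.C (((4 ^ j * bf M (2 * j) : ℕ) : K)⁻¹) * Cp K j

/-- the multiplier of the functional with denominators `b`, normalised -/
def An (M p b : ℕ) : Polynomial K :=
  Polynomial.C (((4 ^ (2 * b * p) * bf M (4 * b * p) : ℕ) : K)⁻¹) *
    (Cp K (2 * b * p)).comp (Polynomial.C ((b : K) ^ 2) * Polynomial.X)

/-- value of a polynomial in `y` at the pole `l` -/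
def ev (p l : ℕ) (f : Polynomial K) : PowerSeries K := Polynomial.aeval (yl K p l) f

/-- `g_b` at the pole `l` -/
def gs (p b l : ℕ) : PowerSeries K :=
  ∑ k ∈ Icc 1 (b * l), (PowerSeries.C ((k : K) / b) - PowerSeries.X)⁻¹ +
  ∑ k ∈ Icc 1 (b * (2 * p - 1 - l)), (PowerSeries.C ((k : K) / b) + PowerSeries.X)⁻¹

/-- `G_b` at the pole `l`, with zeta values `z i`, `i ∈ S` -/
def Gs (p b l : ℕ) (S : Finset ℕ) (z : ℕ → K) : PowerSeries K :=
  ∑ i ∈ S, PowerSeries.C (2 * (b : K) ^ i * z i) * PowerSeries.X ^ (i - 1) - gs K p b l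

/-- index type of the rows: `T`, `rho`, `F` -/
abbrev Row (B p : ℕ) (I : Finset ℕ) : Type :=
  Fin (4 * B * p) ⊕ (I × Fin (4 * B * p)) ⊕ (Σ β : Fin B, Fin ((4 * B - 2 * (2 * (β : ℕ) + 1)) * p))

/-- polynomial of a row -/
def rowPoly (M B p : ℕ) (I : Finset ℕ) : Row B p I → Polynomial K
  | .inl j => Cn K M j
  | .inr (.inl x) => Cn K M x.2
  | .inr (.inr x) => An K M p (2 * (x.1 : ℕ) + 1) * Cn K M x.2

/-- power series factor of a row at the pole `l` -/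
def rowSer (B p : ℕ) (I S : Finset ℕ) (z : ℕ → K) (l : ℕ) : Row B p I → PowerSeries K
  | .inl _ => 1
  | .inr (.inl x) => PowerSeries.X ^ ((x.1 : ℕ) - 1)
  | .inr (.inr x) => Gs K p (2 * (x.1 : ℕ) + 1) l S z

/-- the matrix of jets: columns `(l, r)`, `l < p`, `r < a` -/
def jet (a M B p : ℕ) (I S : Finset ℕ) (z : ℕ → K) (x : Row B p I) (c : Fin p × Fin a) : K :=
  PowerSeries.coeff (c.2 : ℕ) (ev K p c.1 (rowPoly K M B p I x) * rowSer K B p I S z c.1 x)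

/-- odd integers in `[3, a]` -/
def oddS (a : ℕ) : Finset ℕ := (Icc 3 a).filter Odd

/-- `s = 2k/b + 2p - 1` -/
def nd (p b k : ℕ) : ℝ := 2 * (k : ℝ) / b + (2 * p - 1)

/-- `γ_k = ∑_{j ≥ 1} 4 s f(s²) / s^{2(n+k+1)}` -/
def gam (n p b : ℕ) (f : Polynomial ℝ) (k : ℕ) : ℝ :=
  ∑' j : ℕ, 4 * nd p b (j + 1) * f.eval (nd p b (j + 1) ^ 2) / (nd p b (j + 1) ^ 2) ^ (n + k + 1)

/-- zeta values as series -/
def zr (i : ℕ) : ℝ := ∑' n : ℕ, 1 / ((n : ℝ) + 1) ^ i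

end

end Pool.Agent.ZC
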