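import Pool.Agent.ZC.Defs

/-!
# ZC V4: definitions

Hasse derivative `hs h` of order `h` (even, at least `2`), block polynomials `Bn m j` with all roots
at most `(2m)^2`, polynomial `fP` of the `F` rows.
-/

namespace Pool.Agent.ZC

open Finset

noncomputable section

variable (K : Type*) [Field K]

/-- Hasse derivative of order `h` -/
def hs (h : ℕ) (f : PowerSeries K) : PowerSeries K :=
  PowerSeries.mk fun r => ((r + h).choose h : K) * PowerSeries.coeff (r + h) f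

/-- `∏_{k<j} (Y - (2 (k mod m) + 1)^2)` -/
def Bp (m j : ℕ) : Polynomial K :=
  ∏ k ∈ range j, (Polynomial.X - Polynomial.C ((2 * ((k % m : ℕ) : K) + 1) ^ 2))

/-- normalised `Bp` -/
def Bn (m j : ℕ) : Polynomial K :=
  Polynomial.C (((4 ^ j * bf (2 * m) (2 * j) : ℕ) : K)⁻¹) * Bp K m j

/-- polynomial of the `F` rows -/
def fP (h m p b j : ℕ) : Polynomial K := An K (2 * m) p b ^ (h + 1) * Bn K m j

/-- `∑_{i ∈ S} 2 b^i z_i X^(i-1)` -/
def zs (b : ℕ) (S : Finset ℕ) (z : ℕ → K) : PowerSeries K :=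
  ∑ i ∈ S, PowerSeries.C (2 * (b : K) ^ i * z i) * PowerSeries.X ^ (i - 1)

/-- rows: companions `(j, i)` and `F` rows; `q = (h+1) p` -/
abbrev Row4 (J : Type) (B q : ℕ) : Type :=
  (J × Fin (4 * B * q)) ⊕ (Σ β : Fin B, Fin ((4 * B - 2 * (2 * (β : ℕ) + 1)) * q))

/-- row vectors as power series at the pole `l` -/
def row4 (J : Type) (h m B p : ℕ) (ψ : J → PowerSeries K) (S : Finset ℕ) (z : ℕ → K) (l : ℕ) :
    Row4 J B ((h + 1) * p) → PowerSeries K
  | .inl x => ψ x.1 * ev K p l (Bn K m x.2)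
  | .inr x => ev K p l (fP K h m p (2 * (x.1 : ℕ) + 1) x.2) *
      hs K h (Gs K p (2 * (x.1 : ℕ) + 1) l S z)

end

end Pool.Agent.ZC
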