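import Pool.Agent.ZC.COR4
import Pool.Agent.ZC.HS

/-!
# ZC: the final theorem on odd zeta values outside a small subspace, uniformly in intervals
-/

namespace Pool.Agent.ZC

open Finset

theorem FIN4_coeff (K : Type*) [Field K] (b h r : ℕ) (S : Finset ℕ) (hS : ∀ i ∈ S, 1 ≤ i)
    (z : ℕ → K) : PowerSeries.coeff r (hs K h (zs K b S z)) =
      if r + h + 1 ∈ S then
        ((r + h).choose h : K) * (2 * (b : K) ^ (r + h + 1) * z (r + h + 1)) else 0 := by
  unfold hs zs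
  rw [PowerSeries.coeff_mk, map_sum]
  have h1 : ∀ i ∈ S, PowerSeries.coeff (r + h)
      (PowerSeries.C (2 * (b : K) ^ i * z i) * PowerSeries.X ^ (i - 1)) =
      if i = r + h + 1 then 2 * (b : K) ^ i * z i else 0 := by
    intro i hi
    rw [PowerSeries.coeff_C_mul, PowerSeries.coeff_X_pow]
    have := hS i hi
    by_cases hc : i = r + h + 1
    · rw [if_pos hc, if_pos (by omega), mul_one]
    · rw [if_neg hc, if_neg (by omega), mul_zero]
  rw [Finset.sum_congr rfl h1, Finset.sum_ite_eq']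
  split_ifs
  · rfl
  · rw [mul_zero]

/-- the companions attached to a finite dimensional space `V` -/
theorem FIN4_data (a B h : ℕ) (hh : Even h) (h2 : 2 ≤ h) (V : Submodule ℚ ℝ)
    [Module.Finite ℚ V] (N : Finset ℕ)
    (hN : ∀ i, i ∈ N ↔ (h + 1 ≤ i ∧ i ≤ a + h ∧ Odd i ∧ ¬ ∃ v ∈ V, ∃ q : ℚ, zr i = q + v)) :
    ∃ (J : Type) (_ : Fintype J) (ψ : J → PowerSeries ℚ) (j0 : J) (S : Finset ℕ) (z : ℕ → ℚ),
      Fintype.card J = 1 + (N.card + B * Module.finrank ℚ V) ∧ ψ j0 = 1 ∧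
      (∀ j, ∀ r, Odd r → PowerSeries.coeff r (ψ j) = 0) ∧ (∀ i ∈ S, Odd i) ∧
      (∀ β < B, ∃ lam : J → ℝ, ∀ r < a,
        PowerSeries.coeff r (hs ℝ h (zs ℝ (2 * β + 1) (oddS (a + h)) zr)) =
          ((PowerSeries.coeff r (hs ℚ h (zs ℚ (2 * β + 1) S z)) : ℚ) : ℝ) +
          ∑ j, lam j * ((PowerSeries.coeff r (ψ j) : ℚ) : ℝ)) := by
  classical
  set κ : ℕ := Module.finrank ℚ V with hκ
  set bs : Module.Basis (Fin κ) ℚ V := Module.finBasis ℚ V with hbs
  have hz : ∀ i : ℕ, ∃ (q : ℚ) (c : Fin κ → ℚ), (∃ v ∈ V, ∃ q : ℚ, zr i = q + v) →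
      zr i = q + ∑ k, (c k : ℝ) * (bs k : ℝ) := by
    intro i
    by_cases hP : ∃ v ∈ V, ∃ q : ℚ, zr i = q + v
    · obtain ⟨v, hv, q, hq⟩ := hP
      refine ⟨q, fun k => bs.repr ⟨v, hv⟩ k, fun _ => ?_⟩
      have h1 := bs.sum_repr ⟨v, hv⟩
      have h2 := congrArg (Submodule.subtype V) h1
      rw [map_sum] at h2
      simp only [map_smul, Submodule.subtype_apply, Rat.smul_def] at h2
      rw [h2, hq]
    · exact ⟨0, 0, fun h => absurd h hP⟩
  choose z cc hzc using hz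
  set S : Finset ℕ := oddS (a + h) \ N with hS
  have hSodd : ∀ i ∈ oddS (a + h), Odd i := by
    intro i hi
    simp only [oddS, mem_filter] at hi
    exact hi.2
  have hS1 : ∀ i ∈ oddS (a + h), 1 ≤ i := fun i hi => (hSodd i hi).pos
  have hSs1 : ∀ i ∈ S, 1 ≤ i := fun i hi => hS1 i (mem_sdiff.1 hi).1
  set ψ : Unit ⊕ (N ⊕ (Fin B × Fin κ)) → PowerSeries ℚ := fun j =>
    match j with
    | .inl _ => 1
    | .inr (.inl i) => PowerSeries.X ^ ((i : ℕ) - 1 - h)
    | .inr (.inr x) => hs ℚ h (zs ℚ (2 * (x.1 : ℕ) + 1) S (fun i => cc i x.2)) with hψ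
  refine ⟨Unit ⊕ (N ⊕ (Fin B × Fin κ)), inferInstance, ψ, .inl (), S, z, ?_, rfl, ?_, ?_, ?_⟩
  · simp [Fintype.card_sum, Fintype.card_prod]
  · rintro (j | i | x) r hr
    · change PowerSeries.coeff r (1 : PowerSeries ℚ) = 0
      rw [PowerSeries.coeff_one, if_neg]
      rintro rfl
      exact absurd hr (by decide)
    · change PowerSeries.coeff r (PowerSeries.X ^ ((i : ℕ) - 1 - h) : PowerSeries ℚ) = 0
      rw [PowerSeries.coeff_X_pow, if_neg]
      intro hc
      obtain ⟨h3, _, h4, _⟩ := (hN i).1 i.2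
      obtain ⟨t, ht⟩ := h4
      obtain ⟨t', ht'⟩ := hh
      obtain ⟨t'', ht''⟩ := hr
      omega
    · change PowerSeries.coeff r (hs ℚ h (zs ℚ (2 * (x.1 : ℕ) + 1) S (fun i => cc i x.2))) = 0
      rw [FIN4_coeff ℚ _ h r S hSs1, if_neg]
      intro hc
      have h4 := hSodd _ (mem_sdiff.1 hc).1
      obtain ⟨t, ht⟩ := h4
      obtain ⟨t', ht'⟩ := hh
      obtain ⟨t'', ht''⟩ := hr
      omega
  · exact fun i hi => hSodd i (mem_sdiff.1 hi).1
  · intro β hβ
    refine ⟨fun j => match j with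
      | .inl _ => 0
      | .inr (.inl i) => (((i : ℕ) - 1).choose h : ℝ) *
          (2 * ((2 * β + 1 : ℕ) : ℝ) ^ (i : ℕ) * zr i)
      | .inr (.inr x) => if (x.1 : ℕ) = β then (bs x.2 : ℝ) else 0, ?_⟩
    intro r hr
    rw [FIN4_coeff ℝ _ h r _ hS1, FIN4_coeff ℚ _ h r S hSs1]
    simp only [Fintype.sum_sum_type, Finset.univ_unique, Finset.sum_singleton, zero_mul, zero_add]
    have e1 : ∑ i : N, (((i : ℕ) - 1).choose h : ℝ) *
          (2 * ((2 * β + 1 : ℕ) : ℝ) ^ (i : ℕ) * zr i) *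
          ((PowerSeries.coeff r (ψ (.inr (.inl i))) : ℚ) : ℝ) =
        if r + h + 1 ∈ N then ((r + h).choose h : ℝ) *
          (2 * ((2 * β + 1 : ℕ) : ℝ) ^ (r + h + 1) * zr (r + h + 1)) else 0 := by
      have h5 : ∀ i : N, (((i : ℕ) - 1).choose h : ℝ) *
          (2 * ((2 * β + 1 : ℕ) : ℝ) ^ (i : ℕ) * zr i) *
          ((PowerSeries.coeff r (ψ (.inr (.inl i))) : ℚ) : ℝ) =
          (fun i : ℕ => if i = r + h + 1 then ((r + h).choose h : ℝ) *
          (2 * ((2 * β + 1 : ℕ) : ℝ) ^ (r + h + 1) * zr (r + h + 1)) else 0) (i : ℕ) := by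
        intro i
        obtain ⟨h3, _, h4, _⟩ := (hN i).1 i.2
        change (((i : ℕ) - 1).choose h : ℝ) *
          (2 * ((2 * β + 1 : ℕ) : ℝ) ^ (i : ℕ) * zr i) *
          ((PowerSeries.coeff r (PowerSeries.X ^ ((i : ℕ) - 1 - h) : PowerSeries ℚ) : ℚ) : ℝ) = _
        rw [PowerSeries.coeff_X_pow]
        by_cases hc : (i : ℕ) = r + h + 1
        · have h6 : (i : ℕ) - 1 = r + h := by omega
          simp only [if_pos hc]
          rw [if_pos (by omega), h6, hc]
          push_cast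
          ring
        · simp only [if_neg hc]
          rw [if_neg (by omega)]
          push_cast
          ring
      rw [Finset.sum_congr rfl (fun i _ => h5 i), Finset.sum_coe_sort N (fun i : ℕ =>
        if i = r + h + 1 then ((r + h).choose h : ℝ) *
          (2 * ((2 * β + 1 : ℕ) : ℝ) ^ (r + h + 1) * zr (r + h + 1)) else 0),
        Finset.sum_ite_eq']
    have e2 : ∑ x : Fin B × Fin κ, (if (x.1 : ℕ) = β then (bs x.2 : ℝ) else 0) *
          ((PowerSeries.coeff r (ψ (.inr (.inr x))) : ℚ) : ℝ) =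
        if r + h + 1 ∈ S then ((r + h).choose h : ℝ) *
          (2 * ((2 * β + 1 : ℕ) : ℝ) ^ (r + h + 1) *
            ∑ k, (cc (r + h + 1) k : ℝ) * (bs k : ℝ)) else 0 := by
      rw [Fintype.sum_prod_type, Finset.sum_eq_single (⟨β, hβ⟩ : Fin B)]
      · have h7 : ∀ k : Fin κ, (if (((⟨β, hβ⟩ : Fin B), k) : Fin B × Fin κ).1.val = β
            then (bs k : ℝ) else 0) *
            ((PowerSeries.coeff r (ψ (.inr (.inr ((⟨β, hβ⟩ : Fin B), k)))) : ℚ) : ℝ) =
            if r + h + 1 ∈ S then ((r + h).choose h : ℝ) *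
              (2 * ((2 * β + 1 : ℕ) : ℝ) ^ (r + h + 1) *
              ((cc (r + h + 1) k : ℝ) * (bs k : ℝ))) else 0 := by
          intro k
          rw [if_pos rfl]
          change (bs k : ℝ) * ((PowerSeries.coeff r
            (hs ℚ h (zs ℚ (2 * β + 1) S (fun i => cc i k))) : ℚ) : ℝ) = _
          rw [FIN4_coeff ℚ _ h r S hSs1]
          by_cases hc : r + h + 1 ∈ S
          · rw [if_pos hc, if_pos hc]
            push_cast
            ring
          · rw [if_neg hc, if_neg hc]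
            push_cast
            ring
        rw [Finset.sum_congr rfl (fun k _ => h7 k)]
        by_cases hc : r + h + 1 ∈ S
        · simp only [if_pos hc]
          rw [← Finset.mul_sum, ← Finset.mul_sum]
        · simp only [if_neg hc]
          rw [Finset.sum_const_zero]
      · intro β' _ hne
        refine Finset.sum_eq_zero fun k _ => ?_
        rw [if_neg, zero_mul]
        intro hc
        exact hne (Fin.ext hc)
      · intro hc
        exact absurd (Finset.mem_univ _) hc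
    rw [e1, e2]
    by_cases hO : r + h + 1 ∈ oddS (a + h)
    · rw [if_pos hO]
      by_cases hNi : r + h + 1 ∈ N
      · have hSi : r + h + 1 ∉ S := fun hc => (mem_sdiff.1 hc).2 hNi
        rw [if_pos hNi, if_neg hSi, if_neg hSi]
        push_cast
        ring
      · have hSi : r + h + 1 ∈ S := mem_sdiff.2 ⟨hO, hNi⟩
        rw [if_neg hNi, if_pos hSi, if_pos hSi]
        have hP : ∃ v ∈ V, ∃ q : ℚ, zr (r + h + 1) = q + v := by
          by_contra hP
          exact hNi ((hN _).2 ⟨by omega, by omega, hSodd _ hO, hP⟩)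
        have h8 := hzc (r + h + 1) hP
        rw [zero_add]
        conv_lhs => rw [h8]
        push_cast
        ring
    · have hNi : r + h + 1 ∉ N := by
        intro hc
        obtain ⟨h3, h4, h5, _⟩ := (hN _).1 hc
        refine hO ?_
        simp only [oddS, mem_filter, mem_Icc]
        exact ⟨⟨by omega, h4⟩, h5⟩
      have hSi : r + h + 1 ∉ S := fun hc => hO (mem_sdiff.1 hc).1
      rw [if_neg hO, if_neg hNi, if_neg hSi, if_neg hSi]
      push_cast
      ring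

/-- the numerical part -/
theorem FIN4_log (c : ℝ) (hc : 0 < c) : ∃ L0 : ℝ, ∀ L ≥ L0, 8 ≤ L ∧ 1 ≤ Real.log L ∧
    2 + 2 * (L ^ (1 / 3 : ℝ) * (Real.log L) ^ (1 / 3 : ℝ)) ≤
      c * L ^ (2 / 3 : ℝ) / (Real.log L) ^ (1 / 3 : ℝ) := by
  have hε : 0 < (c / 4) ^ (3 / 2 : ℝ) := Real.rpow_pos_of_pos (by positivity) _
  have h1 := (isLittleO_log_rpow_atTop (r := 1 / 2) (by norm_num)).def hε
  have h2 : ∀ᶠ L : ℝ in Filter.atTop, Real.exp 1 + 8 ≤ L := Filter.eventually_ge_atTop _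
  obtain ⟨L0, hL0⟩ := Filter.eventually_atTop.1 (h1.and h2)
  refine ⟨L0, fun L hL => ?_⟩
  obtain ⟨h3, h4⟩ := hL0 L hL
  have he := Real.exp_pos 1
  have hL8 : 8 ≤ L := by linarith
  have hLpos : 0 < L := by linarith
  have hlog : 1 ≤ Real.log L := by
    rw [Real.le_log_iff_exp_le hLpos]
    linarith
  refine ⟨hL8, hlog, ?_⟩
  have hlog0 : 0 < Real.log L := by linarith
  rw [Real.norm_of_nonneg hlog0.le, Real.norm_of_nonneg (by positivity)] at h3
  set u : ℝ := L ^ (1 / 3 : ℝ) with hu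
  set w : ℝ := (Real.log L) ^ (1 / 3 : ℝ) with hw
  have hu1 : 1 ≤ u := Real.one_le_rpow (by linarith) (by norm_num)
  have hw1 : 1 ≤ w := Real.one_le_rpow hlog (by norm_num)
  have hu2 : L ^ (2 / 3 : ℝ) = u ^ 2 := by
    rw [hu, ← Real.rpow_natCast, ← Real.rpow_mul hLpos.le]
    norm_num
  have hw2 : w ^ 2 = (Real.log L) ^ (2 / 3 : ℝ) := by
    rw [hw, ← Real.rpow_natCast, ← Real.rpow_mul hlog0.le]
    norm_num
  have hw3 : w ^ 2 ≤ (c / 4) * u := by
    rw [hw2]
    calc (Real.log L) ^ (2 / 3 : ℝ) ≤ ((c / 4) ^ (3 / 2 : ℝ) * L ^ (1 / 2 : ℝ)) ^ (2 / 3 : ℝ) :=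
          Real.rpow_le_rpow hlog0.le h3 (by norm_num)
      _ = (c / 4) * u := by
          rw [Real.mul_rpow hε.le (by positivity), ← Real.rpow_mul (by positivity),
            ← Real.rpow_mul hLpos.le, hu]
          norm_num
  rw [hu2, le_div_iff₀ (by linarith)]
  have h5 : w ≤ w ^ 2 := by nlinarith
  have h6 : w ≤ (c / 4) * u ^ 2 := by
    calc w ≤ (c / 4) * u := h5.trans hw3
      _ ≤ (c / 4) * u ^ 2 := by
        refine mul_le_mul_of_nonneg_left ?_ (by positivity)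
        nlinarith
  have h7 : u * w ^ 2 ≤ (c / 4) * u ^ 2 := by
    calc u * w ^ 2 ≤ u * ((c / 4) * u) := mul_le_mul_of_nonneg_left hw3 (by linarith)
      _ = (c / 4) * u ^ 2 := by ring
  nlinarith

/-- final form: `V` a `ℚ`-subspace of `ℝ` -/
theorem main4 : ∃ c > 0, ∃ L0 : ℝ, ∀ (x L : ℝ), 1 ≤ x → L0 ≤ L → ∀ V : Submodule ℚ ℝ,
    Module.Finite ℚ V →
    (Module.finrank ℚ V : ℝ) ≤ c * L ^ (1 / 3 : ℝ) / (Real.log L) ^ (2 / 3 : ℝ) →
    c * L ^ (2 / 3 : ℝ) / (Real.log L) ^ (1 / 3 : ℝ) ≤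
      (({i : ℕ | Odd i ∧ x < i ∧ (i : ℝ) ≤ L * x ∧ zr i ∉ V} : Set ℕ).ncard : ℝ) := by
  classical
  obtain ⟨C, hC0, hC⟩ := core4
  set c : ℝ := 1 / (512 + 16 * C) with hc
  have hcpos : 0 < c := by rw [hc]; positivity
  have hc1 : 512 * c ≤ 1 := by
    rw [hc, mul_one_div, div_le_one (by positivity)]
    linarith
  have hc2 : 8 * C * c < 1 := by
    rw [hc, mul_one_div, div_lt_one (by positivity)]
    linarith
  obtain ⟨L0, hL0⟩ := FIN4_log c hcpos
  refine ⟨c, hcpos, L0, fun x L hx hL V hfin hdim => ?_⟩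
  obtain ⟨hL8, hlog, hbig⟩ := hL0 L hL
  have hLpos : 0 < L := by linarith
  have hlog0 : 0 < Real.log L := by linarith
  by_contra hlt
  push Not at hlt
  -- the parameters
  set h : ℕ := 2 * ⌈x / 2⌉₊ with hh
  have hheven : Even h := even_two_mul _
  have hceil : 1 ≤ ⌈x / 2⌉₊ := Nat.ceil_pos.2 (by linarith)
  have h2 : 2 ≤ h := by omega
  have hhx : x ≤ h := by
    have := Nat.le_ceil (x / 2)
    rw [hh]
    push_cast
    linarith
  have hhx2 : (h : ℝ) ≤ x + 2 := by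
    have := (Nat.ceil_lt_add_one (show (0:ℝ) ≤ x / 2 by linarith)).le
    rw [hh]
    push_cast
    linarith
  have hLx : 8 * x ≤ L * x := mul_le_mul_of_nonneg_right hL8 (by linarith)
  have hfl := Nat.lt_floor_add_one (L * x)
  have hfl2 := Nat.floor_le (show (0:ℝ) ≤ L * x by positivity)
  have hhle : h ≤ ⌊L * x⌋₊ := by
    have : (h : ℝ) < (⌊L * x⌋₊ : ℝ) + 1 := by linarith
    exact_mod_cast Nat.lt_succ_iff.1 (by exact_mod_cast this)
  set a : ℕ := ⌊L * x⌋₊ - h with ha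
  have hah : a + h = ⌊L * x⌋₊ := by omega
  have haR : (a : ℝ) + h = ⌊L * x⌋₊ := by exact_mod_cast hah
  set u : ℝ := L ^ (1 / 3 : ℝ) with hu
  set w : ℝ := (Real.log L) ^ (1 / 3 : ℝ) with hw
  have hu1 : 1 ≤ u := Real.one_le_rpow (by linarith) (by norm_num)
  have hw1 : 1 ≤ w := Real.one_le_rpow hlog (by norm_num)
  have hu2 : L ^ (2 / 3 : ℝ) = u ^ 2 := by
    rw [hu, ← Real.rpow_natCast, ← Real.rpow_mul hLpos.le]
    norm_num
  have hu3 : u ^ 3 = L := by
    rw [hu, ← Real.rpow_natCast, ← Real.rpow_mul hLpos.le]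
    norm_num
  have hw2 : (Real.log L) ^ (2 / 3 : ℝ) = w ^ 2 := by
    rw [hw, ← Real.rpow_natCast, ← Real.rpow_mul hlog0.le]
    norm_num
  have hw3 : w ^ 3 = Real.log L := by
    rw [hw, ← Real.rpow_natCast, ← Real.rpow_mul hlog0.le]
    norm_num
  rw [hu2] at hlt hbig
  rw [hw2] at hdim
  have huw : 1 ≤ u * w := one_le_mul_of_one_le_of_one_le hu1 hw1
  set B : ℕ := ⌈u * w⌉₊ with hB
  have hBlo : u * w ≤ B := Nat.le_ceil _
  have hBhi : (B : ℝ) ≤ 2 * (u * w) := by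
    have := (Nat.ceil_lt_add_one (show (0:ℝ) ≤ u * w by linarith)).le
    linarith
  have hB1 : 1 ≤ B := Nat.ceil_pos.2 (by linarith)
  -- the exceptional set
  set N : Finset ℕ := (Icc (h + 1) (a + h)).filter
    (fun i => Odd i ∧ ¬ ∃ v ∈ V, ∃ q : ℚ, zr i = q + v) with hNdef
  have hN : ∀ i, i ∈ N ↔ (h + 1 ≤ i ∧ i ≤ a + h ∧ Odd i ∧
      ¬ ∃ v ∈ V, ∃ q : ℚ, zr i = q + v) := by
    intro i
    rw [hNdef, mem_filter, mem_Icc]
    tauto
  have hsub : (N : Set ℕ) ⊆ {i : ℕ | Odd i ∧ x < i ∧ (i : ℝ) ≤ L * x ∧ zr i ∉ V} := by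
    intro i hi
    obtain ⟨h3, h4, h5, h6⟩ := (hN i).1 (Finset.mem_coe.1 hi)
    refine ⟨h5, ?_, ?_, fun hV => h6 ⟨zr i, hV, 0, by push_cast; ring⟩⟩
    · have : (h : ℝ) + 1 ≤ i := by exact_mod_cast h3
      linarith
    · have : (i : ℝ) ≤ a + h := by exact_mod_cast h4
      linarith
  have hfinite : ({i : ℕ | Odd i ∧ x < i ∧ (i : ℝ) ≤ L * x ∧ zr i ∉ V} : Set ℕ).Finite := by
    refine (Set.finite_Iic ⌊L * x⌋₊).subset fun i hi => ?_
    exact Nat.le_floor hi.2.2.1
  have hNcard : (N.card : ℝ) ≤ c * u ^ 2 / w := by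
    have h3 := Set.ncard_le_ncard hsub hfinite
    rw [Set.ncard_coe_finset] at h3
    have h4 : (N.card : ℝ) ≤
        (({i : ℕ | Odd i ∧ x < i ∧ (i : ℝ) ≤ L * x ∧ zr i ∉ V} : Set ℕ).ncard : ℝ) := by
      exact_mod_cast h3
    exact h4.trans hlt.le
  obtain ⟨J, hJf, ψ, j0, S, z, hJ, hj0, hev, hSo, hlam⟩ := FIN4_data a B h hheven h2 V N hN
  set D : ℝ := (Fintype.card J : ℝ) + B + 1 with hD
  have hDle : D ≤ 4 * (c * u ^ 2 / w) := by
    have e1 : D = 2 + N.card + B * Module.finrank ℚ V + B := by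
      rw [hD, hJ]
      push_cast
      ring
    have e2 : (B : ℝ) * Module.finrank ℚ V ≤ 2 * (c * u ^ 2 / w) := by
      calc (B : ℝ) * Module.finrank ℚ V ≤ (2 * (u * w)) * (c * u / w ^ 2) :=
            mul_le_mul hBhi hdim (by positivity) (by positivity)
        _ = 2 * (c * u ^ 2 / w) := by
            field_simp
    rw [e1]
    linarith
  have hD0 : 0 ≤ D := by positivity
  have haL : L * x / 2 ≤ a := by linarith
  have hcond : 8 * B * (h + 1) * (Fintype.card J + B + 1) ≤ a := by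
    have hR : (8 : ℝ) * B * (h + 1) * (Fintype.card J + B + 1) ≤ a := by
      refine le_trans ?_ haL
      calc (8 : ℝ) * B * (h + 1) * (Fintype.card J + B + 1) = 8 * (B * D) * (h + 1) := by
            rw [hD]; ring
        _ ≤ 8 * ((2 * (u * w)) * (4 * (c * u ^ 2 / w))) * (4 * x) := by
            refine mul_le_mul ?_ (by linarith) (by positivity) (by positivity)
            refine mul_le_mul_of_nonneg_left ?_ (by norm_num)
            exact mul_le_mul hBhi hDle hD0 (by positivity)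
        _ = (512 * c) * (u ^ 3 * x) / 2 := by
            field_simp
            ring
        _ ≤ 1 * (u ^ 3 * x) / 2 := by
            have h9 : 0 ≤ u ^ 3 * x := by positivity
            have h10 := mul_le_mul_of_nonneg_right hc1 h9
            linarith
        _ = L * x / 2 := by rw [hu3, one_mul]
    exact_mod_cast hR
  have hfinal := hC a B h J ψ j0 S z hB1 hheven h2 hj0 hev hSo hcond hlam
  have ha0 : (0:ℝ) < a := by
    have : 0 < L * x / 2 := by positivity
    linarith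
  have hlogle : Real.log ((a : ℝ) / (h + 1)) ≤ Real.log L := by
    refine Real.log_le_log (by positivity) ?_
    rw [div_le_iff₀ (by positivity)]
    have h11 : L * x ≤ L * (h + 1) := mul_le_mul_of_nonneg_left (by linarith) hLpos.le
    have h12 : (0:ℝ) ≤ h := Nat.cast_nonneg h
    linarith
  have hRHS : C * (Fintype.card J + B + 1) * (1 + Real.log ((a : ℝ) / (h + 1))) ≤
      8 * C * c * (u ^ 2 * w ^ 2) := by
    calc C * (Fintype.card J + B + 1) * (1 + Real.log ((a : ℝ) / (h + 1)))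
        = (C * D) * (1 + Real.log ((a : ℝ) / (h + 1))) := by rw [hD]
      _ ≤ (C * D) * (2 * w ^ 3) := by
          refine mul_le_mul_of_nonneg_left ?_ (by positivity)
          rw [hw3]
          linarith
      _ ≤ (C * (4 * (c * u ^ 2 / w))) * (2 * w ^ 3) := by
          refine mul_le_mul_of_nonneg_right ?_ (by positivity)
          exact mul_le_mul_of_nonneg_left hDle hC0.le
      _ = 8 * C * c * (u ^ 2 * w ^ 2) := by
          field_simp
          ring
  have hLHS : u ^ 2 * w ^ 2 ≤ (B : ℝ) ^ 2 := by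
    rw [← mul_pow]
    exact pow_le_pow_left₀ (by positivity) hBlo 2
  have hpos : 0 < u ^ 2 * w ^ 2 := by positivity
  have hlast : u ^ 2 * w ^ 2 ≤ 8 * C * c * (u ^ 2 * w ^ 2) := hLHS.trans (hfinal.trans hRHS)
  nlinarith

end Pool.Agent.ZC
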