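import Pool.Agent.ZC.Defs
import Pool.Agent.ZC.RS

/-!
# ZC: rising sun and numbers
-/

namespace Pool.Agent.ZC

open Finset Filter

theorem eventually_log_sq (A : ℝ) : ∃ s0 : ℕ, ∀ s ≥ s0, A * (Real.log (s : ℝ)) ^ 2 ≤ (s : ℝ) := by
  have h1 := (Real.isLittleO_pow_log_id_atTop (n := 2)).comp_tendsto tendsto_natCast_atTop_atTop
  have h2 := (Asymptotics.isLittleO_iff.1 h1) (show (0 : ℝ) < 1 / (|A| + 1) by positivity)
  obtain ⟨s0, hs0⟩ := eventually_atTop.1 h2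
  refine ⟨s0, fun s hs => ?_⟩
  have h3 := hs0 s hs
  simp only [Function.comp_apply, id_eq, Real.norm_eq_abs, abs_pow, sq_abs, Nat.abs_cast] at h3
  have h4 : (0 : ℝ) < |A| + 1 := by positivity
  have h5 : (|A| + 1) * (Real.log (s : ℝ)) ^ 2 ≤ s := by
    calc (|A| + 1) * (Real.log (s : ℝ)) ^ 2 ≤ (|A| + 1) * (1 / (|A| + 1) * s) := by gcongr
      _ = s := by field_simp
  refine le_trans ?_ h5
  have h6 := le_abs_self A
  gcongr
  linarith

/-- `J` = set of indices up to `s`; if it is too small there are `a`, `B` with all conditions -/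
theorem rising_sun (C : ℝ) : ∃ c > 0, ∃ s0 : ℕ, ∀ s ≥ s0, ∀ J : Finset ℕ, J ⊆ oddS s →
    (J.card : ℝ) < c * (s : ℝ) ^ (2 / 3 : ℝ) / (Real.log s) ^ (1 / 3 : ℝ) →
    ∃ a B : ℕ, 1 ≤ B ∧ B ≤ a ∧ a ≤ s ∧
      (∀ i ∈ J.filter (· ≤ a), 8 * B * ((J.filter (· ≤ a)).filter (i ≤ ·)).card ≤ a + 1 - i) ∧
      8 * B * (1 + (J.filter (· ≤ a)).card + B) ≤ a ∧
      C * (1 + (J.filter (· ≤ a)).card + B) * (1 + Real.log a) < (B : ℝ) ^ 2 := by
  set κ : ℝ := |C| + 1 with hκ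
  have hκ1 : 1 ≤ κ := by rw [hκ]; have := abs_nonneg C; linarith
  obtain ⟨s1, hs1⟩ := eventually_log_sq ((128 * κ ^ 2) ^ 3)
  refine ⟨1 / (32 * κ), by positivity, max s1 3, fun s hs J hJ hcard => ?_⟩
  have hs3 : 3 ≤ s := (le_max_right _ _).trans hs
  have hs3' : (3 : ℝ) ≤ s := by exact_mod_cast hs3
  have hlog1 : 1 ≤ Real.log s := by
    rw [Real.le_log_iff_exp_le (by linarith)]
    have := Real.exp_one_lt_d9
    linarith
  set y : ℝ := ((s : ℝ) * Real.log s) ^ (1 / 3 : ℝ) with hy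
  have hslog : 1 ≤ (s : ℝ) * Real.log s := by nlinarith
  have hy1 : 1 ≤ y := Real.one_le_rpow hslog (by norm_num)
  have hy3 : y ^ 3 = (s : ℝ) * Real.log s := by
    rw [hy, ← Real.rpow_natCast, ← Real.rpow_mul (by linarith)]
    norm_num
  set B : ℕ := ⌈κ * y⌉₊ with hB
  have hκy : 1 ≤ κ * y := by nlinarith
  have hB1 : κ * y ≤ B := Nat.le_ceil _
  have hB2 : (B : ℝ) ≤ 2 * (κ * y) := by
    have := (Nat.ceil_lt_add_one (show 0 ≤ κ * y by positivity)).le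
    linarith
  have hBpos : (1 : ℝ) ≤ B := hκy.trans hB1
  have hBpos' : 1 ≤ B := by exact_mod_cast hBpos
  -- the cardinality
  have hprod : y * ((s : ℝ) ^ (2 / 3 : ℝ) / (Real.log s) ^ (1 / 3 : ℝ)) = s := by
    rw [hy, Real.mul_rpow (by linarith) (by linarith)]
    have h1 : (Real.log s) ^ (1 / 3 : ℝ) ≠ 0 := (Real.rpow_pos_of_pos (by linarith) _).ne'
    have h2 : (s : ℝ) ^ (1 / 3 : ℝ) * (s : ℝ) ^ (2 / 3 : ℝ) = s := by
      rw [← Real.rpow_add (by linarith)]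
      norm_num
    calc (s : ℝ) ^ (1 / 3 : ℝ) * (Real.log s) ^ (1 / 3 : ℝ) *
          ((s : ℝ) ^ (2 / 3 : ℝ) / (Real.log s) ^ (1 / 3 : ℝ)) =
          ((s : ℝ) ^ (1 / 3 : ℝ) * (s : ℝ) ^ (2 / 3 : ℝ)) *
            ((Real.log s) ^ (1 / 3 : ℝ) / (Real.log s) ^ (1 / 3 : ℝ)) := by ring
      _ = s := by rw [h2, div_self h1, mul_one]
  have hJ16 : 16 * (B : ℝ) * J.card ≤ s := by
    have h1 : (J.card : ℝ) ≤ 1 / (32 * κ) * ((s : ℝ) ^ (2 / 3 : ℝ) / (Real.log s) ^ (1 / 3 : ℝ)) := by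
      have := hcard.le
      rwa [mul_div_assoc] at this
    have h0 : 0 ≤ (s : ℝ) ^ (2 / 3 : ℝ) / (Real.log s) ^ (1 / 3 : ℝ) := by positivity
    calc 16 * (B : ℝ) * J.card ≤ 16 * (2 * (κ * y)) *
          (1 / (32 * κ) * ((s : ℝ) ^ (2 / 3 : ℝ) / (Real.log s) ^ (1 / 3 : ℝ))) := by gcongr
      _ = y * ((s : ℝ) ^ (2 / 3 : ℝ) / (Real.log s) ^ (1 / 3 : ℝ)) := by
        field_simp
        ring
      _ = s := hprod
  have hfilt : ((Finset.Icc 1 s).filter (· ∈ J)) ⊆ J := fun x hx => (Finset.mem_filter.1 hx).2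
  have hnat : 2 * (8 * B * ((Finset.Icc 1 s).filter (· ∈ J)).card) ≤ s := by
    have h1 : ((Finset.Icc 1 s).filter (· ∈ J)).card ≤ J.card := Finset.card_le_card hfilt
    have h2 : 16 * B * J.card ≤ s := by exact_mod_cast hJ16
    nlinarith
  obtain ⟨a, has, hrs, hsum⟩ := rising_sun_nat (· ∈ J) s (8 * B) hnat
  have hJpos : ∀ i ∈ J, 1 ≤ i := fun i hi => by
    have := hJ hi
    rw [oddS, Finset.mem_filter, Finset.mem_Icc] at this
    omega
  have hset : (Finset.Icc 1 a).filter (· ∈ J) = J.filter (· ≤ a) := by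
    ext x
    simp only [Finset.mem_filter, Finset.mem_Icc]
    constructor
    · rintro ⟨⟨h1, h2⟩, h3⟩; exact ⟨h3, h2⟩
    · rintro ⟨h1, h2⟩; exact ⟨⟨hJpos x h1, h2⟩, h1⟩
  rw [hset] at hsum
  -- `16 B (1+B) ≤ s`
  have hB16 : 16 * (B : ℝ) * (1 + B) ≤ s := by
    have h1 : 16 * (B : ℝ) * (1 + B) ≤ 128 * κ ^ 2 * y ^ 2 := by
      calc 16 * (B : ℝ) * (1 + B) ≤ 16 * B * (B + B) := by gcongr
        _ = 32 * (B : ℝ) ^ 2 := by ring
        _ ≤ 32 * (2 * (κ * y)) ^ 2 := by gcongr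
        _ = 128 * κ ^ 2 * y ^ 2 := by ring
    refine h1.trans ?_
    have h2 : (128 * κ ^ 2 * y ^ 2) ^ 3 ≤ (s : ℝ) ^ 3 := by
      have h3 := hs1 s ((le_max_left _ _).trans hs)
      calc (128 * κ ^ 2 * y ^ 2) ^ 3 = (128 * κ ^ 2) ^ 3 * (y ^ 3) ^ 2 := by ring
        _ = ((128 * κ ^ 2) ^ 3 * Real.log s ^ 2) * (s : ℝ) ^ 2 := by rw [hy3]; ring
        _ ≤ (s : ℝ) * (s : ℝ) ^ 2 := by gcongr
        _ = (s : ℝ) ^ 3 := by ring
    exact le_of_pow_le_pow_left₀ (by norm_num) (by linarith) h2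
  have hB16' : 16 * B * (1 + B) ≤ s := by exact_mod_cast hB16
  have hmain : 8 * B * (1 + (J.filter (· ≤ a)).card + B) ≤ a := by
    have h1 : 2 * (8 * B * (1 + (J.filter (· ≤ a)).card + B)) =
        16 * B * (1 + B) + 2 * (8 * B * (J.filter (· ≤ a)).card) := by ring
    omega
  have hBa : B ≤ a := by
    refine le_trans ?_ hmain
    nlinarith [Nat.zero_le (J.filter (· ≤ a)).card, Nat.zero_le (B * (J.filter (· ≤ a)).card)]
  refine ⟨a, B, hBpos', hBa, has, ?_, hmain, ?_⟩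
  · intro i hi
    rw [Finset.mem_filter] at hi
    have h1 := hrs i (hJpos i hi.1) hi.2
    have h2 : (Finset.Icc i a).filter (· ∈ J) = (J.filter (· ≤ a)).filter (i ≤ ·) := by
      ext x
      simp only [Finset.mem_filter, Finset.mem_Icc]
      tauto
    rw [h2] at h1
    have := hi.2
    omega
  · have hm0 : (0 : ℝ) ≤ 1 + (J.filter (· ≤ a)).card + B := by positivity
    have ha1 : (1 : ℝ) ≤ a := by exact_mod_cast hBpos'.trans hBa
    have has' : (a : ℝ) ≤ s := by exact_mod_cast has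
    have hloga : Real.log a ≤ Real.log s := Real.log_le_log (by linarith) has'
    have hloga0 : 0 ≤ Real.log a := Real.log_nonneg ha1
    have hmain' : 8 * (B : ℝ) * (1 + (J.filter (· ≤ a)).card + B) ≤ s := by
      have : ((8 * B * (1 + (J.filter (· ≤ a)).card + B) : ℕ) : ℝ) ≤ a := by exact_mod_cast hmain
      push_cast at this
      linarith
    have hCκ : C < κ := by rw [hκ]; have := le_abs_self C; linarith
    -- multiply by `8B`
    have hB0 : (0 : ℝ) < 8 * B := by linarith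
    refine lt_of_mul_lt_mul_left ?_ hB0.le
    have h1 : C * (1 + (J.filter (· ≤ a)).card + B) * (1 + Real.log a) ≤
        κ * (1 + (J.filter (· ≤ a)).card + B) * (1 + Real.log a) := by gcongr
    calc 8 * (B : ℝ) * (C * (1 + (J.filter (· ≤ a)).card + B) * (1 + Real.log a)) ≤
          8 * (B : ℝ) * (κ * (1 + (J.filter (· ≤ a)).card + B) * (1 + Real.log a)) := by gcongr
      _ = κ * (8 * (B : ℝ) * (1 + (J.filter (· ≤ a)).card + B)) * (1 + Real.log a) := by ring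
      _ ≤ κ * s * (1 + Real.log s) := by gcongr
      _ ≤ κ * s * (2 * Real.log s) := by gcongr; linarith
      _ = 2 * κ * y ^ 3 := by rw [hy3]; ring
      _ < 8 * κ ^ 3 * y ^ 3 := by
        have : 0 < y ^ 3 := by positivity
        have h3 : κ ≤ κ ^ 3 := by nlinarith [mul_self_nonneg (κ - 1)]
        nlinarith
      _ = 8 * (κ * y) ^ 3 := by ring
      _ ≤ 8 * (B : ℝ) ^ 3 := by gcongr
      _ = 8 * (B : ℝ) * (B : ℝ) ^ 2 := by ring

end Pool.Agent.ZC
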