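import Pool.Agent.ZC.COR
import Pool.Agent.ZC.RSN

/-!
# ZC: the main theorem from the core estimate and the rising sun lemma
-/

namespace Pool.Agent.ZC

open Finset

theorem main : ∃ c > 0, ∃ s0 : ℕ, ∀ s ≥ s0,
    c * (s : ℝ) ^ (2 / 3 : ℝ) / (Real.log s) ^ (1 / 3 : ℝ) ≤
      (({i : ℕ | i ∈ oddS s ∧ Irrational (zr i)} : Set ℕ).ncard : ℝ) := by
  classical
  obtain ⟨C, _, hC⟩ := core
  obtain ⟨c, hc, s0, h⟩ := rising_sun C
  refine ⟨c, hc, s0, fun s hs => ?_⟩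
  set J : Finset ℕ := (oddS s).filter fun i => Irrational (zr i) with hJ
  have hset : ({i : ℕ | i ∈ oddS s ∧ Irrational (zr i)} : Set ℕ) = (J : Set ℕ) := by
    ext i
    simp [hJ]
  rw [hset, Set.ncard_coe_finset]
  by_contra hlt
  push Not at hlt
  obtain ⟨a, B, hB, hBa, has, h1, h2, h3⟩ := h s hs J (filter_subset _ _) hlt
  have hsub : ∀ i, i ∈ oddS a → i ∈ oddS s := by
    intro i hi
    simp only [oddS, mem_filter, mem_Icc] at hi ⊢
    exact ⟨⟨hi.1.1, hi.1.2.trans has⟩, hi.2⟩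
  have hI : J.filter (· ≤ a) ⊆ oddS a := by
    intro i hi
    rw [mem_filter] at hi
    have h4 := (mem_filter.1 (hJ ▸ hi.1 : i ∈ (oddS s).filter fun i => Irrational (zr i))).1
    simp only [oddS, mem_filter, mem_Icc] at h4 ⊢
    exact ⟨⟨h4.1.1, hi.2⟩, h4.2⟩
  have hq : ∀ i ∈ oddS a \ J.filter (· ≤ a), ∃ q : ℚ, zr i = q := by
    intro i hi
    rw [mem_sdiff] at hi
    have hia : i ≤ a := by
      have h5 := hi.1
      simp only [oddS, mem_filter, mem_Icc] at h5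
      exact h5.1.2
    have hnot : ¬ Irrational (zr i) := by
      intro hirr
      exact hi.2 (mem_filter.2 ⟨by rw [hJ]; exact mem_filter.2 ⟨hsub i hi.1, hirr⟩, hia⟩)
    unfold Irrational at hnot
    push Not at hnot
    obtain ⟨q, hq⟩ := hnot
    exact ⟨q, hq.symm⟩
  have h6 := hC a B (J.filter (· ≤ a)) hB hBa hI h1 h2 hq
  exact absurd h6 (not_le.2 h3)

end Pool.Agent.ZC
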