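import Pool.Agent.ZC.MIN
import Pool.Agent.ZC.RS

/-!
# ZC: basis of the companion rows, nonzero minor, real rows
-/

namespace Pool.Agent.ZC

open Finset

/-- If the rows `G f` are independent modulo the span of the rows `A r`, then a subfamily of the
rows `A r` together with the rows `G f` has a nonzero maximal minor, and this minor does not change
(over `ℝ`) when real combinations of the rows `A r` are added to the rows `G f`. -/
theorem rows_main {R F C : Type*} [Finite R] [Fintype R] [Fintype F] [Fintype C] [DecidableEq F]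
    (A : R → C → ℚ) (G : F → C → ℚ)
    (hind : ∀ c : F → ℚ, ∑ f, c f • G f ∈ Submodule.span ℚ (Set.range A) → c = 0) :
    ∃ (k : ℕ) (e : Fin k → R) (g : Fin k ⊕ F → C), Function.Injective e ∧ Function.Injective g ∧
      (Matrix.of fun i j : Fin k ⊕ F => Sum.elim (fun i => A (e i)) G i (g j)).det ≠ 0 ∧
      ∀ lam : F → R → ℝ, (Matrix.of fun i j : Fin k ⊕ F =>
        Sum.elim (fun (i : Fin k) (c : C) => ((A (e i) c : ℚ) : ℝ))
          (fun (f : F) (c : C) => ((G f c : ℚ) : ℝ) + ∑ r, lam f r * ((A r c : ℚ) : ℝ)) i (g j)).det =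
        (((Matrix.of fun i j : Fin k ⊕ F => Sum.elim (fun i => A (e i)) G i (g j)).det : ℚ) : ℝ) := by
  classical
  obtain ⟨κ, a, ha, hspan, hli⟩ := exists_linearIndependent' ℚ A
  have : Finite κ := Finite.of_injective a ha
  obtain ⟨k, ⟨e0⟩⟩ := Finite.exists_equiv_fin κ
  set e : Fin k → R := a ∘ e0.symm with he
  have he_inj : Function.Injective e := ha.comp e0.symm.injective
  have hliE : LinearIndependent ℚ (A ∘ e) := by
    have := hli.comp e0.symm e0.symm.injective
    exact this
  have hrange : Set.range (A ∘ e) = Set.range (A ∘ a) := by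
    have : A ∘ e = (A ∘ a) ∘ e0.symm := rfl
    rw [this, e0.symm.surjective.range_comp]
  have hspanE : Submodule.span ℚ (Set.range (A ∘ e)) = Submodule.span ℚ (Set.range A) := by
    rw [hrange, hspan]
  have hG : LinearIndependent ℚ G := by
    rw [Fintype.linearIndependent_iff]
    intro c hc
    have := hind c (by rw [hc]; exact Submodule.zero_mem _)
    exact fun i => congrFun this i
  have hdisj : Disjoint (Submodule.span ℚ (Set.range (A ∘ e))) (Submodule.span ℚ (Set.range G)) := by
    rw [Submodule.disjoint_def]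
    intro x hx1 hx2
    rw [hspanE] at hx1
    obtain ⟨c, rfl⟩ := (Submodule.mem_span_range_iff_exists_fun ℚ).1 hx2
    have := hind c hx1
    simp [this]
  have hall : LinearIndependent ℚ (Sum.elim (A ∘ e) G) := LinearIndependent.sum_type hliE hG hdisj
  obtain ⟨g, hg, hdet⟩ := exists_minor (Matrix.of fun (i : Fin k ⊕ F) (c : C) => Sum.elim (A ∘ e) G i c) hall
  refine ⟨k, e, g, he_inj, hg, hdet, fun lam => ?_⟩
  -- expansion of all companion rows
  have hexp : ∀ r, ∃ μ : Fin k → ℚ, ∑ i, μ i • A (e i) = A r := by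
    intro r
    have h1 : A r ∈ Submodule.span ℚ (Set.range (A ∘ e)) := by
      rw [hspanE]; exact Submodule.subset_span ⟨r, rfl⟩
    exact (Submodule.mem_span_range_iff_exists_fun ℚ).1 h1
  choose μ hμ using hexp
  set M0 : Matrix (Fin k ⊕ F) (Fin k ⊕ F) ℚ :=
    Matrix.of fun i j : Fin k ⊕ F => Sum.elim (fun i => A (e i)) G i (g j) with hM0
  have hcast : ((M0.det : ℚ) : ℝ) = ((Rat.castHom ℝ).mapMatrix M0).det := by
    rw [← RingHom.map_det]; rfl
  rw [hcast]
  refine det_row_ops _ _ (univ.image Sum.inr)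
    (fun i j => Sum.elim (fun _ => (0 : ℝ)) (fun f => Sum.elim
      (fun i' : Fin k => ∑ r, lam f r * ((μ r i' : ℚ) : ℝ)) (fun _ => 0) j) i) ?_ ?_
  · rintro (i | f) hi j
    · rfl
    · exact absurd (Finset.mem_image_of_mem _ (Finset.mem_univ f)) hi
  · rintro (i | f) hi j
    · simp at hi
    · simp only [Matrix.of_apply, Sum.elim_inr, RingHom.mapMatrix_apply, Matrix.map_apply, hM0]
      congr 1
      have hcompl : ((univ.image Sum.inr : Finset (Fin k ⊕ F)))ᶜ = univ.image Sum.inl := by
        ext x
        rcases x with x | x <;> simp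
      rw [hcompl, Finset.sum_image (fun x _ y _ hxy => Sum.inl_injective hxy)]
      simp only [Sum.elim_inl]
      have h2 : ∀ r, ((A r (g j) : ℚ) : ℝ) = ∑ i', ((μ r i' : ℚ) : ℝ) * ((A (e i') (g j) : ℚ) : ℝ) := by
        intro r
        have := congrFun (hμ r) (g j)
        rw [← this]
        simp only [Finset.sum_apply, Pi.smul_apply, smul_eq_mul]
        push_cast
        rfl
      have h3 : ∑ r, lam f r * ((A r (g j) : ℚ) : ℝ) =
          ∑ r, ∑ i', lam f r * (((μ r i' : ℚ) : ℝ) * ((A (e i') (g j) : ℚ) : ℝ)) :=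
        Finset.sum_congr rfl fun r _ => by rw [h2 r, Finset.mul_sum]
      rw [h3, Finset.sum_comm]
      refine Finset.sum_congr rfl fun i' _ => ?_
      rw [Finset.sum_mul]
      refine Finset.sum_congr rfl fun r _ => ?_
      simp only [eq_ratCast]
      ring

end Pool.Agent.ZC
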