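import Pool.Agent.ZC.ZE4F
import Pool.Agent.ZC.LI
import Mathlib.Algebra.Polynomial.Sequence

/-!
# ZC V4: the `F` rows are independent modulo the companions
-/

namespace Pool.Agent.ZC

open Finset

theorem MD4_degree_Bp (m j : ℕ) : (Bp ℚ m j).degree = j := by
  unfold Bp
  rw [Polynomial.degree_prod_of_monic _ _ (fun k _ => Polynomial.monic_X_sub_C _)]
  simp only [Polynomial.degree_X_sub_C, Finset.sum_const, Finset.card_range, nsmul_eq_mul, mul_one]

theorem MD4_degree_Bn (m j : ℕ) : (Bn ℚ m j).degree = j := by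
  unfold Bn
  rw [Polynomial.degree_C_mul (LI_const_ne _ _), MD4_degree_Bp]

theorem MD4_sum_mem (m n : ℕ) (g : Fin n → ℚ) :
    ∑ j : Fin n, Polynomial.C (g j) * Bn ℚ m j ∈ Polynomial.degreeLT ℚ n := by
  refine Submodule.sum_mem _ fun j _ => ?_
  rw [← Polynomial.smul_eq_C_mul]
  refine Submodule.smul_mem _ _ ?_
  rw [Polynomial.mem_degreeLT, MD4_degree_Bn]
  exact_mod_cast j.2

/-- the polynomials `Bn` as a sequence -/
noncomputable def MD4_seq (m : ℕ) : Polynomial.Sequence ℚ where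
  elems' := fun j => Bn ℚ m j
  degree_eq' := fun j => MD4_degree_Bn m j

theorem MD4_sum_eq_zero (m n : ℕ) (g : Fin n → ℚ)
    (h : ∑ j : Fin n, Polynomial.C (g j) * Bn ℚ m j = 0) : ∀ j, g j = 0 := by
  have h1 : LinearIndependent ℚ (fun j : Fin n => Bn ℚ m j) :=
    (MD4_seq m).linearIndependent.comp (fun j : Fin n => (j : ℕ)) Fin.val_injective
  exact Fintype.linearIndependent_iff.1 h1 g (by simpa only [Polynomial.smul_eq_C_mul] using h)

theorem MD4_pow_mul_mem (M p b h n N : ℕ) (hb : 0 < b) (hn : n = (h + 1) * (2 * b * p) + N)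
    {f : Polynomial ℚ} (hf : f ∈ Polynomial.degreeLT ℚ N) :
    An ℚ M p b ^ (h + 1) * f ∈ Polynomial.degreeLT ℚ n := by
  rw [Polynomial.mem_degreeLT] at hf ⊢
  have h2 : (An ℚ M p b ^ (h + 1)).degree ≤ (((h + 1) * (2 * b * p) : ℕ) : WithBot ℕ) :=
    Polynomial.natDegree_le_iff_degree_le.1
      (Polynomial.natDegree_pow_le.trans (Nat.mul_le_mul_left _ (LI_natDegree_An_le M p _)))
  rw [Polynomial.degree_mul, hn, Nat.cast_add]
  exact WithBot.add_lt_add_of_le_of_lt (Polynomial.degree_ne_bot.2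
    (pow_ne_zero _ (LI_An_ne_zero M p _ hb))) h2 hf

/-- `F` rows independent modulo the companions -/
theorem row4_mod (a B h : ℕ) (hB : 1 ≤ B) (hh : Even h) (J : Type)
    [Fintype J] (ψ : J → PowerSeries ℚ) (hψ : ∀ j, ∀ r, Odd r → PowerSeries.coeff r (ψ j) = 0)
    (S : Finset ℕ) (hS : ∀ i ∈ S, Odd i) (z : ℕ → ℚ)
    (hm : 8 * B * (h + 1) * (Fintype.card J + B + 1) ≤ a) :
    ∃ p0 : ℕ, ∀ p ≥ p0, ∀ m > 0, ∀ (c : J × Fin (4 * B * ((h + 1) * p)) → ℚ)
      (f : (Σ β : Fin B, Fin ((4 * B - 2 * (2 * (β : ℕ) + 1)) * ((h + 1) * p))) → ℚ),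
      (∀ l < p, ∀ r < a,
        ∑ i, c i * PowerSeries.coeff r (row4 ℚ J h m B p ψ S z l (.inl i)) +
        ∑ j, f j * PowerSeries.coeff r (row4 ℚ J h m B p ψ S z l (.inr j)) = 0) →
      ∀ j, f j = 0 := by
  classical
  obtain ⟨p0, h0⟩ := ze4 (K := ℚ) a B h hB hh J ψ hψ S hS z hm
  refine ⟨p0, fun p hp m _ c f hrow => ?_⟩
  set q : J → Polynomial ℚ := fun j =>
    ∑ i : Fin (4 * B * ((h + 1) * p)), Polynomial.C (c (j, i)) * Bn ℚ m i with hq
  set P : ℕ → Polynomial ℚ := fun β => if hβ : β < B then An ℚ (2 * m) p (2 * β + 1) ^ (h + 1) *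
    ∑ j : Fin ((4 * B - 2 * (2 * β + 1)) * ((h + 1) * p)),
      Polynomial.C (f ⟨⟨β, hβ⟩, j⟩) * Bn ℚ m j else 0 with hP
  have hrel : ∀ l < p, (PowerSeries.X : PowerSeries ℚ) ^ a ∣ ∑ j, ψ j * ev ℚ p l (q j) +
        ∑ β ∈ range B, ev ℚ p l (P β) * hs ℚ h (Gs ℚ p (2 * β + 1) l S z) := by
    intro l hl
    have e : ∑ j, ψ j * ev ℚ p l (q j) +
        ∑ β ∈ range B, ev ℚ p l (P β) * hs ℚ h (Gs ℚ p (2 * β + 1) l S z) =
        ∑ i, PowerSeries.C (c i) * row4 ℚ J h m B p ψ S z l (.inl i) +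
        ∑ j, PowerSeries.C (f j) * row4 ℚ J h m B p ψ S z l (.inr j) := by
      congr 1
      · rw [Fintype.sum_prod_type]
        refine Finset.sum_congr rfl fun j _ => ?_
        simp only [hq]
        rw [LI_ev_sum, Finset.mul_sum]
        refine Finset.sum_congr rfl fun i _ => ?_
        rw [LI_ev_C, row4]
        ring
      · rw [Finset.sum_range, Fintype.sum_sigma]
        refine Finset.sum_congr rfl fun β _ => ?_
        simp only [hP, β.2, dif_pos]
        rw [LI_ev_mul, LI_ev_sum, Finset.mul_sum, Finset.sum_mul]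
        refine Finset.sum_congr rfl fun j _ => ?_
        rw [LI_ev_C, row4, fP, LI_ev_mul]
        ring
    rw [e, PowerSeries.X_pow_dvd_iff]
    intro r hr
    rw [map_add, map_sum, map_sum, ← hrow l hl r hr]
    congr 1
    · exact Finset.sum_congr rfl fun i _ => PowerSeries.coeff_C_mul _ _ _
    · exact Finset.sum_congr rfl fun i _ => PowerSeries.coeff_C_mul _ _ _
  have hP0 := h0 p hp q P (fun j => MD4_sum_mem m _ _) (by
    intro β hβ
    simp only [hP, hβ, dif_pos]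
    refine MD4_pow_mul_mem (2 * m) p _ h _ _ (by omega) ?_ (MD4_sum_mem m _ _)
    have h1 : (h + 1) * (2 * (2 * β + 1) * p) = 2 * (2 * β + 1) * ((h + 1) * p) := by ring
    rw [h1, ← add_mul]
    congr 1
    omega) hrel
  rintro ⟨β, j⟩
  have h1 := hP0 β β.2
  simp only [hP, β.2, dif_pos] at h1
  rcases mul_eq_zero.1 h1 with h2 | h2
  · exact absurd h2 (pow_ne_zero _ (LI_An_ne_zero (2 * m) p _ (by omega)))
  · exact MD4_sum_eq_zero m _ _ h2 j

end Pool.Agent.ZC
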