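import Pool.Agent.ZC.FIN4

/-!
# Many odd zeta values lie outside every rational subspace of small dimension, in every long
interval
-/

namespace Pool.Agent.ZC.MOS

/-- There are `c > 0` and `L0` such that for all real `x ≥ 1`, `L ≥ L0` and every `ℚ`-subspace `V`
of `ℝ` of dimension at most `c L ^ (1/3) / (log L) ^ (2/3)`, at least
`c L ^ (2/3) / (log L) ^ (1/3)` odd integers `i` with `x < i ≤ L x` satisfy `ζ(i) ∉ V`. -/
theorem result : ∃ c : ℝ, 0 < c ∧ ∃ L0 : ℝ, ∀ x L : ℝ, 1 ≤ x → L0 ≤ L →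
    ∀ V : Submodule ℚ ℝ, Module.Finite ℚ V →
      (Module.finrank ℚ V : ℝ) ≤ c * L ^ (1 / 3 : ℝ) / Real.log L ^ (2 / 3 : ℝ) →
      c * L ^ (2 / 3 : ℝ) / Real.log L ^ (1 / 3 : ℝ) ≤
        (({i : ℕ | Odd i ∧ x < (i : ℝ) ∧ (i : ℝ) ≤ L * x ∧
          (∑' n : ℕ, 1 / ((n : ℝ) + 1) ^ i) ∉ V} : Set ℕ).ncard : ℝ) := by
  obtain ⟨c, hc, L0, h⟩ := Pool.Agent.ZC.main4
  exact ⟨c, hc, L0, fun x L hx hL V hV hd => h x L hx hL V hV hd⟩

end Pool.Agent.ZC.MOS
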