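import Pool.Agent.ZC.LZ

/-!
# ZC: rational functions which are not of the form `α(t) - α(t+1)`
-/

namespace Pool.Agent.ZC

open Polynomial

variable {K : Type*} [Field K]

/-- the inclusion of the polynomials in the rational functions -/
noncomputable abbrev emb (K : Type*) [Field K] : K[X] →+* FractionRing K[X] :=
  algebraMap K[X] (FractionRing K[X])

theorem emb_inj {p q : K[X]} (h : emb K p = emb K q) : p = q :=
  IsFractionRing.injective K[X] (FractionRing K[X]) h

theorem emb_ne_zero {p : K[X]} (h : p ≠ 0) : emb K p ≠ 0 := fun h0 => h (emb_inj (by rw [h0, map_zero]))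

/-- `f` is regular at `x` -/
def Reg (x : K) (f : FractionRing K[X]) : Prop := ∃ P Q : K[X], Q.eval x ≠ 0 ∧ f = emb K P / emb K Q

theorem ne_zero_of_eval {Q : K[X]} {x : K} (h : Q.eval x ≠ 0) : Q ≠ 0 := by
  rintro rfl
  simp at h

theorem Reg.emb {x : K} (P : K[X]) : Reg x (emb K P) := ⟨P, 1, by simp, by simp⟩

theorem Reg.add {x : K} {f g : FractionRing K[X]} (hf : Reg x f) (hg : Reg x g) : Reg x (f + g) := by
  obtain ⟨P, Q, hQ, rfl⟩ := hf
  obtain ⟨P', Q', hQ', rfl⟩ := hg
  refine ⟨P * Q' + Q * P', Q * Q', by rw [eval_mul]; exact mul_ne_zero hQ hQ', ?_⟩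
  rw [div_add_div _ _ (emb_ne_zero (ne_zero_of_eval hQ)) (emb_ne_zero (ne_zero_of_eval hQ'))]
  simp only [map_add, map_mul]

theorem Reg.mul {x : K} {f g : FractionRing K[X]} (hf : Reg x f) (hg : Reg x g) : Reg x (f * g) := by
  obtain ⟨P, Q, hQ, rfl⟩ := hf
  obtain ⟨P', Q', hQ', rfl⟩ := hg
  refine ⟨P * P', Q * Q', by rw [eval_mul]; exact mul_ne_zero hQ hQ', ?_⟩
  rw [div_mul_div_comm]
  simp only [map_mul]

theorem Reg.neg {x : K} {f : FractionRing K[X]} (hf : Reg x f) : Reg x (-f) := by
  obtain ⟨P, Q, hQ, rfl⟩ := hf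
  exact ⟨-P, Q, hQ, by rw [map_neg, neg_div]⟩

theorem Reg.sub {x : K} {f g : FractionRing K[X]} (hf : Reg x f) (hg : Reg x g) : Reg x (f - g) := by
  rw [sub_eq_add_neg]; exact hf.add hg.neg

theorem Reg.zero {x : K} : Reg x (0 : FractionRing K[X]) := ⟨0, 1, by simp, by simp⟩

theorem Reg.sum {x : K} {ι : Type*} (s : Finset ι) {f : ι → FractionRing K[X]}
    (h : ∀ i ∈ s, Reg x (f i)) : Reg x (∑ i ∈ s, f i) := by
  classical
  induction s using Finset.induction_on with
  | empty => simpa using Reg.zero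
  | insert a s ha ih =>
    rw [Finset.sum_insert ha]
    exact (h a (Finset.mem_insert_self _ _)).add (ih fun i hi => h i (Finset.mem_insert_of_mem hi))

/-- `1 / (X - y)` -/
noncomputable def pin (y : K) : FractionRing K[X] := (emb K (X - C y))⁻¹

theorem Reg.pin {x y : K} (h : x ≠ y) : Reg x (pin y) :=
  ⟨1, X - C y, by simpa [sub_eq_zero] using h, by rw [map_one, one_div]; rfl⟩

theorem not_reg_pin {x c : K} (h : Reg x (emb K (C c) * pin x)) : c = 0 := by
  obtain ⟨P, Q, hQ, hPQ⟩ := h
  have h1 : emb K (X - C x) ≠ 0 := emb_ne_zero (X_sub_C_ne_zero x)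
  have h2 : emb K Q ≠ 0 := emb_ne_zero (ne_zero_of_eval hQ)
  rw [ZC.pin, ← div_eq_mul_inv, div_eq_div_iff h1 h2, ← map_mul, ← map_mul] at hPQ
  have h3 := congrArg (fun p : K[X] => p.eval x) (emb_inj hPQ)
  simp only [eval_mul, eval_C, eval_sub, eval_X, sub_self, mul_zero] at h3
  rcases mul_eq_zero.1 h3 with h4 | h4
  · exact h4
  · exact absurd h4 hQ

section shift

variable [CharZero K]

omit [CharZero K] in
theorem shf_pin (y : K) : shf K (pin y) = pin (y - 1) := by
  unfold pin
  rw [map_inv₀, shf_algebraMap]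
  congr 2
  simp only [sub_comp, X_comp, C_comp, C_sub]
  ring

omit [CharZero K] in
theorem iter_shf_pin (y : K) (r : ℕ) : ((shf K)^[r]) (pin y) = pin (y - r) := by
  induction r with
  | zero => simp
  | succ r ih =>
    rw [Function.iterate_succ_apply', ih, shf_pin]
    congr 1
    push_cast
    ring

theorem iter_shf_C (c : K) (r : ℕ) : ((shf K)^[r]) (emb K (C c)) = emb K (C c) := by
  rw [iterate_shf, C_comp]

omit [CharZero K] in
theorem iter_shf_mul (f g : FractionRing K[X]) (r : ℕ) :
    ((shf K)^[r]) (f * g) = ((shf K)^[r]) f * ((shf K)^[r]) g := by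
  induction r with
  | zero => rfl
  | succ r ih => simp only [Function.iterate_succ_apply', ih, map_mul]

theorem iter_shf_sum {ι : Type*} (s : Finset ι) (f : ι → FractionRing K[X]) (r : ℕ) :
    ((shf K)^[r]) (∑ i ∈ s, f i) = ∑ i ∈ s, ((shf K)^[r]) (f i) := by
  induction r with
  | zero => rfl
  | succ r ih => simp only [Function.iterate_succ_apply', ih, map_sum]

omit [CharZero K] in
theorem Reg.shf {x : K} {f : FractionRing K[X]} (h : Reg (x + 1) f) : Reg x (shf K f) := by
  obtain ⟨P, Q, hQ, rfl⟩ := h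
  refine ⟨P.comp (X + C 1), Q.comp (X + C 1), by simpa [eval_comp] using hQ, ?_⟩
  rw [map_div₀, shf_algebraMap, shf_algebraMap]

theorem Reg.iter {x : K} {f : FractionRing K[X]} (r : ℕ) (h : Reg (x + r) f) :
    Reg x (((ZC.shf K)^[r]) f) := by
  induction r generalizing x with
  | zero => simpa using h
  | succ r ih =>
    rw [Function.iterate_succ_apply']
    apply Reg.shf
    apply ih
    have : x + 1 + (r : K) = x + ((r + 1 : ℕ) : K) := by push_cast; ring
    rw [this]
    exact h

theorem exists_reg (x : K) (f : FractionRing K[X]) :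
    ∃ N : ℕ, ∀ m : ℤ, (N : ℤ) ≤ |m| → Reg (x + m) f := by
  obtain ⟨P, Q, hQ, hf⟩ := IsFractionRing.div_surjective (A := K[X]) f
  have hQ0 : Q ≠ 0 := nonZeroDivisors.ne_zero hQ
  have hfin : {m : ℤ | Q.eval (x + m) = 0}.Finite := by
    have h1 : ((fun m : ℤ => x + (m : K)) ⁻¹' {y | Q.IsRoot y}).Finite := by
      apply Set.Finite.preimage
      · intro a _ b _ hab
        simpa using hab
      · exact Polynomial.finite_setOfPred_isRoot hQ0
    exact h1
  obtain ⟨N, hN⟩ : ∃ N : ℕ, ∀ m ∈ {m : ℤ | Q.eval (x + m) = 0}, |m| < N := by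
    obtain ⟨B, hB⟩ := (hfin.image fun m : ℤ => |m|).bddAbove
    refine ⟨(B + 1).toNat, fun m hm => ?_⟩
    have h1 : |m| ≤ B := hB ⟨m, hm, rfl⟩
    have h2 := abs_nonneg m
    omega
  refine ⟨N, fun m hm => ⟨P, Q, fun h0 => ?_, hf.symm⟩⟩
  have := hN m h0
  omega

theorem sum_iter_sub (σ : FractionRing K[X] →+* FractionRing K[X]) (α : FractionRing K[X]) (n : ℕ) :
    ∑ r ∈ Finset.range n, (σ^[r]) (α - σ α) = α - (σ^[n]) α := by
  induction n with
  | zero => simp
  | succ n ih =>
    rw [Finset.sum_range_succ, ih]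
    have : ∀ r, (σ^[r]) (α - σ α) = (σ^[r]) α - (σ^[r + 1]) α := by
      intro r
      induction r with
      | zero => simp
      | succ r ih => rw [Function.iterate_succ_apply', ih, map_sub, ← Function.iterate_succ_apply' σ,
          ← Function.iterate_succ_apply' σ]
    rw [this n]
    ring

/-- **Non-summability.** -/
theorem nonsum {J : Type*} [Fintype J] (c y : J → K) (x : K) (α : FractionRing K[X])
    (h : ∑ j, emb K (C (c j)) * pin (y j) = α - shf K α) :
    ∑ j, (open Classical in if ∃ m : ℤ, y j = x + m then c j else 0) = 0 := by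
  classical
  obtain ⟨N1, hN1⟩ := exists_reg x α
  -- bound for the integers m_j
  obtain ⟨N2, hN2⟩ : ∃ N2 : ℕ, ∀ j, ∀ m : ℤ, y j = x + m → |m| < N2 := by
    have : ∀ j, ∃ N2 : ℕ, ∀ m : ℤ, y j = x + m → |m| < N2 := by
      intro j
      by_cases hj : ∃ m : ℤ, y j = x + m
      · obtain ⟨m, hm⟩ := hj
        refine ⟨m.natAbs + 1, fun m' hm' => ?_⟩
        have : (m' : K) = m := by
          have := hm'.symm.trans hm
          simpa using this
        have : m' = m := by exact_mod_cast this
        rw [this]; push_cast; omega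
      · exact ⟨0, fun m hm => absurd ⟨m, hm⟩ hj⟩
    choose N hN using this
    refine ⟨∑ j, N j, fun j m hm => (hN j m hm).trans_le ?_⟩
    exact_mod_cast Finset.single_le_sum (f := N) (fun _ _ => Nat.zero_le _) (Finset.mem_univ j)
  set N := N1 + N2 + 1 with hNdef
  set x1 : K := x - N with hx1
  have hL : ∑ r ∈ Finset.range (2 * N), ((shf K)^[r]) (∑ j, emb K (C (c j)) * pin (y j)) =
      ∑ j, ∑ r ∈ Finset.range (2 * N), emb K (C (c j)) * pin (y j - r) := by
    rw [Finset.sum_comm]
    refine Finset.sum_congr rfl fun r _ => ?_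
    rw [iter_shf_sum]
    refine Finset.sum_congr rfl fun j _ => ?_
    rw [iter_shf_mul, iter_shf_C, iter_shf_pin]
  have hR : Reg x1 (∑ r ∈ Finset.range (2 * N), ((shf K)^[r]) (∑ j, emb K (C (c j)) * pin (y j))) := by
    rw [h, sum_iter_sub]
    apply Reg.sub
    · have := hN1 (-(N : ℤ)) (by rw [abs_neg, Nat.abs_cast]; omega)
      have e : x + ((-(N : ℤ) : ℤ) : K) = x1 := by rw [hx1]; push_cast; ring
      rwa [e] at this
    · apply Reg.iter
      have := hN1 (N : ℤ) (by rw [Nat.abs_cast]; omega)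
      have e : x + (((N : ℤ) : ℤ) : K) = x1 + ((2 * N : ℕ) : K) := by rw [hx1]; push_cast; ring
      rwa [e] at this
  have hj : ∀ j, Reg x1 (∑ r ∈ Finset.range (2 * N), emb K (C (c j)) * pin (y j - r) -
      emb K (C (if ∃ m : ℤ, y j = x + m then c j else 0)) * pin x1) := by
    intro j
    by_cases hjm : ∃ m : ℤ, y j = x + m
    · rw [if_pos hjm]
      obtain ⟨m, hm⟩ := hjm
      have hmN := hN2 j m hm
      have hr0 : (m + N).toNat ∈ Finset.range (2 * N) := by
        rw [Finset.mem_range]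
        have := abs_lt.1 hmN
        omega
      have hrc : (((m + N).toNat : ℕ) : K) = m + N := by
        have h1 : (((m + N).toNat : ℕ) : ℤ) = m + N := Int.toNat_of_nonneg (by
          have := abs_lt.1 hmN
          omega)
        have h2 := congrArg (fun z : ℤ => (z : K)) h1
        push_cast at h2
        exact h2
      rw [← Finset.add_sum_erase _ _ hr0]
      have e : y j - (((m + N).toNat : ℕ) : K) = x1 := by rw [hrc, hm, hx1]; ring
      rw [e, add_sub_cancel_left]
      refine Reg.sum _ fun r hr => (Reg.emb _).mul (Reg.pin ?_)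
      intro h0
      apply (Finset.mem_erase.1 hr).1
      have : (r : K) = (((m + N).toNat : ℕ) : K) := by
        rw [hrc]
        rw [hm, hx1] at h0
        linear_combination h0
      exact_mod_cast this
    · rw [if_neg hjm, C_0, map_zero, zero_mul, sub_zero]
      refine Reg.sum _ fun r _ => (Reg.emb _).mul (Reg.pin ?_)
      intro h0
      apply hjm
      refine ⟨(r : ℤ) - N, ?_⟩
      push_cast
      rw [hx1] at h0
      linear_combination -h0
  have hfin : Reg x1 (emb K (C (∑ j, (if ∃ m : ℤ, y j = x + m then c j else 0))) * pin x1) := by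
    have e : emb K (C (∑ j, (if ∃ m : ℤ, y j = x + m then c j else 0))) * pin x1 =
        ∑ r ∈ Finset.range (2 * N), ((shf K)^[r]) (∑ j, emb K (C (c j)) * pin (y j)) -
        ∑ j, (∑ r ∈ Finset.range (2 * N), emb K (C (c j)) * pin (y j - r) -
          emb K (C (if ∃ m : ℤ, y j = x + m then c j else 0)) * pin x1) := by
      rw [hL, Finset.sum_sub_distrib, sub_sub_cancel, map_sum, map_sum, Finset.sum_mul]
    rw [e]
    exact hR.sub (Reg.sum _ fun j _ => hj j)
  exact not_reg_pin hfin

end shift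

end Pool.Agent.ZC
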