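import Pool.Agent.ZC.NS

/-!
# ZC: non-summability with powers
-/

namespace Pool.Agent.ZC

open Polynomial

variable {K : Type*} [Field K]

theorem Reg.pow {x : K} {f : FractionRing K[X]} (hf : Reg x f) (n : ℕ) : Reg x (f ^ n) := by
  induction n with
  | zero => rw [pow_zero]; exact ⟨1, 1, by simp, by simp⟩
  | succ n ih => rw [pow_succ]; exact ih.mul hf

theorem not_reg_pin_pow {x c : K} {h : ℕ} (hr : Reg x (emb K (C c) * pin x ^ (h + 1))) : c = 0 := by
  obtain ⟨P, Q, hQ, hPQ⟩ := hr
  have h1 : emb K ((X - C x) ^ (h + 1)) ≠ 0 := emb_ne_zero (pow_ne_zero _ (X_sub_C_ne_zero x))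
  have h2 : emb K Q ≠ 0 := emb_ne_zero (ne_zero_of_eval hQ)
  rw [ZC.pin, inv_pow, ← map_pow, ← div_eq_mul_inv, div_eq_div_iff h1 h2, ← map_mul, ← map_mul] at hPQ
  have h3 := congrArg (fun p : K[X] => p.eval x) (emb_inj hPQ)
  simp only [eval_mul, eval_C, eval_sub, eval_X, sub_self, eval_pow, mul_zero, ne_eq, Nat.succ_ne_zero,
    not_false_eq_true, zero_pow] at h3
  rcases mul_eq_zero.1 h3 with h4 | h4
  · exact h4
  · exact absurd h4 hQ

section shift

variable [CharZero K]

omit [CharZero K] in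
theorem iter_pow (f : FractionRing K[X]) (n r : ℕ) :
    ((shf K)^[r]) (f ^ n) = (((shf K)^[r]) f) ^ n := by
  induction r with
  | zero => rfl
  | succ r ih => simp only [Function.iterate_succ_apply', ih, map_pow]

/-- **Non-summability**, with powers. -/
theorem nonsum_pow (h : ℕ) {J : Type*} [Fintype J] (c y : J → K) (x : K) (α : FractionRing K[X])
    (hs : ∑ j, emb K (C (c j)) * pin (y j) ^ (h + 1) = α - shf K α) :
    ∑ j, (open Classical in if ∃ m : ℤ, y j = x + m then c j else 0) = 0 := by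
  classical
  obtain ⟨N1, hN1⟩ := exists_reg x α
  -- bound for the integers m_j
  obtain ⟨N2, hN2⟩ : ∃ N2 : ℕ, ∀ j, ∀ m : ℤ, y j = x + m → |m| < N2 := by
    have : ∀ j, ∃ N2 : ℕ, ∀ m : ℤ, y j = x + m → |m| < N2 := by
      intro j
      by_cases hj : ∃ m : ℤ, y j = x + m
      · obtain ⟨m, hm⟩ := hj
        refine ⟨m.natAbs + 1, fun m' hm' => ?_⟩
        have : (m' : K) = m := by
          have := hm'.symm.trans hm
          simpa using this
        have : m' = m := by exact_mod_cast this
        rw [this]; push_cast; omega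
      · exact ⟨0, fun m hm => absurd ⟨m, hm⟩ hj⟩
    choose N hN using this
    refine ⟨∑ j, N j, fun j m hm => (hN j m hm).trans_le ?_⟩
    exact_mod_cast Finset.single_le_sum (f := N) (fun _ _ => Nat.zero_le _) (Finset.mem_univ j)
  set N := N1 + N2 + 1 with hNdef
  set x1 : K := x - N with hx1
  have hL : ∑ r ∈ Finset.range (2 * N), ((shf K)^[r]) (∑ j, emb K (C (c j)) * pin (y j) ^ (h + 1)) =
      ∑ j, ∑ r ∈ Finset.range (2 * N), emb K (C (c j)) * pin (y j - r) ^ (h + 1) := by
    rw [Finset.sum_comm]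
    refine Finset.sum_congr rfl fun r _ => ?_
    rw [iter_shf_sum]
    refine Finset.sum_congr rfl fun j _ => ?_
    rw [iter_shf_mul, iter_shf_C, iter_pow, iter_shf_pin]
  have hR : Reg x1 (∑ r ∈ Finset.range (2 * N), ((shf K)^[r]) (∑ j, emb K (C (c j)) * pin (y j) ^ (h + 1))) := by
    rw [hs, sum_iter_sub]
    apply Reg.sub
    · have := hN1 (-(N : ℤ)) (by rw [abs_neg, Nat.abs_cast]; omega)
      have e : x + ((-(N : ℤ) : ℤ) : K) = x1 := by rw [hx1]; push_cast; ring
      rwa [e] at this
    · apply Reg.iter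
      have := hN1 (N : ℤ) (by rw [Nat.abs_cast]; omega)
      have e : x + (((N : ℤ) : ℤ) : K) = x1 + ((2 * N : ℕ) : K) := by rw [hx1]; push_cast; ring
      rwa [e] at this
  have hj : ∀ j, Reg x1 (∑ r ∈ Finset.range (2 * N), emb K (C (c j)) * pin (y j - r) ^ (h + 1) -
      emb K (C (if ∃ m : ℤ, y j = x + m then c j else 0)) * pin x1 ^ (h + 1)) := by
    intro j
    by_cases hjm : ∃ m : ℤ, y j = x + m
    · rw [if_pos hjm]
      obtain ⟨m, hm⟩ := hjm
      have hmN := hN2 j m hm
      have hr0 : (m + N).toNat ∈ Finset.range (2 * N) := by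
        rw [Finset.mem_range]
        have := abs_lt.1 hmN
        omega
      have hrc : (((m + N).toNat : ℕ) : K) = m + N := by
        have h1 : (((m + N).toNat : ℕ) : ℤ) = m + N := Int.toNat_of_nonneg (by
          have := abs_lt.1 hmN
          omega)
        have h2 := congrArg (fun z : ℤ => (z : K)) h1
        push_cast at h2
        exact h2
      rw [← Finset.add_sum_erase _ _ hr0]
      have e : y j - (((m + N).toNat : ℕ) : K) = x1 := by rw [hrc, hm, hx1]; ring
      rw [e, add_sub_cancel_left]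
      refine Reg.sum _ fun r hr => (Reg.emb _).mul (Reg.pow (Reg.pin ?_) _)
      intro h0
      apply (Finset.mem_erase.1 hr).1
      have : (r : K) = (((m + N).toNat : ℕ) : K) := by
        rw [hrc]
        rw [hm, hx1] at h0
        linear_combination h0
      exact_mod_cast this
    · rw [if_neg hjm, C_0, map_zero, zero_mul, sub_zero]
      refine Reg.sum _ fun r _ => (Reg.emb _).mul (Reg.pow (Reg.pin ?_) _)
      intro h0
      apply hjm
      refine ⟨(r : ℤ) - N, ?_⟩
      push_cast
      rw [hx1] at h0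
      linear_combination -h0
  have hfin : Reg x1 (emb K (C (∑ j, (if ∃ m : ℤ, y j = x + m then c j else 0))) * pin x1 ^ (h + 1)) := by
    have e : emb K (C (∑ j, (if ∃ m : ℤ, y j = x + m then c j else 0))) * pin x1 ^ (h + 1) =
        ∑ r ∈ Finset.range (2 * N), ((shf K)^[r]) (∑ j, emb K (C (c j)) * pin (y j) ^ (h + 1)) -
        ∑ j, (∑ r ∈ Finset.range (2 * N), emb K (C (c j)) * pin (y j - r) ^ (h + 1) -
          emb K (C (if ∃ m : ℤ, y j = x + m then c j else 0)) * pin x1 ^ (h + 1)) := by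
      rw [hL, Finset.sum_sub_distrib, sub_sub_cancel, map_sum, map_sum, Finset.sum_mul]
    rw [e]
    exact hR.sub (Reg.sum _ fun j _ => hj j)
  exact not_reg_pin_pow hfin

end shift

end Pool.Agent.ZC
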