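import Pool.Agent.ZC.Defs

/-!
# ZC, subspace version: definitions

Rows `T`, `rho` and companions (`WRow`), rows `F` (`FRow`).
-/

namespace Pool.Agent.ZC

open Finset

noncomputable section

variable (K : Type*) [Field K]

/-- rows `T`, `rho`, companions (`κ` for each functional) -/
abbrev WRow (B p κ : ℕ) (I : Finset ℕ) : Type :=
  Fin (4 * B * p) ⊕ (I × Fin (4 * B * p)) ⊕
    (Σ β : Fin B, Fin κ × Fin ((4 * B - 2 * (2 * (β : ℕ) + 1)) * p))

/-- rows `F` -/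
abbrev FRow (B p : ℕ) : Type := Σ β : Fin B, Fin ((4 * B - 2 * (2 * (β : ℕ) + 1)) * p)

/-- series of a companion: `∑_{i ∈ S} 2 b ^ i c_i X ^ (i - 1)` -/
def cs (b : ℕ) (S : Finset ℕ) (c : ℕ → K) : PowerSeries K :=
  ∑ i ∈ S, PowerSeries.C (2 * (b : K) ^ i * c i) * PowerSeries.X ^ (i - 1)

/-- entries of the rows `T`, `rho`, companions -/
def wjet (a M B p κ : ℕ) (I S : Finset ℕ) (c : ℕ → Fin κ → K) :
    WRow B p κ I → (Fin p × Fin a) → K
  | .inl j => fun x => PowerSeries.coeff (x.2 : ℕ) (ev K p x.1 (Cn K M j))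
  | .inr (.inl y) => fun x =>
      PowerSeries.coeff (x.2 : ℕ) (ev K p x.1 (Cn K M y.2) * PowerSeries.X ^ ((y.1 : ℕ) - 1))
  | .inr (.inr y) => fun x =>
      PowerSeries.coeff (x.2 : ℕ) (ev K p x.1 (An K M p (2 * (y.1 : ℕ) + 1) * Cn K M y.2.2) *
        cs K (2 * (y.1 : ℕ) + 1) S (fun i => c i y.2.1))

/-- entries of the rows `F` -/
def fjet (a M B p : ℕ) (S : Finset ℕ) (z : ℕ → K) (y : FRow B p) (x : Fin p × Fin a) : K :=
  PowerSeries.coeff (x.2 : ℕ) (ev K p x.1 (An K M p (2 * (y.1 : ℕ) + 1) * Cn K M y.2) *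
    Gs K p (2 * (y.1 : ℕ) + 1) x.1 S z)

end

end Pool.Agent.ZC
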