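import Pool.Agent.ZC.VZE
import Pool.Agent.ZC.LI

/-! # ZC, subspace version: the `F` rows are independent modulo the others -/

namespace Pool.Agent.ZC

open Finset

theorem vli (a B κ : ℕ) (hB : 1 ≤ B) (I S : Finset ℕ) (z : ℕ → ℚ) (c : ℕ → Fin κ → ℚ)
    (hI : I ⊆ oddS a) (hS : S ⊆ oddS a) (hm : 8 * B * (1 + I.card + (κ + 1) * B) ≤ a) :
    ∃ p0 : ℕ, ∀ p ≥ p0, ∀ M > 0, ∀ (g : WRow B p κ I → ℚ) (h : FRow B p → ℚ),
      (∀ x : Fin p × Fin a, ∑ w, g w * wjet ℚ a M B p κ I S c w x +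
        ∑ y, h y * fjet ℚ a M B p S z y x = 0) → ∀ y, h y = 0 := by
  classical
  obtain ⟨p0, h0⟩ := vze a B κ hB I S z c hI hS hm
  refine ⟨p0 + 1, fun p hp M _ g h hgh => ?_⟩
  set f0 : Polynomial ℚ := ∑ j : Fin (4 * B * p), Polynomial.C (g (.inl j)) * Cn ℚ M j with hf0
  set q : ℕ → Polynomial ℚ := fun i => if h : i ∈ I then
    ∑ j : Fin (4 * B * p), Polynomial.C (g (.inr (.inl (⟨i, h⟩, j)))) * Cn ℚ M j else 0 with hq
  set R : ℕ → Fin κ → Polynomial ℚ := fun β k => if h : β < B then An ℚ M p (2 * β + 1) *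
    ∑ j : Fin ((4 * B - 2 * (2 * β + 1)) * p),
      Polynomial.C (g (.inr (.inr ⟨⟨β, h⟩, (k, j)⟩))) * Cn ℚ M j else 0 with hR
  set P : ℕ → Polynomial ℚ := fun β => if h' : β < B then An ℚ M p (2 * β + 1) *
    ∑ j : Fin ((4 * B - 2 * (2 * β + 1)) * p),
      Polynomial.C (h ⟨⟨β, h'⟩, j⟩) * Cn ℚ M j else 0 with hP
  have hdeg : ∀ β < B, 4 * B * p = 2 * (2 * β + 1) * p + (4 * B - 2 * (2 * β + 1)) * p := by
    intro β hβ
    rw [← add_mul]
    congr 1
    omega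
  have hrel : ∀ l < p, (PowerSeries.X : PowerSeries ℚ) ^ a ∣ ev ℚ p l f0 +
        ∑ i ∈ I, PowerSeries.X ^ (i - 1) * ev ℚ p l (q i) +
        ∑ β ∈ range B, ∑ k, ev ℚ p l (R β k) * cs ℚ (2 * β + 1) S (fun i => c i k) +
        ∑ β ∈ range B, ev ℚ p l (P β) * Gs ℚ p (2 * β + 1) l S z := by
    intro l hl
    have e1 : ev ℚ p l f0 = ∑ j : Fin (4 * B * p), PowerSeries.C (g (.inl j)) *
        ev ℚ p l (Cn ℚ M j) := by
      rw [hf0, LI_ev_sum]
      exact Finset.sum_congr rfl fun j _ => LI_ev_C _ _ _ _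
    have e2 : ∑ i ∈ I, PowerSeries.X ^ (i - 1) * ev ℚ p l (q i) =
        ∑ x : I × Fin (4 * B * p), PowerSeries.C (g (.inr (.inl x))) *
          (ev ℚ p l (Cn ℚ M x.2) * PowerSeries.X ^ ((x.1 : ℕ) - 1)) := by
      rw [Fintype.sum_prod_type, ← Finset.sum_coe_sort I]
      refine Finset.sum_congr rfl fun i _ => ?_
      simp only [hq, i.2, dif_pos]
      rw [LI_ev_sum, Finset.mul_sum]
      refine Finset.sum_congr rfl fun j _ => ?_
      rw [LI_ev_C]
      ring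
    have e3 : ∑ β ∈ range B, ∑ k, ev ℚ p l (R β k) * cs ℚ (2 * β + 1) S (fun i => c i k) =
        ∑ x : (Σ β : Fin B, Fin κ × Fin ((4 * B - 2 * (2 * (β : ℕ) + 1)) * p)),
          PowerSeries.C (g (.inr (.inr x))) *
          (ev ℚ p l (An ℚ M p (2 * (x.1 : ℕ) + 1) * Cn ℚ M x.2.2) *
            cs ℚ (2 * (x.1 : ℕ) + 1) S (fun i => c i x.2.1)) := by
      rw [Finset.sum_range, Fintype.sum_sigma]
      refine Finset.sum_congr rfl fun β _ => ?_
      rw [Fintype.sum_prod_type]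
      refine Finset.sum_congr rfl fun k _ => ?_
      simp only [hR, β.2, dif_pos]
      rw [LI_ev_mul, LI_ev_sum, Finset.mul_sum, Finset.sum_mul]
      refine Finset.sum_congr rfl fun j _ => ?_
      rw [LI_ev_C, LI_ev_mul]
      ring
    have e4 : ∑ β ∈ range B, ev ℚ p l (P β) * Gs ℚ p (2 * β + 1) l S z =
        ∑ x : FRow B p, PowerSeries.C (h x) *
          (ev ℚ p l (An ℚ M p (2 * (x.1 : ℕ) + 1) * Cn ℚ M x.2) *
            Gs ℚ p (2 * (x.1 : ℕ) + 1) l S z) := by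
      rw [Finset.sum_range, Fintype.sum_sigma]
      refine Finset.sum_congr rfl fun β _ => ?_
      simp only [hP, β.2, dif_pos]
      rw [LI_ev_mul, LI_ev_sum, Finset.mul_sum, Finset.sum_mul]
      refine Finset.sum_congr rfl fun j _ => ?_
      rw [LI_ev_C, LI_ev_mul]
      ring
    rw [e1, e2, e3, e4, PowerSeries.X_pow_dvd_iff]
    intro r hr
    have h1 := hgh (⟨l, hl⟩, ⟨r, hr⟩)
    rw [← h1, Fintype.sum_sum_type, Fintype.sum_sum_type]
    simp only [map_add, map_sum, PowerSeries.coeff_C_mul, wjet, fjet]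
    ring
  have k3 := h0 p (by omega) f0 q P R (LI_sum_mem M _ _) (by
    intro i hi
    simp only [hq, hi, dif_pos]
    exact LI_sum_mem M _ _) (by
    intro β hβ
    simp only [hP, hβ, dif_pos]
    exact LI_An_mul_mem M p _ _ _ (by omega) (hdeg β hβ) (LI_sum_mem M _ _)) (by
    intro β hβ k
    simp only [hR, hβ, dif_pos]
    exact LI_An_mul_mem M p _ _ _ (by omega) (hdeg β hβ) (LI_sum_mem M _ _)) hrel
  rintro ⟨β, j⟩
  have h1 := k3 β β.2
  simp only [hP, β.2, dif_pos] at h1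
  rcases mul_eq_zero.1 h1 with h2 | h2
  · exact absurd h2 (LI_An_ne_zero M p _ (by omega))
  · exact LI_sum_eq_zero M _ _ h2 j

end Pool.Agent.ZC
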