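import Pool.Agent.ZC.ZEB
import Pool.Agent.ZC.ZEK
import Pool.Agent.ZC.NSP

/-!
# ZC: zero estimate with Hasse derivatives and abstract even companions
-/

namespace Pool.Agent.ZC

open Finset

variable {K : Type*} [Field K]

/-- `∑ 1/(k/b - X)^(h+1) + ∑ 1/(k/b + X)^(h+1)` at the pole `l` -/
noncomputable def gsh (K : Type*) [Field K] (p b h l : ℕ) : PowerSeries K :=
  ∑ k ∈ Icc 1 (b * l), (PowerSeries.C ((k : K) / b) - PowerSeries.X)⁻¹ ^ (h + 1) +
  ∑ k ∈ Icc 1 (b * (2 * p - 1 - l)), (PowerSeries.C ((k : K) / b) + PowerSeries.X)⁻¹ ^ (h + 1)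

theorem gsh_zero (p b l : ℕ) : gsh K p b 0 l = gs K p b l := by
  simp [gsh, gs]

noncomputable def denh (K : Type*) [Field K] (B p h : ℕ) : Polynomial K :=
  ∏ x : Pol B, (Polynomial.X - Polynomial.C (yp K B p x)) ^ (h + 1)

noncomputable def numh (K : Type*) [Field K] (B p h β : ℕ) : Polynomial K :=
  -∑ x : Pol B, if (x.1.1 : ℕ) = β then
    ∏ x' ∈ univ.erase x, (Polynomial.X - Polynomial.C (yp K B p x')) ^ (h + 1) else 0

theorem denh_ne_zero (B p h : ℕ) : denh K B p h ≠ 0 :=
  Finset.prod_ne_zero_iff.2 fun _ _ => pow_ne_zero _ (Polynomial.X_sub_C_ne_zero _)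

theorem natDegree_denh (B p h : ℕ) : (denh K B p h).natDegree = 2 * B ^ 2 * (h + 1) := by
  rw [denh, Polynomial.natDegree_prod_of_monic _ _ fun _ _ => (Polynomial.monic_X_sub_C _).pow _]
  simp only [(Polynomial.monic_X_sub_C _).natDegree_pow, Polynomial.natDegree_X_sub_C, mul_one,
    Finset.sum_const, Finset.card_univ, smul_eq_mul]
  rw [card_Pol B]

theorem natDegree_numh_le (B p h β : ℕ) : (numh K B p h β).natDegree ≤ (denh K B p h).natDegree := by
  rw [natDegree_denh, numh, Polynomial.natDegree_neg]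
  refine Polynomial.natDegree_sum_le_of_forall_le _ _ fun x _ => ?_
  split_ifs
  · refine (Polynomial.natDegree_prod_le _ _).trans ?_
    simp only [(Polynomial.monic_X_sub_C _).natDegree_pow, Polynomial.natDegree_X_sub_C, mul_one,
      Finset.sum_const, smul_eq_mul]
    rw [← card_Pol, ← Finset.card_univ]
    exact Nat.mul_le_mul_right _ (Finset.card_le_card (Finset.erase_subset _ _))
  · simp

theorem numh_div_denh (B p h β : ℕ) : emb K (numh K B p h β) / emb K (denh K B p h) =
    ∑ x : Pol B, emb K (Polynomial.C (if (x.1.1 : ℕ) = β then -1 else 0)) *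
      pin (yp K B p x) ^ (h + 1) := by
  have hden : emb K (denh K B p h) ≠ 0 := emb_ne_zero (denh_ne_zero B p h)
  rw [div_eq_iff hden, numh, map_neg, map_sum, Finset.sum_mul, ← Finset.sum_neg_distrib]
  refine Finset.sum_congr rfl fun x _ => ?_
  by_cases hx : (x.1.1 : ℕ) = β
  · rw [if_pos hx, if_pos hx]
    have h1 : emb K (denh K B p h) = emb K ((Polynomial.X - Polynomial.C (yp K B p x)) ^ (h + 1)) *
        emb K (∏ x' ∈ univ.erase x, (Polynomial.X - Polynomial.C (yp K B p x')) ^ (h + 1)) := by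
      rw [← map_mul, denh, ← Finset.mul_prod_erase univ _ (Finset.mem_univ x)]
    have h2 : emb K ((Polynomial.X - Polynomial.C (yp K B p x)) ^ (h + 1)) ≠ 0 :=
      emb_ne_zero (pow_ne_zero _ (Polynomial.X_sub_C_ne_zero _))
    rw [h1, pin, inv_pow, ← map_pow]
    simp only [map_neg, map_one]
    field_simp
  · rw [if_neg hx, if_neg hx]
    simp

/-- the shift functions are independent modulo `α(t) - α(t+1)` -/
theorem shift_indep_pow [CharZero K] (B p h : ℕ) (c : ℕ → K) (α : FractionRing (Polynomial K))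
    (hc : emb K (∑ β ∈ range B, Polynomial.C (c β) * numh K B p h β) / emb K (denh K B p h) = α - shf K α) :
    ∀ β < B, c β = 0 := by
  classical
  by_contra hcon
  push Not at hcon
  obtain ⟨β1, hβ1, hc1⟩ := hcon
  -- the largest one
  obtain ⟨β0, hβ0, hmax⟩ := Finset.exists_max_image ((range B).filter fun β => c β ≠ 0) id
    ⟨β1, by simp [hβ1, hc1]⟩
  rw [Finset.mem_filter, Finset.mem_range] at hβ0
  set b0 : K := 2 * (β0 : K) + 1 with hb0
  have hbpos : ∀ β : ℕ, (2 * (β : K) + 1) ≠ 0 := by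
    intro β
    have : ((2 * β + 1 : ℕ) : K) ≠ 0 := Nat.cast_ne_zero.2 (by omega)
    push_cast at this
    exact this
  have hsum : ∑ x : Pol B, emb K (Polynomial.C (-c x.1.1)) * pin (yp K B p x) ^ (h + 1) =
      α - shf K α := by
    rw [← hc, map_sum, Finset.sum_div]
    have h1 : ∀ β ∈ range B, emb K (Polynomial.C (c β) * numh K B p h β) / emb K (denh K B p h) =
        ∑ x : Pol B, emb K (Polynomial.C (if (x.1.1 : ℕ) = β then -c β else 0)) *
          pin (yp K B p x) ^ (h + 1) := by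
      intro β _
      rw [map_mul, mul_div_assoc, numh_div_denh, Finset.mul_sum]
      refine Finset.sum_congr rfl fun x _ => ?_
      rw [← mul_assoc, ← map_mul, ← Polynomial.C_mul]
      congr 3
      split_ifs <;> ring
    rw [Finset.sum_congr rfl h1, Finset.sum_comm]
    refine Finset.sum_congr rfl fun x _ => ?_
    rw [← Finset.sum_mul, ← map_sum, ← map_sum]
    congr 3
    rw [Finset.sum_ite_eq (range B) (x.1.1 : ℕ) (fun β => -c β), if_pos (Finset.mem_range.2 x.1.1.2)]
  have h2 := nonsum_pow h (fun x : Pol B => -c x.1.1) (yp K B p) (1 / b0) α hsum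
  -- terms in the class
  have h3 : ∀ x : Pol B, (if ∃ m : ℤ, yp K B p x = 1 / b0 + m then -c x.1.1 else 0) =
      (if (∃ m : ℤ, yp K B p x = 1 / b0 + m) ∧ (x.1.1 : ℕ) = β0 then -c β0 else 0) := by
    intro x
    by_cases hx : ∃ m : ℤ, yp K B p x = 1 / b0 + m
    · by_cases hxβ : (x.1.1 : ℕ) = β0
      · rw [if_pos hx, if_pos ⟨hx, hxβ⟩, hxβ]
      · rw [if_pos hx, if_neg (fun hh => hxβ hh.2)]
        rw [neg_eq_zero]
        by_contra hcx
        have hlt : (x.1.1 : ℕ) < β0 := by
          have := hmax x.1.1 (by simp [hcx])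
          simp only [id] at this
          omega
        -- divisibility
        obtain ⟨m, hm⟩ := hx
        set b : K := 2 * ((x.1.1 : ℕ) : K) + 1 with hb
        have hbne : b ≠ 0 := hbpos _
        have hb0ne : b0 ≠ 0 := hbpos _
        have key : ∃ w : ℤ, b = b0 * w := by
          unfold yp at hm
          split_ifs at hm with hx2
          · refine ⟨((x.1.2 : ℕ) : ℤ) + 1 - (2 * ((x.1.1 : ℕ) : ℤ) + 1) - m * (2 * ((x.1.1 : ℕ) : ℤ) + 1), ?_⟩
            push_cast
            rw [← hb] at hm ⊢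
            field_simp at hm
            linear_combination -hm
          · refine ⟨-(2 * (p : ℤ) - 1) * (2 * ((x.1.1 : ℕ) : ℤ) + 1) - (((x.1.2 : ℕ) : ℤ) + 1) -
              m * (2 * ((x.1.1 : ℕ) : ℤ) + 1), ?_⟩
            push_cast
            rw [← hb] at hm ⊢
            field_simp at hm
            linear_combination -hm
        obtain ⟨w, hw⟩ := key
        have hwZ : (2 * ((x.1.1 : ℕ) : ℤ) + 1) = (2 * (β0 : ℤ) + 1) * w := by
          have : (((2 * ((x.1.1 : ℕ) : ℤ) + 1) : ℤ) : K) = (((2 * (β0 : ℤ) + 1) * w : ℤ) : K) := by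
            push_cast
            rw [← hb, ← hb0]
            exact hw
          exact_mod_cast this
        have hdvd : (2 * (β0 : ℤ) + 1) ∣ (2 * ((x.1.1 : ℕ) : ℤ) + 1) := ⟨w, hwZ⟩
        have := Int.le_of_dvd (by positivity) hdvd
        omega
    · rw [if_neg hx, if_neg (fun hh => hx hh.1)]
  simp only [h3] at h2
  rw [← Finset.sum_filter, Finset.sum_const, nsmul_eq_mul] at h2
  have h4 : (⟨⟨⟨β0, hβ0.1⟩, ⟨0, by simp⟩⟩, true⟩ : Pol B) ∈ univ.filter (fun x : Pol B =>
      (∃ m : ℤ, yp K B p x = 1 / b0 + m) ∧ (x.1.1 : ℕ) = β0) := by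
    rw [Finset.mem_filter]
    refine ⟨Finset.mem_univ _, ⟨-1, ?_⟩, rfl⟩
    unfold yp
    simp only [if_true]
    push_cast
    ring
  rcases mul_eq_zero.1 h2 with h5 | h5
  · rw [Nat.cast_eq_zero, Finset.card_eq_zero] at h5
    rw [h5] at h4
    exact absurd h4 (Finset.notMem_empty _)
  · exact hβ0.2 (neg_eq_zero.1 h5)

theorem gsh_shift [CharZero K] (B p β l h : ℕ) (hβ : β < B) (hl : l + 1 ≤ 2 * p - 1) (hh : Even h) :
    loc K (l + 1) (denh K B p h) * (gsh K p (2 * β + 1) h (l + 1) - gsh K p (2 * β + 1) h l) =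
      loc K (l + 1) (numh K B p h β) := by
  classical
  set b : ℕ := 2 * β + 1 with hb
  have hbne : (b : K) ≠ 0 := Nat.cast_ne_zero.2 (by omega)
  set A : ℕ → PowerSeries K := fun k => (PowerSeries.C ((k : K) / b) - PowerSeries.X)⁻¹ ^ (h + 1) with hA
  set D : ℕ → PowerSeries K := fun k => (PowerSeries.C ((k : K) / b) + PowerSeries.X)⁻¹ ^ (h + 1) with hD
  obtain ⟨L, hL⟩ : ∃ L : ℕ, 2 * p - 1 = l + 1 + L := ⟨2 * p - 1 - (l + 1), by omega⟩
  have h1 : gsh K p b h (l + 1) - gsh K p b h l =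
      ∑ j ∈ range b, A (b * l + j + 1) - ∑ j ∈ range b, D (b * L + j + 1) := by
    unfold gsh
    have e1 : 2 * p - 1 - l = L + 1 := by omega
    have e2 : 2 * p - 1 - (l + 1) = L := by omega
    have hs : ∀ (F : ℕ → PowerSeries K) (m : ℕ), ∑ k ∈ range (m + b), F (k + 1) =
        ∑ k ∈ range m, F (k + 1) + ∑ j ∈ range b, F (m + j + 1) :=
      fun F m => Finset.sum_range_add (fun k => F (k + 1)) m b
    rw [e1, e2, sum_Icc_eq_range, sum_Icc_eq_range, sum_Icc_eq_range, sum_Icc_eq_range]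
    rw [show b * (L + 1) = b * L + b from Nat.mul_succ b L, show b * (l + 1) = b * l + b from Nat.mul_succ b l,
      hs (fun k => (PowerSeries.C ((k : K) / b) + PowerSeries.X)⁻¹ ^ (h + 1)) (b * L),
      hs (fun k => (PowerSeries.C ((k : K) / b) - PowerSeries.X)⁻¹ ^ (h + 1)) (b * l)]
    simp only [hA, hD]
    abel
  have h2 : loc K (l + 1) (numh K B p h β) =
      -∑ j ∈ range b, (∏ x' ∈ univ.erase ((⟨⟨⟨β, hβ⟩, ⟨j % b, Nat.mod_lt _ (by omega)⟩⟩, true⟩ : Pol B)),
        loc K (l + 1) (Polynomial.X - Polynomial.C (yp K B p x')) ^ (h + 1)) -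
      ∑ j ∈ range b, (∏ x' ∈ univ.erase ((⟨⟨⟨β, hβ⟩, ⟨j % b, Nat.mod_lt _ (by omega)⟩⟩, false⟩ : Pol B)),
        loc K (l + 1) (Polynomial.X - Polynomial.C (yp K B p x')) ^ (h + 1)) := by
    rw [numh, map_neg, map_sum]
    rw [← neg_add', neg_inj, ← Finset.sum_add_distrib]
    rw [Fintype.sum_prod_type, Fintype.sum_sigma]
    rw [Finset.sum_eq_single (⟨β, hβ⟩ : Fin B)]
    · rw [Finset.sum_range]
      refine Finset.sum_congr rfl fun j _ => ?_
      rw [Fintype.sum_bool]
      have hj : (⟨(j : ℕ) % b, Nat.mod_lt _ (by omega)⟩ : Fin (2 * β + 1)) = j := by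
        ext
        exact Nat.mod_eq_of_lt j.2
      simp only [if_true, map_prod, map_pow, hj]
    · intro β' _ hne
      refine Finset.sum_eq_zero fun j _ => Finset.sum_eq_zero fun s _ => ?_
      rw [if_neg, map_zero]
      intro h0
      apply hne
      ext
      exact h0
    · intro h0
      exact absurd (Finset.mem_univ _) h0
  have h3 : ∀ x : Pol B, loc K (l + 1) (denh K B p h) =
      loc K (l + 1) (Polynomial.X - Polynomial.C (yp K B p x)) ^ (h + 1) *
      ∏ x' ∈ univ.erase x, loc K (l + 1) (Polynomial.X - Polynomial.C (yp K B p x')) ^ (h + 1) := by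
    intro x
    rw [denh, map_prod]
    simp only [map_pow]
    exact (Finset.mul_prod_erase univ (fun x' => loc K (l + 1) (Polynomial.X - Polynomial.C (yp K B p x')) ^ (h + 1))
      (Finset.mem_univ x)).symm
  have hodd : Odd (h + 1) := hh.add_one
  rw [h1, h2, mul_sub, Finset.mul_sum, Finset.mul_sum, ← Finset.sum_neg_distrib]
  congr 1
  · refine Finset.sum_congr rfl fun j hj => ?_
    rw [Finset.mem_range] at hj
    rw [h3 ⟨⟨⟨β, hβ⟩, ⟨j % b, Nat.mod_lt _ (by omega)⟩⟩, true⟩, loc_X_sub_C]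
    have e1 : ((l + 1 : ℕ) : K) + yp K B p ⟨⟨⟨β, hβ⟩, ⟨j % b, Nat.mod_lt _ (by omega)⟩⟩, true⟩ =
        ((b * l + j + 1 : ℕ) : K) / b := by
      unfold yp
      simp only [if_true, Nat.mod_eq_of_lt hj]
      have : (2 * (β : K) + 1) = b := by rw [hb]; push_cast; ring
      rw [this]
      push_cast
      field_simp
      ring
    rw [e1]
    have e2 : (PowerSeries.X - PowerSeries.C (((b * l + j + 1 : ℕ) : K) / b)) ^ (h + 1) *
        A (b * l + j + 1) = -1 := by
      rw [← neg_sub, hodd.neg_pow, hA]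
      simp only
      rw [neg_mul, ← mul_pow, PowerSeries.mul_inv_cancel _ ?_, one_pow]
      simp only [map_sub, PowerSeries.constantCoeff_C, PowerSeries.constantCoeff_X, sub_zero]
      exact div_ne_zero (Nat.cast_ne_zero.2 (by omega)) hbne
    linear_combination (∏ x' ∈ univ.erase ((⟨⟨⟨β, hβ⟩, ⟨j % b, Nat.mod_lt _ (by omega)⟩⟩, true⟩ : Pol B)),
        loc K (l + 1) (Polynomial.X - Polynomial.C (yp K B p x')) ^ (h + 1)) * e2
  · refine Finset.sum_congr rfl fun j hj => ?_
    rw [Finset.mem_range] at hj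
    rw [h3 ⟨⟨⟨β, hβ⟩, ⟨j % b, Nat.mod_lt _ (by omega)⟩⟩, false⟩, loc_X_sub_C]
    have e1 : ((l + 1 : ℕ) : K) + yp K B p ⟨⟨⟨β, hβ⟩, ⟨j % b, Nat.mod_lt _ (by omega)⟩⟩, false⟩ =
        -(((b * L + j + 1 : ℕ) : K) / b) := by
      unfold yp
      simp only [Bool.false_eq_true, if_false, Nat.mod_eq_of_lt hj]
      have : (2 * (β : K) + 1) = b := by rw [hb]; push_cast; ring
      rw [this]
      have hp : (2 * (p : K) - 1) = (l : K) + 1 + L := by
        have h5 : ((2 * p : ℕ) : K) = ((l + 1 + L + 1 : ℕ) : K) := by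
          congr 1; omega
        push_cast at h5
        linear_combination h5
      rw [hp]
      push_cast
      field_simp
      ring
    rw [e1]
    have e2 : (PowerSeries.X - PowerSeries.C (-(((b * L + j + 1 : ℕ) : K) / b))) ^ (h + 1) *
        D (b * L + j + 1) = 1 := by
      have e3 : PowerSeries.X - PowerSeries.C (-(((b * L + j + 1 : ℕ) : K) / b)) =
          PowerSeries.C (((b * L + j + 1 : ℕ) : K) / b) + PowerSeries.X := by
        rw [map_neg]; ring
      rw [e3, hD]
      simp only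
      rw [← mul_pow, PowerSeries.mul_inv_cancel _ ?_, one_pow]
      simp only [map_add, PowerSeries.constantCoeff_C, PowerSeries.constantCoeff_X, add_zero]
      exact div_ne_zero (Nat.cast_ne_zero.2 (by omega)) hbne
    linear_combination (∏ x' ∈ univ.erase ((⟨⟨⟨β, hβ⟩, ⟨j % b, Nat.mod_lt _ (by omega)⟩⟩, false⟩ : Pol B)),
        loc K (l + 1) (Polynomial.X - Polynomial.C (yp K B p x')) ^ (h + 1)) * e2

theorem sg_gsh [CharZero K] {p l : ℕ} (hl : l ≤ 2 * p - 1) (b h : ℕ) (hb : 1 ≤ b) :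
    PowerSeries.evalNegHom (gsh K p b h l) = gsh K p b h (2 * p - 1 - l) := by
  have hbne : (b : K) ≠ 0 := Nat.cast_ne_zero.2 (by omega)
  unfold gsh
  rw [show 2 * p - 1 - (2 * p - 1 - l) = l by omega, map_add, map_sum, map_sum, add_comm]
  congr 1
  · refine Finset.sum_congr rfl fun k hk => ?_
    rw [Finset.mem_Icc] at hk
    rw [map_pow, sg_inv]
    · rw [map_add, sg_C, sg_X, ← sub_eq_add_neg]
    · simp only [map_add, PowerSeries.constantCoeff_C, PowerSeries.constantCoeff_X, add_zero]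
      exact div_ne_zero (Nat.cast_ne_zero.2 (by omega)) hbne
  · refine Finset.sum_congr rfl fun k hk => ?_
    rw [Finset.mem_Icc] at hk
    rw [map_pow, sg_inv]
    · rw [map_sub, sg_C, sg_X, sub_neg_eq_add]
    · simp only [map_sub, PowerSeries.constantCoeff_C, PowerSeries.constantCoeff_X, sub_zero]
      exact div_ne_zero (Nat.cast_ne_zero.2 (by omega)) hbne

/-- the relation at all poles `l ≤ 2p - 1`, in terms of `loc` -/
theorem rel_all_h [CharZero K] {a B p h : ℕ} (hp : 1 ≤ p) {J : Type*} [Fintype J]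
    (ψ : J → PowerSeries K) (hψ : ∀ j, PowerSeries.evalNegHom (ψ j) = ψ j) (θ : ℕ → PowerSeries K)
    (hθ : ∀ β, PowerSeries.evalNegHom (θ β) = θ β) (f0 : Polynomial K) (q : J → Polynomial K)
    (P : ℕ → Polynomial K)
    (hrel : ∀ l < p, (PowerSeries.X : PowerSeries K) ^ a ∣ ev K p l f0 +
        ∑ j, ψ j * ev K p l (q j) +
        ∑ β ∈ range B, ev K p l (P β) * (θ β - gsh K p (2 * β + 1) h l)) :
    ∀ l ≤ 2 * p - 1, (PowerSeries.X : PowerSeries K) ^ a ∣ loc K l (f0.comp (tp K p)) +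
        ∑ j, ψ j * loc K l ((q j).comp (tp K p)) +
        ∑ β ∈ range B, loc K l ((P β).comp (tp K p)) * (θ β - gsh K p (2 * β + 1) h l) := by
  intro l hl
  simp only [← ev_eq_loc]
  by_cases hlp : l < p
  · exact hrel l hlp
  · have h1 := X_pow_dvd_sg (hrel (2 * p - 1 - l) (by omega))
    have h2 : 2 * p - 1 - (2 * p - 1 - l) = l := by omega
    have hl' : 2 * p - 1 - l ≤ 2 * p - 1 := by omega
    rw [map_add, map_add, map_sum, map_sum, sg_ev hp hl', h2] at h1
    have h3 : ∑ j, PowerSeries.evalNegHom (ψ j * ev K p (2 * p - 1 - l) (q j)) =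
        ∑ j, ψ j * ev K p l (q j) := by
      refine Finset.sum_congr rfl fun j _ => ?_
      rw [map_mul, hψ j, sg_ev hp hl', h2]
    have h4 : ∑ β ∈ range B, PowerSeries.evalNegHom (ev K p (2 * p - 1 - l) (P β) *
        (θ β - gsh K p (2 * β + 1) h (2 * p - 1 - l))) =
        ∑ β ∈ range B, ev K p l (P β) * (θ β - gsh K p (2 * β + 1) h l) := by
      refine Finset.sum_congr rfl fun β _ => ?_
      rw [map_mul, map_sub, hθ β, sg_ev hp hl', sg_gsh hl' _ _ (by omega), h2]
    rw [h3, h4] at h1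
    exact h1

open Polynomial in
/-- **zero estimate**: the functionals are independent modulo the companions -/
theorem ze_funct_loc [CharZero K] (a B p h : ℕ) (hB : 1 ≤ B) (hh : Even h) {J : Type*} [Fintype J]
    (ψ : J → PowerSeries K) (θ : ℕ → PowerSeries K)
    (hm : 8 * B * (h + 1) * (1 + Fintype.card J + B) ≤ a)
    (hp : (Fintype.card J + B) * (1 + 2 * B ^ 2 * (h + 1)) + 1 ≤ p)
    (f0 : K[X]) (q : J → K[X]) (P : ℕ → K[X])
    (hf0 : f0.natDegree ≤ 8 * B * (h + 1) * p) (hq : ∀ j, (q j).natDegree ≤ 8 * B * (h + 1) * p)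
    (hP : ∀ β < B, (P β).natDegree ≤ 8 * B * (h + 1) * p)
    (hrel : ∀ l ≤ 2 * p - 1, (PowerSeries.X : PowerSeries K) ^ a ∣ loc K l f0 +
        ∑ j, ψ j * loc K l (q j) +
        ∑ β ∈ range B, loc K l (P β) * (θ β - gsh K p (2 * β + 1) h l)) :
    ∀ β < B, P β = 0 := by
  classical
  set v : J ⊕ Fin B → K[X] := Sum.elim q (fun β => P β) with hv
  set ser : J ⊕ Fin B → ℕ → PowerSeries K := Sum.elim (fun j _ => ψ j)
    (fun β l => θ β - gsh K p (2 * (β : ℕ) + 1) h l) with hser
  have hvD : ∀ x, (v x).natDegree ≤ 8 * B * (h + 1) * p := by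
    rintro (j | β)
    · exact hq j
    · exact hP β β.2
  obtain ⟨k, u, c, hu, huD, hexp, hk⟩ := exists_expansion v (8 * B * (h + 1) * p) hvD
  have hkB : k ≤ Fintype.card J + B := by
    refine hk.trans ?_
    have := Finset.card_le_univ (Set.toFinite {x | v x ≠ 0}).toFinset
    rwa [Fintype.card_sum, Fintype.card_fin] at this
  set η : Fin k → ℕ → PowerSeries K := fun y l => ∑ x, PowerSeries.C (c x y) * ser x l with hη
  set c' : Fin k → ℕ → K := fun y β => if hβ : β < B then c (Sum.inr ⟨β, hβ⟩) y else 0 with hc'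
  have hrel' : ∀ l ≤ 2 * p - 1, (PowerSeries.X : PowerSeries K) ^ a ∣ loc K l f0 +
      ∑ y, loc K l (u y) * η y l := by
    intro l hl
    have h1 := hrel l hl
    have h2 : ∑ y, loc K l (u y) * η y l = ∑ j, ψ j * loc K l (q j) +
        ∑ β ∈ range B, loc K l (P β) * (θ β - gsh K p (2 * β + 1) h l) := by
      have h3 : ∑ y, loc K l (u y) * η y l = ∑ x, ser x l * loc K l (v x) := by
        simp only [hη, Finset.mul_sum]
        rw [Finset.sum_comm]
        refine Finset.sum_congr rfl fun x _ => ?_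
        rw [hexp x, map_sum, Finset.mul_sum]
        refine Finset.sum_congr rfl fun y _ => ?_
        rw [map_mul, loc_C]
        ring
      rw [h3, Fintype.sum_sum_type]
      congr 1
      rw [Finset.sum_range]
      refine Finset.sum_congr rfl fun β _ => ?_
      simp only [hser, hv, Sum.elim_inr]
      ring
    rw [h2, ← add_assoc]; exact h1
  have hshift : ∀ l < 2 * p - 1, ∀ y, loc K (l + 1) (denh K B p h) * (η y l - η y (l + 1)) =
      loc K (l + 1) (∑ β ∈ range B, C (c' y β) * numh K B p h β) := by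
    intro l hl y
    have h1 : η y l - η y (l + 1) = ∑ β : Fin B, PowerSeries.C (c (Sum.inr β) y) *
        (gsh K p (2 * (β : ℕ) + 1) h (l + 1) - gsh K p (2 * (β : ℕ) + 1) h l) := by
      simp only [hη, hser]
      rw [← Finset.sum_sub_distrib, Fintype.sum_sum_type]
      simp only [Sum.elim_inl, Sum.elim_inr, sub_self, Finset.sum_const_zero, zero_add]
      refine Finset.sum_congr rfl fun β _ => ?_
      ring
    rw [h1, Finset.mul_sum, map_sum, Finset.sum_range]
    refine Finset.sum_congr rfl fun β _ => ?_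
    have h2 := gsh_shift (K := K) B p β l h β.2 (by omega) hh
    have h3 : c' y β = c (Sum.inr β) y := by
      simp only [hc', β.2, dif_pos]
    rw [map_mul, loc_C, h3, ← h2]
    ring
  have hnum : ∀ y, (∑ β ∈ range B, C (c' y β) * numh K B p h β).natDegree ≤ (denh K B p h).natDegree := by
    intro y
    refine Polynomial.natDegree_sum_le_of_forall_le _ _ fun β _ => ?_
    exact (Polynomial.natDegree_C_mul_le _ _).trans (natDegree_numh_le B p h β)
  rcases case_two u hu f0 (8 * B * (h + 1) * p) huD hf0 η a (2 * p - 1) hrel' (denh K B p h)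
    (denh_ne_zero B p h) (fun y => ∑ β ∈ range B, C (c' y β) * numh K B p h β) hnum hshift with
    ⟨α, hα⟩ | hcount
  · intro β hβ
    have h1 : v (Sum.inr ⟨β, hβ⟩) = 0 := by
      rw [hexp]
      refine Finset.sum_eq_zero fun y _ => ?_
      have h2 := shift_indep_pow B p h (c' y) (α y) (hα y) β hβ
      have h3 : c' y β = c (Sum.inr ⟨β, hβ⟩) y := by
        simp only [hc', hβ, dif_pos]
      rw [← h3, h2]
      simp
    exact h1
  · exfalso
    rw [natDegree_denh] at hcount
    have ha : 0 < a := lt_of_lt_of_le (by positivity) hm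
    have h1 : (k + 1) * (8 * B * (h + 1) * p) ≤ p * a := by
      calc (k + 1) * (8 * B * (h + 1) * p) ≤ (Fintype.card J + B + 1) * (8 * B * (h + 1) * p) :=
            Nat.mul_le_mul_right _ (by omega)
        _ = p * (8 * B * (h + 1) * (1 + Fintype.card J + B)) := by ring
        _ ≤ p * a := Nat.mul_le_mul_left _ hm
    have h2 : 2 * p - 1 + 1 - k = p + (p - k) := by
      have : Fintype.card J + B ≤ (Fintype.card J + B) * (1 + 2 * B ^ 2 * (h + 1)) :=
        Nat.le_mul_of_pos_right _ (by positivity)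
      omega
    rw [h2, Nat.mul_add] at hcount
    have h3 : a * (p - k) ≤ k * (2 * B ^ 2 * (h + 1)) := by
      have : a * p = p * a := Nat.mul_comm _ _
      omega
    have h4 : k * (2 * B ^ 2 * (h + 1)) + 1 ≤ p - k := by
      have h5 : k * (1 + 2 * B ^ 2 * (h + 1)) ≤ (Fintype.card J + B) * (1 + 2 * B ^ 2 * (h + 1)) :=
        Nat.mul_le_mul_right _ hkB
      have h6 : k * (1 + 2 * B ^ 2 * (h + 1)) = k + k * (2 * B ^ 2 * (h + 1)) := by ring
      omega
    have h5 : p - k ≤ a * (p - k) := Nat.le_mul_of_pos_left _ ha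
    omega

open Polynomial in
/-- **zero estimate** for the functionals `θ_β - gsh`, modulo all even `l`-independent companions -/
theorem ze_funct [CharZero K] (a B h : ℕ) (hB : 1 ≤ B) (hh : Even h) {J : Type*} [Fintype J]
    (ψ : J → PowerSeries K) (hψ : ∀ j, PowerSeries.evalNegHom (ψ j) = ψ j) (θ : ℕ → PowerSeries K)
    (hθ : ∀ β, PowerSeries.evalNegHom (θ β) = θ β)
    (hm : 8 * B * (h + 1) * (1 + Fintype.card J + B) ≤ a) :
    ∃ p0 : ℕ, ∀ p ≥ p0, ∀ (f0 : K[X]) (q : J → K[X]) (P : ℕ → K[X]),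
      f0 ∈ degreeLT K (4 * B * (h + 1) * p) → (∀ j, q j ∈ degreeLT K (4 * B * (h + 1) * p)) →
      (∀ β < B, P β ∈ degreeLT K (4 * B * (h + 1) * p)) →
      (∀ l < p, (PowerSeries.X : PowerSeries K) ^ a ∣ ev K p l f0 + ∑ j, ψ j * ev K p l (q j) +
        ∑ β ∈ range B, ev K p l (P β) * (θ β - gsh K p (2 * β + 1) h l)) →
      ∀ β < B, P β = 0 := by
  refine ⟨(Fintype.card J + B) * (1 + 2 * B ^ 2 * (h + 1)) + 1, fun p hp f0 q P hf0 hq hP hrel => ?_⟩
  have hp1 : 1 ≤ p := le_trans (Nat.le_add_left 1 _) hp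
  have hD : ∀ f : K[X], f ∈ degreeLT K (4 * B * (h + 1) * p) →
      (f.comp (tp K p)).natDegree ≤ 8 * B * (h + 1) * p := by
    intro f hf
    rw [natDegree_comp_tp]
    have h1 : f.natDegree ≤ 4 * B * (h + 1) * p := by
      rw [mem_degreeLT] at hf
      exact natDegree_le_of_degree_le hf.le
    calc 2 * f.natDegree ≤ 2 * (4 * B * (h + 1) * p) := Nat.mul_le_mul_left _ h1
      _ = 8 * B * (h + 1) * p := by ring
  have hcomp0 : ∀ f : K[X], f.comp (tp K p) = 0 → f = 0 := by
    intro f hf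
    apply comp_tp_injective (K := K) p
    simp only [hf, Polynomial.zero_comp]
  have hall := rel_all_h hp1 ψ hψ θ hθ f0 q P hrel
  have hP0 := ze_funct_loc a B p h hB hh ψ θ hm hp (f0.comp (tp K p)) (fun j => (q j).comp (tp K p))
    (fun β => (P β).comp (tp K p)) (hD _ hf0) (fun j => hD _ (hq j)) (fun β hβ => hD _ (hP β hβ)) hall
  exact fun β hβ => hcomp0 _ (hP0 β hβ)

end Pool.Agent.ZC
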