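import Pool.Agent.ZC.Defs
import Pool.Agent.ZC.ZE

/-!
# ZC: the zero estimate, assembly
-/

namespace Pool.Agent.ZC

open Finset

/-! ### change of variable -/

/-- the polynomial `(2t + 2p - 1)^2` -/
noncomputable def ZEA_T (p : ℕ) : Polynomial ℚ :=
  (Polynomial.C 2 * Polynomial.X + Polynomial.C (2 * (p : ℚ) - 1)) ^ 2

theorem ZEA_loc_C (l : ℕ) (c : ℚ) : loc ℚ l (Polynomial.C c) = PowerSeries.C c := by
  rw [loc_apply, Polynomial.C_comp, Polynomial.coe_C]

theorem ZEA_loc_X (l : ℕ) : loc ℚ l Polynomial.X = PowerSeries.X - PowerSeries.C (l : ℚ) := by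
  rw [loc_apply, Polynomial.X_comp, Polynomial.coe_sub, Polynomial.coe_X, Polynomial.coe_C]

theorem ZEA_loc_T (p l : ℕ) : loc ℚ l (ZEA_T p) = yl ℚ p l := by
  unfold ZEA_T yl
  rw [map_pow, map_add, map_mul, ZEA_loc_C, ZEA_loc_C, ZEA_loc_X]
  congr 1
  simp only [map_sub, map_mul, map_one]
  ring

theorem ZEA_loc_comp (p l : ℕ) (f : Polynomial ℚ) : loc ℚ l (f.comp (ZEA_T p)) = ev ℚ p l f := by
  rw [Polynomial.comp, Polynomial.hom_eval₂, ZEA_loc_T, ev, Polynomial.aeval_def]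
  congr 1
  exact Subsingleton.elim _ _

theorem ZEA_natDegree_T (p : ℕ) : (ZEA_T p).natDegree = 2 := by
  unfold ZEA_T
  rw [Polynomial.natDegree_pow, Polynomial.natDegree_linear (by norm_num : (2 : ℚ) ≠ 0)]

theorem ZEA_comp_eq_zero {p : ℕ} {f : Polynomial ℚ} (h : f.comp (ZEA_T p) = 0) : f = 0 := by
  rw [Polynomial.comp_eq_zero_iff] at h
  rcases h with h | ⟨_, h⟩
  · exact h
  · have h1 := congrArg Polynomial.natDegree h
    rw [ZEA_natDegree_T, Polynomial.natDegree_C] at h1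
    omega

theorem ZEA_natDegree_le {p n : ℕ} {f : Polynomial ℚ} (hf : f ∈ Polynomial.degreeLT ℚ n) :
    (f.comp (ZEA_T p)).natDegree ≤ 2 * n := by
  rw [Polynomial.natDegree_comp, ZEA_natDegree_T, mul_comm]
  have h1 : f.natDegree ≤ n := Polynomial.natDegree_le_of_degree_le (Polynomial.mem_degreeLT.1 hf).le
  omega

/-! ### a basis of the span of a finite family -/

theorem ZEA_basis {ι : Type*} [Fintype ι] (v : ι → Polynomial ℚ) (D : ℕ)
    (hD : ∀ i, (v i).natDegree ≤ D) :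
    ∃ k ≤ Fintype.card ι, ∃ u : Fin k → Polynomial ℚ, LinearIndependent ℚ u ∧
      (∀ z, (u z).natDegree ≤ D) ∧ ∃ c : ι → Fin k → ℚ, ∀ i, v i = ∑ z, Polynomial.C (c i z) * u z := by
  classical
  set W : Submodule ℚ (Polynomial ℚ) := Submodule.span ℚ (Set.range v) with hW
  have : FiniteDimensional ℚ W := FiniteDimensional.span_of_finite ℚ (Set.finite_range v)
  have hle : W ≤ Polynomial.degreeLE ℚ D := by
    rw [hW, Submodule.span_le]
    rintro _ ⟨i, rfl⟩
    exact Polynomial.mem_degreeLE.2 (Polynomial.natDegree_le_iff_degree_le.1 (hD i))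
  set b := Module.finBasis ℚ W
  refine ⟨Module.finrank ℚ W, finrank_range_le_card v, fun z => (b z : Polynomial ℚ), ?_, ?_, ?_⟩
  · exact b.linearIndependent.map' W.subtype (Submodule.ker_subtype W)
  · intro z
    exact Polynomial.natDegree_le_iff_degree_le.2 (Polynomial.mem_degreeLE.1 (hle (b z).2))
  · refine ⟨fun i z => b.repr ⟨v i, Submodule.subset_span (Set.mem_range_self i)⟩ z, fun i => ?_⟩
    have h1 := b.sum_repr ⟨v i, Submodule.subset_span (Set.mem_range_self i)⟩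
    have h2 := congrArg (fun w : W => (w : Polynomial ℚ)) h1
    simp only [Submodule.coe_sum, Submodule.coe_smul] at h2
    rw [← h2]
    refine Finset.sum_congr rfl fun z _ => ?_
    rw [Polynomial.smul_eq_C_mul]

/-! ### Case 1 -/

theorem ZEA_case1 (a B p : ℕ) (hB : 1 ≤ B) (I : Finset ℕ) (hI : I ⊆ oddS a)
    (hRS : ∀ c ∈ I, 8 * B * (I.filter (c ≤ ·)).card ≤ a + 1 - c)
    (hm : 8 * B * (1 + I.card + B) ≤ a) (hp : I.card + 1 < p) (v : ℕ → Polynomial ℚ)
    (hD : ∀ i ∈ insert 1 I, (v i).natDegree ≤ 8 * B * p)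
    (hrel : ∀ l ≤ 2 * p - 1, (PowerSeries.X : PowerSeries ℚ) ^ a ∣
      ∑ i ∈ insert 1 I, PowerSeries.X ^ (i - 1) * loc ℚ l (v i)) :
    ∀ i ∈ insert 1 I, v i = 0 := by
  classical
  by_contra hcon
  push Not at hcon
  obtain ⟨i1, hi1, hvi1⟩ := hcon
  have hne : ((insert 1 I).filter fun i => v i ≠ 0).Nonempty := ⟨i1, by simp [hi1, hvi1] ⟩
  set o := ((insert 1 I).filter fun i => v i ≠ 0).min' hne with ho
  have hoM := Finset.min'_mem _ hne
  rw [← ho, Finset.mem_filter] at hoM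
  obtain ⟨hoI, hvo⟩ := hoM
  have hmin : ∀ i ∈ insert 1 I, i < o → v i = 0 := by
    intro i hi hio
    by_contra h0
    have := Finset.min'_le ((insert 1 I).filter fun i => v i ≠ 0) i (Finset.mem_filter.2 ⟨hi, h0⟩)
    omega
  have hge1 : ∀ i ∈ insert 1 I, 1 ≤ i := by
    intro i hi
    rcases Finset.mem_insert.1 hi with rfl | hi
    · exact le_rfl
    · have := hI hi
      simp only [oddS, Finset.mem_filter, Finset.mem_Icc] at this
      omega
  set J := (insert 1 I).filter (o ≤ ·) with hJ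
  have hJI : ∀ i ∈ J, i ∈ insert 1 I := fun i hi => (Finset.mem_filter.1 hi).1
  obtain ⟨k, hk, u, hu, huD, c, hc⟩ := ZEA_basis (fun i : J => v i) (8 * B * p)
    (fun i => hD i (hJI i i.2))
  rw [Fintype.card_coe] at hk
  have hoJ : o ∈ J := by rw [hJ, Finset.mem_filter]; exact ⟨hoI, le_rfl⟩
  obtain ⟨z, hz⟩ : ∃ z, c ⟨o, hoJ⟩ z ≠ 0 := by
    by_contra hcon
    push Not at hcon
    apply hvo
    have := hc ⟨o, hoJ⟩
    simpa [hcon] using this
  set β : Fin k → PowerSeries ℚ := fun z => ∑ i : J, PowerSeries.C (c i z) * PowerSeries.X ^ ((i : ℕ) - 1)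
    with hβ
  have hrel' : ∀ l ≤ 2 * p - 1, (PowerSeries.X : PowerSeries ℚ) ^ a ∣ ∑ z, loc ℚ l (u z) * β z := by
    intro l hl
    have e : ∑ z, loc ℚ l (u z) * β z = ∑ i ∈ insert 1 I, PowerSeries.X ^ (i - 1) * loc ℚ l (v i) := by
      have e1 : ∑ i ∈ insert 1 I, PowerSeries.X ^ (i - 1) * loc ℚ l (v i) =
          ∑ i ∈ J, PowerSeries.X ^ (i - 1) * loc ℚ l (v i) := by
        symm
        apply Finset.sum_subset (Finset.filter_subset _ _)
        intro i hi hiJ
        rw [Finset.mem_filter, not_and, not_le] at hiJ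
        rw [hmin i hi (hiJ hi), map_zero, mul_zero]
      rw [e1, ← Finset.sum_coe_sort J]
      simp only [hβ, Finset.mul_sum]
      rw [Finset.sum_comm]
      refine Finset.sum_congr rfl fun i _ => ?_
      have e2 := hc i
      rw [e2, map_sum, Finset.mul_sum]
      refine Finset.sum_congr rfl fun z _ => ?_
      rw [map_mul, ZEA_loc_C]
      ring
    rw [e]
    exact hrel l hl
  have hcoef : PowerSeries.coeff (o - 1) (β z) = c ⟨o, hoJ⟩ z := by
    simp only [hβ, map_sum, PowerSeries.coeff_C_mul, PowerSeries.coeff_X_pow]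
    rw [Finset.sum_eq_single ⟨o, hoJ⟩]
    · simp
    · intro i _ hi
      have h1 := hge1 i (hJI i i.2)
      have h2 := hge1 o hoI
      have h3 : (i : ℕ) ≠ o := fun h => hi (Subtype.ext h)
      rw [if_neg (by omega), mul_zero]
    · intro h; exact absurd (Finset.mem_univ _) h
  have he : ¬ (PowerSeries.X : PowerSeries ℚ) ^ ((o - 1) + 1) ∣ β z := by
    rw [PowerSeries.X_pow_dvd_iff]
    intro h
    exact hz (by rw [← hcoef]; exact h (o - 1) (by omega))
  have hmain := case_one u hu (8 * B * p) huD β a (2 * p - 1) hrel' z (o - 1) he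
  -- numbers
  have ho1 := hge1 o hoI
  have hA : 8 * B * k ≤ a - (o - 1) ∧ 0 < a - (o - 1) ∧ k ≤ I.card + 1 := by
    have hJc : J.card ≤ I.card + 1 := (Finset.card_filter_le _ _).trans (Finset.card_insert_le _ _)
    rcases Finset.mem_insert.1 hoI with h1 | h1
    · have h2 : 8 * B * k ≤ 8 * B * (1 + I.card + B) := Nat.mul_le_mul_left _ (by omega)
      have h3 : 0 < 8 * B * (1 + I.card + B) := by positivity
      refine ⟨by omega, by omega, by omega⟩
    · have h2 := hRS o h1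
      have h3 := hI h1
      simp only [oddS, Finset.mem_filter, Finset.mem_Icc] at h3
      have h4 : J ⊆ I.filter (o ≤ ·) := by
        intro i hi
        rw [hJ, Finset.mem_filter, Finset.mem_insert] at hi
        rw [Finset.mem_filter]
        rcases hi with ⟨rfl | hi, hoi⟩
        · omega
        · exact ⟨hi, hoi⟩
      have h5 := Finset.card_le_card h4
      have h6 : 8 * B * k ≤ 8 * B * (I.filter (o ≤ ·)).card := Nat.mul_le_mul_left _ (by omega)
      refine ⟨by omega, by omega, by omega⟩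
  obtain ⟨hA1, hA2, hA3⟩ := hA
  have h1 : p + 1 ≤ 2 * p - 1 + 2 - k := by omega
  have h2 : (a - (o - 1)) * (p + 1) ≤ (a - (o - 1)) * p := by
    calc (a - (o - 1)) * (p + 1) ≤ (a - (o - 1)) * (2 * p - 1 + 2 - k) := Nat.mul_le_mul_left _ h1
      _ ≤ k * (8 * B * p) := hmain
      _ = (8 * B * k) * p := by ring
      _ ≤ (a - (o - 1)) * p := Nat.mul_le_mul_right _ hA1
  nlinarith

/-! ### poles of the shifts -/

/-- index of the poles -/
abbrev ZEA_J (B : ℕ) : Type := Σ β : Fin B, Fin (2 * (β : ℕ) + 1) × Bool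

/-- the poles -/
noncomputable def ZEA_y (B p : ℕ) (x : ZEA_J B) : ℚ :=
  if x.2.2 then -(2 * (p : ℚ) - 1) - (((x.2.1 : ℕ) : ℚ) + 1) / ((2 * (x.1 : ℕ) + 1 : ℕ) : ℚ)
  else (((x.2.1 : ℕ) : ℚ) + 1) / ((2 * (x.1 : ℕ) + 1 : ℕ) : ℚ) - 1

/-- common denominator -/
noncomputable def ZEA_den (B p : ℕ) : Polynomial ℚ :=
  ∏ x : ZEA_J B, (Polynomial.X - Polynomial.C (ZEA_y B p x))

/-- numerator -/
noncomputable def ZEA_num (B p : ℕ) (β : Fin B) : Polynomial ℚ :=
  -∑ j : Fin (2 * (β : ℕ) + 1) × Bool, ∏ x ∈ (univ : Finset (ZEA_J B)).erase ⟨β, j⟩,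
    (Polynomial.X - Polynomial.C (ZEA_y B p x))

theorem ZEA_den_ne_zero (B p : ℕ) : ZEA_den B p ≠ 0 :=
  Finset.prod_ne_zero_iff.2 fun _ _ => Polynomial.X_sub_C_ne_zero _

theorem ZEA_natDegree_den (B p : ℕ) : (ZEA_den B p).natDegree = Fintype.card (ZEA_J B) := by
  unfold ZEA_den
  rw [Polynomial.natDegree_prod_of_monic _ _ (fun x _ => Polynomial.monic_X_sub_C _)]
  simp only [Polynomial.natDegree_X_sub_C, Finset.sum_const, smul_eq_mul, mul_one, Finset.card_univ]

theorem ZEA_natDegree_num (B p : ℕ) (β : Fin B) :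
    (ZEA_num B p β).natDegree ≤ (ZEA_den B p).natDegree := by
  unfold ZEA_num
  rw [Polynomial.natDegree_neg]
  refine Polynomial.natDegree_sum_le_of_forall_le _ _ fun j _ => ?_
  rw [Polynomial.natDegree_prod_of_monic _ _ (fun x _ => Polynomial.monic_X_sub_C _), ZEA_natDegree_den]
  simp only [Polynomial.natDegree_X_sub_C, Finset.sum_const, smul_eq_mul, mul_one]
  exact (Finset.card_erase_le).trans (le_of_eq Finset.card_univ)

theorem ZEA_emb_num (B p : ℕ) (β : Fin B) :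
    emb ℚ (ZEA_num B p β) / emb ℚ (ZEA_den B p) =
      -∑ j : Fin (2 * (β : ℕ) + 1) × Bool, pin (ZEA_y B p ⟨β, j⟩) := by
  have h0 : emb ℚ (ZEA_den B p) ≠ 0 := emb_ne_zero (ZEA_den_ne_zero B p)
  rw [div_eq_iff h0, ZEA_num, map_neg, map_sum, neg_mul, Finset.sum_mul]
  congr 1
  refine Finset.sum_congr rfl fun j _ => ?_
  have h1 : ZEA_den B p = (Polynomial.X - Polynomial.C (ZEA_y B p ⟨β, j⟩)) *
      ∏ x ∈ (univ : Finset (ZEA_J B)).erase ⟨β, j⟩, (Polynomial.X - Polynomial.C (ZEA_y B p x)) :=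
    (Finset.mul_prod_erase _ _ (Finset.mem_univ _)).symm
  have h2 : emb ℚ (Polynomial.X - Polynomial.C (ZEA_y B p ⟨β, j⟩)) ≠ 0 :=
    emb_ne_zero (Polynomial.X_sub_C_ne_zero _)
  rw [h1, map_mul, pin, inv_mul_cancel_left₀ h2]

theorem ZEA_dvd1 (b0 b1 : ℕ) (h0 : 0 < b0) (h1 : 0 < b1) (j : ℕ) (m : ℤ)
    (h : ((j : ℚ) + 1) / (b1 : ℚ) - 1 = 1 / (b0 : ℚ) - 1 + m) : (b0 : ℤ) ∣ (b1 : ℤ) := by
  have h0' : (b0 : ℚ) ≠ 0 := by positivity
  have h1' : (b1 : ℚ) ≠ 0 := by positivity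
  refine ⟨((j : ℤ) + 1) - m * b1, ?_⟩
  have h2 : (b1 : ℚ) = b0 * (((j : ℚ) + 1) - m * b1) := by
    have h3 : ((j : ℚ) + 1) / (b1 : ℚ) = 1 / (b0 : ℚ) + m := by linear_combination h
    rw [div_add' _ _ _ h0', div_eq_div_iff h1' h0'] at h3
    linear_combination (-1 : ℚ) * h3
  exact_mod_cast h2

theorem ZEA_dvd2 (b0 b1 : ℕ) (h0 : 0 < b0) (h1 : 0 < b1) (j p : ℕ) (m : ℤ)
    (h : -(2 * (p : ℚ) - 1) - ((j : ℚ) + 1) / (b1 : ℚ) = 1 / (b0 : ℚ) - 1 + m) :
    (b0 : ℤ) ∣ (b1 : ℤ) := by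
  have h0' : (b0 : ℚ) ≠ 0 := by positivity
  have h1' : (b1 : ℚ) ≠ 0 := by positivity
  refine ⟨-((2 * p - 2 + m) * b1) - ((j : ℤ) + 1), ?_⟩
  have h2 : (b1 : ℚ) = b0 * (-((2 * p - 2 + m) * b1) - ((j : ℚ) + 1)) := by
    have h3 : ((j : ℚ) + 1) / (b1 : ℚ) = -1 / (b0 : ℚ) - (2 * p - 2 + m) := by
      linear_combination (-1 : ℚ) * h
    rw [div_sub' h0', div_eq_div_iff h1' h0'] at h3
    linear_combination h3
  exact_mod_cast h2

/-- no linear combination of the shifts is summable -/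
theorem ZEA_nonsum (B p : ℕ) (c : Fin B → ℚ) (α : FractionRing (Polynomial ℚ))
    (h : ∑ β, emb ℚ (Polynomial.C (c β)) * (emb ℚ (ZEA_num B p β) / emb ℚ (ZEA_den B p)) =
      α - shf ℚ α) : c = 0 := by
  classical
  by_contra hne
  obtain ⟨β1, hβ1⟩ : ∃ β, c β ≠ 0 := by
    by_contra hcon
    push Not at hcon
    exact hne (funext hcon)
  have hS : (univ.filter fun β => c β ≠ 0).Nonempty := ⟨β1, by simp [hβ1]⟩
  set β0 := (univ.filter fun β => c β ≠ 0).max' hS with hβ0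
  have h0 := Finset.max'_mem _ hS
  rw [← hβ0, Finset.mem_filter] at h0
  have hmax : ∀ β, β0 < β → c β = 0 := by
    intro β hβ
    by_contra h1
    have := Finset.le_max' (univ.filter fun β => c β ≠ 0) β (by simp [h1])
    exact absurd hβ (not_lt.2 this)
  set b0 : ℕ := 2 * (β0 : ℕ) + 1 with hb0
  set x0 : ℚ := 1 / (b0 : ℚ) - 1 with hx0
  have key := nonsum (J := ZEA_J B) (fun x => -c x.1) (fun x => ZEA_y B p x) x0 α (by
    rw [← h, Fintype.sum_sigma]
    refine Finset.sum_congr rfl fun β _ => ?_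
    rw [ZEA_emb_num, mul_neg, Finset.mul_sum, ← Finset.sum_neg_distrib]
    refine Finset.sum_congr rfl fun j _ => ?_
    rw [Polynomial.C_neg, map_neg, neg_mul])
  rw [Fintype.sum_sigma, Finset.sum_eq_single β0] at key
  · -- the largest index
    simp only at key
    rw [← Finset.sum_filter, Finset.sum_const, smul_eq_zero, Finset.card_eq_zero, neg_eq_zero] at key
    rcases key with key | key
    · have hmem : ((⟨0, by omega⟩, false) : Fin (2 * (β0 : ℕ) + 1) × Bool) ∈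
          univ.filter (fun j : Fin (2 * (β0 : ℕ) + 1) × Bool => ∃ m : ℤ, ZEA_y B p ⟨β0, j⟩ = x0 + m) := by
        rw [Finset.mem_filter]
        refine ⟨Finset.mem_univ _, 0, ?_⟩
        simp [ZEA_y, hx0, hb0]
      rw [key] at hmem
      simp at hmem
    · exact h0.2 key
  · intro β _ hβ
    rcases lt_or_gt_of_ne hβ with hlt | hgt
    · -- smaller denominators have no pole there
      refine Finset.sum_eq_zero fun j _ => if_neg ?_
      rintro ⟨m, hm⟩
      have hlt' : 2 * (β : ℕ) + 1 < b0 := by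
        have : (β : ℕ) < (β0 : ℕ) := hlt
        omega
      have hdvd : (b0 : ℤ) ∣ ((2 * (β : ℕ) + 1 : ℕ) : ℤ) := by
        obtain ⟨j, ε⟩ := j
        cases ε
        · refine ZEA_dvd1 b0 (2 * (β : ℕ) + 1) (by omega) (by omega) j m ?_
          simpa [ZEA_y, hx0] using hm
        · refine ZEA_dvd2 b0 (2 * (β : ℕ) + 1) (by omega) (by omega) j p m ?_
          simpa [ZEA_y, hx0] using hm
      have := Int.le_of_dvd (by omega) hdvd
      omega
    · rw [show (∑ y, (if ∃ m : ℤ, ZEA_y B p ⟨β, y⟩ = x0 + m then -c (⟨β, y⟩ : ZEA_J B).1 else 0)) = 0 from ?_]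
      refine Finset.sum_eq_zero fun j _ => ?_
      simp only [hmax β hgt, neg_zero, ite_self]
  · intro h; exact absurd (Finset.mem_univ _) h

/-! ### the shift of the functions `G_b` -/

theorem ZEA_sum_Icc {M : Type*} [AddCommMonoid M] (f : ℕ → M) (m b : ℕ) :
    ∑ k ∈ Icc 1 (m + b), f k = ∑ k ∈ Icc 1 m, f k + ∑ j ∈ range b, f (m + j + 1) := by
  induction b with
  | zero => simp
  | succ b ih =>
    rw [← add_assoc, Finset.sum_Icc_succ_top (by omega), ih, Finset.sum_range_succ, add_assoc]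

/-- the inverse linear factors -/
noncomputable def ZEA_W (p l b : ℕ) (j : Fin b × Bool) : PowerSeries ℚ :=
  if j.2 then -(PowerSeries.C (((b * (2 * p - 2 - l) + (j.1 : ℕ) + 1 : ℕ) : ℚ) / b) + PowerSeries.X)⁻¹
  else (PowerSeries.C (((b * l + (j.1 : ℕ) + 1 : ℕ) : ℚ) / b) - PowerSeries.X)⁻¹

theorem ZEA_Gs_sub (p b l : ℕ) (hl : l + 1 ≤ 2 * p - 1) (S : Finset ℕ) (z : ℕ → ℚ) :
    Gs ℚ p b l S z - Gs ℚ p b (l + 1) S z = ∑ j : Fin b × Bool, ZEA_W p l b j := by
  unfold Gs gs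
  have e1 : b * (l + 1) = b * l + b := by ring
  have e2 : b * (2 * p - 1 - l) = b * (2 * p - 2 - l) + b := by
    have : 2 * p - 1 - l = (2 * p - 2 - l) + 1 := by omega
    rw [this]; ring
  have e3 : 2 * p - 1 - (l + 1) = 2 * p - 2 - l := by omega
  rw [e1, e2, e3, ZEA_sum_Icc, ZEA_sum_Icc, Fintype.sum_prod_type]
  simp only [Fintype.sum_bool, ZEA_W, if_true, Bool.false_eq_true, if_false]
  rw [Finset.sum_add_distrib, Finset.sum_neg_distrib]
  rw [Finset.sum_range, Finset.sum_range]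
  ring

theorem ZEA_W_mul (B p l : ℕ) (hl : l + 1 ≤ 2 * p - 1) (β : Fin B)
    (j : Fin (2 * (β : ℕ) + 1) × Bool) :
    loc ℚ (l + 1) (Polynomial.X - Polynomial.C (ZEA_y B p ⟨β, j⟩)) *
      ZEA_W p l (2 * (β : ℕ) + 1) j = -1 := by
  obtain ⟨j, ε⟩ := j
  have hb : ((2 * (β : ℕ) + 1 : ℕ) : ℚ) ≠ 0 := by positivity
  rw [map_sub, ZEA_loc_X, ZEA_loc_C]
  cases ε
  · have h1 : (PowerSeries.X : PowerSeries ℚ) - PowerSeries.C ((l + 1 : ℕ) : ℚ) -
        PowerSeries.C (ZEA_y B p ⟨β, (j, false)⟩) =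
        -(PowerSeries.C ((((2 * (β : ℕ) + 1) * l + (j : ℕ) + 1 : ℕ) : ℚ) / (2 * (β : ℕ) + 1 : ℕ)) -
          PowerSeries.X) := by
      rw [sub_sub, ← map_add, neg_sub]
      congr 2
      simp only [ZEA_y, Bool.false_eq_true, if_false]
      rw [eq_div_iff hb]
      field_simp
      push_cast
      ring
    rw [h1]
    simp only [ZEA_W, Bool.false_eq_true, if_false]
    rw [neg_mul, PowerSeries.mul_inv_cancel]
    rw [map_sub, PowerSeries.constantCoeff_C, PowerSeries.constantCoeff_X, sub_zero]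
    positivity
  · have h1 : (PowerSeries.X : PowerSeries ℚ) - PowerSeries.C ((l + 1 : ℕ) : ℚ) -
        PowerSeries.C (ZEA_y B p ⟨β, (j, true)⟩) =
        (PowerSeries.C ((((2 * (β : ℕ) + 1) * (2 * p - 2 - l) + (j : ℕ) + 1 : ℕ) : ℚ) /
          (2 * (β : ℕ) + 1 : ℕ)) + PowerSeries.X) := by
      have h2 : ((((2 * (β : ℕ) + 1) * (2 * p - 2 - l) + (j : ℕ) + 1 : ℕ) : ℚ) /
          (2 * (β : ℕ) + 1 : ℕ)) = -(((l + 1 : ℕ) : ℚ) + ZEA_y B p ⟨β, (j, true)⟩) := by
        simp only [ZEA_y, if_true]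
        have h3 : ((2 * p - 2 - l : ℕ) : ℚ) = 2 * p - 2 - l := by
          rw [Nat.cast_sub (by omega), Nat.cast_sub (by omega)]
          push_cast; ring
        rw [div_eq_iff hb]
        have h4 : ((((2 * (β : ℕ) + 1) * (2 * p - 2 - l) + (j : ℕ) + 1 : ℕ) : ℚ)) =
            ((2 * (β : ℕ) + 1 : ℕ) : ℚ) * (2 * p - 2 - l) + (j : ℕ) + 1 := by
          rw [← h3]; push_cast; ring
        rw [h4]
        field_simp
        push_cast
        ring
      rw [h2, map_neg, sub_sub, ← map_add]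
      ring
    rw [h1]
    simp only [ZEA_W, if_true]
    rw [mul_neg, PowerSeries.mul_inv_cancel]
    rw [map_add, PowerSeries.constantCoeff_C, PowerSeries.constantCoeff_X, add_zero]
    positivity

theorem ZEA_shift (B p l : ℕ) (hl : l + 1 ≤ 2 * p - 1) (S : Finset ℕ) (z : ℕ → ℚ) (β : Fin B) :
    loc ℚ (l + 1) (ZEA_den B p) * (Gs ℚ p (2 * (β : ℕ) + 1) l S z -
      Gs ℚ p (2 * (β : ℕ) + 1) (l + 1) S z) = loc ℚ (l + 1) (ZEA_num B p β) := by
  rw [ZEA_Gs_sub p _ l hl, ZEA_num, map_neg, map_sum, Finset.mul_sum, ← Finset.sum_neg_distrib]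
  refine Finset.sum_congr rfl fun j _ => ?_
  have h1 : ZEA_den B p = (Polynomial.X - Polynomial.C (ZEA_y B p ⟨β, j⟩)) *
      ∏ x ∈ (univ : Finset (ZEA_J B)).erase ⟨β, j⟩, (Polynomial.X - Polynomial.C (ZEA_y B p x)) :=
    (Finset.mul_prod_erase _ _ (Finset.mem_univ _)).symm
  rw [h1, map_mul]
  have h2 := ZEA_W_mul B p l hl β j
  linear_combination (loc ℚ (l + 1) (∏ x ∈ (univ : Finset (ZEA_J B)).erase ⟨β, j⟩,
    (Polynomial.X - Polynomial.C (ZEA_y B p x)))) * h2

/-! ### Case 2 -/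

theorem ZEA_case2 (a B p : ℕ) (hB : 1 ≤ B) (I S : Finset ℕ) (z : ℕ → ℚ)
    (hm : 8 * B * (1 + I.card + B) ≤ a)
    (hp : (I.card + B) * (1 + Fintype.card (ZEA_J B)) < p) (f : Polynomial ℚ)
    (v : ℕ → Polynomial ℚ) (w : Fin B → Polynomial ℚ) (hf : f.natDegree ≤ 8 * B * p)
    (hv : ∀ i ∈ I, (v i).natDegree ≤ 8 * B * p) (hw : ∀ β, (w β).natDegree ≤ 8 * B * p)
    (hrel : ∀ l ≤ 2 * p - 1, (PowerSeries.X : PowerSeries ℚ) ^ a ∣ loc ℚ l f +
      ∑ i ∈ I, PowerSeries.X ^ (i - 1) * loc ℚ l (v i) +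
      ∑ β : Fin B, loc ℚ l (w β) * Gs ℚ p (2 * (β : ℕ) + 1) l S z) : ∀ β, w β = 0 := by
  classical
  by_contra hcon
  push Not at hcon
  obtain ⟨β1, hβ1⟩ := hcon
  obtain ⟨k, hk, u, hu, huD, c, hc⟩ := ZEA_basis
    (Sum.elim (fun i : I => v i) w : (I ⊕ Fin B) → Polynomial ℚ) (8 * B * p) (by
      rintro (i | β)
      · exact hv i i.2
      · exact hw β)
  rw [Fintype.card_sum, Fintype.card_coe, Fintype.card_fin] at hk
  obtain ⟨z1, hz1⟩ : ∃ z, c (Sum.inr β1) z ≠ 0 := by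
    by_contra hcon
    push Not at hcon
    apply hβ1
    have := hc (Sum.inr β1)
    simpa [hcon] using this
  set η : Fin k → ℕ → PowerSeries ℚ := fun x l =>
    ∑ i : I, PowerSeries.C (c (Sum.inl i) x) * PowerSeries.X ^ ((i : ℕ) - 1) +
    ∑ β : Fin B, PowerSeries.C (c (Sum.inr β) x) * Gs ℚ p (2 * (β : ℕ) + 1) l S z with hη
  set num : Fin k → Polynomial ℚ := fun x => ∑ β : Fin B, Polynomial.C (c (Sum.inr β) x) * ZEA_num B p β
    with hnum
  have h2 := case_two u hu f (8 * B * p) huD hf η a (2 * p - 1) (by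
      intro l hl
      have e : loc ℚ l f + ∑ x, loc ℚ l (u x) * η x l = loc ℚ l f +
          ∑ i ∈ I, PowerSeries.X ^ (i - 1) * loc ℚ l (v i) +
          ∑ β : Fin B, loc ℚ l (w β) * Gs ℚ p (2 * (β : ℕ) + 1) l S z := by
        rw [add_assoc]
        congr 1
        simp only [hη, mul_add, Finset.mul_sum]
        rw [Finset.sum_add_distrib]
        congr 1
        · rw [Finset.sum_comm, ← Finset.sum_coe_sort I]
          refine Finset.sum_congr rfl fun i _ => ?_
          have e2 : v i = ∑ z, Polynomial.C (c (Sum.inl i) z) * u z := hc (Sum.inl i)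
          rw [e2, map_sum, Finset.mul_sum]
          refine Finset.sum_congr rfl fun z _ => ?_
          rw [map_mul, ZEA_loc_C]
          ring
        · rw [Finset.sum_comm]
          refine Finset.sum_congr rfl fun β _ => ?_
          have e2 : w β = ∑ z, Polynomial.C (c (Sum.inr β) z) * u z := hc (Sum.inr β)
          rw [e2, map_sum, Finset.sum_mul]
          refine Finset.sum_congr rfl fun z _ => ?_
          rw [map_mul, ZEA_loc_C]
          ring
      rw [e]
      exact hrel l hl) (ZEA_den B p) (ZEA_den_ne_zero B p) num (by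
      intro x
      refine Polynomial.natDegree_sum_le_of_forall_le _ _ fun β _ => ?_
      exact (Polynomial.natDegree_C_mul_le _ _).trans (ZEA_natDegree_num B p β)) (by
      intro l hl x
      have e : η x l - η x (l + 1) = ∑ β : Fin B, PowerSeries.C (c (Sum.inr β) x) *
          (Gs ℚ p (2 * (β : ℕ) + 1) l S z - Gs ℚ p (2 * (β : ℕ) + 1) (l + 1) S z) := by
        simp only [hη, mul_sub, Finset.sum_sub_distrib]
        ring
      rw [e, Finset.mul_sum, hnum]
      simp only [map_sum]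
      refine Finset.sum_congr rfl fun β _ => ?_
      rw [map_mul, ZEA_loc_C, ← ZEA_shift B p l (by omega) S z β]
      ring)
  rcases h2 with ⟨α, hα⟩ | h2
  · have h3 := hα z1
    have h4 := ZEA_nonsum B p (fun β => c (Sum.inr β) z1) (α z1) (by
      rw [← h3, hnum]
      simp only [map_sum, map_mul, Finset.sum_div, mul_div_assoc])
    exact hz1 (congrFun h4 β1)
  · rw [ZEA_natDegree_den] at h2
    set N := Fintype.card (ZEA_J B) with hN
    have hkp : k < p := by
      calc k ≤ I.card + B := hk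
        _ ≤ (I.card + B) * (1 + N) := Nat.le_mul_of_pos_right _ (by omega)
        _ < p := hp
    have hkN : k * (1 + N) < p := (Nat.mul_le_mul_right _ hk).trans_lt hp
    have ha : 1 ≤ a := by
      have : 0 < 8 * B * (1 + I.card + B) := by positivity
      omega
    have e1 : 2 * p - 1 + 1 - k = p + (p - k) := by omega
    rw [e1] at h2
    have h5 : (k + 1) * (8 * B * p) ≤ a * p := by
      calc (k + 1) * (8 * B * p) = (8 * B * (k + 1)) * p := by ring
        _ ≤ (8 * B * (1 + I.card + B)) * p := by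
            apply Nat.mul_le_mul_right
            apply Nat.mul_le_mul_left
            omega
        _ ≤ a * p := Nat.mul_le_mul_right _ hm
    have h6 : a * (p - k) ≤ k * N := by
      have : a * (p + (p - k)) = a * p + a * (p - k) := by ring
      omega
    have h7 : p - k ≤ a * (p - k) := Nat.le_mul_of_pos_left _ ha
    have h8 : k * (1 + N) = k + k * N := by ring
    omega

/-! ### symmetry -/

theorem ZEA_resc_C (c : ℚ) : PowerSeries.rescale (-1 : ℚ) (PowerSeries.C c) = PowerSeries.C c := by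
  ext n
  rw [PowerSeries.coeff_rescale, PowerSeries.coeff_C]
  split_ifs with h
  · rw [h, pow_zero, one_mul]
  · rw [mul_zero]

theorem ZEA_resc_X : PowerSeries.rescale (-1 : ℚ) PowerSeries.X = -PowerSeries.X :=
  PowerSeries.rescale_neg_one_X

theorem ZEA_resc_yl (p l l' : ℕ) (h : l + l' + 1 = 2 * p) :
    PowerSeries.rescale (-1 : ℚ) (yl ℚ p l') = yl ℚ p l := by
  unfold yl
  rw [map_pow, map_add, map_mul, ZEA_resc_C, ZEA_resc_C, ZEA_resc_X]
  have h1 : (2 * (p : ℚ) - 1 - 2 * (l' : ℚ)) = -(2 * (p : ℚ) - 1 - 2 * (l : ℚ)) := by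
    have : ((l + l' + 1 : ℕ) : ℚ) = ((2 * p : ℕ) : ℚ) := by rw [h]
    push_cast at this
    linear_combination (-2 : ℚ) * this
  rw [h1, map_neg]
  ring

theorem ZEA_resc_ev (p l l' : ℕ) (h : l + l' + 1 = 2 * p) (f : Polynomial ℚ) :
    PowerSeries.rescale (-1 : ℚ) (ev ℚ p l' f) = ev ℚ p l f := by
  unfold ev
  rw [Polynomial.aeval_def, Polynomial.aeval_def, Polynomial.hom_eval₂, ZEA_resc_yl p l l' h]
  congr 1
  exact Subsingleton.elim _ _

theorem ZEA_resc_inv1 (c : ℚ) (hc : c ≠ 0) :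
    PowerSeries.rescale (-1 : ℚ) (PowerSeries.C c - PowerSeries.X)⁻¹ =
      (PowerSeries.C c + PowerSeries.X)⁻¹ := by
  rw [PowerSeries.eq_inv_iff_mul_eq_one (by simpa using hc)]
  have h1 : (PowerSeries.C c + PowerSeries.X : PowerSeries ℚ) =
      PowerSeries.rescale (-1 : ℚ) (PowerSeries.C c - PowerSeries.X) := by
    rw [map_sub, ZEA_resc_C, ZEA_resc_X]; ring
  rw [h1, ← map_mul, PowerSeries.inv_mul_cancel _ (by simpa using hc), map_one]

theorem ZEA_resc_inv2 (c : ℚ) (hc : c ≠ 0) :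
    PowerSeries.rescale (-1 : ℚ) (PowerSeries.C c + PowerSeries.X)⁻¹ =
      (PowerSeries.C c - PowerSeries.X)⁻¹ := by
  rw [PowerSeries.eq_inv_iff_mul_eq_one (by simpa using hc)]
  have h1 : (PowerSeries.C c - PowerSeries.X : PowerSeries ℚ) =
      PowerSeries.rescale (-1 : ℚ) (PowerSeries.C c + PowerSeries.X) := by
    rw [map_add, ZEA_resc_C, ZEA_resc_X]; ring
  rw [h1, ← map_mul, PowerSeries.inv_mul_cancel _ (by simpa using hc), map_one]

theorem ZEA_resc_Gs (a p b l l' : ℕ) (hb : 0 < b) (h : l + l' + 1 = 2 * p) (S : Finset ℕ)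
    (hS : S ⊆ oddS a) (z : ℕ → ℚ) :
    PowerSeries.rescale (-1 : ℚ) (Gs ℚ p b l' S z) = Gs ℚ p b l S z := by
  unfold Gs gs
  have e1 : 2 * p - 1 - l' = l := by omega
  have e2 : 2 * p - 1 - l = l' := by omega
  rw [e1, e2, map_sub, map_add, map_sum, map_sum, map_sum]
  have hb' : (b : ℚ) ≠ 0 := by positivity
  congr 1
  · refine Finset.sum_congr rfl fun i hi => ?_
    have := hS hi
    simp only [oddS, Finset.mem_filter, Finset.mem_Icc] at this
    rw [map_mul, map_pow, ZEA_resc_C, ZEA_resc_X, Even.neg_pow]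
    obtain ⟨m, hm⟩ := this.2
    exact ⟨m, by omega⟩
  · rw [add_comm]
    congr 1
    · refine Finset.sum_congr rfl fun k hk => ?_
      rw [Finset.mem_Icc] at hk
      have : (k : ℚ) ≠ 0 := by
        have : 0 < k := by omega
        positivity
      exact ZEA_resc_inv2 _ (div_ne_zero this hb')
    · refine Finset.sum_congr rfl fun k hk => ?_
      rw [Finset.mem_Icc] at hk
      have : (k : ℚ) ≠ 0 := by
        have : 0 < k := by omega
        positivity
      exact ZEA_resc_inv1 _ (div_ne_zero this hb')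

/-! ### the zero estimate -/

open Polynomial in
theorem ze_inj (a B : ℕ) (hB : 1 ≤ B) (I S : Finset ℕ) (z : ℕ → ℚ) (hI : I ⊆ oddS a)
    (hS : S ⊆ oddS a) (hRS : ∀ c ∈ I, 8 * B * (I.filter (c ≤ ·)).card ≤ a + 1 - c)
    (hm : 8 * B * (1 + I.card + B) ≤ a) :
    ∃ p0 : ℕ, ∀ p ≥ p0, ∀ (f0 : ℚ[X]) (q P : ℕ → ℚ[X]), f0 ∈ degreeLT ℚ (4 * B * p) →
      (∀ i ∈ I, q i ∈ degreeLT ℚ (4 * B * p)) → (∀ β < B, P β ∈ degreeLT ℚ (4 * B * p)) →
      (∀ l < p, (PowerSeries.X : PowerSeries ℚ) ^ a ∣ ev ℚ p l f0 +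
        ∑ i ∈ I, PowerSeries.X ^ (i - 1) * ev ℚ p l (q i) +
        ∑ β ∈ range B, ev ℚ p l (P β) * Gs ℚ p (2 * β + 1) l S z) →
      f0 = 0 ∧ (∀ i ∈ I, q i = 0) ∧ ∀ β < B, P β = 0 := by
  classical
  refine ⟨(I.card + B) * (1 + Fintype.card (ZEA_J B)) + I.card + 2, ?_⟩
  intro p hp f0 q P hf0 hq hP hrel
  have hp0 : 0 < p := by omega
  have hodd : ∀ i ∈ oddS a, 3 ≤ i ∧ i ≤ a ∧ Odd i := by
    intro i hi
    simp only [oddS, Finset.mem_filter, Finset.mem_Icc] at hi
    exact ⟨hi.1.1, hi.1.2, hi.2⟩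
  -- all poles
  have hall : ∀ l ≤ 2 * p - 1, (PowerSeries.X : PowerSeries ℚ) ^ a ∣ ev ℚ p l f0 +
        ∑ i ∈ I, PowerSeries.X ^ (i - 1) * ev ℚ p l (q i) +
        ∑ β ∈ range B, ev ℚ p l (P β) * Gs ℚ p (2 * β + 1) l S z := by
    intro l hl
    rcases lt_or_ge l p with h | h
    · exact hrel l h
    · have hs : l + (2 * p - 1 - l) + 1 = 2 * p := by omega
      have h1 := hrel (2 * p - 1 - l) (by omega)
      have h2 := map_dvd (PowerSeries.rescale (-1 : ℚ)) h1
      rw [map_pow, ZEA_resc_X, map_add, map_add, map_sum, map_sum, ZEA_resc_ev p l _ hs] at h2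
      have h3 : ∑ i ∈ I, PowerSeries.rescale (-1 : ℚ)
          (PowerSeries.X ^ (i - 1) * ev ℚ p (2 * p - 1 - l) (q i)) =
          ∑ i ∈ I, PowerSeries.X ^ (i - 1) * ev ℚ p l (q i) := by
        refine Finset.sum_congr rfl fun i hi => ?_
        have := hodd i (hI hi)
        rw [map_mul, map_pow, ZEA_resc_X, ZEA_resc_ev p l _ hs, Even.neg_pow]
        obtain ⟨m, hm⟩ := this.2.2
        exact ⟨m, by omega⟩
      have h4 : ∑ β ∈ range B, PowerSeries.rescale (-1 : ℚ)
          (ev ℚ p (2 * p - 1 - l) (P β) * Gs ℚ p (2 * β + 1) (2 * p - 1 - l) S z) =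
          ∑ β ∈ range B, ev ℚ p l (P β) * Gs ℚ p (2 * β + 1) l S z := by
        refine Finset.sum_congr rfl fun β _ => ?_
        rw [map_mul, ZEA_resc_ev p l _ hs, ZEA_resc_Gs a p _ l _ (by omega) hs S hS]
      rw [h3, h4] at h2
      refine Dvd.dvd.trans ?_ h2
      rw [neg_pow]
      exact Dvd.intro_left _ rfl
  -- Case 2
  have hc2 := ZEA_case2 a B p hB I S z hm (by omega) (f0.comp (ZEA_T p))
    (fun i => (q i).comp (ZEA_T p)) (fun β => (P β).comp (ZEA_T p))
    (by have := ZEA_natDegree_le (p := p) hf0; linarith)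
    (fun i hi => by have := ZEA_natDegree_le (p := p) (hq i hi); linarith)
    (fun β => by have := ZEA_natDegree_le (p := p) (hP β β.2); linarith)
    (by
      intro l hl
      have h1 := hall l hl
      simp only [ZEA_loc_comp]
      rw [Finset.sum_range] at h1
      exact h1)
  have hP0 : ∀ β < B, P β = 0 := fun β hβ => ZEA_comp_eq_zero (hc2 ⟨β, hβ⟩)
  -- Case 1
  have h1I : 1 ∉ I := fun h => by have := hodd 1 (hI h); omega
  have hc1 := ZEA_case1 a B p hB I hI hRS hm (by omega)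
    (fun i => if i = 1 then f0.comp (ZEA_T p) else (q i).comp (ZEA_T p))
    (by
      intro i hi
      split_ifs with h
      · have := ZEA_natDegree_le (p := p) hf0; linarith
      · have := ZEA_natDegree_le (p := p) (hq i ((Finset.mem_insert.1 hi).resolve_left h)); linarith)
    (by
      intro l hl
      have h1 := hall l hl
      rw [Finset.sum_insert h1I]
      have h2 : ∑ i ∈ I, PowerSeries.X ^ (i - 1) *
          loc ℚ l (if i = 1 then f0.comp (ZEA_T p) else (q i).comp (ZEA_T p)) =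
          ∑ i ∈ I, PowerSeries.X ^ (i - 1) * ev ℚ p l (q i) := by
        refine Finset.sum_congr rfl fun i hi => ?_
        have hne : i ≠ 1 := fun h => h1I (h ▸ hi)
        rw [if_neg hne, ZEA_loc_comp]
      have h3 : ∑ β ∈ range B, ev ℚ p l (P β) * Gs ℚ p (2 * β + 1) l S z = 0 := by
        refine Finset.sum_eq_zero fun β hβ => ?_
        rw [hP0 β (Finset.mem_range.1 hβ), ev, map_zero, zero_mul]
      rw [h3, add_zero] at h1
      rw [h2, if_pos rfl, Nat.sub_self, pow_zero, one_mul, ZEA_loc_comp]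
      exact h1)
  refine ⟨?_, ?_, hP0⟩
  · have := hc1 1 (Finset.mem_insert_self _ _)
    rw [if_pos rfl] at this
    exact ZEA_comp_eq_zero this
  · intro i hi
    have hne : i ≠ 1 := fun h => h1I (h ▸ hi)
    have := hc1 i (Finset.mem_insert_of_mem hi)
    rw [if_neg hne] at this
    exact ZEA_comp_eq_zero this

end Pool.Agent.ZC
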