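import Pool.Agent.ZC.VDEF
import Pool.Agent.ZC.ZEA
import Pool.Agent.ZC.ZEB
import Pool.Agent.ZC.ZE4

/-! # ZC, subspace version: the zero estimate -/

namespace Pool.Agent.ZC

open Finset

theorem VZE_sg_cs (a b : ℕ) (S : Finset ℕ) (c : ℕ → ℚ) (hS : S ⊆ oddS a) :
    PowerSeries.evalNegHom (cs ℚ b S c) = cs ℚ b S c := by
  rw [cs, map_sum]
  refine sum_congr rfl fun i hi => ?_
  rw [map_mul, sg_C, sg_X_pow (Finset.mem_filter.1 (hS hi)).2]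

open Polynomial in
/-- no rising sun condition: only the functionals are shown to vanish -/
theorem vze (a B κ : ℕ) (hB : 1 ≤ B) (I S : Finset ℕ) (z : ℕ → ℚ) (c : ℕ → Fin κ → ℚ)
    (hI : I ⊆ oddS a) (hS : S ⊆ oddS a) (hm : 8 * B * (1 + I.card + (κ + 1) * B) ≤ a) :
    ∃ p0 : ℕ, ∀ p ≥ p0, ∀ (f0 : ℚ[X]) (q P : ℕ → ℚ[X]) (R : ℕ → Fin κ → ℚ[X]),
      f0 ∈ degreeLT ℚ (4 * B * p) → (∀ i ∈ I, q i ∈ degreeLT ℚ (4 * B * p)) →
      (∀ β < B, P β ∈ degreeLT ℚ (4 * B * p)) → (∀ β < B, ∀ k, R β k ∈ degreeLT ℚ (4 * B * p)) →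
      (∀ l < p, (PowerSeries.X : PowerSeries ℚ) ^ a ∣ ev ℚ p l f0 +
        ∑ i ∈ I, PowerSeries.X ^ (i - 1) * ev ℚ p l (q i) +
        ∑ β ∈ range B, ∑ k, ev ℚ p l (R β k) * cs ℚ (2 * β + 1) S (fun i => c i k) +
        ∑ β ∈ range B, ev ℚ p l (P β) * Gs ℚ p (2 * β + 1) l S z) →
      ∀ β < B, P β = 0 := by
  have hψ : ∀ j : I ⊕ (Fin B × Fin κ), PowerSeries.evalNegHom
      (Sum.elim (fun i : I => (PowerSeries.X : PowerSeries ℚ) ^ ((i : ℕ) - 1))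
        (fun y : Fin B × Fin κ => cs ℚ (2 * (y.1 : ℕ) + 1) S (fun i => c i y.2)) j) =
      Sum.elim (fun i : I => (PowerSeries.X : PowerSeries ℚ) ^ ((i : ℕ) - 1))
        (fun y : Fin B × Fin κ => cs ℚ (2 * (y.1 : ℕ) + 1) S (fun i => c i y.2)) j := by
    rintro (i | y)
    · exact sg_X_pow (Finset.mem_filter.1 (hI i.2)).2
    · exact VZE_sg_cs a _ S _ hS
  have hθ : ∀ β : ℕ, PowerSeries.evalNegHom (cs ℚ (2 * β + 1) S z) = cs ℚ (2 * β + 1) S z :=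
    fun β => VZE_sg_cs a _ S _ hS
  have hm' : 8 * B * (0 + 1) * (1 + Fintype.card (I ⊕ (Fin B × Fin κ)) + B) ≤ a := by
    refine le_trans (le_of_eq ?_) hm
    simp only [Fintype.card_sum, Fintype.card_coe, Fintype.card_prod, Fintype.card_fin]
    ring
  obtain ⟨p0, hp0⟩ := ze_funct (K := ℚ) a B 0 hB (by decide) _ hψ _ hθ hm'
  refine ⟨p0, fun p hp f0 q P R hf0 hq hP hR hrel => ?_⟩
  have hn : 4 * B * (0 + 1) * p = 4 * B * p := by ring
  refine hp0 p hp f0 (Sum.elim (fun i : I => q i) (fun y : Fin B × Fin κ => R (y.1 : ℕ) y.2)) P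
    (by rw [hn]; exact hf0) ?_ (by rw [hn]; exact hP) ?_
  · rintro (i | y)
    · rw [hn]; exact hq i i.2
    · rw [hn]; exact hR y.1 y.1.2 y.2
  · intro l hl
    have h1 := hrel l hl
    have e1 : ∑ i ∈ I, PowerSeries.X ^ (i - 1) * ev ℚ p l (q i) =
        ∑ i : I, (PowerSeries.X : PowerSeries ℚ) ^ ((i : ℕ) - 1) * ev ℚ p l (q i) :=
      (Finset.sum_coe_sort I (fun i => (PowerSeries.X : PowerSeries ℚ) ^ (i - 1) * ev ℚ p l (q i))).symm
    have e2 : ∑ β ∈ range B, ∑ k, ev ℚ p l (R β k) * cs ℚ (2 * β + 1) S (fun i => c i k) =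
        ∑ y : Fin B × Fin κ, cs ℚ (2 * (y.1 : ℕ) + 1) S (fun i => c i y.2) *
          ev ℚ p l (R (y.1 : ℕ) y.2) := by
      rw [Fintype.sum_prod_type, Finset.sum_range]
      exact sum_congr rfl fun β _ => sum_congr rfl fun k _ => mul_comm _ _
    have e3 : ∀ β : ℕ, Gs ℚ p (2 * β + 1) l S z =
        cs ℚ (2 * β + 1) S z - gsh ℚ p (2 * β + 1) 0 l := by
      intro β; rw [gsh_zero]; rfl
    rw [e1, e2] at h1
    simp only [e3] at h1
    rw [Fintype.sum_sum_type]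
    simp only [Sum.elim_inl, Sum.elim_inr]
    rw [← add_assoc]
    exact h1

end Pool.Agent.ZC
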